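import Pool.Agent.K9h30.CP.Stm

/-!
Leaf CP-AUT (helper14): a sequence given by the explicit formula is automatic and bounded; automatic sequences of
valuations are bounded; the coefficients are positive.
-/

set_option autoImplicit false

open PowerSeries Finset
open Pool.Agent.Results.MP_9acee6_nt.Four (S V Automatic geom)

namespace Pool.Agent.K9h30.CP

lemma val_add {p i j : ℕ} (hp : p.Prime) (n : ℕ) (hj : 1 ≤ j) (hji : j < p ^ i) :
    padicValNat p (p ^ i * n + j) = padicValNat p j := by
  haveI := Fact.mk hp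
  have h1 : ∀ t, p ^ t ∣ p ^ i * n + j ↔ p ^ t ∣ j := by
    intro t
    rcases le_total t i with h | h
    · exact (Nat.dvd_add_right ((pow_dvd_pow p h).mul_right n))
    · constructor
      · intro hd
        exfalso
        have h2 : p ^ i ∣ p ^ i * n + j := (pow_dvd_pow p h).trans hd
        have h3 : p ^ i ∣ j := (Nat.dvd_add_right (Nat.dvd_mul_right _ _)).1 h2
        exact absurd (Nat.le_of_dvd hj h3) (not_le.2 hji)
      · intro hd
        exfalso
        have h3 : p ^ i ∣ j := (pow_dvd_pow p h).trans hd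
        exact absurd (Nat.le_of_dvd hj h3) (not_le.2 hji)
  have hj0 : j ≠ 0 := by omega
  have hs0 : p ^ i * n + j ≠ 0 := by omega
  apply le_antisymm
  · exact (padicValNat_dvd_iff_le hj0).1 ((h1 _).1 pow_padicValNat_dvd)
  · exact (padicValNat_dvd_iff_le hs0).1 ((h1 _).2 pow_padicValNat_dvd)

theorem aut : S_AUT := by
  intro p a c e hp ha he0 he
  haveI := Fact.mk hp
  classical
  have hap : 0 < a := ha
  constructor
  · have hfin := Finset.finite_toSet (((range a).image fun r => (fun _ : ℕ => ((c - r : ℕ) : ℕ∞))) ∪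
        ((range a).image fun r => (fun n : ℕ => if n = 0 then (0 : ℕ∞) else
          ((c - (r + padicValNat p n) % a : ℕ) : ℕ∞))))
    refine Set.Finite.subset hfin ?_
    rintro _ ⟨i, j, hj, rfl⟩
    rw [Finset.mem_coe, Finset.mem_union, Finset.mem_image, Finset.mem_image]
    rcases Nat.eq_zero_or_pos j with rfl | hj0
    · refine Or.inr ⟨i % a, mem_range.2 (Nat.mod_lt _ hap), ?_⟩
      funext n
      rcases Nat.eq_zero_or_pos n with rfl | hn
      · simp [he0]
      · have hpi : 0 < p ^ i := pow_pos hp.pos i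
        have h1 : 1 ≤ p ^ i * n + 0 := by
          rw [Nat.add_zero]
          exact Nat.mul_pos hpi hn
        rw [if_neg (by omega), he _ h1, Nat.add_zero, padicValNat.mul hpi.ne' (by omega),
          padicValNat.prime_pow, Nat.mod_add_mod]
    · refine Or.inl ⟨padicValNat p j % a, mem_range.2 (Nat.mod_lt _ hap), ?_⟩
      funext n
      have h1 : 1 ≤ p ^ i * n + j := by omega
      rw [he _ h1, val_add hp n hj0 hj]
  · refine ⟨c, fun n => ?_⟩
    rcases Nat.eq_zero_or_pos n with rfl | hn
    · rw [he0]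
      exact bot_le
    · rw [he n hn]
      exact_mod_cast Nat.sub_le _ _

lemma S_pos (k : ℕ) {m : ℕ} (h0 : 0 < m) (n : ℕ) : 0 < S k m n := by
  let N (B : ℤ⟦X⟧) := (∀ n, 0 ≤ coeff n B) ∧ 0 < coeff 0 B
  have h1 (a b) (ha : N a) (hb : N b) : N (a * b) := ⟨fun n => by
    rw [coeff_mul]; exact sum_nonneg fun p _ => mul_nonneg (ha.1 _) (hb.1 _),
    by simpa using mul_pos ha.2 hb.2⟩
  have h2 : N 1 := ⟨fun n => by rw [coeff_one]; split_ifs <;> simp, by simp⟩
  have h3 (d k) : N (geom d ^ k) := by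
    induction k with
    | zero => exact h2
    | succ k ih =>
      exact h1 _ _ ih ⟨fun n => by rw [geom, coeff_mk]; split_ifs <;> simp, by simp [geom]⟩
  obtain ⟨m, rfl⟩ := Nat.exists_eq_add_of_le' h0
  have h4 := h1 _ _ (h3 1 m) (prod_induction _ N h1 h2 (s := range (n + 1))
    fun i _ => h3 (k ^ i) ((m + 1) * (k - 1)))
  rw [S, pow_succ', mul_assoc, coeff_mul]
  exact sum_pos' (fun p _ => by simpa [geom] using h4.1 _)
    ⟨(n, 0), by simp, by simpa [geom] using h4.2⟩

lemma S_zero (k m : ℕ) : S k m 0 = 1 := by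
  have h1 : ∀ d, constantCoeff (geom d) = 1 := by
    intro d
    rw [← coeff_zero_eq_constantCoeff_apply, geom, coeff_mk, if_pos (dvd_zero d)]
  rw [S, coeff_zero_eq_constantCoeff_apply, map_mul, map_pow, map_prod, h1, one_pow, one_mul]
  exact prod_eq_one fun i _ => by rw [map_pow, h1, one_pow]

theorem ab : S_AB := by
  intro p a m hp ha hm
  refine ⟨fun n => S_pos _ hm n, S_zero _ _, fun h => ?_⟩
  obtain ⟨B, hB⟩ := (h.image fun f => (f 0).toNat).bddAbove
  refine ⟨B, fun n => ?_⟩
  have : V p a m n ≠ ⊤ := finiteMultiplicity_iff_emultiplicity_ne_top.1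
    (Int.finiteMultiplicity_iff.2 ⟨by simpa using hp.one_lt.ne', (S_pos _ hm n).ne'⟩)
  rw [← ENat.natCast_toNat this, Nat.cast_le]
  exact hB ⟨_, ⟨n, n, Nat.lt_pow_self hp.one_lt, rfl⟩, by simp⟩

end Pool.Agent.K9h30.CP
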