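import Pool.Agent.K9h30.CP.Stm3
import Pool.Agent.K9h30.CP.Aut

/-!
# MP_9acee6_nt, leaf AUT2 (helper14)
-/

set_option autoImplicit false

open PowerSeries Finset
open Pool.Agent.Results.MP_9acee6_nt.Four (S V Automatic geom)

namespace Pool.Agent.K9h30.CP

lemma per_mul {F : ℕ → ℕ} {a : ℕ} (h : ∀ s, a ≤ s → F (s + a) = F s) (s q : ℕ) (hs : a ≤ s) :
    F (s + a * q) = F s := by
  induction q with
  | zero => simp
  | succ q ih =>
    have e : s + a * (q + 1) = (s + a * q) + a := by ring
    rw [e, h _ (by omega), ih]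

/-- the representative of `i` below `2 a` -/
def red2 (a i : ℕ) : ℕ := if i < a then i else a + (i - a) % a

lemma red2_lt {a : ℕ} (ha : 1 ≤ a) (i : ℕ) : red2 a i < 2 * a := by
  unfold red2
  split_ifs with h
  · omega
  · have := Nat.mod_lt (i - a) ha
    omega

lemma red2_eq {F : ℕ → ℕ} {a : ℕ} (h : ∀ s, a ≤ s → F (s + a) = F s) (i t : ℕ) :
    F (i + t) = F (red2 a i + t) := by
  unfold red2
  split_ifs with hi
  · rfl
  · have h1 := Nat.mod_add_div (i - a) a
    have h2 : i + t = (a + (i - a) % a + t) + a * ((i - a) / a) := by omega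
    conv_lhs => rw [h2]
    exact per_mul h _ _ (by omega)

theorem aut2 : S_AUT2 := by
  intro p a F e hp ha he0 hF he
  haveI := Fact.mk hp
  classical
  constructor
  · have hfin := Finset.finite_toSet (((range (2 * a)).image fun r => (fun _ : ℕ => ((F r : ℕ) : ℕ∞))) ∪
        ((range (2 * a)).image fun r => (fun n : ℕ => if n = 0 then (0 : ℕ∞) else
          ((F (r + padicValNat p n) : ℕ) : ℕ∞))))
    refine Set.Finite.subset hfin ?_
    rintro _ ⟨i, j, hj, rfl⟩
    rw [Finset.mem_coe, Finset.mem_union, Finset.mem_image, Finset.mem_image]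
    rcases Nat.eq_zero_or_pos j with rfl | hj0
    · refine Or.inr ⟨red2 a i, mem_range.2 (red2_lt ha i), ?_⟩
      funext n
      rcases Nat.eq_zero_or_pos n with rfl | hn
      · simp [he0]
      · have hpi : 0 < p ^ i := pow_pos hp.pos i
        have h1 : 1 ≤ p ^ i * n + 0 := by
          rw [Nat.add_zero]
          exact Nat.mul_pos hpi hn
        rw [if_neg (by omega), he _ h1, Nat.add_zero, padicValNat.mul hpi.ne' (by omega),
          padicValNat.prime_pow, red2_eq hF i]
    · refine Or.inl ⟨red2 a (padicValNat p j), mem_range.2 (red2_lt ha _), ?_⟩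
      funext n
      have h1 : 1 ≤ p ^ i * n + j := by omega
      have h2 := red2_eq hF (padicValNat p j) 0
      rw [Nat.add_zero, Nat.add_zero] at h2
      rw [he _ h1, val_add hp n hj0 hj, h2]
  · refine ⟨∑ r ∈ range (2 * a), F r, fun n => ?_⟩
    rcases Nat.eq_zero_or_pos n with rfl | hn
    · rw [he0]
      exact bot_le
    · rw [he n hn]
      have h2 := red2_eq hF (padicValNat p n) 0
      rw [Nat.add_zero, Nat.add_zero] at h2
      rw [h2]
      exact_mod_cast single_le_sum (f := F) (fun _ _ => Nat.zero_le _) (mem_range.2 (red2_lt ha _))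

end Pool.Agent.K9h30.CP
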