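import Pool.Agent.K9h30.CP.Form

/-!
# MP_9acee6_nt: the base case for `a ≥ 1` (helper30)
-/

set_option autoImplicit false

open PowerSeries Finset
open Pool.Agent.Results.MP_9acee6_nt.Four (S V Automatic geom)

namespace Pool.Agent.K9h30.CP

theorem S_dvd1 (fe : S_FUN) (rr : S_RR) (p a v μ : ℕ) (hp : p.Prime) (hp2 : p ≠ 2) (ha : 1 ≤ a)
    (hμ : 1 ≤ μ) (hμp : ¬ p ∣ μ) : ∀ j, 1 ≤ j → (p : ℤ) ^ (v + 1) ∣ S (p ^ a) (p ^ v * μ) j := by
  intro j
  have hk : 2 ≤ p ^ a := by
    calc 2 ≤ p := hp.two_le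
      _ = p ^ 1 := (pow_one p).symm
      _ ≤ p ^ a := Nat.pow_le_pow_right hp.pos (by omega)
  induction j using Nat.strong_induction_on with
  | _ j ih =>
    intro hj
    have h := fe (p ^ a) (p ^ v * μ) hk
    have h1 : S (p ^ a) (p ^ v * μ) j = coeff j (ser (p ^ a) (p ^ v * μ)) := by simp [ser]
    rw [h1, h, coeff_mul]
    apply dvd_sum
    rintro ⟨x, y⟩ hxy
    rw [HasAntidiagonal.mem_antidiagonal] at hxy
    simp only at hxy ⊢
    rcases Nat.eq_zero_or_pos x with rfl | hx
    · apply Dvd.dvd.mul_left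
      rw [zero_add] at hxy
      subst hxy
      simp only [ex, coeff_mk, ser]
      split_ifs with hd
      · obtain ⟨c, rfl⟩ := hd
        have hc : 1 ≤ c := by
          rcases Nat.eq_zero_or_pos c with rfl | h
          · simp at hj
          · exact h
        rw [Nat.mul_div_cancel_left _ (by omega)]
        apply ih _ _ hc
        nlinarith
      · exact dvd_zero _
    · apply Dvd.dvd.mul_right
      exact (rr p a v μ x hp hp2 (by omega) hμ hμp hx).1

/-- the base case -/
theorem S_base1 (fe : S_FUN) (rr : S_RR) (p a v μ : ℕ) (hp : p.Prime) (hp2 : p ≠ 2) (ha : 1 ≤ a)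
    (hμ : 1 ≤ μ) (hμp : ¬ p ∣ μ) (t : ℕ) (ht : 1 ≤ t) (hk : ¬ p ^ a ∣ t) :
    ∃ c : ℤ, (p : ℤ) ∣ (t / p ^ padicValNat p t : ℕ) * c - μ ∧
      (p : ℤ) ^ (a - padicValNat p t + v + 1) ∣
        S (p ^ a) (p ^ v * μ) t - (p : ℤ) ^ (a - padicValNat p t + v) * c := by
  have := Fact.mk hp
  have hk2 : 2 ≤ p ^ a := by
    calc 2 ≤ p := hp.two_le
      _ = p ^ 1 := (pow_one p).symm
      _ ≤ p ^ a := Nat.pow_le_pow_right hp.pos (by omega)
  obtain ⟨c, hc, hc2⟩ := (rr p a v μ t hp hp2 (by omega) hμ hμp ht).2 hk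
  refine ⟨c, hc2, ?_⟩
  have h := fe (p ^ a) (p ^ v * μ) hk2
  have h1 : S (p ^ a) (p ^ v * μ) t = coeff t (ser (p ^ a) (p ^ v * μ)) := by simp [ser]
  rw [hc, h1]
  nth_rewrite 1 [h]
  rw [← map_sub]
  have e : ∀ R E : ℤ⟦X⟧, R * E - R = R * (E - 1) := fun R E => by ring
  rw [e, coeff_mul]
  apply dvd_sum
  rintro ⟨x, y⟩ hxy
  rw [HasAntidiagonal.mem_antidiagonal] at hxy
  simp only at hxy ⊢
  rcases Nat.eq_zero_or_pos y with rfl | hy
  · have : coeff 0 (ex (p ^ a) (ser (p ^ a) (p ^ v * μ)) - 1) = 0 := by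
      simp [ex, ser, S_zero]
    rw [this, mul_zero]
    exact dvd_zero _
  · have h0 : coeff y (1 : ℤ⟦X⟧) = 0 := by rw [coeff_one, if_neg (by omega)]
    rw [map_sub, h0, sub_zero]
    simp only [ex, coeff_mk, ser]
    split_ifs with hd
    · obtain ⟨i, rfl⟩ := hd
      rw [Nat.mul_div_cancel_left _ (by omega)]
      have hi : 1 ≤ i := by
        rcases Nat.eq_zero_or_pos i with rfl | h
        · simp at hy
        · exact h
      have hx : ¬ p ^ a ∣ x := by
        intro hx
        apply hk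
        rw [← hxy]
        exact dvd_add hx (dvd_mul_right _ _)
      have hx0 : x ≠ 0 := by rintro rfl; exact hx (dvd_zero _)
      have hs : padicValNat p t < a := by
        by_contra hcon
        exact hk ((padicValNat_dvd_iff_le (by omega)).mpr (by omega))
      have hval : padicValNat p x = padicValNat p t := by
        apply le_antisymm
        · by_contra hcon
          have h2 : p ^ (padicValNat p t + 1) ∣ x :=
            (padicValNat_dvd_iff_le hx0).mpr (by omega)
          have h3 : p ^ (padicValNat p t + 1) ∣ p ^ a * i :=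
            (pow_dvd_pow p (by omega)).trans (dvd_mul_right _ _)
          have h4 : p ^ (padicValNat p t + 1) ∣ x + p ^ a * i := dvd_add h2 h3
          rw [hxy] at h4
          have := (padicValNat_dvd_iff_le (by omega)).mp h4
          omega
        · have h4 : p ^ (padicValNat p t) ∣ x + p ^ a * i := by
            rw [hxy]; exact pow_padicValNat_dvd
          have h3 : p ^ (padicValNat p t) ∣ p ^ a * i :=
            (pow_dvd_pow p (by omega)).trans (dvd_mul_right _ _)
          exact (padicValNat_dvd_iff_le hx0).mp ((Nat.dvd_add_left h3).mp h4)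
      obtain ⟨c', hc', -⟩ := (rr p a v μ x hp hp2 (by omega) hμ hμp (by omega)).2 hx
      rw [hval] at hc'
      have h5 := S_dvd1 fe rr p a v μ hp hp2 ha hμ hμp i hi
      rw [← hc']
      have h6 : (p : ℤ) ∣ S (p ^ a) (p ^ v * μ) i := (dvd_pow_self _ (by omega)).trans h5
      rw [pow_succ]
      exact mul_dvd_mul (dvd_mul_right _ _) h6
    · rw [mul_zero]; exact dvd_zero _

/-- the sum formula for `S_(kt)` -/
theorem S_step1 (dig : S_DIG) (p a m t : ℕ) (hp : p.Prime) (ha : 1 ≤ a) :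
    S (p ^ a) m (p ^ a * t) = S (p ^ a) m t + coeff t (run p a m (fun _ => 0) a - 1) +
      coeff t ((run p a m (fun _ => 0) a - 1) * (ser (p ^ a) m - 1)) := by
  rw [(dig p a m hp ha).2 t]
  have h1 : S (p ^ a) m t = coeff t (ser (p ^ a) m) := by simp [ser]
  rw [h1, ← map_add, ← map_add]
  congr 1
  ring

end Pool.Agent.K9h30.CP
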