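import Pool.Agent.K9h30.CP.Stm4

/-!
# MP_9acee6_nt: `p ≥ 5`, also `m ≡ -1 mod p`: further statements (helper30)
-/

set_option autoImplicit false

open PowerSeries Finset
open Pool.Agent.Results.MP_9acee6_nt.Four (S V Automatic geom)

namespace Pool.Agent.K9h30.CP

/-- `R = ((1 - x^k) / (1 - x)^k)^m`, `k = p^a` -/
noncomputable def Rkp (p a m : ℕ) : ℤ⟦X⟧ := ((1 - X ^ p ^ a) * y ^ p ^ a) ^ m

/-- SECp: `a` digits at once (as `S_SEC`) -/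
def S_SECp : Prop := ∀ (p a m : ℕ) (b : ℕ → ℕ), p.Prime → 1 ≤ a → (∀ i, b i < p) → ∀ t,
  coeff t (run p a m b a) = coeff (p ^ a * t + ∑ l ∈ range a, b l * p ^ l) (Rkp p a m)

/-- TWp (as `S_TW`) -/
def S_TWp : Prop := ∀ p a N t : ℕ, p.Prime → p ≠ 2 → 1 ≤ a → 1 ≤ N →
  coeff (p ^ a * t) (Rkp p a (N - 1)) = coeff (p ^ a * t) (Rkp p a N) +
    ∑ i ∈ Ico 1 (p ^ a), (-1) ^ i * ((p ^ a).choose i : ℤ) *
      ∑ s ∈ range t, coeff (p ^ a * s + (p ^ a - i)) (Rkp p a N)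

/-- UBp: sections at `b ≠ 0`. After the `s = v_p(b)` zero digits the series is `1 + E`,
`E ∈ CLp (2(l+a-s)+3)` (lemma `chainp` in UnbP.lean), then the digit `b_s ≠ 0`, `M = N p^(a-1-s)`,
`G^M - 1 ∈ CLp (l+a-s)`: the result is in `CLp (l+a-s+1)` with values divisible by `p^(l+a-s)`, and this is kept by
the remaining digits (`clgp` with `e = l+a-s`, `v ≥ 1`). -/
def S_UBp : Prop := ∀ p a N l b : ℕ, p.Prime → 5 ≤ p → 1 ≤ a → 1 ≤ l → 1 ≤ N → p ^ l ∣ N →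
  0 < b → b < p ^ a →
  CLp p (l + (a - padicValNat p b) + 1) (fun t => coeff (p ^ a * t + b) (Rkp p a N)) ∧
  (p : ℤ) ^ (l + (a - padicValNat p b)) ∣ coeff b (Rkp p a N)

/-- UB2p: the sections at `c p^(a-1)` -/
def S_UB2p : Prop := ∀ p a N l c : ℕ, p.Prime → 5 ≤ p → 1 ≤ a → 1 ≤ l → 1 ≤ N → p ^ l ∣ N →
  0 < c → c < p →
  CLp p (2 * l + 5) (fun t => coeff (p ^ a * t + c * p ^ (a - 1)) (Rkp p a N) -
    coeff (p * t + c) (P1 p ^ N)) ∧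
  (p : ℤ) ^ (2 * l + 5) ∣ coeff (c * p ^ (a - 1)) (Rkp p a N) - coeff c (P1 p ^ N)

/-- GB2: `S_GB` with `log_p (j+1)` instead of `log_p j` (there is room for `j ≥ 3`) -/
def S_GB2 : Prop := ∀ p v M b : ℕ, p.Prime → 5 ≤ p → 1 ≤ v → p ^ v ∣ M → 0 < b → b < p →
  ∀ j, 2 ≤ j → (p : ℤ) ^ (v + 3 + Nat.log p (j + 1)) ∣ mu j (fun t => coeff (p * t + b) (P1 p ^ M))

/-- LINC2: `S_LINC` with the factor `M + 1`: with `g(x) = ∑_(i≥1) p^i e_i x^(i-1)`,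
`c = coeff 1 (U_0(G^M)) = M^2 g(M)`, `g(-1) = 0`, so `g(x) = (x+1) k(x)`, `k_0 = p e_1`, `k_i = p^(i+1) e_(i+1) - k_(i-1)`,
`2 k_0 ≡ W mod p^4` (`W = binom(2p-1,p-1) - 1`), `k_i ≡ 0 mod p^4` for `i ≥ 1` -/
def S_LINC2 : Prop := ∀ p e M : ℕ, p.Prime → 5 ≤ p → 1 ≤ M → p ^ e ∣ M ^ 2 * (M + 1) →
  (p : ℤ) ^ (e + 4) ∣ 2 * coeff 1 (U p 0 (P1 p ^ M)) -
    (((2 * p - 1).choose (p - 1) : ℕ) - 1 : ℤ) * M ^ 2 * (M + 1)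

/-- BIN: `binom(p^a, j p^(a-1)) ≡ binom(p, j) mod p^3`, e.g. `binom(pn, pk) ≡ binom(n, k) mod p^3 binom(n,k)` (Ljunggren);
or from `U0`: `(1-x)^(pn) = G^(-n) (1-x^p)^n`, so `U_0((1-x)^(pn)) ≡ (1-x)^n U_0(G^(p^K-n)) mod p^(K+1)`. -/
def S_BIN : Prop := ∀ p a j : ℕ, p.Prime → 5 ≤ p → 1 ≤ a → 0 < j → j < p →
  (p : ℤ) ^ 3 ∣ ((p ^ a).choose (j * p ^ (a - 1)) : ℤ) - (p.choose j : ℤ)

/-- INIp2: `S_INIp` with the factor `M + 1`. If `p ∣ M` or `p ∤ M + 1` this is `S_INIp` (`e ≤ 2 v_p(M)`). Else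
`N = M + 1`, `p^e ∣ N`, TWp for `a = 1` (`Rkp p 1 N = P1 p ^ N`):
`U_0(G^M)_t = U_0(G^N)_t + F(t)`, `F(t) = ∑_(0<i<p) (-1)^i binom(p,i) ∑_(s<t) h(ps+p-i)`, `h = coeffs of G^N`,
`U_0(G^N) - 1 ∈ CLp (2e+3)` (`UG` in UnbP.lean), `mu (j+1) F = mu j (s ↦ ∑ (-1)^i binom(p,i) h(ps+p-i))`: `j ≥ 2` by GB2;
`j = 1` (`mu 2`) by RR2: `h(2p-i) - h(p-i) ≡ - p^2 N / i^2 mod p^(e+3)`, `binom(p,i) ≡ (-1)^(i-1) p / i mod p^2`,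
`∑_(0<i<p) 1/i^3 ≡ 0 mod p`. -/
def S_INIp2 : Prop := ∀ p e M : ℕ, p.Prime → 5 ≤ p → 1 ≤ M → p ^ e ∣ M ^ 2 * (M + 1) →
  CLp p (e + 4) fun t => coeff t (U p 0 (P1 p ^ M) - 1) - coeff 1 (U p 0 (P1 p ^ M)) * t

/-- BLKp2 -/
def S_BLKp2 : Prop := ∀ p a m e : ℕ, p.Prime → 5 ≤ p → 1 ≤ a → 1 ≤ m → p ^ e ∣ m ^ 2 * (m + 1) →
  (CLp p (e + 4) fun t => coeff t (run p a m (fun _ => 0) a - 1) -
    coeff 1 (U p 0 (P1 p ^ m)) * t) ∧ coeff 0 (run p a m (fun _ => 0) a) = 1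

/-- the exceptional `m`, `w = v_p(m(m+1))` -/
def Excp2 (p a m : ℕ) : Prop := padicValNat p (m * (m + 1)) + 3 ≤ a ∧
  (a - padicValNat p (m * (m + 1))) % 2 = 1 ∧
  ∃ u : ℕ, p ∣ 2 + Wp p * (m * (m + 1) / p ^ padicValNat p (m * (m + 1))) * u ^ 2

/-- the valuations at `n` with `v_p(n) = s` -/
def Fp2 (p a m s : ℕ) : ℕ := if s < a then padicValNat p m + a - s else
  min (padicValNat p m + a - s % a)
    (padicValNat p m + 3 + padicValNat p (m * (m + 1)) + s % a)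

/-- FORMp2: the explicit valuations -/
def S_FORMp2 : Prop := ∀ p a m : ℕ, p.Prime → 5 ≤ p → ¬ p ^ 4 ∣ (2 * p - 1).choose (p - 1) - 1 →
  1 ≤ a → 0 < m → ¬ Excp2 p a m → ∀ n, 1 ≤ n →
  emultiplicity (p : ℤ) (S (p ^ a) m n) = (Fp2 p a m (padicValNat p n) : ℕ∞)

end Pool.Agent.K9h30.CP
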