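import Pool.Agent.K9h30.CP.Linc
import Pool.Agent.K9h30.CP.Stm5

/-!
# MP_9acee6_nt, leaf BIN (helper90): `binom(pn, pk) = binom(n, k) mod p^3`
-/

set_option autoImplicit false

open PowerSeries Finset

namespace Pool.Agent.K9h30.CP

namespace Bin_

open Linc_

/-- `(pn+1)(pn+2)...(pn+p-1)` -/
def f (p n : ℕ) : ℕ := (p * n + 1).ascFactorial (p - 1)

theorem f_eval (p n : ℕ) : (f p n : ℤ) = (A p).eval ((p : ℤ) * n) := by
  have h := A_eval_nat p (p * n)
  rw [← Nat.ascFactorial_eq_factorial_mul_choose] at h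
  push_cast at h
  rw [h, f]

theorem f_congr (p : ℕ) (hp : p.Prime) (hp5 : 5 ≤ p) (n : ℕ) : (p : ℤ) ^ 3 ∣ (f p n : ℤ) - f p 0 := by
  have hp0 : (p : ℤ) ≠ 0 := by exact_mod_cast hp.ne_zero
  obtain ⟨r, hr⟩ := A_exp p hp hp5 (-1)
  obtain ⟨q, hq⟩ := A_exp p hp hp5 n
  obtain ⟨c, hc⟩ := A_coeff p hp 2 (by omega) (by omega)
  have h1 : (A p).eval ((p : ℤ) * -1) = (A p).eval 0 := by
    rw [mul_neg_one, A_eval_neg p hp (by omega), A_eval_zero]
  rw [h1, hc] at hr
  have h2 : (A p).coeff 1 = (p : ℤ) ^ 2 * (c - p * r) := by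
    apply mul_left_cancel₀ hp0
    linear_combination hr
  have h3 : (f p 0 : ℤ) = (A p).eval 0 := by
    rw [f_eval]
    simp
  rw [h3, f_eval, hq, h2, hc]
  refine ⟨(c - p * r) * n + c * n ^ 2 + p * n * q, ?_⟩
  ring

theorem fact (p : ℕ) (hp : 0 < p) (n : ℕ) :
    (p * n).factorial = p ^ n * n.factorial * ∏ j ∈ range n, f p j := by
  induction n with
  | zero => simp
  | succ n ih =>
    have h1 : p * (n + 1) = p * n + p := by ring
    have h2 : (p * n + 1).ascFactorial p = (p * n + p) * f p n := by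
      obtain ⟨k, hk⟩ : ∃ k, p = k + 1 := ⟨p - 1, by omega⟩
      unfold f
      conv_lhs => rw [show (p * n + 1).ascFactorial p = (p * n + 1).ascFactorial ((p - 1) + 1) by
        rw [Nat.sub_add_cancel hp]]
      rw [Nat.ascFactorial_succ]
      congr 1
      omega
    rw [h1, ← Nat.factorial_mul_ascFactorial, h2, ih, prod_range_succ, Nat.factorial_succ, pow_succ]
    ring

theorem prod_congr3 (p : ℕ) (hp : p.Prime) (hp5 : 5 ≤ p) (n : ℕ) :
    (p : ℤ) ^ 3 ∣ ((∏ j ∈ range n, f p j : ℕ) : ℤ) - (f p 0 : ℤ) ^ n := by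
  induction n with
  | zero => simp
  | succ n ih =>
    rw [prod_range_succ]
    push_cast at ih ⊢
    have h := f_congr p hp hp5 n
    have e : (∏ j ∈ range n, (f p j : ℤ)) * (f p n : ℤ) - (f p 0 : ℤ) ^ (n + 1) =
        ((∏ j ∈ range n, (f p j : ℤ)) - (f p 0 : ℤ) ^ n) * (f p n : ℤ) +
        (f p 0 : ℤ) ^ n * ((f p n : ℤ) - f p 0) := by ring
    rw [e]
    exact dvd_add (ih.mul_right _) (h.mul_left _)

/-- Ljunggren -/
theorem lju (p : ℕ) (hp : p.Prime) (hp5 : 5 ≤ p) (n k : ℕ) (hk : k ≤ n) :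
    (p : ℤ) ^ 3 ∣ ((p * n).choose (p * k) : ℤ) - (n.choose k : ℤ) := by
  set F : ℕ → ℕ := fun n => ∏ j ∈ range n, f p j with hF
  have hfac : ∀ n, (p * n).factorial = p ^ n * n.factorial * F n := fact p hp.pos
  have h1 : (p * n).choose (p * k) * (F k * F (n - k)) = n.choose k * F n := by
    have h2 := Nat.choose_mul_factorial_mul_factorial (Nat.mul_le_mul_left p hk)
    rw [← Nat.mul_sub, hfac, hfac, hfac, ← Nat.choose_mul_factorial_mul_factorial hk] at h2
    have h3 : p ^ n = p ^ k * p ^ (n - k) := by rw [← pow_add]; congr 1; omega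
    rw [h3] at h2
    have h4 : 0 < p ^ k * p ^ (n - k) * (k.factorial * (n - k).factorial) := by
      have := hp.pos
      positivity
    apply Nat.eq_of_mul_eq_mul_left h4
    calc p ^ k * p ^ (n - k) * (k.factorial * (n - k).factorial) *
          ((p * n).choose (p * k) * (F k * F (n - k)))
        = (p * n).choose (p * k) * (p ^ k * k.factorial * F k) *
          (p ^ (n - k) * (n - k).factorial * F (n - k)) := by ring
      _ = p ^ k * p ^ (n - k) * (n.choose k * k.factorial * (n - k).factorial) * F n := h2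
      _ = _ := by ring
  have hcop : IsCoprime ((p : ℤ) ^ 3) ((f p 0 : ℤ) ^ n) := by
    apply IsCoprime.pow
    rw [Nat.isCoprime_iff_coprime]
    apply (Nat.Prime.coprime_iff_not_dvd hp).mpr
    intro hd
    unfold f at hd
    rw [mul_zero, zero_add, Nat.one_ascFactorial] at hd
    have := (Nat.Prime.dvd_factorial hp).mp hd
    omega
  apply hcop.dvd_of_dvd_mul_right
  have h5 : ((((p * n).choose (p * k) * (F k * F (n - k)) : ℕ)) : ℤ) = ((n.choose k * F n : ℕ) : ℤ) := by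
    rw [h1]
  push_cast at h5
  have hFk := prod_congr3 p hp hp5 k
  have hFnk := prod_congr3 p hp hp5 (n - k)
  have hFn := prod_congr3 p hp hp5 n
  have h6 : (f p 0 : ℤ) ^ n = (f p 0 : ℤ) ^ k * (f p 0 : ℤ) ^ (n - k) := by
    rw [← pow_add]; congr 1; omega
  have h7 : (p : ℤ) ^ 3 ∣ (F k : ℤ) * (F (n - k) : ℤ) - (f p 0 : ℤ) ^ n := by
    rw [h6]
    have e : (F k : ℤ) * (F (n - k) : ℤ) - (f p 0 : ℤ) ^ k * (f p 0 : ℤ) ^ (n - k) =
        ((F k : ℤ) - (f p 0 : ℤ) ^ k) * (F (n - k) : ℤ) +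
        (f p 0 : ℤ) ^ k * ((F (n - k) : ℤ) - (f p 0 : ℤ) ^ (n - k)) := by ring
    rw [e]
    exact dvd_add (hFk.mul_right _) (hFnk.mul_left _)
  have e : (((p * n).choose (p * k) : ℤ) - (n.choose k : ℤ)) * (f p 0 : ℤ) ^ n =
      (n.choose k : ℤ) * ((F n : ℤ) - (f p 0 : ℤ) ^ n) -
      ((p * n).choose (p * k) : ℤ) * ((F k : ℤ) * (F (n - k) : ℤ) - (f p 0 : ℤ) ^ n) := by
    linear_combination h5
  rw [e]
  exact dvd_sub (hFn.mul_left _) (h7.mul_left _)

end Bin_

open Bin_ in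
theorem binp : S_BIN := by
  intro p a j hp hp5 ha hj hjp
  obtain ⟨a, rfl⟩ : ∃ b, a = b + 1 := ⟨a - 1, by omega⟩
  clear ha
  rw [Nat.add_sub_cancel]
  induction a with
  | zero => simp
  | succ a ih =>
    have h1 := lju p hp hp5 (p ^ (a + 1)) (j * p ^ a) (by
      rw [pow_succ, mul_comm]
      exact Nat.mul_le_mul_left _ hjp.le)
    have e1 : p ^ (a + 1 + 1) = p * p ^ (a + 1) := by ring
    have e2 : j * p ^ (a + 1) = p * (j * p ^ a) := by ring
    rw [e1, e2]
    have := dvd_add h1 ih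
    rwa [sub_add_sub_cancel] at this

end Pool.Agent.K9h30.CP
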