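import Pool.Agent.K9h30.CP.Stm2

/-!
# MP_9acee6_nt: `p = 3`, every `a` and `m`: further statements (helper30)

Exceptional: `w = v_3(m(m+1))`, `w ≤ a - 2`, `w ≡ a mod 2`, `m(m+1) / 3^w ≡ 1 mod 3`.
-/

set_option autoImplicit false

open PowerSeries Finset
open Pool.Agent.Results.MP_9acee6_nt.Four (S V Automatic geom)

namespace Pool.Agent.K9h30.CP

/-- `Z = x / (1 - x)^2` -/
noncomputable def Zs : ℤ⟦X⟧ := X * y ^ 2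

/-- `R = ((1 - x^k) / (1 - x)^k)^m`, `k = 3^a` -/
noncomputable def Rk (a m : ℕ) : ℤ⟦X⟧ := ((1 - X ^ 3 ^ a) * y ^ 3 ^ a) ^ m

/-- W (closed form). With `G = P1 3 = 1 + 3 Z`, `Z^3 = Z(x^3) G^2`, so `G^3 = (3 + 27 Z(x^3)) G^2 - 3 G + 1` and
`w_M = U_0(G^M)` satisfies `w_(M+3) = (3 + 27 Z) w_(M+2) - 3 w_(M+1) + w_M`, `w_0 = 1`, `w_1 = 1 + 9 Z`,
`w_2 = 1 + 54 Z + 243 Z^2`; the numbers `c_i(M) = 3^(3i-1) (M/i) binom(M+2i-1, 3i-1)` satisfy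
`c_i(M+3) = 3 c_i(M+2) - 3 c_i(M+1) + c_i(M) + 27 c_(i-1)(M+2)` (`c_0 = 1`). -/
def S_W : Prop := ∀ M : ℕ, ∃ c : ℕ → ℤ,
  (∀ i : ℕ, 1 ≤ i → (i : ℤ) * c i =
    3 ^ (3 * i - 1) * ((M : ℤ) * (((M + 2 * i - 1).choose (3 * i - 1) : ℕ) : ℤ))) ∧
  U 3 0 (P1 3 ^ M) = 1 + ∑ i ∈ Icc 1 M, PowerSeries.C (c i) * Zs ^ i

/-- INIG, from W: `coeff t (Z^i) = binom(t+i-1, 2i-1)`, `mu_j` of it is `binom(i-1, 2i-1-j)` for `i ≤ j ≤ 2i-1`,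
else `0`; `2 c_1 = 9 M^2 (M+1)` and
`i (3i-1)(3i-2) binom(3i-3,i-1) c_i = 3^(3i-1) M^2 (M+1) binom(M-1,i-1) binom(M+2i-1,2i-2)`, so that
`3^(e+1+⌊log_3 (2i-1)⌋) ∣ c_i` for `i ≥ 2`. -/
def S_INIG : Prop := ∀ M e : ℕ, 3 ^ e ∣ 9 * M ^ 2 * (M + 1) →
  CL (e + 1) fun t => 2 * coeff t (U 3 0 (P1 3 ^ M) - 1) - 9 * (M : ℤ) ^ 2 * (M + 1) * t

/-- SEC: `a` digits at once -/
def S_SEC : Prop := ∀ (a m : ℕ) (b : ℕ → ℕ), 1 ≤ a → (∀ i, b i < 3) → ∀ t,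
  coeff t (run 3 a m b a) = coeff (3 ^ a * t + ∑ l ∈ range a, b l * 3 ^ l) (Rk a m)

/-- TW: `R_N = R_(N-1) (1 - x^k) / (1 - x)^k`, so `(1 - x) U_(k,0)(R_(N-1)) = U_(k,0)((1-x)^k R_N)` -/
def S_TW : Prop := ∀ a N t : ℕ, 1 ≤ a → 1 ≤ N →
  coeff (3 ^ a * t) (Rk a (N - 1)) = coeff (3 ^ a * t) (Rk a N) +
    ∑ i ∈ Ico 1 (3 ^ a), (-1) ^ i * ((3 ^ a).choose i : ℤ) *
      ∑ s ∈ range t, coeff (3 ^ a * s + (3 ^ a - i)) (Rk a N)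

/-- UB: sections at `b ≠ 0`: after `s = v_3(b)` zero digits the series is `1 + E`, `E` in the class of exponent
`≥ λ + a - s`, and so on. -/
def S_UB : Prop := ∀ a N l b : ℕ, 1 ≤ a → 1 ≤ l → 1 ≤ N → 3 ^ l ∣ N → 0 < b → b < 3 ^ a →
  CL (l + (a - padicValNat 3 b)) (fun t => coeff (3 ^ a * t + b) (Rk a N)) ∧
  (3 : ℤ) ^ (l + (a - padicValNat 3 b)) ∣ coeff b (Rk a N)

/-- UB2: the sections at `c 3^(a-1)`, `c = 1, 2` -/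
def S_UB2 : Prop := ∀ a N l c : ℕ, 1 ≤ a → 1 ≤ l → 1 ≤ N → 3 ^ l ∣ N → 0 < c → c < 3 →
  CL (2 * l + 4) (fun t => coeff (3 ^ a * t + c * 3 ^ (a - 1)) (Rk a N) -
    coeff (3 * t + c) (P1 3 ^ N)) ∧
  (3 : ℤ) ^ (2 * l + 4) ∣ coeff (c * 3 ^ (a - 1)) (Rk a N) - coeff c (P1 3 ^ N)

/-- BLK: a block of `a` zero digits -/
def S_BLK : Prop := ∀ a m e : ℕ, 1 ≤ a → 1 ≤ m → 3 ^ e ∣ 9 * m ^ 2 * (m + 1) →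
  CL (e + 1) fun t => 2 * coeff t (run 3 a m (fun _ => 0) a - 1) - 9 * (m : ℤ) ^ 2 * (m + 1) * t

/-- the exceptional `m` -/
def Exc (a m : ℕ) : Prop := ∃ w, w + 2 ≤ a ∧ w % 2 = a % 2 ∧ m * (m + 1) % 3 ^ (w + 1) = 3 ^ w

/-- the valuations at `n` with `v_3(n) = s` -/
def F3 (a m s : ℕ) : ℕ := if s < a then padicValNat 3 m + a - s else
  min (padicValNat 3 m + a - s % a) (padicValNat 3 m + 2 + padicValNat 3 (m * (m + 1)) + s % a)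

/-- FORM3: the explicit valuations -/
def S_FORM3 : Prop := ∀ a m : ℕ, 1 ≤ a → 0 < m → ¬ Exc a m → ∀ n, 1 ≤ n →
  emultiplicity (3 : ℤ) (S (3 ^ a) m n) = (F3 a m (padicValNat 3 n) : ℕ∞)

/-- UNB3 -/
def S_UNB3 : Prop := ∀ a m : ℕ, 1 ≤ a → 0 < m → 3 ∣ m → Exc a m →
  ∀ d, ∃ n, (3 : ℤ) ^ d ∣ S (3 ^ a) m n

/-- AUT2: a sequence `F (v_p n)`, `F` eventually periodic, is automatic and bounded -/
def S_AUT2 : Prop := ∀ (p a : ℕ) (F : ℕ → ℕ) (e : ℕ → ℕ∞), p.Prime → 1 ≤ a → e 0 = 0 →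
  (∀ s, a ≤ s → F (s + a) = F s) → (∀ n, 1 ≤ n → e n = (F (padicValNat p n) : ℕ∞)) →
  Automatic p e ∧ ∃ B : ℕ, ∀ n, e n ≤ B

end Pool.Agent.K9h30.CP
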