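import Pool.Agent.K9h30.CP.Ini2
import Pool.Agent.K9h30.CP.Stm3

/-!
# MP_9acee6_nt: BLK (helper30)
-/

set_option autoImplicit false

open PowerSeries Finset

namespace Pool.Agent.K9h30.CP

theorem chain' (clu : S_CLU) (clg : S_CLG) (ini1 : S_INI1) (a m v : ℕ)
    (hm : 3 ^ v ∣ m) (hm0 : 1 ≤ m) (b : ℕ → ℕ) (hb : ∀ i < a, b i = 0) :
    ∀ i, i < a →
      CL (2 * (v + (a - 1 - i)) + 5)
        (cf (run 3 a m b (i + 1) - U 3 0 (P1 3 ^ (m * 3 ^ (a - 1 - i))))) ∧
      coeff 0 (run 3 a m b (i + 1)) = 1 := by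
  intro i
  induction i with
  | zero =>
    intro h0
    have e : run 3 a m b (0 + 1) = U 3 0 (P1 3 ^ (m * 3 ^ (a - 1 - 0))) := by
      simp only [run, one_mul, Nat.zero_mod, hb 0 h0]
    rw [e]
    refine ⟨?_, ?_⟩
    · rw [sub_self]
      have : cf (0 : ℤ⟦X⟧) = fun _ => 0 := by funext n; simp [cf]
      rw [this]
      exact CL_const _ _
    · rw [U_coeff_zero, P1_pow_zero 3 _ (by norm_num)]
  | succ i ih =>
    intro hi
    obtain ⟨h1, h2⟩ := ih (by omega)
    set M := m * 3 ^ (a - 1 - (i + 1)) with hM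
    set A := run 3 a m b (i + 1) with hA
    have e : run 3 a m b (i + 1 + 1) = U 3 0 (A * P1 3 ^ M) := by
      rw [run, hb (i + 1) hi, Nat.mod_eq_of_lt hi]
    have hv : 3 ^ (v + (a - 1 - i)) ∣ m * 3 ^ (a - 1 - i) := by
      rw [pow_add]
      exact mul_dvd_mul_right hm _
    have hE : CL (2 * (v + (a - 1 - i)) + 2) (cf (A - 1)) := by
      have h3 := (ini1 (v + (a - 1 - i)) (m * 3 ^ (a - 1 - i)) (by omega)
        (Nat.mul_pos hm0 (by positivity)) hv).1
      have h4 := CL_add (CL_mono (by omega : 2 * (v + (a - 1 - i)) + 2 ≤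
        2 * (v + (a - 1 - i)) + 5) h1) h3
      convert h4 using 1
      funext n
      simp [cf]
    have hE0 : coeff 0 (A - 1) = 0 := by
      rw [map_sub, h2]; simp
    have hEG : CL (2 * (v + (a - 1 - i)) + 2) (cf ((A - 1) * (P1 3 ^ M - 1))) := by
      have := clg _ 0 M (A - 1) (by simp) hE (by rw [hE0]; exact dvd_zero _)
      simpa using this
    refine ⟨?_, ?_⟩
    · have hs : CL (2 * (v + (a - 1 - i)) + 2) (cf ((A - 1) + (A - 1) * (P1 3 ^ M - 1))) := by
        rw [cf_add]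
        exact CL_add hE hEG
      have hs2 := CL_U clu (b := 0) (by norm_num) hs
      have e3 : run 3 a m b (i + 1 + 1) - U 3 0 (P1 3 ^ M) =
          U 3 0 ((A - 1) + (A - 1) * (P1 3 ^ M - 1)) := by
        rw [e, ← U_sub]
        congr 1
        ring
      rw [e3]
      refine CL_mono ?_ hs2
      omega
    · rw [e, U_coeff_zero, coeff_mul_zero, h2, P1_pow_zero 3 _ (by norm_num), mul_one]

theorem CL_lin {e : ℕ} {c : ℤ} (h : (3 : ℤ) ^ e ∣ c) : CL e fun t => c * (t : ℤ) := by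
  intro j hj
  rcases Nat.lt_or_ge j 2 with h' | h'
  · have : j = 1 := by omega
    subst this
    rw [mu_one]
    simpa using h
  · have := mu_linear j h' 0 c
    simp only [zero_add] at this
    rw [this]
    exact dvd_zero _

theorem CL_sum {ι : Type*} (s : Finset ι) {e : ℕ} (f : ι → ℕ → ℤ) (h : ∀ i ∈ s, CL e (f i)) :
    CL e fun t => ∑ i ∈ s, f i t := by
  classical
  induction s using Finset.induction_on with
  | empty => simpa using CL_const e 0
  | insert i s hi ih =>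
    have : (fun t => ∑ x ∈ insert i s, f x t) = fun t => f i t + ∑ x ∈ s, f x t := by
      funext t
      rw [sum_insert hi]
    rw [this]
    exact CL_add (h i (mem_insert_self _ _)) (ih fun j hj => h j (mem_insert_of_mem hj))

theorem CL_psum {e : ℕ} {f : ℕ → ℤ} (h : CL (e + 1) f) (h0 : (3 : ℤ) ^ e ∣ f 0) :
    CL e fun t => ∑ s ∈ range t, f s := by
  intro j hj
  obtain ⟨j, rfl⟩ : ∃ i, j = i + 1 := ⟨j - 1, by omega⟩
  rw [mu_succ]
  have : (fun n => ∑ s ∈ range (n + 1), f s - ∑ s ∈ range n, f s) = f := by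
    funext n
    rw [sum_range_succ]
    ring
  rw [this]
  rcases Nat.eq_zero_or_pos j with rfl | hj
  · rw [mu_zero]
    simpa using h0
  · refine (pow_dvd_pow 3 ?_).trans (h j hj)
    have h1 : Nat.log 3 (j + 1) ≤ Nat.log 3 (3 * j) := Nat.log_mono_right (by omega)
    have h2 : Nat.log 3 (3 * j) = Nat.log 3 j + 1 := by
      rw [mul_comm]
      exact Nat.log_mul_base (by norm_num) (by omega)
    omega

theorem Rk_one (N : ℕ) : Rk 1 N = P1 3 ^ N := by
  simp [Rk, P1]

theorem choose_mid (a : ℕ) : (3 ^ (a + 1) - 1).choose (3 ^ a - 1) % 3 = 1 := by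
  have : Fact (Nat.Prime 3) := ⟨Nat.prime_three⟩
  induction a with
  | zero => norm_num
  | succ a ih =>
    have h1 := Choose.choose_modEq_choose_mod_mul_choose_div_nat (p := 3)
      (n := 3 ^ (a + 1 + 1) - 1) (k := 3 ^ (a + 1) - 1)
    have p1 : 0 < 3 ^ a := by positivity
    have e1 : (3 ^ (a + 1 + 1) - 1) % 3 = 2 := by
      have : 3 ^ (a + 1 + 1) = 3 * (3 * 3 ^ a) := by ring
      omega
    have e2 : (3 ^ (a + 1) - 1) % 3 = 2 := by
      have : 3 ^ (a + 1) = 3 * 3 ^ a := by ring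
      omega
    have e3 : (3 ^ (a + 1 + 1) - 1) / 3 = 3 ^ (a + 1) - 1 := by
      have h : 3 ^ (a + 1 + 1) = 3 * 3 ^ (a + 1) := by ring
      omega
    have e4 : (3 ^ (a + 1) - 1) / 3 = 3 ^ a - 1 := by
      have h : 3 ^ (a + 1) = 3 * 3 ^ a := by ring
      omega
    rw [e1, e2, e3, e4] at h1
    simp only [Nat.choose_self, one_mul] at h1
    have h2 : (3 ^ (a + 1 + 1) - 1).choose (3 ^ (a + 1) - 1) % 3 =
      (3 ^ (a + 1) - 1).choose (3 ^ a - 1) % 3 := h1
    rw [h2, ih]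

theorem choose_top (a : ℕ) : (3 ^ (a + 1)).choose (3 ^ a) =
    3 * (3 ^ (a + 1) - 1).choose (3 ^ a - 1) := by
  have p1 : 0 < 3 ^ a := by positivity
  have p2 : 0 < 3 ^ (a + 1) := by positivity
  have h := Nat.add_one_mul_choose_eq (3 ^ (a + 1) - 1) (3 ^ a - 1)
  have e1 : 3 ^ (a + 1) - 1 + 1 = 3 ^ (a + 1) := by omega
  have e2 : 3 ^ a - 1 + 1 = 3 ^ a := by omega
  rw [e1, e2] at h
  have h3 : 3 ^ a * (3 * (3 ^ (a + 1) - 1).choose (3 ^ a - 1)) =
      3 ^ a * (3 ^ (a + 1)).choose (3 ^ a) := by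
    calc 3 ^ a * (3 * (3 ^ (a + 1) - 1).choose (3 ^ a - 1)) =
        3 ^ (a + 1) * (3 ^ (a + 1) - 1).choose (3 ^ a - 1) := by ring
      _ = _ := by rw [h]; ring
  exact (Nat.eq_of_mul_eq_mul_left p1 h3).symm

theorem choose_nine (a i : ℕ) (hi : 0 < i) (hs : padicValNat 3 i + 2 ≤ a) :
    9 ∣ (3 ^ a).choose i := by
  have : Fact (Nat.Prime 3) := ⟨Nat.prime_three⟩
  have p2 : 0 < 3 ^ a := by positivity
  have h := Nat.add_one_mul_choose_eq (3 ^ a - 1) (i - 1)
  have e1 : 3 ^ a - 1 + 1 = 3 ^ a := by omega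
  have e2 : i - 1 + 1 = i := by omega
  rw [e1, e2] at h
  obtain ⟨s, i', hi', rfl⟩ := Nat.exists_eq_pow_mul_and_not_dvd hi.ne' 3 (by norm_num)
  have hv : padicValNat 3 (3 ^ s * i') = s := by
    rw [padicValNat.mul (by positivity) (by rintro rfl; simp at hi), padicValNat.prime_pow,
      padicValNat.eq_zero_of_not_dvd hi', add_zero]
  rw [hv] at hs
  have h3 : 3 ^ s * (3 ^ (a - s) * (3 ^ a - 1).choose (3 ^ s * i' - 1)) =
      3 ^ s * (i' * (3 ^ a).choose (3 ^ s * i')) := by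
    have : 3 ^ a = 3 ^ s * 3 ^ (a - s) := by rw [← pow_add]; congr 1; omega
    calc 3 ^ s * (3 ^ (a - s) * (3 ^ a - 1).choose (3 ^ s * i' - 1)) =
        (3 ^ s * 3 ^ (a - s)) * (3 ^ a - 1).choose (3 ^ s * i' - 1) := by ring
      _ = 3 ^ a * (3 ^ a - 1).choose (3 ^ s * i' - 1) := by rw [← this]
      _ = _ := by rw [h]; ring
  have h4 := Nat.eq_of_mul_eq_mul_left (by positivity) h3
  have h5 : 3 ^ (a - s) ∣ i' * (3 ^ a).choose (3 ^ s * i') := ⟨_, h4.symm⟩
  have h6 : Nat.Coprime (3 ^ (a - s)) i' :=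
    Nat.Coprime.pow_left _ ((Nat.Prime.coprime_iff_not_dvd Nat.prime_three).mpr hi')
  have h7 := h6.dvd_of_dvd_mul_left h5
  exact (pow_dvd_pow 3 (by omega : 2 ≤ a - s)).trans h7

theorem CL_congr {e : ℕ} {f g : ℕ → ℤ} (h : ∀ t, f t = g t) (hf : CL e f) : CL e g := by
  have : f = g := funext h
  rwa [← this]

/-- two times -/
theorem CL_two {e : ℕ} {f : ℕ → ℤ} (c : ℤ) (hf : CL e f) : CL e fun t => c * f t := by
  have := CL_smul (i := 0) (c := c) (by simp) hf
  simpa using this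

theorem blk (clu : S_CLU) (clg : S_CLG) (ini1 : S_INI1) (inig : S_INIG) (sec : S_SEC)
    (tw : S_TW) (ub : S_UB) (ub2 : S_UB2) : S_BLK := by
  have : Fact (Nat.Prime 3) := ⟨Nat.prime_three⟩
  intro a m e ha hm he
  have hmne : m ≠ 0 := by omega
  obtain ⟨hD, -⟩ := chain' clu clg ini1 a m (padicValNat 3 m) pow_padicValNat_dvd hm
    (fun _ => 0) (fun _ _ => rfl) (a - 1) (by omega)
  have e1 : a - 1 - (a - 1) = 0 := by omega
  have e2 : a - 1 + 1 = a := by omega
  rw [e1, e2, pow_zero, mul_one, add_zero] at hD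
  have hG := inig m e he
  by_cases hev : e + 1 ≤ 2 * padicValNat 3 m + 5
  · refine CL_congr (fun t => ?_) (CL_add (CL_two 2 (CL_mono hev hD)) hG)
    simp only [cf, map_sub]
    ring
  -- now `3 ∤ m`
  have hdvd3 : ¬ 3 ∣ m := by
    intro h3
    apply hev
    have hcop : Nat.Coprime (3 ^ e) (m + 1) := by
      apply Nat.Coprime.pow_left
      rw [Nat.Prime.coprime_iff_not_dvd Nat.prime_three]
      omega
    have h4 : 3 ^ e ∣ 9 * m ^ 2 := hcop.dvd_of_dvd_mul_right he
    have h5 := (padicValNat_dvd_iff_le (p := 3) (by positivity : 9 * m ^ 2 ≠ 0)).mp h4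
    have h6 : padicValNat 3 (9 * m ^ 2) = 2 + 2 * padicValNat 3 m := by
      rw [padicValNat.mul (by norm_num) (by positivity), padicValNat.pow]
      have : (9 : ℕ) = 3 ^ 2 := by norm_num
      rw [this, padicValNat.prime_pow]
    omega
  have hv0 : padicValNat 3 m = 0 := padicValNat.eq_zero_of_not_dvd hdvd3
  rw [hv0] at hev
  obtain ⟨l, rfl⟩ : ∃ l, e = l + 2 := ⟨e - 2, by omega⟩
  have hl : 3 ≤ l := by omega
  set N := m + 1 with hN
  have hlN : 3 ^ l ∣ N := by
    have hcop : Nat.Coprime (3 ^ l) (m ^ 2) := by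
      apply Nat.Coprime.pow_left
      apply Nat.Coprime.pow_right
      rw [Nat.Prime.coprime_iff_not_dvd Nat.prime_three]
      exact hdvd3
    have h1 : 3 ^ l * 9 ∣ m ^ 2 * N * 9 := by
      have : 3 ^ (l + 2) = 3 ^ l * 9 := by ring
      rw [← this]
      have : m ^ 2 * N * 9 = 9 * m ^ 2 * N := by ring
      rw [this]
      exact he
    exact hcop.dvd_of_dvd_mul_left (Nat.dvd_of_mul_dvd_mul_right (by norm_num) h1)
  have hN1 : 1 ≤ N := by omega
  rcases Nat.lt_or_ge a 2 with ha1 | ha2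
  · -- `a = 1`
    have : a = 1 := by omega
    subst this
    have hr : run 3 1 m (fun _ => 0) 1 = U 3 0 (P1 3 ^ m) := by
      simp [run]
    rw [hr]
    exact hG
  obtain ⟨a', rfl⟩ : ∃ a', a = a' + 1 := ⟨a - 1, by omega⟩
  have ha' : 1 ≤ a' := by omega
  -- abbreviations
  set k := 3 ^ (a' + 1) with hk
  set q := 3 ^ a' with hq
  have hkq : k = 3 * q := by rw [hk, hq]; ring
  have hq1 : 1 ≤ q := by rw [hq]; exact Nat.one_le_pow _ _ (by norm_num)
  have hq3 : 3 ≤ q := by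
    rw [hq]
    calc 3 = 3 ^ 1 := by norm_num
      _ ≤ 3 ^ a' := Nat.pow_le_pow_right (by norm_num) ha'
  have hqodd : q % 2 = 1 := by
    rw [hq, Nat.pow_mod]
    norm_num
  set g : ℕ → ℕ → ℤ := fun b t => coeff (k * t + b) (Rk (a' + 1) N) with hg
  set h : ℕ → ℕ → ℤ := fun c t => coeff (3 * t + c) (P1 3 ^ N) with hh
  -- the run
  have hrun : ∀ M t, coeff t (run 3 (a' + 1) M (fun _ => 0) (a' + 1)) =
      coeff (k * t) (Rk (a' + 1) M) := by
    intro M t
    have := sec (a' + 1) M (fun _ => 0) (by omega) (fun _ => by norm_num) t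
    simpa using this
  have hrunm : ∀ t, coeff t (run 3 (a' + 1) m (fun _ => 0) (a' + 1)) =
      coeff t (run 3 (a' + 1) N (fun _ => 0) (a' + 1)) +
      ∑ i ∈ Ico 1 k, (-1) ^ i * (k.choose i : ℤ) * ∑ s ∈ range t, g (k - i) s := by
    intro t
    rw [hrun, hrun]
    have := tw (a' + 1) N t (by omega) hN1
    have e3 : N - 1 = m := by omega
    rw [e3] at this
    exact this
  -- the case `a = 1`
  have htw1 : ∀ t, coeff t (U 3 0 (P1 3 ^ m)) = coeff t (U 3 0 (P1 3 ^ N)) +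
      3 * (∑ s ∈ range t, h 1 s - ∑ s ∈ range t, h 2 s) := by
    intro t
    have := tw 1 N t le_rfl hN1
    have e3 : N - 1 = m := by omega
    rw [e3, Rk_one, Rk_one, pow_one] at this
    have e4 : Ico 1 3 = {1, 2} := by decide
    rw [e4, sum_pair (by norm_num)] at this
    have e5 : coeff t (U 3 0 (P1 3 ^ m)) = coeff (3 * t) (P1 3 ^ m) := by simp [U]
    have e6 : coeff t (U 3 0 (P1 3 ^ N)) = coeff (3 * t) (P1 3 ^ N) := by simp [U]
    rw [e5, e6, this]
    simp only [hh]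
    norm_num
    ring
  -- the special terms
  obtain ⟨c', hc'⟩ : ∃ c' : ℤ, ((k.choose q : ℕ) : ℤ) = 3 * c' := by
    refine ⟨((3 ^ (a' + 1) - 1).choose (3 ^ a' - 1) : ℕ), ?_⟩
    rw [hk, hq, choose_top]
    push_cast
    ring
  have hc1 : (3 : ℤ) ∣ c' - 1 := by
    have h1 : ((k.choose q : ℕ) : ℤ) = 3 * (((3 ^ (a' + 1) - 1).choose (3 ^ a' - 1) : ℕ) : ℤ) := by
      rw [hk, hq, choose_top]
      push_cast
      ring
    have h2 : c' = (((3 ^ (a' + 1) - 1).choose (3 ^ a' - 1) : ℕ) : ℤ) := by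
      have : (3 : ℤ) * c' = 3 * (((3 ^ (a' + 1) - 1).choose (3 ^ a' - 1) : ℕ) : ℤ) := by
        rw [← hc', h1]
      exact mul_left_cancel₀ (by norm_num) this
    have h3 := choose_mid a'
    rw [h2]
    omega
  have hsplit : ∀ t, ∑ i ∈ Ico 1 k, (-1) ^ i * (k.choose i : ℤ) * ∑ s ∈ range t, g (k - i) s =
      3 * c' * (∑ s ∈ range t, g q s - ∑ s ∈ range t, g (2 * q) s) +
      ∑ i ∈ ((Ico 1 k).erase q).erase (2 * q),
        (-1) ^ i * (k.choose i : ℤ) * ∑ s ∈ range t, g (k - i) s := by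
    intro t
    have m1 : q ∈ Ico 1 k := by rw [mem_Ico]; omega
    have m2 : 2 * q ∈ (Ico 1 k).erase q := by
      rw [mem_erase, mem_Ico]; omega
    rw [← add_sum_erase _ _ m1, ← add_sum_erase _ _ m2]
    have s1 : (-1 : ℤ) ^ q = -1 := Odd.neg_one_pow (Nat.odd_iff.mpr hqodd)
    have s2 : (-1 : ℤ) ^ (2 * q) = 1 := by rw [pow_mul]; simp
    have s3 : k - q = 2 * q := by omega
    have s4 : k - 2 * q = q := by omega
    have s5 : k.choose (2 * q) = k.choose q := by
      have := Nat.choose_symm (n := k) (k := q) (by omega)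
      rw [s3] at this
      exact this
    rw [s1, s2, s3, s4, s5, hc']
    ring
  -- classes
  have hrest : CL (l + 3) fun t => ∑ i ∈ ((Ico 1 k).erase q).erase (2 * q),
      (-1) ^ i * (k.choose i : ℤ) * ∑ s ∈ range t, g (k - i) s := by
    apply CL_sum
    intro i hi
    rw [mem_erase, mem_erase, mem_Ico] at hi
    obtain ⟨hi1, hi2, hi3, hi4⟩ := hi
    have hvi : padicValNat 3 i + 2 ≤ a' + 1 := by
      by_contra hcon
      have h1 : 3 ^ a' ∣ i := (padicValNat_dvd_iff_le (by omega)).mpr (by omega)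
      obtain ⟨c, hc⟩ := h1
      rw [← hq] at hc
      have h2 : c < 3 := by
        by_contra h3
        have : 3 * q ≤ q * c := by nlinarith
        omega
      interval_cases c
      · omega
      · omega
      · omega
    have hvki : padicValNat 3 (k - i) = padicValNat 3 i := by
      have hki : k - i ≠ 0 := by omega
      apply le_antisymm
      · by_contra hcon
        have h2 : 3 ^ (padicValNat 3 i + 1) ∣ k - i :=
          (padicValNat_dvd_iff_le hki).mpr (by omega)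
        have h3 : 3 ^ (padicValNat 3 i + 1) ∣ k := pow_dvd_pow 3 (by omega)
        have h4 : 3 ^ (padicValNat 3 i + 1) ∣ i := (Nat.dvd_sub_iff_right (by omega) h3).mp h2
        have := (padicValNat_dvd_iff_le (by omega)).mp h4
        omega
      · have h4 : 3 ^ (padicValNat 3 i) ∣ i := pow_padicValNat_dvd
        have h3 : 3 ^ (padicValNat 3 i) ∣ k := pow_dvd_pow 3 (by omega)
        exact (padicValNat_dvd_iff_le hki).mp (Nat.dvd_sub h3 h4)
    obtain ⟨u1, u2⟩ := ub (a' + 1) N l (k - i) (by omega) (by omega) hN1 hlN (by omega) (by omega)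
    rw [hvki] at u1 u2
    have u3 : CL (l + 1 + 1) (g (k - i)) := CL_mono (by omega) u1
    have u4 : (3 : ℤ) ^ (l + 1) ∣ g (k - i) 0 := by
      simp only [hg, mul_zero, zero_add]
      exact (pow_dvd_pow 3 (by omega)).trans u2
    have u5 := CL_psum u3 u4
    have h9 : (3 : ℤ) ^ 2 ∣ (-1) ^ i * (k.choose i : ℤ) := by
      apply Dvd.dvd.mul_left
      have := choose_nine (a' + 1) i (by omega) hvi
      exact_mod_cast this
    exact CL_mono (by omega : l + 3 ≤ l + 1 + 2) (CL_smul h9 u5)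
  have herr : ∀ c, 0 < c → c < 3 → CL (l + 3) fun t => ∑ s ∈ range t, (g (c * q) s - h c s) := by
    intro c h0 h3
    obtain ⟨u1, u2⟩ := ub2 (a' + 1) N l c (by omega) (by omega) hN1 hlN h0 h3
    have e5 : a' + 1 - 1 = a' := by omega
    rw [e5] at u1 u2
    apply CL_psum
    · exact CL_mono (by omega) u1
    · have : g (c * q) 0 - h c 0 = coeff (c * 3 ^ a') (Rk (a' + 1) N) - coeff c (P1 3 ^ N) := by
        simp [hg, hh, hq]
      rw [this]
      exact (pow_dvd_pow 3 (by omega)).trans u2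
  -- the run for `N`
  have hT1 : CL (l + 3) fun t => coeff t (run 3 (a' + 1) N (fun _ => 0) (a' + 1) - 1) := by
    obtain ⟨hD', -⟩ := chain' clu clg ini1 (a' + 1) N l hlN hN1
      (fun _ => 0) (fun _ _ => rfl) a' (by omega)
    have e6 : a' + 1 - 1 - a' = 0 := by omega
    rw [e6, pow_zero, mul_one, add_zero] at hD'
    have hI := (ini1 l N (by omega) hN1 hlN).1
    refine CL_congr (fun t => ?_) (CL_add (CL_mono (by omega : l + 3 ≤ 2 * l + 5) hD')
      (CL_mono (by omega : l + 3 ≤ 2 * l + 2) hI))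
    simp only [cf, map_sub]
    ring
  have hT2 : CL (l + 3) fun t => coeff t (U 3 0 (P1 3 ^ N) - 1) := by
    exact CL_mono (by omega) (ini1 l N (by omega) hN1 hlN).1
  have hT3 : CL (l + 3) fun t => (c' - 1) * (9 * (m : ℤ) ^ 2 * (m + 1)) * t := by
    apply CL_lin
    have h1 : (3 : ℤ) ^ (l + 2) ∣ 9 * (m : ℤ) ^ 2 * (m + 1) := by exact_mod_cast he
    have h2 := mul_dvd_mul hc1 h1
    have h3 : (3 : ℤ) ^ (l + 3) = 3 * 3 ^ (l + 2) := by ring
    rw [h3]
    exact h2
  -- conclusion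
  have total := CL_add (CL_add (CL_two 2 hT1) (CL_add (CL_two c' hG) (CL_add hT3 (CL_two (-(2 * c')) hT2))))
    (CL_add (CL_two 2 hrest) (CL_add (CL_two (6 * c') (herr 1 (by norm_num) (by norm_num)))
      (CL_two (-(6 * c')) (herr 2 (by norm_num) (by norm_num)))))
  refine CL_congr (fun t => ?_) total
  have r1 := hrunm t
  rw [hsplit t] at r1
  have r2 := htw1 t
  simp only [one_mul] at *
  rw [map_sub, map_sub, map_sub, map_sub, r1, r2, sum_sub_distrib, sum_sub_distrib]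
  ring

end Pool.Agent.K9h30.CP
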