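import Pool.Agent.K9h30.CP.UnbP
import Pool.Agent.K9h30.CP.Stm5

/-!
# MP_9acee6_nt: BLKp2 (helper30)
-/

set_option autoImplicit false

open PowerSeries Finset

namespace Pool.Agent.K9h30.CP

theorem CLp_smul {p e i : ℕ} {c : ℤ} {f : ℕ → ℤ} (hc : (p : ℤ) ^ i ∣ c) (hf : CLp p e f) :
    CLp p (e + i) fun n => c * f n := by
  intro j hj
  rw [mu_smul]
  have := mul_dvd_mul hc (hf j hj)
  rw [← pow_add] at this
  have e2 : e + i + Nat.log p j = i + (e + Nat.log p j) := by omega
  rw [e2]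
  exact this

theorem CLp_two {p e : ℕ} {f : ℕ → ℤ} (c : ℤ) (hf : CLp p e f) : CLp p e fun t => c * f t := by
  have := CLp_smul (i := 0) (c := c) (by simp) hf
  simpa using this

theorem CLp_sum {ι : Type*} {p : ℕ} (s : Finset ι) {e : ℕ} (f : ι → ℕ → ℤ)
    (h : ∀ i ∈ s, CLp p e (f i)) : CLp p e fun t => ∑ i ∈ s, f i t := by
  classical
  induction s using Finset.induction_on with
  | empty => simpa using CLp_const e 0
  | insert i s hi ih =>
    have : (fun t => ∑ x ∈ insert i s, f x t) = fun t => f i t + ∑ x ∈ s, f x t := by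
      funext t
      rw [sum_insert hi]
    rw [this]
    exact CLp_add (h i (mem_insert_self _ _)) (ih fun j hj => h j (mem_insert_of_mem hj))

theorem CLp_psum {p e : ℕ} (hp : p.Prime) {f : ℕ → ℤ} (h : CLp p (e + 1) f)
    (h0 : (p : ℤ) ^ e ∣ f 0) : CLp p e fun t => ∑ s ∈ range t, f s := by
  intro j hj
  obtain ⟨j, rfl⟩ : ∃ i, j = i + 1 := ⟨j - 1, by omega⟩
  rw [mu_succ]
  have : (fun n => ∑ s ∈ range (n + 1), f s - ∑ s ∈ range n, f s) = f := by
    funext n
    rw [sum_range_succ]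
    ring
  rw [this]
  rcases Nat.eq_zero_or_pos j with rfl | hj
  · rw [mu_zero]
    simpa using h0
  · refine (pow_dvd_pow _ ?_).trans (h j hj)
    have h1 : Nat.log p (j + 1) ≤ Nat.log p (j * p) := by
      apply Nat.log_mono_right
      have := hp.two_le
      nlinarith
    have h2 : Nat.log p (j * p) = Nat.log p j + 1 :=
      Nat.log_mul_base hp.one_lt (by omega)
    omega

theorem Rkp_one (p N : ℕ) : Rkp p 1 N = P1 p ^ N := by
  simp [Rkp, P1]

/-- `v_p(binom(p^a, i)) ≥ a - v_p(i)` -/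
theorem choose_pow (p a i : ℕ) (hp : p.Prime) (hi : 0 < i) (hs : padicValNat p i ≤ a) :
    p ^ (a - padicValNat p i) ∣ (p ^ a).choose i := by
  have : Fact p.Prime := ⟨hp⟩
  have p2 : 0 < p ^ a := Nat.pow_pos hp.pos
  have h := Nat.add_one_mul_choose_eq (p ^ a - 1) (i - 1)
  have e1 : p ^ a - 1 + 1 = p ^ a := by omega
  have e2 : i - 1 + 1 = i := by omega
  rw [e1, e2] at h
  obtain ⟨s, i', hi', rfl⟩ := Nat.exists_eq_pow_mul_and_not_dvd hi.ne' p hp.ne_one
  have hi'0 : i' ≠ 0 := by rintro rfl; simp at hi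
  have hv : padicValNat p (p ^ s * i') = s := by
    rw [padicValNat.mul (pow_ne_zero _ hp.ne_zero) hi'0, padicValNat.prime_pow,
      padicValNat.eq_zero_of_not_dvd hi', add_zero]
  rw [hv] at hs ⊢
  have h3 : p ^ s * (p ^ (a - s) * (p ^ a - 1).choose (p ^ s * i' - 1)) =
      p ^ s * (i' * (p ^ a).choose (p ^ s * i')) := by
    have : p ^ a = p ^ s * p ^ (a - s) := by rw [← pow_add]; congr 1; omega
    calc p ^ s * (p ^ (a - s) * (p ^ a - 1).choose (p ^ s * i' - 1)) =
        (p ^ s * p ^ (a - s)) * (p ^ a - 1).choose (p ^ s * i' - 1) := by ring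
      _ = p ^ a * (p ^ a - 1).choose (p ^ s * i' - 1) := by rw [← this]
      _ = _ := by rw [h]; ring
  have h4 := Nat.eq_of_mul_eq_mul_left (Nat.pow_pos hp.pos) h3
  have h5 : p ^ (a - s) ∣ i' * (p ^ a).choose (p ^ s * i') := ⟨_, h4.symm⟩
  have h6 : Nat.Coprime (p ^ (a - s)) i' :=
    Nat.Coprime.pow_left _ ((Nat.Prime.coprime_iff_not_dvd hp).mpr hi')
  exact h6.dvd_of_dvd_mul_left h5

theorem blkp2 (u0 : S_U0) (clup : S_CLUp) (clgp : S_CLGp) (inip : S_INIp) (inip2 : S_INIp2)
    (secp : S_SECp) (twp : S_TWp) (ubp : S_UBp) (ub2p : S_UB2p) (bin : S_BIN) : S_BLKp2 := by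
  intro p a m e hp hp5 ha hm he
  have hfp : Fact p.Prime := ⟨hp⟩
  have hmne : m ≠ 0 := by omega
  obtain ⟨hD, hA0⟩ := chainp u0 clup clgp inip p a m (padicValNat p m) hp hp5
    pow_padicValNat_dvd hm (fun _ => 0) (fun _ _ => rfl) (a - 1) (by omega)
  have e1 : a - 1 - (a - 1) = 0 := by omega
  have e2 : a - 1 + 1 = a := by omega
  rw [e1, e2, pow_zero, mul_one, add_zero] at hD
  rw [e2] at hA0
  refine ⟨?_, hA0⟩
  have hG := inip2 p e m hp hp5 hm he
  set c := coeff 1 (U p 0 (P1 p ^ m)) with hc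
  by_cases hev : e + 4 ≤ 2 * padicValNat p m + 6
  · refine CLp_congr (fun t => ?_) (CLp_add (CLp_mono hev hD) hG)
    simp only [cf, map_sub]
    ring
  -- now `p ∤ m`
  have hdvdp : ¬ p ∣ m := by
    intro h3
    apply hev
    have hcop : Nat.Coprime (p ^ e) (m + 1) := by
      apply Nat.Coprime.pow_left
      rw [Nat.Prime.coprime_iff_not_dvd hp]
      intro h4
      have h5 := (Nat.dvd_add_right h3).mp h4
      have := Nat.le_of_dvd one_pos h5
      omega
    have h4 : p ^ e ∣ m ^ 2 := hcop.dvd_of_dvd_mul_right he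
    have h5 := (padicValNat_dvd_iff_le (p := p) (by positivity : m ^ 2 ≠ 0)).mp h4
    rw [padicValNat.pow] at h5
    omega
  have hv0 : padicValNat p m = 0 := padicValNat.eq_zero_of_not_dvd hdvdp
  rw [hv0] at hev
  have hl : 3 ≤ e := by omega
  set N := m + 1 with hN
  have hlN : p ^ e ∣ N := by
    have hcop : Nat.Coprime (p ^ e) (m ^ 2) := by
      apply Nat.Coprime.pow_left
      apply Nat.Coprime.pow_right
      rw [Nat.Prime.coprime_iff_not_dvd hp]
      exact hdvdp
    exact hcop.dvd_of_dvd_mul_left he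
  have hN1 : 1 ≤ N := by omega
  rcases Nat.lt_or_ge a 2 with ha1 | ha2
  · -- `a = 1`
    have : a = 1 := by omega
    subst this
    have hr : run p 1 m (fun _ => 0) 1 = U p 0 (P1 p ^ m) := by
      simp [run]
    rw [hr]
    exact hG
  obtain ⟨a', rfl⟩ : ∃ a', a = a' + 1 := ⟨a - 1, by omega⟩
  have ha' : 1 ≤ a' := by omega
  -- abbreviations
  set k := p ^ (a' + 1) with hk
  set q := p ^ a' with hq
  have hkq : k = p * q := by rw [hk, hq]; ring
  have hq0 : 0 < q := Nat.pow_pos hp.pos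
  have hqodd : q % 2 = 1 := by
    have : Odd q := (hp.odd_of_ne_two (by omega)).pow
    exact Nat.odd_iff.mp this
  set g : ℕ → ℕ → ℤ := fun b t => coeff (k * t + b) (Rkp p (a' + 1) N) with hg
  set h : ℕ → ℕ → ℤ := fun b t => coeff (p * t + b) (P1 p ^ N) with hh
  -- the run
  have hrun : ∀ M t, coeff t (run p (a' + 1) M (fun _ => 0) (a' + 1)) =
      coeff (k * t) (Rkp p (a' + 1) M) := by
    intro M t
    have := secp p (a' + 1) M (fun _ => 0) hp (by omega) (fun _ => hp.pos) t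
    simpa using this
  have hrunm : ∀ t, coeff t (run p (a' + 1) m (fun _ => 0) (a' + 1)) =
      coeff t (run p (a' + 1) N (fun _ => 0) (a' + 1)) +
      ∑ i ∈ Ico 1 k, (-1) ^ i * (k.choose i : ℤ) * ∑ s ∈ range t, g (k - i) s := by
    intro t
    rw [hrun, hrun]
    have := twp p (a' + 1) N t hp (by omega) (by omega) hN1
    have e3 : N - 1 = m := by omega
    rw [e3] at this
    exact this
  -- the case `a = 1`
  have htw1 : ∀ t, coeff t (U p 0 (P1 p ^ m)) = coeff t (U p 0 (P1 p ^ N)) +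
      ∑ j ∈ Ico 1 p, (-1) ^ j * (p.choose j : ℤ) * ∑ s ∈ range t, h (p - j) s := by
    intro t
    have := twp p 1 N t hp (by omega) le_rfl hN1
    have e3 : N - 1 = m := by omega
    rw [e3, Rkp_one, Rkp_one, pow_one] at this
    have e5 : coeff t (U p 0 (P1 p ^ m)) = coeff (p * t) (P1 p ^ m) := by simp [U]
    have e6 : coeff t (U p 0 (P1 p ^ N)) = coeff (p * t) (P1 p ^ N) := by simp [U]
    rw [e5, e6]
    exact this
  -- splitting
  set sp : Finset ℕ := (Ico 1 p).image (fun j => j * q) with hsp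
  have hsub : sp ⊆ Ico 1 k := by
    intro i hi
    rw [hsp, mem_image] at hi
    obtain ⟨j, hj, rfl⟩ := hi
    rw [mem_Ico] at hj ⊢
    refine ⟨Nat.mul_pos (by omega) hq0, ?_⟩
    rw [hkq]
    exact Nat.mul_lt_mul_of_pos_right hj.2 hq0
  have hinj : Set.InjOn (fun j => j * q) (Ico 1 p : Finset ℕ) := by
    intro x _ y' _ hxy
    exact Nat.eq_of_mul_eq_mul_right hq0 hxy
  choose! xb hxb using fun j (hj : 0 < j ∧ j < p) => bin p (a' + 1) j hp hp5 (by omega) hj.1 hj.2
  have hsplit : ∀ t, ∑ i ∈ Ico 1 k, (-1) ^ i * (k.choose i : ℤ) * ∑ s ∈ range t, g (k - i) s =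
      ∑ j ∈ Ico 1 p, (-1) ^ j * (p.choose j : ℤ) * ∑ s ∈ range t, h (p - j) s +
      (∑ j ∈ Ico 1 p, ((-1) ^ j * (p : ℤ) ^ 3 * xb j * ∑ s ∈ range t, h (p - j) s +
        (-1) ^ j * (k.choose (j * q) : ℤ) * ∑ s ∈ range t, (g ((p - j) * q) s - h (p - j) s)) +
      ∑ i ∈ Ico 1 k \ sp, (-1) ^ i * (k.choose i : ℤ) * ∑ s ∈ range t, g (k - i) s) := by
    intro t
    rw [← sum_sdiff hsub, add_comm, ← add_assoc]
    congr 1
    rw [hsp, sum_image hinj, ← sum_add_distrib]
    apply sum_congr rfl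
    intro j hj
    rw [mem_Ico] at hj
    have s1 : (-1 : ℤ) ^ (j * q) = (-1) ^ j := by
      rw [mul_comm, pow_mul, Odd.neg_one_pow (Nat.odd_iff.mpr hqodd)]
    have s2 : k - j * q = (p - j) * q := by rw [hkq, Nat.sub_mul]
    have s3 : (k.choose (j * q) : ℤ) = (p.choose j : ℤ) + p ^ 3 * xb j := by
      have := hxb j ⟨by omega, hj.2⟩
      have e7 : a' + 1 - 1 = a' := by omega
      rw [e7, ← hk, ← hq] at this
      linarith
    rw [s1, s2, sum_sub_distrib, s3]
    ring
  -- classes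
  have hrest : CLp p (e + 4) fun t => ∑ i ∈ Ico 1 k \ sp,
      (-1) ^ i * (k.choose i : ℤ) * ∑ s ∈ range t, g (k - i) s := by
    apply CLp_sum
    intro i hi
    rw [mem_sdiff, mem_Ico] at hi
    obtain ⟨⟨hi1, hi2⟩, hi3⟩ := hi
    have hvi : padicValNat p i + 2 ≤ a' + 1 := by
      by_contra hcon
      have h1 : p ^ a' ∣ i := (padicValNat_dvd_iff_le (by omega)).mpr (by omega)
      obtain ⟨c', hc'⟩ := h1
      apply hi3
      rw [hsp, mem_image]
      refine ⟨c', ?_, by rw [hc', mul_comm]⟩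
      rw [mem_Ico]
      constructor
      · rcases Nat.eq_zero_or_pos c' with rfl | h
        · simp at hc'
          omega
        · exact h
      · by_contra h3
        have : p * q ≤ q * c' := by nlinarith
        rw [← hq] at hc'
        omega
    have hvki : padicValNat p (k - i) = padicValNat p i := by
      have hki : k - i ≠ 0 := by omega
      apply le_antisymm
      · by_contra hcon
        have h2 : p ^ (padicValNat p i + 1) ∣ k - i :=
          (padicValNat_dvd_iff_le hki).mpr (by omega)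
        have h3 : p ^ (padicValNat p i + 1) ∣ k := pow_dvd_pow p (by omega)
        have h4 : p ^ (padicValNat p i + 1) ∣ i := (Nat.dvd_sub_iff_right (by omega) h3).mp h2
        have := (padicValNat_dvd_iff_le (by omega)).mp h4
        omega
      · have h4 : p ^ (padicValNat p i) ∣ i := pow_padicValNat_dvd
        have h3 : p ^ (padicValNat p i) ∣ k := pow_dvd_pow p (by omega)
        exact (padicValNat_dvd_iff_le hki).mp (Nat.dvd_sub h3 h4)
    obtain ⟨u1, u2⟩ := ubp p (a' + 1) N e (k - i) hp hp5 (by omega) (by omega) hN1 hlN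
      (by omega) (by omega)
    rw [hvki] at u1 u2
    have u4 : (p : ℤ) ^ (e + (a' + 1 - padicValNat p i)) ∣ g (k - i) 0 := by
      simp only [hg, mul_zero, zero_add]
      exact u2
    have u5 := CLp_psum hp u1 u4
    have h9 : (p : ℤ) ^ (a' + 1 - padicValNat p i) ∣ (-1) ^ i * (k.choose i : ℤ) := by
      apply Dvd.dvd.mul_left
      have := choose_pow p (a' + 1) i hp (by omega) (by omega)
      exact_mod_cast this
    exact CLp_mono (by omega) (CLp_smul h9 u5)
  have hgh : ∀ j ∈ Ico 1 p, CLp p (e + 4) fun t => ∑ s ∈ range t, (g ((p - j) * q) s - h (p - j) s) := by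
    intro j hj
    rw [mem_Ico] at hj
    obtain ⟨u1, u2⟩ := ub2p p (a' + 1) N e (p - j) hp hp5 (by omega) (by omega) hN1 hlN
      (by omega) (by omega)
    have e5 : a' + 1 - 1 = a' := by omega
    rw [e5] at u1 u2
    apply CLp_psum hp
    · exact CLp_mono (by omega) u1
    · have : g ((p - j) * q) 0 - h (p - j) 0 =
          coeff ((p - j) * p ^ a') (Rkp p (a' + 1) N) - coeff (p - j) (P1 p ^ N) := by
        simp [hg, hh, hq]
      rw [this]
      exact (pow_dvd_pow _ (by omega)).trans u2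
  have hhc : ∀ j ∈ Ico 1 p, CLp p (e + 1) fun t => ∑ s ∈ range t, h (p - j) s := by
    intro j hj
    rw [mem_Ico] at hj
    obtain ⟨u1, u2⟩ := ubp p 1 N e (p - j) hp hp5 le_rfl (by omega) hN1 hlN
      (by omega) (by rw [pow_one]; omega)
    have hvj : padicValNat p (p - j) = 0 := padicValNat.eq_zero_of_not_dvd (by
      intro hd
      have := Nat.le_of_dvd (by omega) hd
      omega)
    rw [hvj, Rkp_one, pow_one] at u1
    rw [hvj, Rkp_one] at u2
    apply CLp_psum hp
    · exact CLp_mono (by omega) u1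
    · simp only [hh, mul_zero, zero_add]
      exact (pow_dvd_pow _ (by omega)).trans u2
  have hmid : CLp p (e + 4) fun t =>
      ∑ j ∈ Ico 1 p, ((-1) ^ j * (p : ℤ) ^ 3 * xb j * ∑ s ∈ range t, h (p - j) s +
        (-1) ^ j * (k.choose (j * q) : ℤ) * ∑ s ∈ range t, (g ((p - j) * q) s - h (p - j) s)) := by
    apply CLp_sum
    intro j hj
    apply CLp_add
    · have : (p : ℤ) ^ 3 ∣ (-1) ^ j * (p : ℤ) ^ 3 * xb j := ⟨(-1) ^ j * xb j, by ring⟩
      exact CLp_mono (by omega) (CLp_smul this (hhc j hj))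
    · exact CLp_two _ (hgh j hj)
  -- the runs for `N`
  have hT2 : CLp p (e + 4) fun t => coeff t (U p 0 (P1 p ^ N) - 1) :=
    CLp_mono (by omega) (UG u0 inip p e N hp hp5 hN1 hlN)
  have hT1 : CLp p (e + 4) fun t => coeff t (run p (a' + 1) N (fun _ => 0) (a' + 1) - 1) := by
    obtain ⟨hD', -⟩ := chainp u0 clup clgp inip p (a' + 1) N e hp hp5 hlN hN1
      (fun _ => 0) (fun _ _ => rfl) a' (by omega)
    have e6 : a' + 1 - 1 - a' = 0 := by omega
    rw [e6, pow_zero, mul_one, add_zero] at hD'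
    refine CLp_congr (fun t => ?_) (CLp_add (CLp_mono (by omega : e + 4 ≤ 2 * e + 6) hD') hT2)
    simp only [cf, map_sub]
    ring
  -- conclusion
  have total := CLp_add (CLp_add hT1 (CLp_add hG (CLp_two (-1) hT2))) (CLp_add hmid hrest)
  refine CLp_congr (fun t => ?_) total
  have r1 := hrunm t
  rw [hsplit t] at r1
  have r2 := htw1 t
  rw [map_sub, map_sub, map_sub, map_sub, r1, r2]
  ring

end Pool.Agent.K9h30.CP
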