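import Pool.Agent.K9h30.CP.Stm

/-! MP_9acee6_nt, leaf CP-CLASS: the classes of functions given by their forward differences.
`clu`: sections; `clg`: multiplication by `G ^ M - 1`. -/

set_option autoImplicit false

open PowerSeries Finset

namespace Pool.Agent.K9h30.CP

/-- the forward difference as a linear map -/
def cls_D : (ℕ → ℤ) →ₗ[ℤ] (ℕ → ℤ) where
  toFun f := fun n => f (n + 1) - f n
  map_add' f g := by funext n; simp only [Pi.add_apply]; ring
  map_smul' c f := by funext n; simp only [Pi.smul_apply, smul_eq_mul, RingHom.id_apply]; ring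

lemma cls_D_apply (f : ℕ → ℤ) (n : ℕ) : cls_D f n = f (n + 1) - f n := rfl

lemma cls_D_pow (j : ℕ) (f : ℕ → ℤ) : (cls_D ^ j) f = (fwdDiff 1)^[j] f := by
  induction j generalizing f with
  | zero => rfl
  | succ j ih =>
    rw [pow_succ, Module.End.mul_apply, ih, Function.iterate_succ_apply]
    rfl

lemma cls_mu (j : ℕ) (f : ℕ → ℤ) : mu j f = (cls_D ^ j) f 0 := by
  rw [cls_D_pow, fwdDiff_iter_eq_sum_shift]
  unfold mu
  apply sum_congr rfl
  intro i _
  simp only [zero_add, smul_eq_mul, mul_one]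

lemma cls_mu_zero (f : ℕ → ℤ) : mu 0 f = f 0 := by
  unfold mu
  simp

lemma cls_mu_succ (j : ℕ) (f : ℕ → ℤ) : mu (j + 1) f = mu j (cls_D f) := by
  rw [cls_mu, cls_mu, pow_succ, Module.End.mul_apply]

lemma cls_mu_add (j : ℕ) (f g : ℕ → ℤ) : mu j (f + g) = mu j f + mu j g := by
  rw [cls_mu, cls_mu, cls_mu, map_add, Pi.add_apply]

lemma cls_mu_smul (j : ℕ) (c : ℤ) (f : ℕ → ℤ) : mu j (c • f) = c * mu j f := by
  rw [cls_mu, cls_mu, map_smul, Pi.smul_apply, smul_eq_mul]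

/-- polynomials in the difference operator -/
lemma cls_aeval (p : Polynomial ℤ) (f : ℕ → ℤ) :
    (Polynomial.aeval cls_D p) f 0 = ∑ j ∈ range (p.natDegree + 1), p.coeff j * mu j f := by
  rw [Polynomial.aeval_eq_sum_range, LinearMap.sum_apply, Finset.sum_apply]
  apply sum_congr rfl
  intro j _
  rw [LinearMap.smul_apply, Pi.smul_apply, smul_eq_mul, cls_mu]

lemma cls_shift (b : ℕ) (f : ℕ → ℤ) (n : ℕ) :
    (Polynomial.aeval cls_D ((1 + Polynomial.X : Polynomial ℤ) ^ b)) f n = f (n + b) := by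
  induction b generalizing n with
  | zero => simp
  | succ b ih =>
    rw [pow_succ', map_mul, Module.End.mul_apply, map_add, map_one, Polynomial.aeval_X,
      LinearMap.add_apply, Pi.add_apply, Module.End.one_apply, cls_D_apply, ih, ih]
    have : n + 1 + b = n + (b + 1) := by omega
    rw [this]
    ring

lemma cls_sect (i : ℕ) (b : ℕ) (f : ℕ → ℤ) (t : ℕ) :
    (cls_D ^ i) (fun t => f (3 * t + b)) t =
      (Polynomial.aeval cls_D (((1 + Polynomial.X : Polynomial ℤ) ^ 3 - 1) ^ i)) f (3 * t + b) := by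
  induction i generalizing t with
  | zero => simp
  | succ i ih =>
    rw [pow_succ', Module.End.mul_apply, cls_D_apply, ih, ih,
      pow_succ' ((1 + Polynomial.X : Polynomial ℤ) ^ 3 - 1) i, map_mul,
      Module.End.mul_apply, map_sub, LinearMap.sub_apply, Pi.sub_apply, cls_shift, map_one,
      Module.End.one_apply]
    have : 3 * (t + 1) + b = 3 * t + b + 3 := by ring
    rw [this]

theorem clu : S_CLU := by
  intro e b f hb hf i hi
  have h1 : mu i (fun t => f (3 * t + b)) =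
      (Polynomial.aeval cls_D ((1 + Polynomial.X : Polynomial ℤ) ^ b *
        ((1 + Polynomial.X : Polynomial ℤ) ^ 3 - 1) ^ i)) f 0 := by
    rw [cls_mu, cls_sect, map_mul, Module.End.mul_apply, cls_shift]
  rw [h1, cls_aeval]
  apply dvd_sum
  intro j _
  have hX : ((1 + Polynomial.X : Polynomial ℤ) ^ 3 - 1) =
      Polynomial.X * (3 + 3 * Polynomial.X + Polynomial.X ^ 2) := by ring
  by_cases h2 : j < i
  · have h3 : ((1 + Polynomial.X : Polynomial ℤ) ^ b *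
        ((1 + Polynomial.X : Polynomial ℤ) ^ 3 - 1) ^ i).coeff j = 0 := by
      rw [hX, mul_pow, ← mul_assoc, mul_comm ((1 + Polynomial.X : Polynomial ℤ) ^ b), mul_assoc,
        Polynomial.coeff_X_pow_mul', if_neg (by omega)]
    rw [h3, zero_mul]
    exact dvd_zero _
  · have hj1 : 1 ≤ j := by omega
    have h3 := hf j hj1
    by_cases h4 : j < 3 * i
    · have h5 : (3 : ℤ) ∣ ((1 + Polynomial.X : Polynomial ℤ) ^ b *
          ((1 + Polynomial.X : Polynomial ℤ) ^ 3 - 1) ^ i).coeff j := by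
        have h6 : (Polynomial.map (Int.castRingHom (ZMod 3)) ((1 + Polynomial.X : Polynomial ℤ) ^ b *
          ((1 + Polynomial.X : Polynomial ℤ) ^ 3 - 1) ^ i)).coeff j = 0 := by
          have h7 : Polynomial.map (Int.castRingHom (ZMod 3)) ((1 + Polynomial.X : Polynomial ℤ) ^ b *
              ((1 + Polynomial.X : Polynomial ℤ) ^ 3 - 1) ^ i) =
              (1 + Polynomial.X) ^ b * Polynomial.X ^ (3 * i) := by
            rw [Polynomial.map_mul, Polynomial.map_pow, Polynomial.map_pow, Polynomial.map_sub,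
              Polynomial.map_pow, Polynomial.map_add, Polynomial.map_one, Polynomial.map_X]
            have : Fact (Nat.Prime 3) := ⟨Nat.prime_three⟩
            rw [add_pow_char (1 : Polynomial (ZMod 3)) Polynomial.X 3, one_pow, add_sub_cancel_left,
              ← pow_mul]
          rw [h7, Polynomial.coeff_mul_X_pow', if_neg (by omega)]
        rw [Polynomial.coeff_map] at h6
        have h8 := (ZMod.intCast_zmod_eq_zero_iff_dvd _ 3).1 h6
        exact_mod_cast h8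
      have h9 : (3 : ℤ) ^ (e + 1 + Nat.log 3 i) ∣ 3 * 3 ^ (e + Nat.log 3 j) := by
        rw [← pow_succ']
        apply pow_dvd_pow
        have := Nat.log_mono_right (b := 3) (not_lt.1 h2)
        omega
      exact h9.trans (mul_dvd_mul h5 h3)
    · apply Dvd.dvd.mul_left
      refine dvd_trans (pow_dvd_pow _ ?_) h3
      have h5 : Nat.log 3 (3 * i) ≤ Nat.log 3 j := Nat.log_mono_right (not_lt.1 h4)
      have h6 : Nat.log 3 (3 * i) = Nat.log 3 i + 1 := by
        rw [mul_comm]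
        exact Nat.log_mul_base (by norm_num) (by omega)
      omega

/-- the class, with the value at `0` -/
def cls_C (e : ℕ) (f : ℤ⟦X⟧) : Prop := ∀ j, (3 : ℤ) ^ (e + Nat.log 3 j) ∣ mu j (cf f)

/-- `z = x / (1 - x)` -/
noncomputable def cls_z : ℤ⟦X⟧ := X * y

lemma cls_y : (1 - X) * y = 1 := by
  unfold y
  rw [mul_comm]
  exact PowerSeries.mk_one_mul_one_sub_eq_one ℤ

lemma cls_P1 : P1 3 = 1 + 3 * cls_z + 3 * cls_z ^ 2 := by
  have h := cls_y
  unfold P1 cls_z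
  linear_combination ((1 + X + X ^ 2) * y ^ 2 + ((1 - X) * y + 1 + 3 * X * y)) * h

lemma cls_z_zero (f : ℤ⟦X⟧) : cf (cls_z * f) 0 = 0 := by
  unfold cf cls_z
  rw [mul_assoc, PowerSeries.coeff_zero_X_mul]

lemma cls_z_D (f : ℤ⟦X⟧) : cls_D (cf (cls_z * f)) = cf f := by
  funext n
  rw [cls_D_apply]
  unfold cf
  have h : (1 - X) * (cls_z * f) = X * f := by
    unfold cls_z
    linear_combination X * f * cls_y
  have h2 := congrArg (PowerSeries.coeff (n + 1)) h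
  rw [sub_mul, one_mul, map_sub, PowerSeries.coeff_succ_X_mul, PowerSeries.coeff_succ_X_mul] at h2
  exact h2

lemma cls_z_succ (j : ℕ) (f : ℤ⟦X⟧) : mu (j + 1) (cf (cls_z * f)) = mu j (cf f) := by
  rw [cls_mu_succ, cls_z_D]

lemma cls_z_pow (l j : ℕ) (f : ℤ⟦X⟧) :
    mu j (cf (cls_z ^ l * f)) = if l ≤ j then mu (j - l) (cf f) else 0 := by
  induction l generalizing j with
  | zero => simp
  | succ l ih =>
    rw [pow_succ', mul_assoc]
    cases j with
    | zero => rw [cls_mu_zero, cls_z_zero, if_neg (by omega)]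
    | succ j =>
      rw [cls_z_succ, ih]
      by_cases h : l ≤ j
      · rw [if_pos h, if_pos (by omega)]
        congr 1
        omega
      · rw [if_neg h, if_neg (by omega)]

lemma cls_cf_add (f g : ℤ⟦X⟧) : cf (f + g) = cf f + cf g := by
  funext n
  simp [cf]

lemma cls_cf_smul (c : ℤ) (f : ℤ⟦X⟧) : cf (PowerSeries.C c * f) = c • cf f := by
  funext n
  unfold cf
  rw [PowerSeries.coeff_C_mul, Pi.smul_apply, smul_eq_mul]

lemma cls_C_add {e : ℕ} {f g : ℤ⟦X⟧} (hf : cls_C e f) (hg : cls_C e g) : cls_C e (f + g) := by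
  intro j
  rw [cls_cf_add, cls_mu_add]
  exact dvd_add (hf j) (hg j)

lemma cls_C_mono {e e' : ℕ} {f : ℤ⟦X⟧} (h : e' ≤ e) (hf : cls_C e f) : cls_C e' f := fun j =>
  (pow_dvd_pow _ (by omega)).trans (hf j)

lemma cls_C_three {e : ℕ} {f : ℤ⟦X⟧} (hf : cls_C e f) : cls_C (e + 1) (3 * f) := by
  intro j
  have h : (3 : ℤ⟦X⟧) = PowerSeries.C 3 := by simp
  rw [h, cls_cf_smul, cls_mu_smul]
  have : e + 1 + Nat.log 3 j = (e + Nat.log 3 j) + 1 := by omega
  rw [this, pow_succ']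
  exact mul_dvd_mul_left _ (hf j)

lemma cls_C_nat (m : ℕ) {e : ℕ} {f : ℤ⟦X⟧} (hf : cls_C e f) : cls_C e ((m : ℤ⟦X⟧) * f) := by
  intro j
  have h : (m : ℤ⟦X⟧) = PowerSeries.C (m : ℤ) := by simp
  rw [h, cls_cf_smul, cls_mu_smul]
  exact (hf j).mul_left _

lemma cls_C_z (c k l : ℕ) (hl : ∀ j, l ≤ j → Nat.log 3 j ≤ k + Nat.log 3 (j - l)) {e : ℕ}
    {f : ℤ⟦X⟧} (hf : cls_C e f) : cls_C (e + c) ((3 : ℤ⟦X⟧) ^ (k + c) * (cls_z ^ l * f)) := by
  intro j
  have h : (3 : ℤ⟦X⟧) ^ (k + c) = PowerSeries.C ((3 : ℤ) ^ (k + c)) := by simp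
  rw [h, cls_cf_smul, cls_mu_smul, cls_z_pow]
  split_ifs with h1
  · refine dvd_trans ?_ (mul_dvd_mul_left _ (hf (j - l)))
    rw [← pow_add]
    apply pow_dvd_pow
    have := hl j h1
    omega
  · simp

lemma cls_log_mul (a k : ℕ) (ha : a ≠ 0) : Nat.log 3 (a * 3 ^ k) = k + Nat.log 3 a := by
  induction k with
  | zero => simp
  | succ k ih =>
    rw [pow_succ, ← mul_assoc, Nat.log_mul_base (by norm_num) (by positivity), ih]
    ring

lemma cls_log (l k : ℕ) (h1 : l < 3 ^ (k + 1)) (h2 : l * 3 ^ k ≤ (l + 1) * (3 ^ k - 1)) (j : ℕ)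
    (h : l ≤ j) : Nat.log 3 j ≤ k + Nat.log 3 (j - l) := by
  have hk : 1 ≤ 3 ^ k := Nat.one_le_pow _ _ (by norm_num)
  rcases Nat.eq_or_lt_of_le h with h3 | h3
  · subst h3
    have : Nat.log 3 l < k + 1 := Nat.log_lt_of_lt_pow' (by omega) h1
    omega
  · have h4 : j ≤ (j - l) * 3 ^ k := by
      obtain ⟨m, rfl⟩ : ∃ m, j = l + 1 + m := ⟨j - l - 1, by omega⟩
      have e1 : l + 1 + m - l = m + 1 := by omega
      rw [e1]
      obtain ⟨s, hs⟩ : ∃ s, 3 ^ k = s + 1 := ⟨3 ^ k - 1, by omega⟩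
      rw [hs] at h2 ⊢
      rw [Nat.add_sub_cancel] at h2
      nlinarith
    calc Nat.log 3 j ≤ Nat.log 3 ((j - l) * 3 ^ k) := Nat.log_mono_right h4
      _ = k + Nat.log 3 (j - l) := cls_log_mul _ _ (by omega)

lemma cls_C_G {e : ℕ} {f : ℤ⟦X⟧} (hf : cls_C e f) : cls_C e (P1 3 * f) := by
  have h1 := cls_C_z 0 1 1 (cls_log 1 1 (by norm_num) (by norm_num)) hf
  have h2 := cls_C_z 0 1 2 (cls_log 2 1 (by norm_num) (by norm_num)) hf
  have e1 : P1 3 * f = f + 3 ^ (1 + 0) * (cls_z ^ 1 * f) + 3 ^ (1 + 0) * (cls_z ^ 2 * f) := by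
    rw [cls_P1]; ring
  rw [e1]
  exact cls_C_add (cls_C_add hf h1) h2

lemma cls_C_Gpow (n : ℕ) {e : ℕ} {f : ℤ⟦X⟧} (hf : cls_C e f) : cls_C e (P1 3 ^ n * f) := by
  induction n with
  | zero => simpa using hf
  | succ n ih =>
    rw [pow_succ', mul_assoc]
    exact cls_C_G ih

lemma cls_C_zero (e : ℕ) : cls_C e 0 := by
  intro j
  have : cf 0 = 0 := by funext n; simp [cf]
  rw [this]
  have h2 : mu j 0 = 0 := by unfold mu; simp
  rw [h2]
  exact dvd_zero _

lemma cls_C_sum {ι : Type} (s : Finset ι) (g : ι → ℤ⟦X⟧) {e : ℕ} (h : ∀ i ∈ s, cls_C e (g i)) :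
    cls_C e (∑ i ∈ s, g i) := by
  classical
  induction s using Finset.induction_on with
  | empty => simpa using cls_C_zero e
  | insert a s ha ih =>
    rw [sum_insert ha]
    exact cls_C_add (h a (mem_insert_self _ _)) (ih fun i hi => h i (mem_insert_of_mem hi))

/-- `G^3 - 1` gains a factor `3` -/
lemma cls_C_cube {e : ℕ} {f : ℤ⟦X⟧} (hf : cls_C e f) : cls_C (e + 1) ((P1 3 ^ 3 - 1) * f) := by
  have h1 := cls_C_z 1 1 1 (cls_log 1 1 (by norm_num) (by norm_num)) hf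
  have h2 := cls_C_z 1 1 2 (cls_log 2 1 (by norm_num) (by norm_num)) hf
  have h3 := cls_C_z 1 2 3 (cls_log 3 2 (by norm_num) (by norm_num)) hf
  have h4 := cls_C_z 1 2 4 (cls_log 4 2 (by norm_num) (by norm_num)) hf
  have h5 := cls_C_z 1 2 5 (cls_log 5 2 (by norm_num) (by norm_num)) hf
  have h6 := cls_C_z 1 2 6 (cls_log 6 2 (by norm_num) (by norm_num)) hf
  have e1 : (P1 3 ^ 3 - 1) * f = 3 ^ (1 + 1) * (cls_z ^ 1 * f) +
      ((4 : ℕ) : ℤ⟦X⟧) * (3 ^ (1 + 1) * (cls_z ^ 2 * f)) +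
      ((3 : ℕ) : ℤ⟦X⟧) * (3 ^ (2 + 1) * (cls_z ^ 3 * f)) +
      ((4 : ℕ) : ℤ⟦X⟧) * (3 ^ (2 + 1) * (cls_z ^ 4 * f)) +
      ((3 : ℕ) : ℤ⟦X⟧) * (3 ^ (2 + 1) * (cls_z ^ 5 * f)) +
      3 ^ (2 + 1) * (cls_z ^ 6 * f) := by
    rw [cls_P1]
    push_cast
    ring
  rw [e1]
  exact cls_C_add (cls_C_add (cls_C_add (cls_C_add (cls_C_add h1 (cls_C_nat 4 h2))
    (cls_C_nat 3 h3)) (cls_C_nat 4 h4)) (cls_C_nat 3 h5)) h6

lemma cls_C_ppow (v : ℕ) {e : ℕ} {f : ℤ⟦X⟧} (hf : cls_C e f) :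
    cls_C (e + (v + 1)) ((P1 3 ^ 3 ^ (v + 1) - 1) * f) := by
  induction v generalizing e f with
  | zero => simpa using cls_C_cube hf
  | succ v ih =>
    have h1 := ih hf
    have h2 := ih h1
    have h3 := ih h2
    have e1 : (P1 3 ^ 3 ^ (v + 1 + 1) - 1) * f =
        (P1 3 ^ 3 ^ (v + 1) - 1) * ((P1 3 ^ 3 ^ (v + 1) - 1) * ((P1 3 ^ 3 ^ (v + 1) - 1) * f)) +
        3 * ((P1 3 ^ 3 ^ (v + 1) - 1) * ((P1 3 ^ 3 ^ (v + 1) - 1) * f)) +
        3 * ((P1 3 ^ 3 ^ (v + 1) - 1) * f) := by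
      rw [pow_succ 3 (v + 1), pow_mul]
      ring
    rw [e1]
    refine cls_C_add (cls_C_add (cls_C_mono (by omega) h3) (cls_C_mono (by omega) (cls_C_three h2)))
      (cls_C_mono (by omega) (cls_C_three h1))

/-- multiplication by `G ^ M - 1` -/
lemma cls_C_mul (v M : ℕ) (hM : 3 ^ v ∣ M) {e : ℕ} {f : ℤ⟦X⟧} (hf : cls_C e f) :
    cls_C (e + v) (f * (P1 3 ^ M - 1)) := by
  obtain ⟨N, rfl⟩ := hM
  have hgeom : ∀ u : ℤ⟦X⟧, u ^ N - 1 = (∑ i ∈ range N, u ^ i) * (u - 1) := fun u =>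
    (geom_sum_mul u N).symm
  cases v with
  | zero =>
    have e1 : f * (P1 3 ^ (3 ^ 0 * N) - 1) =
        P1 3 ^ N * f + ((-1 : ℤ⟦X⟧)) * f := by
      rw [pow_zero, one_mul]; ring
    rw [e1]
    refine cls_C_add (cls_C_Gpow N hf) ?_
    intro j
    have h : (-1 : ℤ⟦X⟧) = PowerSeries.C (-1 : ℤ) := by simp
    rw [h, cls_cf_smul, cls_mu_smul]
    exact (hf j).mul_left _
  | succ v =>
    rw [pow_mul, hgeom]
    have e1 : f * ((∑ i ∈ range N, (P1 3 ^ 3 ^ (v + 1)) ^ i) * (P1 3 ^ 3 ^ (v + 1) - 1)) =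
        (P1 3 ^ 3 ^ (v + 1) - 1) * (∑ i ∈ range N, P1 3 ^ (3 ^ (v + 1) * i) * f) := by
      rw [← sum_mul]
      simp only [← pow_mul]
      ring
    rw [e1]
    exact cls_C_ppow v (cls_C_sum _ _ fun i _ => cls_C_Gpow _ hf)

theorem clg : S_CLG := by
  intro e v M f hM hf h0 j _
  refine cls_C_mul v M hM (e := e) (fun i => ?_) j
  rcases Nat.eq_zero_or_pos i with hi | hi
  · subst hi
    rw [cls_mu_zero]
    simpa [cf] using h0
  · exact hf i hi

end Pool.Agent.K9h30.CP
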