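import Pool.Agent.K9h30.CP.Stm4
import Pool.Agent.K9h30.CP.Cls

/-! MP_9acee6_nt, leaf CP-CLP: the classes for `p`.
`clup`: sections; `clgp`: multiplication by `G ^ M - 1`. -/

set_option autoImplicit false

open PowerSeries Finset

namespace Pool.Agent.K9h30.CP

lemma clp_sect (p i b : ℕ) (f : ℕ → ℤ) (t : ℕ) :
    (cls_D ^ i) (fun t => f (p * t + b)) t =
      (Polynomial.aeval cls_D (((1 + Polynomial.X : Polynomial ℤ) ^ p - 1) ^ i)) f (p * t + b) := by
  induction i generalizing t with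
  | zero => simp
  | succ i ih =>
    rw [pow_succ', Module.End.mul_apply, cls_D_apply, ih, ih,
      pow_succ' ((1 + Polynomial.X : Polynomial ℤ) ^ p - 1) i, map_mul,
      Module.End.mul_apply, map_sub, LinearMap.sub_apply, Pi.sub_apply, cls_shift, map_one,
      Module.End.one_apply]
    have : p * (t + 1) + b = p * t + b + p := by ring
    rw [this]

/-- sections -/
theorem clup0 : S_CLUp := by
  intro p e b f hp hb hf i hi
  have hp1 : 1 < p := hp.one_lt
  have h1 : mu i (fun t => f (p * t + b)) =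
      (Polynomial.aeval cls_D ((1 + Polynomial.X : Polynomial ℤ) ^ b *
        ((1 + Polynomial.X : Polynomial ℤ) ^ p - 1) ^ i)) f 0 := by
    rw [cls_mu, clp_sect, map_mul, Module.End.mul_apply, cls_shift, mul_zero]
  rw [h1, cls_aeval]
  apply dvd_sum
  intro j _
  obtain ⟨g, hX⟩ : (Polynomial.X : Polynomial ℤ) ∣ ((1 + Polynomial.X : Polynomial ℤ) ^ p - 1) := by
    rw [Polynomial.X_dvd_iff, Polynomial.coeff_zero_eq_eval_zero]
    simp
  by_cases h2 : j < i
  · have h3 : ((1 + Polynomial.X : Polynomial ℤ) ^ b *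
        ((1 + Polynomial.X : Polynomial ℤ) ^ p - 1) ^ i).coeff j = 0 := by
      rw [hX, mul_pow, ← mul_assoc, mul_comm ((1 + Polynomial.X : Polynomial ℤ) ^ b), mul_assoc,
        Polynomial.coeff_X_pow_mul', if_neg (by omega)]
    rw [h3, zero_mul]
    exact dvd_zero _
  · have hj1 : 1 ≤ j := by omega
    have h3 := hf j hj1
    by_cases h4 : j < p * i
    · have h5 : (p : ℤ) ∣ ((1 + Polynomial.X : Polynomial ℤ) ^ b *
          ((1 + Polynomial.X : Polynomial ℤ) ^ p - 1) ^ i).coeff j := by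
        have h6 : (Polynomial.map (Int.castRingHom (ZMod p)) ((1 + Polynomial.X : Polynomial ℤ) ^ b *
          ((1 + Polynomial.X : Polynomial ℤ) ^ p - 1) ^ i)).coeff j = 0 := by
          have h7 : Polynomial.map (Int.castRingHom (ZMod p)) ((1 + Polynomial.X : Polynomial ℤ) ^ b *
              ((1 + Polynomial.X : Polynomial ℤ) ^ p - 1) ^ i) =
              (1 + Polynomial.X) ^ b * Polynomial.X ^ (p * i) := by
            rw [Polynomial.map_mul, Polynomial.map_pow, Polynomial.map_pow, Polynomial.map_sub,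
              Polynomial.map_pow, Polynomial.map_add, Polynomial.map_one, Polynomial.map_X]
            have : Fact (Nat.Prime p) := ⟨hp⟩
            rw [add_pow_char (1 : Polynomial (ZMod p)) Polynomial.X p, one_pow, add_sub_cancel_left,
              ← pow_mul]
          rw [h7, Polynomial.coeff_mul_X_pow', if_neg (by omega)]
        rw [Polynomial.coeff_map] at h6
        have h8 := (ZMod.intCast_zmod_eq_zero_iff_dvd _ p).1 h6
        exact_mod_cast h8
      have h9 : (p : ℤ) ^ (e + 1 + Nat.log p i) ∣ p * p ^ (e + Nat.log p j) := by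
        rw [← pow_succ']
        apply pow_dvd_pow
        have := Nat.log_mono_right (b := p) (not_lt.1 h2)
        omega
      exact h9.trans (mul_dvd_mul h5 h3)
    · apply Dvd.dvd.mul_left
      refine dvd_trans (pow_dvd_pow _ ?_) h3
      have h5 : Nat.log p (p * i) ≤ Nat.log p j := Nat.log_mono_right (not_lt.1 h4)
      have h6 : Nat.log p (p * i) = Nat.log p i + 1 := by
        rw [mul_comm]
        exact Nat.log_mul_base hp1 (by omega)
      omega

theorem clup (_kap : S_KAP) : S_CLUp := clup0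

/-- the class, with the value at `0` -/
def clp_C (p e : ℕ) (f : ℤ⟦X⟧) : Prop := ∀ j, (p : ℤ) ^ (e + Nat.log p j) ∣ mu j (cf f)

lemma clp_C_add {p e : ℕ} {f g : ℤ⟦X⟧} (hf : clp_C p e f) (hg : clp_C p e g) :
    clp_C p e (f + g) := by
  intro j
  rw [cls_cf_add, cls_mu_add]
  exact dvd_add (hf j) (hg j)

lemma clp_C_mono {p e e' : ℕ} {f : ℤ⟦X⟧} (h : e' ≤ e) (hf : clp_C p e f) : clp_C p e' f := fun j =>
  (pow_dvd_pow _ (by omega)).trans (hf j)

lemma clp_C_int (c : ℤ) {p e : ℕ} {f : ℤ⟦X⟧} (hf : clp_C p e f) :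
    clp_C p e (PowerSeries.C c * f) := by
  intro j
  rw [cls_cf_smul, cls_mu_smul]
  exact (hf j).mul_left _

lemma clp_C_p {p e : ℕ} {f : ℤ⟦X⟧} (hf : clp_C p e f) :
    clp_C p (e + 1) (PowerSeries.C (p : ℤ) * f) := by
  intro j
  rw [cls_cf_smul, cls_mu_smul]
  have : e + 1 + Nat.log p j = (e + Nat.log p j) + 1 := by omega
  rw [this, pow_succ']
  exact mul_dvd_mul_left _ (hf j)

lemma clp_C_zero (p e : ℕ) : clp_C p e 0 := by
  intro j
  have : cf 0 = 0 := by funext n; simp [cf]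
  rw [this]
  have h2 : mu j 0 = 0 := by unfold mu; simp
  rw [h2]
  exact dvd_zero _

lemma clp_C_sum {ι : Type} (s : Finset ι) (g : ι → ℤ⟦X⟧) {p e : ℕ}
    (h : ∀ i ∈ s, clp_C p e (g i)) : clp_C p e (∑ i ∈ s, g i) := by
  classical
  induction s using Finset.induction_on with
  | empty => simpa using clp_C_zero p e
  | insert a s ha ih =>
    rw [sum_insert ha]
    exact clp_C_add (h a (mem_insert_self _ _)) (ih fun i hi => h i (mem_insert_of_mem hi))

lemma clp_log (p l k : ℕ) (hp : 1 < p) (h1 : l + 1 ≤ p ^ k) (j : ℕ) (h : l ≤ j) :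
    Nat.log p j ≤ k + Nat.log p (j - l) := by
  rcases Nat.eq_or_lt_of_le h with h3 | h3
  · subst h3
    have h4 : Nat.log p l ≤ Nat.log p (p ^ k) := Nat.log_mono_right (by omega)
    rw [Nat.log_pow hp] at h4
    omega
  · have h4 : j ≤ (j - l) * p ^ k := by
      obtain ⟨m, rfl⟩ : ∃ m, j = l + 1 + m := ⟨j - l - 1, by omega⟩
      have e1 : l + 1 + m - l = m + 1 := by omega
      rw [e1]
      calc l + 1 + m ≤ (m + 1) * (l + 1) := by nlinarith
        _ ≤ (m + 1) * p ^ k := Nat.mul_le_mul_left _ h1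
    have h5 : ∀ a k : ℕ, a ≠ 0 → Nat.log p (a * p ^ k) = k + Nat.log p a := by
      intro a k ha
      induction k with
      | zero => simp
      | succ k ih =>
        have hpk : 0 < p ^ k := Nat.pow_pos (by omega)
        rw [pow_succ, ← mul_assoc, Nat.log_mul_base hp (Nat.mul_ne_zero ha hpk.ne'), ih]
        ring
    calc Nat.log p j ≤ Nat.log p ((j - l) * p ^ k) := Nat.log_mono_right h4
      _ = k + Nat.log p (j - l) := h5 _ _ (by omega)

/-- multiplication by `p^(k+c) z^l` -/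
lemma clp_C_z (p c k l : ℕ) (hp : 1 < p) (hl : l + 1 ≤ p ^ k) {e : ℕ}
    {f : ℤ⟦X⟧} (hf : clp_C p e f) :
    clp_C p (e + c) (PowerSeries.C ((p : ℤ) ^ (k + c)) * (cls_z ^ l * f)) := by
  intro j
  rw [cls_cf_smul, cls_mu_smul, cls_z_pow]
  split_ifs with h1
  · refine dvd_trans ?_ (mul_dvd_mul_left _ (hf (j - l)))
    rw [← pow_add]
    apply pow_dvd_pow
    have := clp_log p l k hp hl j h1
    omega
  · simp

/-- multiplication by `p^(k+c)` times a polynomial of small degree in `z` -/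
lemma clp_C_poly (p c k : ℕ) (hp : 1 < p) (g : Polynomial ℤ) (hl : g.natDegree + 1 ≤ p ^ k) {e : ℕ}
    {f : ℤ⟦X⟧} (hf : clp_C p e f) :
    clp_C p (e + c) (PowerSeries.C ((p : ℤ) ^ (k + c)) * (Polynomial.aeval cls_z g * f)) := by
  have e1 : PowerSeries.C ((p : ℤ) ^ (k + c)) * (Polynomial.aeval cls_z g * f) =
      ∑ i ∈ range (g.natDegree + 1), PowerSeries.C (g.coeff i) *
        (PowerSeries.C ((p : ℤ) ^ (k + c)) * (cls_z ^ i * f)) := by
    rw [Polynomial.aeval_eq_sum_range, sum_mul, mul_sum]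
    apply sum_congr rfl
    intro i _
    rw [PowerSeries.smul_eq_C_mul]
    ring
  rw [e1]
  apply clp_C_sum
  intro i hi
  rw [mem_range] at hi
  exact clp_C_int _ (clp_C_z p c k i hp (by omega) hf)

/-- `η` -/
noncomputable def clp_eta (p : ℕ) : Polynomial ℤ :=
  ∑ i ∈ Ico 1 p, Polynomial.C (((p.choose i / p : ℕ)) : ℤ) * Polynomial.X ^ i

lemma clp_eta_deg (p : ℕ) : (clp_eta p).natDegree ≤ p - 1 := by
  unfold clp_eta
  apply Polynomial.natDegree_sum_le_of_forall_le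
  intro i hi
  rw [mem_Ico] at hi
  exact (Polynomial.natDegree_C_mul_X_pow_le _ _).trans (by omega)

lemma clp_P1 (p : ℕ) (hp : p.Prime) :
    P1 p = 1 + PowerSeries.C (p : ℤ) * Polynomial.aeval cls_z (clp_eta p) := by
  have h1 : y = 1 + cls_z := by
    have h := cls_y
    unfold cls_z
    linear_combination h
  have h2 : P1 p = (cls_z + 1) ^ p - cls_z ^ p := by
    unfold P1
    have : X ^ p * y ^ p = cls_z ^ p := by
      unfold cls_z
      rw [mul_pow]
    rw [sub_mul, one_mul, this, h1, add_comm]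
  have hp1 : 1 ≤ p := hp.one_lt.le
  rw [h2, add_pow, sum_range_succ, Finset.range_eq_Ico, sum_eq_sum_Ico_succ_bot (by omega)]
  unfold clp_eta
  rw [map_sum, mul_sum]
  simp only [one_pow, mul_one, Nat.choose_self, Nat.cast_one, Nat.choose_zero_right, pow_zero,
    zero_add]
  have h3 : ∑ i ∈ Ico 1 p, cls_z ^ i * ((p.choose i : ℕ) : ℤ⟦X⟧) =
      ∑ i ∈ Ico 1 p, PowerSeries.C (p : ℤ) * (Polynomial.aeval cls_z)
        (Polynomial.C (((p.choose i / p : ℕ)) : ℤ) * Polynomial.X ^ i) := by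
    apply sum_congr rfl
    intro i hi
    rw [mem_Ico] at hi
    have h4 : p ∣ p.choose i := hp.dvd_choose_self (by omega) hi.2
    have h5 : ((p.choose i : ℕ) : ℤ⟦X⟧) = PowerSeries.C (p : ℤ) *
        PowerSeries.C (((p.choose i / p : ℕ)) : ℤ) := by
      rw [← map_mul, ← Nat.cast_mul, Nat.mul_div_cancel' h4]
      simp
    rw [h5, map_mul, map_pow, Polynomial.aeval_C, Polynomial.aeval_X]
    have h6 : (algebraMap ℤ ℤ⟦X⟧) (((p.choose i / p : ℕ)) : ℤ) =
      PowerSeries.C (((p.choose i / p : ℕ)) : ℤ) := rfl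
    rw [h6]
    ring
  rw [h3]
  ring

/-- multiplication by `G - 1` -/
lemma clp_C_G0 {p : ℕ} (hp : p.Prime) {e : ℕ} {f : ℤ⟦X⟧} (hf : clp_C p e f) :
    clp_C p e ((P1 p - 1) * f) := by
  have h1 := clp_C_poly p 0 1 hp.one_lt (clp_eta p)
    (by have := clp_eta_deg p; have := hp.one_lt; rw [pow_one]; omega) hf
  have e1 : (P1 p - 1) * f = PowerSeries.C ((p : ℤ) ^ (1 + 0)) *
      (Polynomial.aeval cls_z (clp_eta p) * f) := by
    rw [clp_P1 p hp, add_zero, pow_one]
    ring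
  rw [e1]
  exact h1

lemma clp_C_G0pow {p : ℕ} (hp : p.Prime) (n : ℕ) {e : ℕ} {f : ℤ⟦X⟧} (hf : clp_C p e f) :
    clp_C p e ((P1 p - 1) ^ n * f) := by
  induction n with
  | zero => simpa using hf
  | succ n ih =>
    rw [pow_succ', mul_assoc]
    exact clp_C_G0 hp ih

lemma clp_C_G {p : ℕ} (hp : p.Prime) {e : ℕ} {f : ℤ⟦X⟧} (hf : clp_C p e f) :
    clp_C p e (P1 p * f) := by
  have e1 : P1 p * f = f + (P1 p - 1) * f := by ring
  rw [e1]
  exact clp_C_add hf (clp_C_G0 hp hf)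

lemma clp_C_Gpow {p : ℕ} (hp : p.Prime) (n : ℕ) {e : ℕ} {f : ℤ⟦X⟧} (hf : clp_C p e f) :
    clp_C p e (P1 p ^ n * f) := by
  induction n with
  | zero => simpa using hf
  | succ n ih =>
    rw [pow_succ', mul_assoc]
    exact clp_C_G hp ih

/-- `(1 + T)^p - 1` -/
lemma clp_expand (p : ℕ) (hp : p.Prime) (T : ℤ⟦X⟧) :
    (T + 1) ^ p - 1 = T ^ p + ∑ i ∈ Ico 1 p, PowerSeries.C (((p.choose i / p : ℕ)) : ℤ) *
      (PowerSeries.C (p : ℤ) * T ^ i) := by
  have hp1 : 1 ≤ p := hp.one_lt.le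
  rw [add_pow, sum_range_succ, Finset.range_eq_Ico, sum_eq_sum_Ico_succ_bot (by omega)]
  simp only [one_pow, mul_one, Nat.choose_self, Nat.cast_one, Nat.choose_zero_right, pow_zero,
    zero_add]
  have h3 : ∑ i ∈ Ico 1 p, T ^ i * ((p.choose i : ℕ) : ℤ⟦X⟧) =
      ∑ i ∈ Ico 1 p, PowerSeries.C (((p.choose i / p : ℕ)) : ℤ) *
      (PowerSeries.C (p : ℤ) * T ^ i) := by
    apply sum_congr rfl
    intro i hi
    rw [mem_Ico] at hi
    have h4 : p ∣ p.choose i := hp.dvd_choose_self (by omega) hi.2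
    have h5 : ((p.choose i : ℕ) : ℤ⟦X⟧) = PowerSeries.C (p : ℤ) *
        PowerSeries.C (((p.choose i / p : ℕ)) : ℤ) := by
      rw [← map_mul, ← Nat.cast_mul, Nat.mul_div_cancel' h4]
      simp
    rw [h5]
    ring
  rw [h3]
  ring

/-- `G^p - 1` gains a factor `p` -/
lemma clp_C_cube {p : ℕ} (hp : p.Prime) (hp2 : p ≠ 2) {e : ℕ} {f : ℤ⟦X⟧} (hf : clp_C p e f) :
    clp_C p (e + 1) ((P1 p ^ p - 1) * f) := by
  have hp3 : 3 ≤ p := by have := hp.two_le; omega
  have e0 : P1 p = (P1 p - 1) + 1 := by ring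
  have e1 : (P1 p ^ p - 1) * f = PowerSeries.C ((p : ℤ) ^ (p - 1 + 1)) *
      (Polynomial.aeval cls_z (clp_eta p ^ p) * f) +
      ∑ i ∈ Ico 1 p, PowerSeries.C (((p.choose i / p : ℕ)) : ℤ) *
      (PowerSeries.C (p : ℤ) * ((P1 p - 1) ^ i * f)) := by
    have h1 := clp_expand p hp (P1 p - 1)
    rw [← e0] at h1
    rw [h1, add_mul, sum_mul]
    congr 1
    · rw [clp_P1 p hp, add_sub_cancel_left, mul_pow, map_pow, map_pow,
        Nat.sub_add_cancel (by omega : 1 ≤ p)]
      ring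
    · apply sum_congr rfl
      intro i _
      ring
  rw [e1]
  apply clp_C_add
  · apply clp_C_poly p 1 (p - 1) hp.one_lt _ _ hf
    have h1 : (clp_eta p ^ p).natDegree ≤ p * (p - 1) :=
      Polynomial.natDegree_pow_le.trans (Nat.mul_le_mul_left _ (clp_eta_deg p))
    have h2 : p ^ 2 ≤ p ^ (p - 1) := Nat.pow_le_pow_right (by omega) (by omega)
    have h3 : p * (p - 1) + 1 ≤ p ^ 2 := by
      obtain ⟨s, rfl⟩ : ∃ s, p = s + 1 := ⟨p - 1, by omega⟩
      rw [Nat.add_sub_cancel]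
      nlinarith
    omega
  · apply clp_C_sum
    intro i _
    exact clp_C_int _ (clp_C_p (clp_C_G0pow hp i hf))

lemma clp_C_pow (p v : ℕ) (T : ℤ⟦X⟧)
    (hT : ∀ (e : ℕ) (f : ℤ⟦X⟧), clp_C p e f → clp_C p (e + v) (T * f)) (i : ℕ) {e : ℕ} {f : ℤ⟦X⟧}
    (hf : clp_C p e f) : clp_C p (e + i * v) (T ^ i * f) := by
  induction i with
  | zero => simpa using hf
  | succ i ih =>
    rw [pow_succ', mul_assoc]
    have := hT _ _ ih
    rwa [show e + (i + 1) * v = e + i * v + v by ring]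

lemma clp_C_ppow {p : ℕ} (hp : p.Prime) (hp2 : p ≠ 2) (v : ℕ) : ∀ (e : ℕ) (f : ℤ⟦X⟧), clp_C p e f →
    clp_C p (e + (v + 1)) ((P1 p ^ p ^ (v + 1) - 1) * f) := by
  induction v with
  | zero =>
    intro e f hf
    simpa using clp_C_cube hp hp2 hf
  | succ v ih =>
    intro e f hf
    have hp3 : 3 ≤ p := by have := hp.two_le; omega
    set T := P1 p ^ p ^ (v + 1) - 1 with hT
    have e0 : P1 p ^ p ^ (v + 1) = T + 1 := by rw [hT]; ring
    have e1 : (P1 p ^ p ^ (v + 1 + 1) - 1) * f = T ^ p * f +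
        ∑ i ∈ Ico 1 p, PowerSeries.C (((p.choose i / p : ℕ)) : ℤ) *
        (PowerSeries.C (p : ℤ) * (T ^ i * f)) := by
      rw [pow_succ p (v + 1), pow_mul, e0, clp_expand p hp T, add_mul, sum_mul]
      congr 1
      apply sum_congr rfl
      intro i _
      ring
    rw [e1]
    apply clp_C_add
    · refine clp_C_mono ?_ (clp_C_pow p (v + 1) T ih p hf)
      have : 3 * (v + 1) ≤ p * (v + 1) := Nat.mul_le_mul_right _ hp3
      omega
    · apply clp_C_sum
      intro i hi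
      rw [mem_Ico] at hi
      refine clp_C_mono ?_ (clp_C_int _ (clp_C_p (clp_C_pow p (v + 1) T ih i hf)))
      have : 1 * (v + 1) ≤ i * (v + 1) := Nat.mul_le_mul_right _ hi.1
      omega

/-- multiplication by `G ^ M - 1` -/
lemma clp_C_mul {p : ℕ} (hp : p.Prime) (hp2 : p ≠ 2) (v M : ℕ) (hM : p ^ v ∣ M) {e : ℕ}
    {f : ℤ⟦X⟧} (hf : clp_C p e f) : clp_C p (e + v) (f * (P1 p ^ M - 1)) := by
  obtain ⟨N, rfl⟩ := hM
  have hgeom : ∀ u : ℤ⟦X⟧, u ^ N - 1 = (∑ i ∈ range N, u ^ i) * (u - 1) := fun u =>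
    (geom_sum_mul u N).symm
  cases v with
  | zero =>
    have e1 : f * (P1 p ^ (p ^ 0 * N) - 1) = P1 p ^ N * f + PowerSeries.C (-1 : ℤ) * f := by
      rw [pow_zero, one_mul, map_neg, map_one]; ring
    rw [e1]
    exact clp_C_add (clp_C_Gpow hp N hf) (clp_C_int _ hf)
  | succ v =>
    rw [pow_mul, hgeom]
    have e1 : f * ((∑ i ∈ range N, (P1 p ^ p ^ (v + 1)) ^ i) * (P1 p ^ p ^ (v + 1) - 1)) =
        (P1 p ^ p ^ (v + 1) - 1) * (∑ i ∈ range N, P1 p ^ (p ^ (v + 1) * i) * f) := by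
      rw [← sum_mul]
      simp only [← pow_mul]
      ring
    rw [e1]
    exact clp_C_ppow hp hp2 v _ _ (clp_C_sum _ _ fun i _ => clp_C_Gpow hp _ hf)

theorem clgp : S_CLGp := by
  intro p e v M f hp hp2 hM hf h0 j _
  refine clp_C_mul hp hp2 v M hM (e := e) (fun i => ?_) j
  rcases Nat.eq_zero_or_pos i with hi | hi
  · subst hi
    rw [cls_mu_zero]
    simpa [cf] using h0
  · exact hf i hi

end Pool.Agent.K9h30.CP
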