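import Pool.Agent.K9h30.CP.Stm

/-!
# MP_9acee6_nt: leaves DIG and FUN (helper24, for helper30)
-/

set_option autoImplicit false

open PowerSeries Finset
open Pool.Agent.Results.MP_9acee6_nt.Four (S V Automatic geom)

namespace Pool.Agent.K9h30.CP

namespace DigLeaf

theorem ex_eq (k : ℕ) (hk : k ≠ 0) (f : ℤ⟦X⟧) : ex k f = expand k hk f := by
  ext n
  rw [coeff_expand]
  simp [ex]

theorem geom_one : geom 1 = y := by
  ext n
  simp [geom, y]

theorem expand_geom (k : ℕ) (hk : k ≠ 0) (d : ℕ) : expand k hk (geom d) = geom (k * d) := by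
  ext n
  rw [coeff_expand]
  simp only [geom, coeff_mk]
  by_cases h : k ∣ n
  · rw [if_pos h]
    congr 1
    exact propext (Nat.dvd_div_iff_mul_dvd h)
  · rw [if_neg h, if_neg (fun h2 => h ((Nat.dvd_mul_right k d).trans h2))]

theorem one_sub_mul_y : (1 - X) * y = (1 : ℤ⟦X⟧) := by
  rw [mul_comm]
  exact PowerSeries.mk_one_mul_one_sub_eq_one ℤ

theorem one_sub_mul_geom (d : ℕ) (hd : d ≠ 0) : (1 - X ^ d) * geom d = (1 : ℤ⟦X⟧) := by
  have h := congrArg (expand d hd) one_sub_mul_y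
  rw [map_mul, map_sub, map_one, expand_X, ← geom_one, expand_geom, mul_one] at h
  exact h

theorem geom_sub_one (d n : ℕ) (h : n < d) : (X : ℤ⟦X⟧) ^ (n + 1) ∣ geom d - 1 := by
  rw [X_pow_dvd_iff]
  intro m hm
  rw [map_sub, geom, coeff_mk, coeff_one]
  by_cases h0 : m = 0
  · subst h0; simp
  · rw [if_neg h0, if_neg, sub_zero]
    intro h2
    have := Nat.le_of_dvd (Nat.pos_of_ne_zero h0) h2
    omega

/-- the finite products -/
noncomputable def T (k m N : ℕ) : ℤ⟦X⟧ :=
  geom 1 ^ m * ∏ i ∈ range N, geom (k ^ i) ^ (m * (k - 1))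

theorem coeff_T_succ (k m n N : ℕ) (hk : 2 ≤ k) (hN : n + 1 ≤ N) :
    coeff n (T k m (N + 1)) = coeff n (T k m N) := by
  have h1 : T k m (N + 1) = T k m N * geom (k ^ N) ^ (m * (k - 1)) := by
    unfold T
    rw [prod_range_succ, mul_assoc]
  have h2 : n < k ^ N := by
    have : N < k ^ N := Nat.lt_pow_self (by omega)
    omega
  have h3 : (X : ℤ⟦X⟧) ^ (n + 1) ∣ geom (k ^ N) ^ (m * (k - 1)) - 1 := by
    have := sub_dvd_pow_sub_pow (geom (k ^ N)) 1 (m * (k - 1))
    rw [one_pow] at this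
    exact (geom_sub_one _ _ h2).trans this
  have h4 : (X : ℤ⟦X⟧) ^ (n + 1) ∣ T k m (N + 1) - T k m N := by
    have : T k m (N + 1) - T k m N = T k m N * (geom (k ^ N) ^ (m * (k - 1)) - 1) := by
      rw [h1]; ring
    rw [this]
    exact Dvd.dvd.mul_left h3 _
  have h5 := (X_pow_dvd_iff.mp h4) n (by omega)
  rw [map_sub] at h5
  linarith

theorem coeff_T (k m n N : ℕ) (hk : 2 ≤ k) (hN : n + 1 ≤ N) :
    coeff n (T k m N) = S k m n := by
  induction N, hN using Nat.le_induction with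
  | base => rfl
  | succ N hN ih => rw [coeff_T_succ k m n N hk hN, ih]

theorem T_succ (k m N : ℕ) (hk : 2 ≤ k) (hk0 : k ≠ 0) :
    T k m (N + 1) = ((1 - X ^ k) * y ^ k) ^ m * expand k hk0 (T k m N) := by
  unfold T
  rw [map_mul, map_pow, map_prod, expand_geom, prod_range_succ', pow_zero, mul_one]
  have h1 : ∀ i, expand k hk0 (geom (k ^ i) ^ (m * (k - 1)))
      = geom (k ^ (i + 1)) ^ (m * (k - 1)) := by
    intro i
    rw [map_pow, expand_geom, pow_succ']
  simp only [h1]
  rw [geom_one]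
  have h2 := one_sub_mul_geom k hk0
  have h3 : y ^ m * y ^ (m * (k - 1)) = ((1 - X ^ k) * y ^ k) ^ m * geom k ^ m := by
    rw [← mul_pow, mul_right_comm, h2, one_mul, ← pow_mul, ← pow_add]
    congr 1
    obtain ⟨j, rfl⟩ : ∃ j, k = j + 1 := ⟨k - 1, by omega⟩
    rw [Nat.add_sub_cancel]
    ring
  linear_combination (∏ i ∈ range N, geom (k ^ (i + 1)) ^ (m * (k - 1))) * h3

theorem funeq' (k m : ℕ) (hk : 2 ≤ k) (hk0 : k ≠ 0) :
    ser k m = ((1 - X ^ k) * y ^ k) ^ m * expand k hk0 (ser k m) := by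
  ext n
  have h1 : coeff n (ser k m) = coeff n (T k m (n + 2)) := by
    rw [ser, coeff_mk, coeff_T k m n (n + 2) hk (by omega)]
  rw [h1, T_succ k m (n + 1) hk hk0, coeff_mul, coeff_mul]
  apply sum_congr rfl
  intro x hx
  rw [HasAntidiagonal.mem_antidiagonal] at hx
  congr 1
  rw [coeff_expand, coeff_expand]
  by_cases h : k ∣ x.2
  · rw [if_pos h, if_pos h, ser, coeff_mk]
    apply coeff_T k m _ _ hk
    have := Nat.div_le_self x.2 k
    omega
  · rw [if_neg h, if_neg h]

theorem U_mul_ex (p b : ℕ) (hp : p ≠ 0) (hb : b < p) (A B : ℤ⟦X⟧) :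
    U p b (A * expand p hp B) = U p b A * B := by
  ext n
  rw [U, coeff_mk, coeff_mul, coeff_mul]
  simp only [coeff_expand, mul_ite, mul_zero]
  rw [← sum_filter]
  have hp' : 0 < p := Nat.pos_of_ne_zero hp
  symm
  apply sum_nbij' (fun z => (p * z.1 + b, p * z.2)) (fun x => (x.1 / p, x.2 / p))
  · rintro ⟨i, j⟩ h
    simp only [HasAntidiagonal.mem_antidiagonal, mem_filter] at h ⊢
    refine ⟨?_, Nat.dvd_mul_right _ _⟩
    rw [← h]; ring
  · rintro ⟨i, j⟩ h
    simp only [HasAntidiagonal.mem_antidiagonal, mem_filter] at h ⊢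
    obtain ⟨h1, c, rfl⟩ := h
    rw [Nat.mul_div_cancel_left _ hp']
    have hc : c ≤ n := by
      by_contra hcn
      have : p * (n + 1) ≤ p * c := Nat.mul_le_mul_left _ (by omega)
      rw [Nat.mul_add, mul_one] at this
      omega
    obtain ⟨d, rfl⟩ := Nat.exists_eq_add_of_le hc
    have h2 : i = b + p * d := by
      rw [Nat.mul_add] at h1
      omega
    rw [h2, Nat.add_mul_div_left _ _ hp', Nat.div_eq_of_lt hb]
    omega
  · rintro ⟨i, j⟩ h
    simp only
    rw [Nat.mul_div_cancel_left _ hp', Nat.mul_add_div hp', Nat.div_eq_of_lt hb, add_zero]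
  · rintro ⟨i, j⟩ h
    simp only [HasAntidiagonal.mem_antidiagonal, mem_filter] at h ⊢
    obtain ⟨h1, c, rfl⟩ := h
    rw [Nat.mul_div_cancel_left _ hp']
    have hc : c ≤ n := by
      by_contra hcn
      have : p * (n + 1) ≤ p * c := Nat.mul_le_mul_left _ (by omega)
      rw [Nat.mul_add, mul_one] at this
      omega
    obtain ⟨d, rfl⟩ := Nat.exists_eq_add_of_le hc
    have h2 : i = b + p * d := by
      rw [Nat.mul_add] at h1
      omega
    rw [h2, Nat.add_mul_div_left _ _ hp', Nat.div_eq_of_lt hb, zero_add, add_comm]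
  · rintro ⟨i, j⟩ h
    simp only [U, coeff_mk]
    rw [Nat.mul_div_cancel_left _ hp']

/-- the product over the remaining digits -/
noncomputable def K (p a m : ℕ) : ℕ → ℤ⟦X⟧
  | 0 => ser (p ^ a) m
  | (j + 1) => P1 p ^ (m * p ^ j) * ex p (K p a m j)

theorem K_eq (p a m : ℕ) (hp : p ≠ 0) (j : ℕ) :
    K p a m j = ((1 - X ^ p ^ j) * y ^ p ^ j) ^ m *
      expand (p ^ j) (pow_ne_zero j hp) (ser (p ^ a) m) := by
  induction j with
  | zero =>
    have h : (1 - X ^ p ^ 0) * y ^ p ^ 0 = (1 : ℤ⟦X⟧) := by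
      rw [pow_zero, pow_one, pow_one]; exact one_sub_mul_y
    rw [h, one_pow, one_mul, K]
    ext n
    rw [coeff_expand]
    simp
  | succ j ih =>
    rw [K, ih, ex_eq p hp, map_mul, map_pow, map_mul, map_pow, map_sub, map_one, map_pow, expand_X,
      ← expand_mul p hp (p ^ j) (pow_ne_zero j hp), ← geom_one, expand_geom, mul_one, geom_one]
    have e1 : expand (p * p ^ j) (p.mul_ne_zero hp (pow_ne_zero j hp)) (ser (p ^ a) m)
        = expand (p ^ (j + 1)) (pow_ne_zero (j + 1) hp) (ser (p ^ a) m) := by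
      ext n
      rw [coeff_expand, coeff_expand, pow_succ']
    rw [e1, ← mul_assoc]
    congr 1
    rw [mul_comm m, pow_mul, ← mul_pow]
    congr 1
    unfold P1
    have h2 := one_sub_mul_geom p hp
    have h3 : (1 - X ^ p) ^ p ^ j * geom p ^ p ^ j = (1 : ℤ⟦X⟧) := by
      rw [← mul_pow, h2, one_pow]
    rw [mul_pow, ← pow_mul, ← pow_mul, ← pow_succ']
    linear_combination ((1 - X ^ p ^ (j + 1)) * y ^ p ^ (j + 1)) * h3

theorem K_a (p a m : ℕ) (hp : p.Prime) (ha : 1 ≤ a) : K p a m a = ser (p ^ a) m := by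
  rw [K_eq p a m hp.ne_zero a]
  have hk : 2 ≤ p ^ a := hp.two_le.trans (Nat.le_self_pow (by omega) p)
  exact (funeq' (p ^ a) m hk (pow_ne_zero a hp.ne_zero)).symm

/-- the product over the remaining digits after `i` digits -/
noncomputable def H (p a m i : ℕ) : ℤ⟦X⟧ := K p a m (a - i % a)

theorem H_succ (p a m : ℕ) (hp : p.Prime) (ha : 1 ≤ a) (i : ℕ) :
    H p a m i = P1 p ^ (m * p ^ (a - 1 - i % a)) * expand p hp.ne_zero (H p a m (i + 1)) := by
  have hlt : i % a < a := Nat.mod_lt _ (by omega)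
  unfold H
  obtain ⟨j, hj⟩ : ∃ j, a - i % a = j + 1 := ⟨a - i % a - 1, by omega⟩
  have hj' : a - 1 - i % a = j := by omega
  rw [hj, hj', K, ex_eq p hp.ne_zero]
  congr 2
  by_cases h : i % a + 1 = a
  · have h1 : (i + 1) % a = 0 := by
      rw [Nat.add_mod]
      by_cases h2 : a = 1
      · subst h2; exact Nat.mod_one _
      · rw [Nat.mod_eq_of_lt (show 1 < a by omega), h, Nat.mod_self]
    have h2 : j = 0 := by omega
    rw [h1, Nat.sub_zero, K_a p a m hp ha, h2, K]
  · have h1 : (i + 1) % a = i % a + 1 := by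
      rw [Nat.add_mod, Nat.mod_eq_of_lt (show 1 < a by omega), Nat.mod_eq_of_lt (by omega)]
    rw [h1]
    congr 1
    omega

theorem inv (p a m : ℕ) (hp : p.Prime) (ha : 1 ≤ a) (b : ℕ → ℕ) (hb : ∀ i, b i < p) (i : ℕ) :
    ∀ t, S (p ^ a) m (∑ l ∈ range i, b l * p ^ l + p ^ i * t) =
      coeff t (run p a m b i * H p a m i) := by
  induction i with
  | zero =>
    intro t
    rw [run, one_mul, H, Nat.zero_mod, Nat.sub_zero, K_a p a m hp ha, ser, coeff_mk]
    simp
  | succ i ih =>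
    intro t
    have h1 : ∑ l ∈ range (i + 1), b l * p ^ l + p ^ (i + 1) * t
        = ∑ l ∈ range i, b l * p ^ l + p ^ i * (p * t + b i) := by
      rw [sum_range_succ]; ring
    rw [h1, ih, H_succ p a m hp ha i, ← mul_assoc, run,
      ← U_mul_ex p (b i) hp.ne_zero (hb i), U, coeff_mk]

theorem ser_zero (k m : ℕ) : coeff 0 (ser k m) = 1 := by
  rw [ser, coeff_mk, S, coeff_zero_eq_constantCoeff_apply, map_mul, map_pow, map_prod]
  have h : ∀ d, constantCoeff (geom d) = 1 := by
    intro d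
    rw [← coeff_zero_eq_constantCoeff_apply, geom, coeff_mk]
    simp
  simp [h]

theorem y_zero : constantCoeff y = (1 : ℤ) := by
  rw [← coeff_zero_eq_constantCoeff_apply, y]
  simp

theorem H_zero (p a m : ℕ) (hp : p.Prime) (i : ℕ) : constantCoeff (H p a m i) = 1 := by
  unfold H
  have h : ∀ j, constantCoeff (K p a m j) = 1 := by
    intro j
    rw [K_eq p a m hp.ne_zero j, map_mul, constantCoeff_expand, map_pow, map_mul, map_pow, y_zero]
    have := ser_zero (p ^ a) m
    rw [coeff_zero_eq_constantCoeff_apply] at this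
    rw [this]
    simp [hp.ne_zero]
  exact h _

end DigLeaf

open DigLeaf in
/-- FUN -/
theorem funeq : S_FUN := by
  intro k m hk
  rw [ex_eq k (by omega)]
  exact funeq' k m hk (by omega)

theorem fun_eq : S_FUN := funeq

open DigLeaf in
/-- DIG -/
theorem dig : S_DIG := by
  intro p a m hp ha
  constructor
  · intro b hb i
    have h := inv p a m hp ha b hb i 0
    rw [mul_zero, add_zero] at h
    rw [h, coeff_zero_eq_constantCoeff_apply, map_mul, H_zero p a m hp i, mul_one,
      coeff_zero_eq_constantCoeff_apply]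
  · intro t
    have h := inv p a m hp ha (fun _ => 0) (fun _ => hp.pos) a t
    simp only [zero_mul, sum_const_zero, zero_add] at h
    rw [h, H, Nat.mod_self, Nat.sub_zero, K_a p a m hp ha]

end Pool.Agent.K9h30.CP
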