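import Pool.Agent.K9h30.CP.Stm

/-!
# MP_9acee6_nt: a further statement (helper30)
-/

set_option autoImplicit false

open PowerSeries Finset

namespace Pool.Agent.K9h30.CP

/-- G3: `G^M - 1 = ∑_{l ≥ 1} binom(M,l) 3^l Z^l`, `Z = x/(1-x)^2`, `Z^l = ∑ binom(t+l-1, 2l-1) x^t`; the terms
with `l ≥ 4` are in the class of exponent `v + 2` -/
def S_G3 : Prop := ∀ v M : ℕ, 3 ^ v ∣ M → CL (v + 2) fun t =>
  coeff t (P1 3 ^ M - 1) - (3 * (M : ℤ) * t + 9 * (M.choose 2 : ℤ) * ((t + 1).choose 3 : ℤ) +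
    27 * (M.choose 3 : ℤ) * ((t + 2).choose 5 : ℤ))

end Pool.Agent.K9h30.CP
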