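import Pool.Agent.K9h30.CP.Mu
import Pool.Agent.K9h30.CP.Stm2

/-!
# MP_9acee6_nt: INI2 (helper30)
-/

set_option autoImplicit false

open PowerSeries Finset

namespace Pool.Agent.K9h30.CP

theorem mu_choose (j : ℕ) : ∀ i, mu j (fun t => ((t.choose i : ℕ) : ℤ)) =
    if j = i then 1 else 0 := by
  induction j with
  | zero =>
    intro i
    rw [mu_zero]
    rcases i with _ | i <;> simp
  | succ j ih =>
    intro i
    rw [mu_succ]
    rcases i with _ | i
    · simp [mu]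
    · have : (fun n : ℕ => (((n+1).choose (i+1) : ℕ) : ℤ) - ((n.choose (i+1) : ℕ) : ℤ)) =
          fun n => ((n.choose i : ℕ) : ℤ) := by
        funext n
        rw [Nat.choose_succ_succ]
        push_cast
        ring
      rw [this, ih i]
      simp

theorem choose_int (n k : ℕ) :
    ((n.choose (k + 1) : ℕ) : ℤ) * (k + 1) = (n.choose k : ℕ) * ((n : ℤ) - k) := by
  rcases Nat.lt_or_ge n k with h | h
  · rw [Nat.choose_eq_zero_of_lt h, Nat.choose_eq_zero_of_lt (by omega)]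
    simp
  · have := Nat.choose_succ_right_eq n k
    have h2 : ((n - k : ℕ) : ℤ) = (n : ℤ) - k := by push_cast [h]; ring
    rw [← h2]
    exact_mod_cast this

theorem ch2 (n : ℕ) : 2 * ((n.choose 2 : ℕ) : ℤ) = n * (n - 1) := by
  have h := choose_int n 1
  simp only [Nat.choose_one_right] at h
  push_cast at h
  linarith

theorem ch3 (n : ℕ) : 6 * ((n.choose 3 : ℕ) : ℤ) = n * (n - 1) * (n - 2) := by
  have h := choose_int n 2
  have h2 := ch2 n
  push_cast at h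
  linear_combination 2 * h + ((n : ℤ) - 2) * h2

theorem ch4 (n : ℕ) : 24 * ((n.choose 4 : ℕ) : ℤ) = n * (n - 1) * (n - 2) * (n - 3) := by
  have h := choose_int n 3
  have h2 := ch3 n
  push_cast at h
  linear_combination 6 * h + ((n : ℤ) - 3) * h2

theorem ch5 (n : ℕ) : 120 * ((n.choose 5 : ℕ) : ℤ) =
    n * (n - 1) * (n - 2) * (n - 3) * (n - 4) := by
  have h := choose_int n 4
  have h2 := ch4 n
  push_cast at h
  linear_combination 24 * h + ((n : ℤ) - 4) * h2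

theorem c32 (t : ℕ) : (((3 * t + 1 + 1).choose 3 : ℕ) : ℤ) =
    10 * (t.choose 1 : ℕ) + 36 * (t.choose 2 : ℕ) + 27 * (t.choose 3 : ℕ) := by
  have h1 := ch3 (3 * t + 1 + 1)
  have h2 := ch2 t
  have h3 := ch3 t
  push_cast at h1
  simp only [Nat.choose_one_right]
  linarith

theorem c33 (t : ℕ) : (((3 * t + 1 + 2).choose 5 : ℕ) : ℤ) =
    6 * (t.choose 1 : ℕ) + 114 * (t.choose 2 : ℕ) + 432 * (t.choose 3 : ℕ) +
      567 * (t.choose 4 : ℕ) + 243 * (t.choose 5 : ℕ) := by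
  have h1 := ch5 (3 * t + 1 + 2)
  have h2 := ch2 t
  have h3 := ch3 t
  have h4 := ch4 t
  have h5 := ch5 t
  push_cast at h1
  simp only [Nat.choose_one_right]
  linarith

theorem U_add (p b : ℕ) (f g : ℤ⟦X⟧) : U p b (f + g) = U p b f + U p b g := by
  ext n; simp [U]

theorem U_sub (p b : ℕ) (f g : ℤ⟦X⟧) : U p b (f - g) = U p b f - U p b g := by
  ext n; simp [U]

theorem U_coeff_zero (p : ℕ) (f : ℤ⟦X⟧) : coeff 0 (U p 0 f) = coeff 0 f := by
  simp [U]

theorem cf_add (f g : ℤ⟦X⟧) : cf (f + g) = fun n => cf f n + cf g n := by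
  funext n; simp [cf]

theorem cf_sub (f g : ℤ⟦X⟧) : cf (f - g) = fun n => cf f n - cf g n := by
  funext n; simp [cf]

theorem coeff_mul_zero (f g : ℤ⟦X⟧) : coeff 0 (f * g) = coeff 0 f * coeff 0 g := by
  simp [coeff_zero_eq_constantCoeff_apply]

theorem CL_U (clu : S_CLU) {e b : ℕ} (hb : b < 3) {f : ℤ⟦X⟧} (h : CL e (cf f)) :
    CL (e + 1) (cf (U 3 b f)) := by
  rw [cf_U]
  exact clu e b (cf f) hb h

theorem chain (clu : S_CLU) (clg : S_CLG) (ini1 : S_INI1) (a m w : ℕ) (hw : 1 ≤ w)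
    (ha : a = w + 2) (hm : 3 ^ w ∣ m) (hm0 : 1 ≤ m) (b : ℕ → ℕ) (hb : ∀ i < a, b i = 0) :
    ∀ i, i < a →
      CL (2 * (w + (a - 1 - i)) + 5)
        (cf (run 3 a m b (i + 1) - U 3 0 (P1 3 ^ (m * 3 ^ (a - 1 - i))))) ∧
      coeff 0 (run 3 a m b (i + 1)) = 1 := by
  intro i
  induction i with
  | zero =>
    intro h0
    have e : run 3 a m b (0 + 1) = U 3 0 (P1 3 ^ (m * 3 ^ (a - 1 - 0))) := by
      simp only [run, one_mul, Nat.zero_mod, hb 0 h0]
    rw [e]
    refine ⟨?_, ?_⟩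
    · rw [sub_self]
      have : cf (0 : ℤ⟦X⟧) = fun _ => 0 := by funext n; simp [cf]
      rw [this]
      exact CL_const _ _
    · rw [U_coeff_zero, P1_pow_zero 3 _ (by norm_num)]
  | succ i ih =>
    intro hi
    obtain ⟨h1, h2⟩ := ih (by omega)
    set M := m * 3 ^ (a - 1 - (i + 1)) with hM
    set A := run 3 a m b (i + 1) with hA
    have e : run 3 a m b (i + 1 + 1) = U 3 0 (A * P1 3 ^ M) := by
      rw [run, hb (i + 1) hi, Nat.mod_eq_of_lt hi]
    have hv : 3 ^ (w + (a - 1 - i)) ∣ m * 3 ^ (a - 1 - i) := by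
      rw [pow_add]
      exact mul_dvd_mul_right hm _
    have hE : CL (2 * (w + (a - 1 - i)) + 2) (cf (A - 1)) := by
      have h3 := (ini1 (w + (a - 1 - i)) (m * 3 ^ (a - 1 - i)) (by omega)
        (Nat.mul_pos hm0 (by positivity)) hv).1
      have h4 := CL_add (CL_mono (by omega : 2 * (w + (a - 1 - i)) + 2 ≤
        2 * (w + (a - 1 - i)) + 5) h1) h3
      convert h4 using 1
      funext n
      simp [cf]
    have hE0 : coeff 0 (A - 1) = 0 := by
      rw [map_sub, h2]; simp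
    have hEG : CL (2 * (w + (a - 1 - i)) + 2) (cf ((A - 1) * (P1 3 ^ M - 1))) := by
      have := clg _ 0 M (A - 1) (by simp) hE (by rw [hE0]; exact dvd_zero _)
      simpa using this
    refine ⟨?_, ?_⟩
    · have hs : CL (2 * (w + (a - 1 - i)) + 2) (cf ((A - 1) + (A - 1) * (P1 3 ^ M - 1))) := by
        rw [cf_add]
        exact CL_add hE hEG
      have hs2 := CL_U clu (b := 0) (by norm_num) hs
      have e3 : run 3 a m b (i + 1 + 1) - U 3 0 (P1 3 ^ M) =
          U 3 0 ((A - 1) + (A - 1) * (P1 3 ^ M - 1)) := by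
        rw [e, ← U_sub]
        congr 1
        ring
      rw [e3]
      refine CL_mono ?_ hs2
      omega
    · rw [e, U_coeff_zero, coeff_mul_zero, h2, P1_pow_zero 3 _ (by norm_num), mul_one]

theorem dvd4 {e : ℕ} {x : ℤ} (h : (3 : ℤ) ^ e ∣ 4 * x) : (3 : ℤ) ^ e ∣ x := by
  have : IsCoprime ((3 : ℤ) ^ e) 4 := IsCoprime.pow_left ⟨-1, 1, by norm_num⟩
  exact this.dvd_of_dvd_mul_left h

theorem dvd2 {e : ℕ} {x : ℤ} (h : (3 : ℤ) ^ e ∣ 2 * x) : (3 : ℤ) ^ e ∣ x := by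
  have : IsCoprime ((3 : ℤ) ^ e) 2 := IsCoprime.pow_left ⟨1, -1, by norm_num⟩
  exact this.dvd_of_dvd_mul_left h

/-- a combination of binomial coefficients -/
def bin6 (k : ℕ → ℤ) : ℕ → ℤ := fun t => k 0 * ((t.choose 0 : ℕ) : ℤ) +
  (k 1 * ((t.choose 1 : ℕ) : ℤ) + (k 2 * ((t.choose 2 : ℕ) : ℤ) + (k 3 * ((t.choose 3 : ℕ) : ℤ) +
    (k 4 * ((t.choose 4 : ℕ) : ℤ) + k 5 * ((t.choose 5 : ℕ) : ℤ)))))

theorem mu_bin6 (k : ℕ → ℤ) (j : ℕ) : mu j (bin6 k) = if j ≤ 5 then k j else 0 := by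
  unfold bin6
  rw [mu_add, mu_add, mu_add, mu_add, mu_add]
  simp only [mu_smul, mu_choose]
  by_cases h : j ≤ 5
  · rw [if_pos h]
    interval_cases j <;> simp
  · rw [if_neg h]
    have h0 : j ≠ 0 := by omega
    have h1 : j ≠ 1 := by omega
    have h2 : j ≠ 2 := by omega
    have h3 : j ≠ 3 := by omega
    have h4 : j ≠ 4 := by omega
    have h5 : j ≠ 5 := by omega
    simp [h0, h1, h2, h3, h4, h5]

theorem ini2 (clu : S_CLU) (clg : S_CLG) (ini1 : S_INI1) (g3 : S_G3) : S_INI2 := by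
  intro a m ha hm
  obtain ⟨w, rfl⟩ : ∃ w, a = w + 2 := ⟨a - 2, by omega⟩
  have hw : 1 ≤ w := by omega
  have e1 : w + 2 - 2 = w := by omega
  have e2 : w + 2 - 1 = w + 1 := by omega
  rw [e1, e2] at hm
  rw [e1]
  set b : ℕ → ℕ := fun i => if i = w + 2 then 1 else 0 with hb
  obtain ⟨q, hq⟩ : ∃ q, m = 3 ^ w * (3 * q + 1) := by
    refine ⟨m / 3 ^ (w + 1), ?_⟩
    have := Nat.div_add_mod m (3 ^ (w + 1))
    rw [hm] at this
    calc m = 3 ^ (w + 1) * (m / 3 ^ (w + 1)) + 3 ^ w := this.symm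
      _ = _ := by ring
  have hm1 : 1 ≤ m := by rw [hq]; exact Nat.mul_pos (by positivity) (by omega)
  have hmw : 3 ^ w ∣ m := ⟨_, hq⟩
  have hb0 : ∀ i < w + 2, b i = 0 := fun i hi => by simp [hb, Nat.ne_of_lt hi]
  obtain ⟨hD, hA0⟩ := chain clu clg ini1 (w + 2) m w hw rfl hmw hm1 b hb0 (w + 1) (by omega)
  have e3 : w + 2 - 1 - (w + 1) = 0 := by omega
  rw [e3, pow_zero, mul_one, add_zero] at hD
  have hI := (ini1 w m hw hm1 hmw).2
  have hI1 := (ini1 w m hw hm1 hmw).1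
  set M := m * 3 ^ (w + 1) with hM
  have hMv : 3 ^ (2 * w + 1) ∣ M := by
    have : 3 ^ (2 * w + 1) = 3 ^ w * 3 ^ (w + 1) := by ring
    rw [this]
    exact mul_dvd_mul_right hmw _
  have hR := g3 (2 * w + 1) M hMv
  have hrun : run 3 (w + 2) m b (w + 2 + 1) = U 3 1 (run 3 (w + 2) m b (w + 1 + 1) * P1 3 ^ M) := by
    rw [run]
    have : b (w + 2) = 1 := by simp [hb]
    rw [this, Nat.mod_self, Nat.sub_zero, e2]
  rw [hrun]
  set A := run 3 (w + 2) m b (w + 1 + 1) with hA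
  have hE : CL (2 * w + 2) (cf (A - 1)) := by
    have h4 := CL_add (CL_mono (by omega : 2 * w + 2 ≤ 2 * w + 5) hD) hI1
    convert h4 using 1
    funext n
    simp [cf]
  have hE0 : coeff 0 (A - 1) = 0 := by
    rw [map_sub, hA0]; simp
  have hQ : CL (2 * w + 3) (cf ((A - 1) * (P1 3 ^ M - 1))) := by
    have := clg _ (2 * w + 1) M (A - 1) hMv hE (by rw [hE0]; exact dvd_zero _)
    exact CL_mono (by omega) this
  have four : ∀ {f : ℕ → ℤ}, CL (2 * w + 3) f → CL (2 * w + 3) fun n => 4 * f n := by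
    intro f hf
    have := CL_smul (i := 0) (c := 4) (by simp) hf
    simpa using this
  -- the small part
  set ρ : ℕ → ℤ := fun n => (4 * cf (A - U 3 0 (P1 3 ^ m)) n +
    (4 * coeff n (U 3 0 (P1 3 ^ m) - 1) + 9 * (m : ℤ) ^ 2 * n)) +
    (4 * (coeff n (P1 3 ^ M - 1) - (3 * (M : ℤ) * n + 9 * (M.choose 2 : ℤ) * ((n + 1).choose 3 : ℤ) +
    27 * (M.choose 3 : ℤ) * ((n + 2).choose 5 : ℤ))) +
    4 * cf ((A - 1) * (P1 3 ^ M - 1)) n) with hρ
  have hρc : CL (2 * w + 3) ρ := by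
    apply CL_add
    · apply CL_add
      · exact four (CL_mono (by omega) hD)
      · exact hI
    · apply CL_add
      · exact four (CL_mono (by omega) hR)
      · exact four hQ
  have hρ0 : ρ 0 = 0 := by
    have h1 : coeff 0 (P1 3 ^ M) = 1 := P1_pow_zero 3 _ (by norm_num)
    have h2 : coeff 0 (P1 3 ^ m) = 1 := P1_pow_zero 3 _ (by norm_num)
    have h3 : coeff 0 (U 3 0 (P1 3 ^ m)) = 1 := by rw [U_coeff_zero, h2]
    have h4 : coeff 0 (1 : ℤ⟦X⟧) = 1 := by simp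
    simp only [hρ, cf, map_sub, h1, h3, hA0, coeff_mul_zero, h4]
    simp [Nat.choose]
  have hρu := clu _ 1 ρ (by norm_num) hρc
  have hρv := CL_val hρc (by rw [hρ0]; exact dvd_zero _)
  -- the polynomial part
  set c2 : ℤ := ((M.choose 2 : ℕ) : ℤ) with hc2
  set c3 : ℤ := ((M.choose 3 : ℕ) : ℤ) with hc3
  set k : ℕ → ℤ := fun j => if j = 0 then 12 * (M : ℤ) - 9 * (m : ℤ) ^ 2 else
    if j = 1 then 36 * (M : ℤ) - 27 * (m : ℤ) ^ 2 + 360 * c2 + 648 * c3 else
    if j = 2 then 1296 * c2 + 12312 * c3 else if j = 3 then 972 * c2 + 46656 * c3 else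
    if j = 4 then 61236 * c3 else if j = 5 then 26244 * c3 else 0 with hk
  have main : (fun t => 4 * cf (U 3 1 (A * P1 3 ^ M)) t) = fun t => ρ (3 * t + 1) + bin6 k t := by
    funext t
    have h1 : cf (U 3 1 (A * P1 3 ^ M)) t = coeff (3 * t + 1) (A - U 3 0 (P1 3 ^ m)) +
        coeff (3 * t + 1) (U 3 0 (P1 3 ^ m) - 1) + coeff (3 * t + 1) (P1 3 ^ M - 1) +
        coeff (3 * t + 1) ((A - 1) * (P1 3 ^ M - 1)) := by
      rw [cf_U, ← map_add, ← map_add, ← map_add]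
      have : A - U 3 0 (P1 3 ^ m) + (U 3 0 (P1 3 ^ m) - 1) + (P1 3 ^ M - 1) +
          (A - 1) * (P1 3 ^ M - 1) = A * P1 3 ^ M - 1 := by ring
      rw [this]
      simp only [cf, map_sub]
      simp [coeff_one]
    rw [h1]
    simp only [hρ, bin6, hk, cf]
    rw [c32, c33]
    simp only [Nat.choose_one_right, Nat.choose_zero_right]
    push_cast
    norm_num
    ring
  have hmu : ∀ j, 4 * mu j (cf (U 3 1 (A * P1 3 ^ M))) = mu j (fun t => ρ (3 * t + 1)) +
      (if j ≤ 5 then k j else 0) := by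
    intro j
    rw [← mu_smul, main, mu_add, mu_bin6]
  -- the numbers
  set T : ℤ := 3 ^ (2 * w) with hT
  set u : ℤ := 3 * q + 1 with hu
  have hT1 : (3 : ℤ) ^ (2 * w + 1) = 3 * T := by rw [hT]; ring
  have hT3 : (3 : ℤ) ^ (2 * w + 3) = 27 * T := by rw [hT]; ring
  have hT4 : (3 : ℤ) ^ (2 * w + 4) = 81 * T := by rw [hT]; ring
  have hT5 : (3 : ℤ) ^ (2 * w + 5) = 243 * T := by rw [hT]; ring
  have hT0 : T ≠ 0 := by rw [hT]; positivity
  have hmm : (m : ℤ) ^ 2 = T * u ^ 2 := by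
    rw [hq, hT, hu]; push_cast; ring
  have hMM : (M : ℤ) = 3 * T * u := by
    rw [hM, hq, hT, hu]; push_cast; ring
  obtain ⟨c2', hc2'⟩ : 3 * T ∣ c2 := by
    rw [← hT1]
    apply dvd2
    rw [hT1, hc2, ch2, hMM]
    exact ⟨u * (3 * T * u - 1), by ring⟩
  obtain ⟨c3', hc3'⟩ : T ∣ c3 := by
    rw [hT]
    apply dvd2
    have := ch3 M
    rw [← hc3, hMM] at this
    rw [← hT]
    exact ⟨u * (3 * T * u - 1) * (3 * T * u - 2), by linarith⟩
  have h2c : 2 * c2' = u * (3 * T * u - 1) := by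
    have h := ch2 M
    rw [← hc2, hc2', hMM] at h
    have h3 : (3 * T) * (2 * c2') = (3 * T) * (u * (3 * T * u - 1)) := by linarith
    exact mul_left_cancel₀ (by positivity) h3
  have hk1 : k 1 = 27 * T * (4 * u - u ^ 2 + 20 * (u * (3 * T * u - 1)) + 24 * c3') := by
    have : k 1 = 36 * (M : ℤ) - 27 * (m : ℤ) ^ 2 + 360 * c2 + 648 * c3 := by simp [hk]
    rw [this, hmm, hMM, hc2', hc3', ← h2c]
    ring
  have hn3 : ¬ (3 : ℤ) ∣ (4 * u - u ^ 2 + 20 * (u * (3 * T * u - 1)) + 24 * c3') := by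
    rw [hu]
    rintro ⟨x, hx⟩
    ring_nf at hx
    omega
  have hρ1 := hρu 1 le_rfl
  simp only [Nat.log_one_right, add_zero] at hρ1
  have hm1' := hmu 1
  rw [if_pos (by norm_num), hk1] at hm1'
  refine ⟨?_, ?_, ?_, ?_⟩
  · apply dvd4
    have h0 := hmu 0
    rw [mu_zero, mu_zero, if_pos (by norm_num)] at h0
    have : k 0 = 12 * (M : ℤ) - 9 * (m : ℤ) ^ 2 := by simp [hk]
    rw [this, hmm, hMM] at h0
    change (3 : ℤ) ^ (2 * w + 3) ∣ 4 * cf (U 3 1 (A * P1 3 ^ M)) 0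
    rw [h0]
    apply dvd_add (hρv _)
    rw [hT3]
    refine ⟨u * (1 - q), ?_⟩
    rw [hu]; ring
  · apply dvd4
    rw [hm1']
    apply dvd_add
    · exact (pow_dvd_pow 3 (by omega)).trans hρ1
    · rw [hT3]; exact dvd_mul_right _ _
  · intro hc
    have h1 : (3 : ℤ) ^ (2 * w + 3 + 1) ∣ 4 * mu 1 (cf (U 3 1 (A * P1 3 ^ M))) :=
      Dvd.dvd.mul_left hc 4
    rw [hm1'] at h1
    have h2 := (Int.dvd_add_right hρ1).mp h1
    rw [hT4] at h2
    apply hn3
    obtain ⟨x, hx⟩ := h2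
    refine ⟨x, ?_⟩
    have h3 : (27 * T) * (4 * u - u ^ 2 + 20 * (u * (3 * T * u - 1)) + 24 * c3') =
        (27 * T) * (3 * x) := by linarith
    exact mul_left_cancel₀ (by positivity) h3
  · intro j hj
    apply dvd4
    rw [hmu j]
    apply dvd_add
    · exact hρu j (by omega)
    · by_cases h5 : j ≤ 5
      · rw [if_pos h5]
        interval_cases j
        · have hl : Nat.log 3 2 = 0 := by norm_num
          have : k 2 = 1296 * c2 + 12312 * c3 := by simp [hk]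
          rw [hl, this, hc2', hc3', add_zero, hT4]
          exact ⟨48 * c2' + 152 * c3', by ring⟩
        · have hl : Nat.log 3 3 = 1 := by norm_num
          have : k 3 = 972 * c2 + 46656 * c3 := by simp [hk]
          rw [hl, this, hc2', hc3', hT5]
          exact ⟨12 * c2' + 192 * c3', by ring⟩
        · have hl : Nat.log 3 4 = 1 := by norm_num
          have : k 4 = 61236 * c3 := by simp [hk]
          rw [hl, this, hc3', hT5]
          exact ⟨252 * c3', by ring⟩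
        · have hl : Nat.log 3 5 = 1 := by norm_num
          have : k 5 = 26244 * c3 := by simp [hk]
          rw [hl, this, hc3', hT5]
          exact ⟨108 * c3', by ring⟩
      · rw [if_neg h5]
        exact dvd_zero _

end Pool.Agent.K9h30.CP
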