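import Pool.Agent.K9h30.CP.Aut
import Pool.Agent.K9h30.CP.Ini2

/-!
# MP_9acee6_nt: FORM (helper30)
-/

set_option autoImplicit false

open PowerSeries Finset
open Pool.Agent.Results.MP_9acee6_nt.Four (S V Automatic geom)

namespace Pool.Agent.K9h30.CP

/-- all coefficients divisible by `d` -/
def Dv (d : ℤ) (f : ℤ⟦X⟧) : Prop := ∀ n, d ∣ coeff n f

theorem Dv_mul {d e : ℤ} {f g : ℤ⟦X⟧} (hf : Dv d f) (hg : Dv e g) : Dv (d * e) (f * g) := by
  intro n
  rw [coeff_mul]
  exact dvd_sum fun x _ => mul_dvd_mul (hf _) (hg _)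

theorem Dv_mul_right {d : ℤ} {f : ℤ⟦X⟧} (hf : Dv d f) (g : ℤ⟦X⟧) : Dv d (f * g) := by
  have := Dv_mul hf (fun n => one_dvd (coeff n g))
  rwa [mul_one] at this

theorem Dv_U {d : ℤ} {f : ℤ⟦X⟧} (hf : Dv d f) (p b : ℕ) : Dv d (U p b f) := by
  intro n
  simp only [U, coeff_mk]
  exact hf _

theorem Dv_mono {d e : ℤ} (h : e ∣ d) {f : ℤ⟦X⟧} (hf : Dv d f) : Dv e f := fun n => h.trans (hf n)

theorem Dv_add {d : ℤ} {f g : ℤ⟦X⟧} (hf : Dv d f) (hg : Dv d g) : Dv d (f + g) := fun n => by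
  rw [map_add]; exact dvd_add (hf n) (hg n)

/-- exact valuation -/
def Val (p : ℕ) (e : ℕ) (x : ℤ) : Prop := (p : ℤ) ^ e ∣ x ∧ ¬ (p : ℤ) ^ (e + 1) ∣ x

theorem Val_add {p e : ℕ} {x y : ℤ} (h : Val p e x) (hy : (p : ℤ) ^ (e + 1) ∣ y) :
    Val p e (x + y) :=
  ⟨dvd_add h.1 ((pow_dvd_pow _ (by omega)).trans hy), fun hc => h.2 ((Int.dvd_add_left hy).mp hc)⟩

theorem Val_emul {p e : ℕ} {x : ℤ} (h : Val p e x) : emultiplicity (p : ℤ) x = (e : ℕ∞) :=
  emultiplicity_eq_coe.mpr h

theorem U_bound (u0 : S_U0) (p v μ : ℕ) (hp : p.Prime) (hp2 : p ≠ 2) (hμ : 1 ≤ μ) (hμp : ¬ p ∣ μ) :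
    Dv ((p : ℤ) ^ (2 * v + 2)) (U p 0 (P1 p ^ (p ^ v * μ)) - 1) := by
  intro n
  rcases Nat.eq_zero_or_pos n with rfl | hn
  · rw [map_sub, U_coeff_zero, P1_pow_zero p _ hp.ne_zero]
    simp
  · have h1 : coeff n (1 : ℤ⟦X⟧) = 0 := by rw [coeff_one, if_neg (by omega)]
    rw [map_sub, h1, sub_zero]
    obtain ⟨a1, a2, a3⟩ := u0 p v μ n hp hp2 hμ hμp hn
    by_cases h5 : 5 ≤ p
    · exact (pow_dvd_pow _ (by omega)).trans (a1 h5)
    · have h3 : p = 3 := by
        have := hp.two_le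
        interval_cases p
        · exact absurd rfl hp2
        · rfl
        · exact absurd hp (by decide)
      subst h3
      by_cases hv : 1 ≤ v
      · have h4 := a2 rfl hv
        have h6 : (3 : ℤ) ^ (2 * v + 2) ∣ 3 ^ (2 * v + 2) * μ ^ 2 * n :=
          ⟨μ ^ 2 * n, by ring⟩
        have h5 := (pow_dvd_pow (3 : ℤ) (by omega : 2 * v + 2 ≤ 2 * v + 3)).trans h4
        exact_mod_cast (Int.dvd_add_left h6).mp h5
      · have hv0 : v = 0 := by omega
        subst hv0
        have h4 := a3 rfl rfl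
        have h6 : (9 : ℤ) ∣ 9 * (μ ^ 2 + μ) * n := ⟨(μ ^ 2 + μ) * n, by ring⟩
        have h5 : (9 : ℤ) ∣ coeff n (U 3 0 (P1 3 ^ μ)) + 9 * (μ ^ 2 + μ) * n :=
          (by norm_num : (9 : ℤ) ∣ 27).trans h4
        have h7 := (Int.dvd_add_left h6).mp h5
        simpa using h7

/-- the first block -/
theorem A_bound (u0 : S_U0) (p a v μ : ℕ) (hp : p.Prime) (hp2 : p ≠ 2) (hμ : 1 ≤ μ)
    (hμp : ¬ p ∣ μ) : ∀ r, r < a →
    Dv ((p : ℤ) ^ (2 * (v + (a - 1 - r)) + 4)) (run p a (p ^ v * μ) (fun _ => 0) (r + 1) -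
      U p 0 (P1 p ^ (p ^ (v + (a - 1 - r)) * μ))) := by
  intro r
  have hM : ∀ r, p ^ v * μ * p ^ (a - 1 - r) = p ^ (v + (a - 1 - r)) * μ := by
    intro r
    rw [pow_add]; ring
  induction r with
  | zero =>
    intro h0 n
    have e : run p a (p ^ v * μ) (fun _ => 0) (0 + 1) =
        U p 0 (P1 p ^ (p ^ (v + (a - 1 - 0)) * μ)) := by
      simp only [run, one_mul, Nat.zero_mod, hM]
    rw [e, sub_self]
    simp
  | succ r ih =>
    intro hr
    have h1 := ih (by omega)
    have h2 := U_bound u0 p (v + (a - 1 - r)) μ hp hp2 hμ hμp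
    have h3 : Dv ((p : ℤ) ^ (2 * (v + (a - 1 - r)) + 2))
        (run p a (p ^ v * μ) (fun _ => 0) (r + 1) - 1) := by
      have := Dv_add (Dv_mono (pow_dvd_pow (p : ℤ) (by omega :
        2 * (v + (a - 1 - r)) + 2 ≤ 2 * (v + (a - 1 - r)) + 4)) h1) h2
      convert this using 1
      ring
    have h4 := Dv_U (Dv_mul_right h3 (P1 p ^ (p ^ (v + (a - 1 - (r + 1))) * μ))) p 0
    have e : run p a (p ^ v * μ) (fun _ => 0) (r + 1 + 1) -
        U p 0 (P1 p ^ (p ^ (v + (a - 1 - (r + 1))) * μ)) =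
        U p 0 ((run p a (p ^ v * μ) (fun _ => 0) (r + 1) - 1) *
          P1 p ^ (p ^ (v + (a - 1 - (r + 1))) * μ)) := by
      rw [run, Nat.mod_eq_of_lt hr, hM, ← U_sub]
      congr 1
      ring
    rw [e]
    refine Dv_mono (pow_dvd_pow _ ?_) h4
    omega

theorem S_dvd (fe : S_FUN) (rr : S_RR) (p a v μ : ℕ) (hp : p.Prime) (hp2 : p ≠ 2) (ha : 2 ≤ a)
    (hμ : 1 ≤ μ) (hμp : ¬ p ∣ μ) : ∀ j, 1 ≤ j → (p : ℤ) ^ (v + 1) ∣ S (p ^ a) (p ^ v * μ) j := by
  intro j
  have hk : 2 ≤ p ^ a := by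
    calc 2 ≤ p := hp.two_le
      _ = p ^ 1 := (pow_one p).symm
      _ ≤ p ^ a := Nat.pow_le_pow_right hp.pos (by omega)
  induction j using Nat.strong_induction_on with
  | _ j ih =>
    intro hj
    have h := fe (p ^ a) (p ^ v * μ) hk
    have h1 : S (p ^ a) (p ^ v * μ) j = coeff j (ser (p ^ a) (p ^ v * μ)) := by simp [ser]
    rw [h1, h, coeff_mul]
    apply dvd_sum
    rintro ⟨x, y⟩ hxy
    rw [HasAntidiagonal.mem_antidiagonal] at hxy
    simp only at hxy ⊢
    rcases Nat.eq_zero_or_pos x with rfl | hx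
    · apply Dvd.dvd.mul_left
      rw [zero_add] at hxy
      subst hxy
      simp only [ex, coeff_mk, ser]
      split_ifs with hd
      · obtain ⟨c, rfl⟩ := hd
        have hc : 1 ≤ c := by
          rcases Nat.eq_zero_or_pos c with rfl | h
          · simp at hj
          · exact h
        rw [Nat.mul_div_cancel_left _ (by omega)]
        apply ih _ _ hc
        nlinarith
      · exact dvd_zero _
    · apply Dvd.dvd.mul_right
      exact (rr p a v μ x hp hp2 (by omega) hμ hμp hx).1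

/-- the base case -/
theorem S_base (fe : S_FUN) (rr : S_RR) (p a v μ : ℕ) (hp : p.Prime) (hp2 : p ≠ 2) (ha : 2 ≤ a)
    (hμ : 1 ≤ μ) (hμp : ¬ p ∣ μ) (t : ℕ) (ht : 1 ≤ t) (hk : ¬ p ^ a ∣ t) :
    ∃ c : ℤ, (p : ℤ) ∣ (t / p ^ padicValNat p t : ℕ) * c - μ ∧
      (p : ℤ) ^ (a - padicValNat p t + v + 1) ∣
        S (p ^ a) (p ^ v * μ) t - (p : ℤ) ^ (a - padicValNat p t + v) * c := by
  have := Fact.mk hp
  have hk2 : 2 ≤ p ^ a := by
    calc 2 ≤ p := hp.two_le
      _ = p ^ 1 := (pow_one p).symm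
      _ ≤ p ^ a := Nat.pow_le_pow_right hp.pos (by omega)
  obtain ⟨c, hc, hc2⟩ := (rr p a v μ t hp hp2 (by omega) hμ hμp ht).2 hk
  refine ⟨c, hc2, ?_⟩
  have h := fe (p ^ a) (p ^ v * μ) hk2
  have h1 : S (p ^ a) (p ^ v * μ) t = coeff t (ser (p ^ a) (p ^ v * μ)) := by simp [ser]
  rw [hc, h1]
  nth_rewrite 1 [h]
  rw [← map_sub]
  have e : ∀ R E : ℤ⟦X⟧, R * E - R = R * (E - 1) := fun R E => by ring
  rw [e, coeff_mul]
  apply dvd_sum
  rintro ⟨x, y⟩ hxy
  rw [HasAntidiagonal.mem_antidiagonal] at hxy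
  simp only at hxy ⊢
  rcases Nat.eq_zero_or_pos y with rfl | hy
  · have : coeff 0 (ex (p ^ a) (ser (p ^ a) (p ^ v * μ)) - 1) = 0 := by
      simp [ex, ser, S_zero]
    rw [this, mul_zero]
    exact dvd_zero _
  · have h0 : coeff y (1 : ℤ⟦X⟧) = 0 := by rw [coeff_one, if_neg (by omega)]
    rw [map_sub, h0, sub_zero]
    simp only [ex, coeff_mk, ser]
    split_ifs with hd
    · obtain ⟨i, rfl⟩ := hd
      rw [Nat.mul_div_cancel_left _ (by omega)]
      have hi : 1 ≤ i := by
        rcases Nat.eq_zero_or_pos i with rfl | h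
        · simp at hy
        · exact h
      have hx : ¬ p ^ a ∣ x := by
        intro hx
        apply hk
        rw [← hxy]
        exact dvd_add hx (dvd_mul_right _ _)
      have hx0 : x ≠ 0 := by rintro rfl; exact hx (dvd_zero _)
      have hs : padicValNat p t < a := by
        by_contra hcon
        exact hk ((padicValNat_dvd_iff_le (by omega)).mpr (by omega))
      have hval : padicValNat p x = padicValNat p t := by
        apply le_antisymm
        · by_contra hcon
          have h2 : p ^ (padicValNat p t + 1) ∣ x :=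
            (padicValNat_dvd_iff_le hx0).mpr (by omega)
          have h3 : p ^ (padicValNat p t + 1) ∣ p ^ a * i :=
            (pow_dvd_pow p (by omega)).trans (dvd_mul_right _ _)
          have h4 : p ^ (padicValNat p t + 1) ∣ x + p ^ a * i := dvd_add h2 h3
          rw [hxy] at h4
          have := (padicValNat_dvd_iff_le (by omega)).mp h4
          omega
        · have h4 : p ^ (padicValNat p t) ∣ x + p ^ a * i := by
            rw [hxy]; exact pow_padicValNat_dvd
          have h3 : p ^ (padicValNat p t) ∣ p ^ a * i :=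
            (pow_dvd_pow p (by omega)).trans (dvd_mul_right _ _)
          exact (padicValNat_dvd_iff_le hx0).mp ((Nat.dvd_add_left h3).mp h4)
      obtain ⟨c', hc', -⟩ := (rr p a v μ x hp hp2 (by omega) hμ hμp (by omega)).2 hx
      rw [hval] at hc'
      have h5 := S_dvd fe rr p a v μ hp hp2 ha hμ hμp i hi
      rw [← hc']
      have h6 : (p : ℤ) ∣ S (p ^ a) (p ^ v * μ) i := (dvd_pow_self _ (by omega)).trans h5
      rw [pow_succ]
      exact mul_dvd_mul (dvd_mul_right _ _) h6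
    · rw [mul_zero]; exact dvd_zero _

/-- the step -/
theorem S_step (dig : S_DIG) (fe : S_FUN) (u0 : S_U0) (rr : S_RR) (p a v μ : ℕ) (hp : p.Prime)
    (hp2 : p ≠ 2) (ha : 2 ≤ a) (hμ : 1 ≤ μ) (hμp : ¬ p ∣ μ) (t : ℕ) (ht : 1 ≤ t) :
    (p : ℤ) ^ (2 * v + 2) ∣ S (p ^ a) (p ^ v * μ) (p ^ a * t) - S (p ^ a) (p ^ v * μ) t ∧
    (p : ℤ) ^ (2 * v + 3) ∣ S (p ^ a) (p ^ v * μ) (p ^ a * t) - S (p ^ a) (p ^ v * μ) t -
      coeff t (U p 0 (P1 p ^ (p ^ v * μ))) := by
  have hA := A_bound u0 p a v μ hp hp2 hμ hμp (a - 1) (by omega)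
  have e1 : a - 1 - (a - 1) = 0 := by omega
  have e2 : a - 1 + 1 = a := by omega
  rw [e1, e2, add_zero] at hA
  have hU := U_bound u0 p v μ hp hp2 hμ hμp
  set A := run p a (p ^ v * μ) (fun _ => 0) a with hAdef
  set B := U p 0 (P1 p ^ (p ^ v * μ)) with hB
  have hA1 : Dv ((p : ℤ) ^ (2 * v + 2)) (A - 1) := by
    have := Dv_add (Dv_mono (pow_dvd_pow (p : ℤ) (by omega : 2 * v + 2 ≤ 2 * v + 4)) hA) hU
    convert this using 1
    ring
  have hS1 : Dv ((p : ℤ) ^ (v + 1)) (ser (p ^ a) (p ^ v * μ) - 1) := by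
    intro n
    rcases Nat.eq_zero_or_pos n with rfl | hn
    · have : coeff 0 (ser (p ^ a) (p ^ v * μ) - 1) = 0 := by simp [ser, S_zero]
      rw [this]; exact dvd_zero _
    · have h0 : coeff n (1 : ℤ⟦X⟧) = 0 := by rw [coeff_one, if_neg (by omega)]
      rw [map_sub, h0, sub_zero, ser, coeff_mk]
      exact S_dvd fe rr p a v μ hp hp2 ha hμ hμp n hn
  have hX := Dv_mul hA1 hS1
  rw [← pow_add] at hX
  have key : S (p ^ a) (p ^ v * μ) (p ^ a * t) = S (p ^ a) (p ^ v * μ) t + coeff t (A - 1) +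
      coeff t ((A - 1) * (ser (p ^ a) (p ^ v * μ) - 1)) := by
    rw [(dig p a (p ^ v * μ) hp (by omega)).2 t]
    have h1 : S (p ^ a) (p ^ v * μ) t = coeff t (ser (p ^ a) (p ^ v * μ)) := by simp [ser]
    rw [h1, ← map_add, ← map_add]
    congr 1
    ring
  have h0 : coeff t (1 : ℤ⟦X⟧) = 0 := by rw [coeff_one, if_neg (by omega)]
  constructor
  · have e : S (p ^ a) (p ^ v * μ) (p ^ a * t) - S (p ^ a) (p ^ v * μ) t = coeff t (A - 1) +
      coeff t ((A - 1) * (ser (p ^ a) (p ^ v * μ) - 1)) := by rw [key]; ring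
    rw [e]
    exact dvd_add (hA1 t) ((pow_dvd_pow _ (by omega)).trans (hX t))
  · have e : S (p ^ a) (p ^ v * μ) (p ^ a * t) - S (p ^ a) (p ^ v * μ) t - coeff t B =
      coeff t (A - B) + coeff t ((A - 1) * (ser (p ^ a) (p ^ v * μ) - 1)) := by
      rw [key, map_sub, map_sub, h0]; ring
    rw [e]
    exact dvd_add ((pow_dvd_pow _ (by omega)).trans (hA t))
      ((pow_dvd_pow _ (by omega)).trans (hX t))

theorem form (dig : S_DIG) (fe : S_FUN) (u0 : S_U0) (rr : S_RR) : S_FORM := by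
  intro p a m hp hp2 ha hm hpm hexc n hn
  have := Fact.mk hp
  obtain ⟨v, μ, hμp, rfl⟩ := Nat.exists_eq_pow_mul_and_not_dvd hm.ne' p hp.ne_one
  have hμ : 1 ≤ μ := by
    rcases Nat.eq_zero_or_pos μ with rfl | h
    · simp at hμp
    · exact h
  have hv : padicValNat p (p ^ v * μ) = v := by
    rw [padicValNat.mul (by have := hp.pos; positivity) (by omega), padicValNat.prime_pow,
      padicValNat.eq_zero_of_not_dvd hμp, add_zero]
  rw [hv]
  have hva : a - 2 ≤ v := by
    have := (padicValNat_dvd_iff_le hm.ne').mp hpm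
    rwa [hv] at this
  apply Val_emul
  have hk2 : 2 ≤ p ^ a := by
    calc 2 ≤ p := hp.two_le
      _ = p ^ 1 := (pow_one p).symm
      _ ≤ p ^ a := Nat.pow_le_pow_right hp.pos (by omega)
  have hpZ : (p : ℤ) ≠ 0 := by exact_mod_cast hp.ne_zero
  have hpI : Prime (p : ℤ) := Nat.prime_iff_prime_int.mp hp
  -- base
  have base : ∀ t, 1 ≤ t → ¬ p ^ a ∣ t →
      Val p (v + a - padicValNat p t % a) (S (p ^ a) (p ^ v * μ) t) := by
    intro t ht hk
    have hs : padicValNat p t < a := by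
      by_contra hcon
      exact hk ((padicValNat_dvd_iff_le (by omega)).mpr (by omega))
    obtain ⟨c, hc, hc2⟩ := S_base fe rr p a v μ hp hp2 ha hμ hμp t ht hk
    have e : v + a - padicValNat p t % a = a - padicValNat p t + v := by
      rw [Nat.mod_eq_of_lt hs]; omega
    rw [e]
    have h1 : Val p (a - padicValNat p t + v) ((p : ℤ) ^ (a - padicValNat p t + v) * c) := by
      refine ⟨dvd_mul_right _ _, ?_⟩
      rw [pow_succ]
      intro h
      have h2 := (mul_dvd_mul_iff_left (pow_ne_zero _ hpZ)).mp h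
      have h3 : (p : ℤ) ∣ μ := by
        have := dvd_sub (Dvd.dvd.mul_left h2 ((t / p ^ padicValNat p t : ℕ) : ℤ)) hc
        simpa using this
      exact hμp (by exact_mod_cast h3)
    have := Val_add h1 hc2
    convert this using 1
    ring
  induction n using Nat.strong_induction_on with
  | _ n ih =>
  by_cases hk : p ^ a ∣ n
  · obtain ⟨t, rfl⟩ := hk
    have ht : 1 ≤ t := by
      rcases Nat.eq_zero_or_pos t with rfl | h
      · simp at hn
      · exact h
    have hlt : t < p ^ a * t := by nlinarith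
    have IH := ih t hlt ht
    obtain ⟨st1, st2⟩ := S_step dig fe u0 rr p a v μ hp hp2 ha hμ hμp t ht
    have hval : padicValNat p (p ^ a * t) % a = padicValNat p t % a := by
      rw [padicValNat.mul (by positivity) (by omega), padicValNat.prime_pow]
      simp
    rw [hval]
    -- reduction
    have fin : (p : ℤ) ^ (v + a - padicValNat p t % a + 1) ∣
        S (p ^ a) (p ^ v * μ) (p ^ a * t) - S (p ^ a) (p ^ v * μ) t →
        Val p (v + a - padicValNat p t % a) (S (p ^ a) (p ^ v * μ) (p ^ a * t)) := by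
      intro h
      have := Val_add IH h
      convert this using 1
      ring
    by_cases hva2 : a - 1 ≤ v
    · exact fin ((pow_dvd_pow _ (by omega)).trans st1)
    have hva3 : a = v + 2 := by omega
    by_cases hs : padicValNat p t % a = 0
    swap
    · exact fin ((pow_dvd_pow _ (by omega)).trans st1)
    rw [hs] at fin IH ⊢
    obtain ⟨u1, u2, u3⟩ := u0 p v μ t hp hp2 hμ hμp ht
    have fin2 : (p : ℤ) ^ (2 * v + 3) ∣ coeff t (U p 0 (P1 p ^ (p ^ v * μ))) →
        Val p (v + a - 0) (S (p ^ a) (p ^ v * μ) (p ^ a * t)) := by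
      intro h
      apply fin
      have h2 := dvd_add st2 h
      have e : v + a - 0 + 1 = 2 * v + 3 := by omega
      rw [e]
      rwa [sub_add_cancel] at h2
    by_cases h5 : 5 ≤ p
    · exact fin2 (u1 h5)
    have h3 : p = 3 := by
      have := hp.two_le
      interval_cases p
      · exact absurd rfl hp2
      · rfl
      · exact absurd hp (by decide)
    subst h3
    -- the linear form
    obtain ⟨L, hL, hL0, hL1⟩ : ∃ L : ℤ, (3 : ℤ) ^ (2 * v + 3) ∣
        coeff t (U 3 0 (P1 3 ^ (3 ^ v * μ))) + 3 ^ (2 * v + 2) * L * t ∧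
        (v = 0 → L = μ ^ 2 + μ) ∧ (1 ≤ v → L = μ ^ 2) := by
      by_cases hv1 : 1 ≤ v
      · exact ⟨μ ^ 2, u2 rfl hv1, fun h => by omega, fun _ => rfl⟩
      · have hv0 : v = 0 := by omega
        subst hv0
        refine ⟨μ ^ 2 + μ, ?_, fun _ => rfl, fun h => by omega⟩
        have := u3 rfl rfl
        simpa using this
    by_cases h3t : 3 ∣ t
    · apply fin2
      have h7 : (3 : ℤ) ^ (2 * v + 3) ∣ 3 ^ (2 * v + 2) * L * t := by
        obtain ⟨s, rfl⟩ := h3t
        exact ⟨L * s, by push_cast; ring⟩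
      exact_mod_cast (Int.dvd_add_left h7).mp hL
    · -- `t` prime to `3`
      have hk3 : ¬ 3 ^ a ∣ t := fun h => h3t ((dvd_pow_self 3 (by omega)).trans h)
      obtain ⟨c, hc, hc2⟩ := S_base fe rr 3 a v μ hp hp2 ha hμ hμp t ht hk3
      have hv0 : padicValNat 3 t = 0 := padicValNat.eq_zero_of_not_dvd h3t
      rw [hv0] at hc hc2
      simp only [pow_zero, Nat.div_one, Nat.sub_zero] at hc hc2
      have ea : a + v = 2 * v + 2 := by omega
      rw [ea] at hc2
      have e0 : v + a - 0 = 2 * v + 2 := by omega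
      rw [e0]
      -- `S (9 t) ≡ 3^(2v+2) (c - L t)`
      have h8 : (3 : ℤ) ^ (2 * v + 3) ∣ S (3 ^ a) (3 ^ v * μ) (3 ^ a * t) -
          3 ^ (2 * v + 2) * (c - L * t) := by
        have h9 := dvd_add (dvd_add st2 hL) hc2
        have e9 : S (3 ^ a) (3 ^ v * μ) (3 ^ a * t) - 3 ^ (2 * v + 2) * (c - L * t) =
            S (3 ^ a) (3 ^ v * μ) (3 ^ a * t) - S (3 ^ a) (3 ^ v * μ) t -
            coeff t (U 3 0 (P1 3 ^ (3 ^ v * μ))) + (coeff t (U 3 0 (P1 3 ^ (3 ^ v * μ))) +
            3 ^ (2 * v + 2) * L * t) + (S (3 ^ a) (3 ^ v * μ) t - ((3 : ℕ) : ℤ) ^ (2 * v + 2) * c) := by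
          push_cast
          ring
        rw [e9]
        exact_mod_cast h9
      have h10 : Val 3 (2 * v + 2) (3 ^ (2 * v + 2) * (c - L * t)) := by
        refine ⟨?_, ?_⟩
        · push_cast; exact dvd_mul_right _ _
        · intro h
          push_cast at h
          rw [pow_succ (3 : ℤ) (2 * v + 2)] at h
          have h2 := (mul_dvd_mul_iff_left (pow_ne_zero _ (by norm_num : (3 : ℤ) ≠ 0))).mp h
          -- residues
          have sq : ∀ x : ℕ, ¬ 3 ∣ x → ∃ z : ℤ, (x : ℤ) ^ 2 = 1 + 3 * z := by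
            intro x hx
            have h1 : (x : ℤ) % 3 = 1 ∨ (x : ℤ) % 3 = 2 := by omega
            rcases h1 with h1 | h1
            · refine ⟨3 * (x / 3) ^ 2 + 2 * (x / 3), ?_⟩
              have h3 : (x : ℤ) = 3 * (x / 3) + 1 := by omega
              nth_rewrite 1 [h3]
              ring
            · refine ⟨3 * (x / 3) ^ 2 + 4 * (x / 3) + 1, ?_⟩
              have h3 : (x : ℤ) = 3 * (x / 3) + 2 := by omega
              nth_rewrite 1 [h3]
              ring
          obtain ⟨z, hz⟩ := sq t h3t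
          obtain ⟨z', hz'⟩ := sq μ hμp
          obtain ⟨x, hx⟩ := h2
          obtain ⟨y', hy⟩ := hc
          have hμe : (μ : ℤ) = L + 3 * (L * z + t * x - y') := by
            have h1 : (t : ℤ) * c = L * t ^ 2 + 3 * (t * x) := by linear_combination (t : ℤ) * hx
            rw [hz] at h1
            push_cast at hy
            linear_combination h1 - hy
          by_cases hv1 : 1 ≤ v
          · apply hexc
            refine ⟨rfl, by omega, ?_⟩
            have e7 : a - 1 = v + 1 := by omega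
            have e8 : a - 2 = v := by omega
            rw [e7, e8, pow_succ, Nat.mul_mod_mul_left]
            have h11 : μ % 3 = 1 := by
              rw [hL1 hv1, hz'] at hμe
              omega
            rw [h11, mul_one]
          · have hv00 : v = 0 := by omega
            have h12 := hL0 hv00
            apply hμp
            have h13 : (3 : ℤ) ∣ (μ : ℤ) ^ 2 := by
              refine ⟨-(L * z + t * x - y'), ?_⟩
              linear_combination -h12 - hμe
            have h14 := Int.prime_three.dvd_of_dvd_pow h13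
            exact_mod_cast h14
      have := Val_add h10 (y := S (3 ^ a) (3 ^ v * μ) (3 ^ a * t) -
          3 ^ (2 * v + 2) * (c - L * t)) (by push_cast; exact h8)
      convert this using 1
      ring
  · exact base n hn hk

end Pool.Agent.K9h30.CP
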