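import Pool.Agent.K9h30.CP.Form
import Pool.Agent.K9h30.CP.Stm3

/-!
# MP_9acee6_nt: FORM3, the valuations for `p = 3` and every `a` and `m` (leaf CP-FORM3, helper53)
-/

set_option autoImplicit false

open PowerSeries Finset
open Pool.Agent.Results.MP_9acee6_nt.Four (S V Automatic geom)

namespace Pool.Agent.K9h30.CP

namespace Form3

theorem run0 (a m : ℕ) : ∀ i, coeff 0 (run 3 a m (fun _ => 0) i) = 1 := by
  intro i
  induction i with
  | zero => simp [run]
  | succ i ih =>
    rw [run, U_coeff_zero, coeff_mul_zero, ih, P1_pow_zero 3 _ (by norm_num), mul_one]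

theorem choose_dvd (t j : ℕ) (ht : 1 ≤ t) (hj : 1 ≤ j) (_hjt : j ≤ t) :
    3 ^ padicValNat 3 t ∣ t.choose j * 3 ^ Nat.log 3 j := by
  have := Fact.mk Nat.prime_three
  have h1 : t * (t - 1).choose (j - 1) = t.choose j * j := by
    have := Nat.add_one_mul_choose_eq (t - 1) (j - 1)
    rwa [Nat.sub_add_cancel ht, Nat.sub_add_cancel hj] at this
  have h2 : 3 ^ padicValNat 3 t ∣ t.choose j * j := by
    rw [← h1]
    exact pow_padicValNat_dvd.mul_right _
  obtain ⟨v, q, hq, hjq⟩ := Nat.exists_eq_pow_mul_and_not_dvd (by omega : j ≠ 0) 3 (by norm_num)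
  have h3 : 3 ^ padicValNat 3 t ∣ t.choose j * 3 ^ v := by
    have h4 : 3 ^ padicValNat 3 t ∣ (t.choose j * 3 ^ v) * q := by
      rw [mul_assoc, ← hjq]; exact h2
    have h5 : Nat.Coprime (3 ^ padicValNat 3 t) q :=
      Nat.Coprime.pow_left _ ((Nat.Prime.coprime_iff_not_dvd Nat.prime_three).mpr hq)
    exact h5.dvd_of_dvd_mul_right h4
  refine h3.trans (mul_dvd_mul_left _ (pow_dvd_pow 3 ?_))
  apply Nat.le_log_of_pow_le (by norm_num)
  rw [hjq]
  have : 1 ≤ q := by
    rcases Nat.eq_zero_or_pos q with rfl | h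
    · simp at hq
    · exact h
  nlinarith [pow_pos (by norm_num : 0 < 3) v]

/-- a class function vanishing at `0` -/
theorem CL_val0 {e : ℕ} {f : ℕ → ℤ} (hf : CL e f) (h0 : f 0 = 0) (t : ℕ) (ht : 1 ≤ t) :
    (3 : ℤ) ^ (e + padicValNat 3 t) ∣ f t := by
  rw [newton f t]
  apply dvd_sum
  intro j hj
  rw [mem_range] at hj
  rcases Nat.eq_zero_or_pos j with rfl | hj0
  · rw [mu_zero, h0, mul_zero]; exact dvd_zero _
  · obtain ⟨c, hc⟩ := hf j hj0
    obtain ⟨d, hd⟩ := choose_dvd t j ht hj0 (by omega)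
    refine ⟨c * d, ?_⟩
    have hd' : ((t.choose j : ℕ) : ℤ) * 3 ^ Nat.log 3 j = 3 ^ padicValNat 3 t * d := by
      exact_mod_cast hd
    rw [hc, pow_add, pow_add]
    linear_combination (3 : ℤ) ^ e * c * hd'

theorem vE (blk : S_BLK) (a m e : ℕ) (ha : 1 ≤ a) (hm : 1 ≤ m)
    (he : 3 ^ e ∣ 9 * m ^ 2 * (m + 1)) (t : ℕ) (ht : 1 ≤ t) :
    (3 : ℤ) ^ (e + 1 + padicValNat 3 t) ∣
      2 * coeff t (run 3 a m (fun _ => 0) a - 1) - 9 * (m : ℤ) ^ 2 * (m + 1) * t := by
  have h := blk a m e ha hm he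
  refine CL_val0 h ?_ t ht
  rw [map_sub, run0]
  simp

theorem vE' (blk : S_BLK) (a m e : ℕ) (ha : 1 ≤ a) (hm : 1 ≤ m)
    (he : 3 ^ e ∣ 9 * m ^ 2 * (m + 1)) (t : ℕ) (ht : 1 ≤ t) :
    (3 : ℤ) ^ (e + padicValNat 3 t) ∣ coeff t (run 3 a m (fun _ => 0) a - 1) := by
  have h1 := (pow_dvd_pow (3 : ℤ) (by omega : e + padicValNat 3 t ≤ e + 1 + padicValNat 3 t)).trans
    (vE blk a m e ha hm he t ht)
  have h2 : (3 : ℤ) ^ (e + padicValNat 3 t) ∣ 9 * (m : ℤ) ^ 2 * (m + 1) * t := by
    rw [pow_add]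
    apply mul_dvd_mul
    · exact_mod_cast he
    · have : 3 ^ padicValNat 3 t ∣ t := pow_padicValNat_dvd
      exact_mod_cast this
  apply dvd2
  have h3 := dvd_add h1 h2
  rwa [sub_add_cancel] at h3

theorem dvdS (fe : S_FUN) (rr : S_RR) (a v μ : ℕ) (ha : 1 ≤ a)
    (hμ : 1 ≤ μ) (hμp : ¬ 3 ∣ μ) : ∀ j, 1 ≤ j → (3 : ℤ) ^ (v + 1) ∣ S (3 ^ a) (3 ^ v * μ) j := by
  intro j
  have hk : 2 ≤ 3 ^ a := by
    calc 2 ≤ 3 ^ 1 := by norm_num
      _ ≤ 3 ^ a := Nat.pow_le_pow_right (by norm_num) ha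
  induction j using Nat.strong_induction_on with
  | _ j ih =>
    intro hj
    have h := fe (3 ^ a) (3 ^ v * μ) hk
    have h1 : S (3 ^ a) (3 ^ v * μ) j = coeff j (ser (3 ^ a) (3 ^ v * μ)) := by simp [ser]
    rw [h1, h, coeff_mul]
    apply dvd_sum
    rintro ⟨x, y⟩ hxy
    rw [HasAntidiagonal.mem_antidiagonal] at hxy
    simp only at hxy ⊢
    rcases Nat.eq_zero_or_pos x with rfl | hx
    · apply Dvd.dvd.mul_left
      rw [zero_add] at hxy
      subst hxy
      simp only [ex, coeff_mk, ser]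
      split_ifs with hd
      · obtain ⟨c, rfl⟩ := hd
        have hc : 1 ≤ c := by
          rcases Nat.eq_zero_or_pos c with rfl | h
          · simp at hj
          · exact h
        rw [Nat.mul_div_cancel_left _ (by omega)]
        apply ih _ _ hc
        nlinarith
      · exact dvd_zero _
    · apply Dvd.dvd.mul_right
      exact (rr 3 a v μ x Nat.prime_three (by norm_num) ha hμ hμp hx).1

/-- the base case -/
theorem baseS (fe : S_FUN) (rr : S_RR) (a v μ : ℕ) (ha : 1 ≤ a)
    (hμ : 1 ≤ μ) (hμp : ¬ 3 ∣ μ) (t : ℕ) (ht : 1 ≤ t) (hk : ¬ 3 ^ a ∣ t) :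
    ∃ c : ℤ, (3 : ℤ) ∣ (t / 3 ^ padicValNat 3 t : ℕ) * c - μ ∧
      (3 : ℤ) ^ (a - padicValNat 3 t + v + 1) ∣
        S (3 ^ a) (3 ^ v * μ) t - (3 : ℤ) ^ (a - padicValNat 3 t + v) * c := by
  have := Fact.mk Nat.prime_three
  have hk2 : 2 ≤ 3 ^ a := by
    calc 2 ≤ 3 ^ 1 := by norm_num
      _ ≤ 3 ^ a := Nat.pow_le_pow_right (by norm_num) ha
  obtain ⟨c, hc, hc2⟩ := (rr 3 a v μ t Nat.prime_three (by norm_num) ha hμ hμp ht).2 hk
  refine ⟨c, by exact_mod_cast hc2, ?_⟩
  have h := fe (3 ^ a) (3 ^ v * μ) hk2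
  have h1 : S (3 ^ a) (3 ^ v * μ) t = coeff t (ser (3 ^ a) (3 ^ v * μ)) := by simp [ser]
  have hc' : (3 : ℤ) ^ (a - padicValNat 3 t + v) * c =
      coeff t (((1 - X ^ 3 ^ a) * y ^ 3 ^ a) ^ (3 ^ v * μ)) := by exact_mod_cast hc
  rw [hc', h1]
  nth_rewrite 1 [h]
  rw [← map_sub]
  have e : ∀ R E : ℤ⟦X⟧, R * E - R = R * (E - 1) := fun R E => by ring
  rw [e, coeff_mul]
  apply dvd_sum
  rintro ⟨x, y⟩ hxy
  rw [HasAntidiagonal.mem_antidiagonal] at hxy
  simp only at hxy ⊢
  rcases Nat.eq_zero_or_pos y with rfl | hy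
  · have : coeff 0 (ex (3 ^ a) (ser (3 ^ a) (3 ^ v * μ)) - 1) = 0 := by
      simp [ex, ser, S_zero]
    rw [this, mul_zero]
    exact dvd_zero _
  · have h0 : coeff y (1 : ℤ⟦X⟧) = 0 := by rw [coeff_one, if_neg (by omega)]
    rw [map_sub, h0, sub_zero]
    simp only [ex, coeff_mk, ser]
    split_ifs with hd
    · obtain ⟨i, rfl⟩ := hd
      rw [Nat.mul_div_cancel_left _ (by omega)]
      have hi : 1 ≤ i := by
        rcases Nat.eq_zero_or_pos i with rfl | h
        · simp at hy
        · exact h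
      have hx : ¬ 3 ^ a ∣ x := by
        intro hx
        apply hk
        rw [← hxy]
        exact dvd_add hx (dvd_mul_right _ _)
      have hx0 : x ≠ 0 := by rintro rfl; exact hx (dvd_zero _)
      have hs : padicValNat 3 t < a := by
        by_contra hcon
        exact hk ((padicValNat_dvd_iff_le (by omega)).mpr (by omega))
      have hval : padicValNat 3 x = padicValNat 3 t := by
        apply le_antisymm
        · by_contra hcon
          have h2 : 3 ^ (padicValNat 3 t + 1) ∣ x :=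
            (padicValNat_dvd_iff_le hx0).mpr (by omega)
          have h3 : 3 ^ (padicValNat 3 t + 1) ∣ 3 ^ a * i :=
            (pow_dvd_pow 3 (by omega)).trans (dvd_mul_right _ _)
          have h4 : 3 ^ (padicValNat 3 t + 1) ∣ x + 3 ^ a * i := dvd_add h2 h3
          rw [hxy] at h4
          have := (padicValNat_dvd_iff_le (by omega)).mp h4
          omega
        · have h4 : 3 ^ (padicValNat 3 t) ∣ x + 3 ^ a * i := by
            rw [hxy]; exact pow_padicValNat_dvd
          have h3 : 3 ^ (padicValNat 3 t) ∣ 3 ^ a * i :=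
            (pow_dvd_pow 3 (by omega)).trans (dvd_mul_right _ _)
          exact (padicValNat_dvd_iff_le hx0).mp ((Nat.dvd_add_left h3).mp h4)
      obtain ⟨c', hc', -⟩ := (rr 3 a v μ x Nat.prime_three (by norm_num) ha hμ hμp (by omega)).2 hx
      rw [hval] at hc'
      have h5 := dvdS fe rr a v μ ha hμ hμp i hi
      rw [← hc']
      have h6 : (3 : ℤ) ∣ S (3 ^ a) (3 ^ v * μ) i := (dvd_pow_self _ (by omega)).trans h5
      rw [pow_succ]
      push_cast
      exact mul_dvd_mul (dvd_mul_right _ _) h6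
    · rw [mul_zero]; exact dvd_zero _

/-- the valuation of `S` off the multiples of `3 ^ a` -/
theorem baseV (fe : S_FUN) (rr : S_RR) (a v μ : ℕ) (ha : 1 ≤ a)
    (hμ : 1 ≤ μ) (hμp : ¬ 3 ∣ μ) (t : ℕ) (ht : 1 ≤ t) (hs : padicValNat 3 t < a) :
    ∃ c : ℤ, (3 : ℤ) ∣ (t / 3 ^ padicValNat 3 t : ℕ) * c - μ ∧ ¬ (3 : ℤ) ∣ c ∧
      (3 : ℤ) ^ (v + a - padicValNat 3 t + 1) ∣
        S (3 ^ a) (3 ^ v * μ) t - (3 : ℤ) ^ (v + a - padicValNat 3 t) * c := by
  have := Fact.mk Nat.prime_three
  have hk : ¬ 3 ^ a ∣ t := by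
    intro hk
    have := (padicValNat_dvd_iff_le (by omega)).mp hk
    omega
  obtain ⟨c, h1, h2⟩ := baseS fe rr a v μ ha hμ hμp t ht hk
  have e : a - padicValNat 3 t + v = v + a - padicValNat 3 t := by omega
  rw [e] at h2
  refine ⟨c, h1, ?_, h2⟩
  intro hc
  apply hμp
  have h3 : (3 : ℤ) ∣ μ := by
    have := dvd_sub (Dvd.dvd.mul_left hc ((t / 3 ^ padicValNat 3 t : ℕ) : ℤ)) h1
    simpa using this
  exact_mod_cast h3

/-- the cross terms -/
theorem cross (fe : S_FUN) (rr : S_RR) (blk : S_BLK) (a v μ e : ℕ) (ha : 1 ≤ a)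
    (hμ : 1 ≤ μ) (hμp : ¬ 3 ∣ μ)
    (he : 3 ^ e ∣ 9 * (3 ^ v * μ) ^ 2 * (3 ^ v * μ + 1)) (t : ℕ) (ht : 1 ≤ t) :
    (3 : ℤ) ^ min (e + v + a) (e + padicValNat 3 t + v + 1) ∣
      coeff t ((run 3 a (3 ^ v * μ) (fun _ => 0) a - 1) * (ser (3 ^ a) (3 ^ v * μ) - 1)) := by
  have := Fact.mk Nat.prime_three
  have hm : 1 ≤ 3 ^ v * μ := Nat.mul_pos (by positivity) hμ
  rw [coeff_mul]
  apply dvd_sum
  rintro ⟨x, y⟩ hxy
  rw [HasAntidiagonal.mem_antidiagonal] at hxy
  simp only at hxy ⊢
  rcases Nat.eq_zero_or_pos x with rfl | hx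
  · have h0 : coeff 0 (run 3 a (3 ^ v * μ) (fun _ => 0) a - 1) = 0 := by
      rw [map_sub, run0]; simp
    rw [h0, zero_mul]; exact dvd_zero _
  rcases Nat.eq_zero_or_pos y with rfl | hy
  · have h0 : coeff 0 (ser (3 ^ a) (3 ^ v * μ) - 1) = 0 := by simp [ser, S_zero]
    rw [h0, mul_zero]; exact dvd_zero _
  have h0 : coeff y (1 : ℤ⟦X⟧) = 0 := by rw [coeff_one, if_neg (by omega)]
  have h1 := vE' blk a (3 ^ v * μ) e ha hm he x hx
  have h2 := dvdS fe rr a v μ ha hμ hμp y hy
  rw [map_sub (coeff y), h0, sub_zero]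
  have h3 : coeff y (ser (3 ^ a) (3 ^ v * μ)) = S (3 ^ a) (3 ^ v * μ) y := by simp [ser]
  rw [h3]
  by_cases hxt : padicValNat 3 t ≤ padicValNat 3 x
  · have h4 := mul_dvd_mul h1 h2
    rw [← pow_add] at h4
    exact (pow_dvd_pow _ (by omega)).trans h4
  · by_cases hxa : a ≤ padicValNat 3 x
    · have h4 := mul_dvd_mul h1 h2
      rw [← pow_add] at h4
      exact (pow_dvd_pow _ (by omega)).trans h4
    · -- `v (t - x) = v x`
      have hval : padicValNat 3 y = padicValNat 3 x := by
        apply le_antisymm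
        · by_contra hcon
          have h5 : 3 ^ (padicValNat 3 x + 1) ∣ y :=
            (padicValNat_dvd_iff_le (by omega)).mpr (by omega)
          have h6 : 3 ^ (padicValNat 3 x + 1) ∣ x + y := by
            rw [hxy]
            exact (padicValNat_dvd_iff_le (by omega)).mpr (by omega)
          have h7 := (Nat.dvd_add_left h5).mp h6
          have := (padicValNat_dvd_iff_le (by omega)).mp h7
          omega
        · have h6 : 3 ^ (padicValNat 3 x) ∣ x + y := by
            rw [hxy]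
            exact (padicValNat_dvd_iff_le (by omega)).mpr (by omega)
          have h7 := (Nat.dvd_add_right (pow_padicValNat_dvd (p := 3) (n := x))).mp h6
          exact (padicValNat_dvd_iff_le (by omega)).mp h7
      obtain ⟨c, -, -, hc⟩ := baseV fe rr a v μ ha hμ hμp y hy (by omega)
      rw [hval] at hc
      have h5 : (3 : ℤ) ^ (v + a - padicValNat 3 x) ∣ S (3 ^ a) (3 ^ v * μ) y := by
        have h6 := (pow_dvd_pow (3 : ℤ) (Nat.le_succ (v + a - padicValNat 3 x))).trans hc
        have h7 := dvd_add h6 (dvd_mul_right ((3 : ℤ) ^ (v + a - padicValNat 3 x)) c)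
        rwa [sub_add_cancel] at h7
      have h4 := mul_dvd_mul h1 h5
      rw [← pow_add] at h4
      exact (pow_dvd_pow _ (by omega)).trans h4

/-- the step -/
theorem stepS (dig : S_DIG) (a m : ℕ) (ha : 1 ≤ a) (t : ℕ) :
    S (3 ^ a) m (3 ^ a * t) = S (3 ^ a) m t + coeff t (run 3 a m (fun _ => 0) a - 1) +
      coeff t ((run 3 a m (fun _ => 0) a - 1) * (ser (3 ^ a) m - 1)) := by
  rw [(dig 3 a m Nat.prime_three ha).2 t]
  have h1 : S (3 ^ a) m t = coeff t (ser (3 ^ a) m) := by simp [ser]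
  rw [h1, ← map_add, ← map_add]
  congr 1
  ring

theorem Val3 {e : ℕ} {x y : ℤ} (hy : ¬ (3 : ℤ) ∣ y) (h : (3 : ℤ) ^ (e + 1) ∣ x - 3 ^ e * y) :
    Val 3 e x := by
  have h1 : Val 3 e (3 ^ e * y) := by
    refine ⟨?_, ?_⟩
    · push_cast; exact dvd_mul_right _ _
    · intro h
      push_cast at h
      rw [pow_succ] at h
      exact hy ((mul_dvd_mul_iff_left (pow_ne_zero _ (by norm_num : (3 : ℤ) ≠ 0))).mp h)
  have := Val_add h1 (y := x - 3 ^ e * y) (by push_cast; exact h)
  convert this using 1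
  ring

theorem Val3' {e : ℕ} {x : ℤ} (h : Val 3 e x) {z : ℤ} (hz : (3 : ℤ) ^ (e + 1) ∣ z - x) :
    Val 3 e z := by
  have := Val_add h (y := z - x) (by push_cast; exact hz)
  convert this using 1
  ring

end Form3

open Form3

theorem form3 (dig : S_DIG) (fe : S_FUN) (rr : S_RR) (blk : S_BLK) : S_FORM3 := by
  intro a m ha hm hexc n hn
  have := Fact.mk Nat.prime_three
  obtain ⟨v, μ, hμp, rfl⟩ := Nat.exists_eq_pow_mul_and_not_dvd hm.ne' 3 (by norm_num)
  have hμ : 1 ≤ μ := by
    rcases Nat.eq_zero_or_pos μ with rfl | h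
    · simp at hμp
    · exact h
  have hv : padicValNat 3 (3 ^ v * μ) = v := by
    rw [padicValNat.mul (by positivity) (by omega), padicValNat.prime_pow,
      padicValNat.eq_zero_of_not_dvd hμp, add_zero]
  obtain ⟨w, q, hqp, hwq⟩ := Nat.exists_eq_pow_mul_and_not_dvd
    (by positivity : 3 ^ v * μ * (3 ^ v * μ + 1) ≠ 0) 3 (by norm_num)
  have hq : 1 ≤ q := by
    rcases Nat.eq_zero_or_pos q with rfl | h
    · simp at hqp
    · exact h
  have hw : padicValNat 3 (3 ^ v * μ * (3 ^ v * μ + 1)) = w := by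
    rw [hwq, padicValNat.mul (by positivity) (by omega), padicValNat.prime_pow,
      padicValNat.eq_zero_of_not_dvd hqp, add_zero]
  -- the constant of the linear form
  have hL : 9 * (3 ^ v * μ) ^ 2 * (3 ^ v * μ + 1) = 3 ^ (v + 2 + w) * (μ * q) := by
    calc 9 * (3 ^ v * μ) ^ 2 * (3 ^ v * μ + 1)
        = 9 * (3 ^ v * μ) * (3 ^ v * μ * (3 ^ v * μ + 1)) := by ring
      _ = 9 * (3 ^ v * μ) * (3 ^ w * q) := by rw [hwq]
      _ = 3 ^ (v + 2 + w) * (μ * q) := by rw [pow_add, pow_add]; ring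
  have he : 3 ^ (v + 2 + w) ∣ 9 * (3 ^ v * μ) ^ 2 * (3 ^ v * μ + 1) := ⟨_, hL⟩
  have hLZ : 9 * ((3 ^ v * μ : ℕ) : ℤ) ^ 2 * ((3 ^ v * μ : ℕ) + 1) =
      3 ^ (v + 2 + w) * ((μ : ℤ) * q) := by exact_mod_cast hL
  -- the exceptional case is excluded
  have hex : w + 2 ≤ a → w % 2 = a % 2 → q % 3 ≠ 1 := by
    intro h1 h2 h3
    apply hexc
    refine ⟨w, h1, h2, ?_⟩
    rw [hwq, pow_succ, Nat.mul_mod_mul_left, h3, mul_one]
  set m := 3 ^ v * μ with hmdef
  have F3' : ∀ s, F3 a m s = if s < a then v + a - s else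
      min (v + a - s % a) (v + 2 + w + s % a) := by
    intro s
    rw [F3, hv, hw]
  rw [F3']
  apply Val_emul
  induction n using Nat.strong_induction_on with
  | _ n ih =>
  by_cases hk : padicValNat 3 n < a
  · rw [if_pos hk]
    obtain ⟨c, -, h2, h3⟩ := baseV fe rr a v μ ha hμ hμp n hn hk
    exact Val3 h2 h3
  · rw [if_neg hk]
    have hkn : 3 ^ a ∣ n := (padicValNat_dvd_iff_le (by omega)).mpr (by omega)
    obtain ⟨t, rfl⟩ := hkn
    have ht : 1 ≤ t := by
      rcases Nat.eq_zero_or_pos t with rfl | h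
      · simp at hn
      · exact h
    have hk3 : 3 ≤ 3 ^ a := by
      calc 3 = 3 ^ 1 := by norm_num
        _ ≤ 3 ^ a := Nat.pow_le_pow_right (by norm_num) ha
    have hlt : t < 3 ^ a * t := by nlinarith
    have IH := ih t hlt ht
    have hval : padicValNat 3 (3 ^ a * t) % a = padicValNat 3 t % a := by
      rw [padicValNat.mul (by positivity) (by omega), padicValNat.prime_pow]
      simp
    rw [hval]
    have hst := stepS dig a m ha t
    have hE := vE blk a m (v + 2 + w) ha hm he t ht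
    have hE' := vE' blk a m (v + 2 + w) ha hm he t ht
    have hX := cross fe rr blk a v μ (v + 2 + w) ha hμ hμp he t ht
    rw [← hmdef] at hX
    set E := coeff t (run 3 a m (fun _ => 0) a - 1) with hEdef
    set Xc := coeff t ((run 3 a m (fun _ => 0) a - 1) * (ser (3 ^ a) m - 1)) with hXdef
    have hr : padicValNat 3 t % a < a := Nat.mod_lt _ (by omega)
    set r := padicValNat 3 t % a with hrdef
    by_cases hta : a ≤ padicValNat 3 t
    · rw [if_neg (by omega)] at IH
      apply Val3' IH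
      have e : S (3 ^ a) m (3 ^ a * t) - S (3 ^ a) m t = E + Xc := by rw [hst]; ring
      rw [e]
      exact dvd_add ((pow_dvd_pow _ (by omega)).trans hE') ((pow_dvd_pow _ (by omega)).trans hX)
    · have hrt : r = padicValNat 3 t := by
        rw [hrdef]; exact Nat.mod_eq_of_lt (by omega)
      rw [hrt]
      rw [if_pos (by omega)] at IH
      rcases lt_trichotomy (v + a - padicValNat 3 t) (v + 2 + w + padicValNat 3 t) with h | h | h
      · rw [min_eq_left h.le]
        apply Val3' IH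
        have e : S (3 ^ a) m (3 ^ a * t) - S (3 ^ a) m t = E + Xc := by rw [hst]; ring
        rw [e]
        exact dvd_add ((pow_dvd_pow _ (by omega)).trans hE')
          ((pow_dvd_pow _ (by omega)).trans hX)
      · -- the critical case
        rw [← h, min_self]
        obtain ⟨c, h1, -, h3⟩ := baseV fe rr a v μ ha hμ hμp t ht (by omega)
        rw [← hmdef] at h3
        set s := padicValNat 3 t with hs
        have hwa : w + 2 ≤ a := by omega
        have hwp : w % 2 = a % 2 := by omega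
        have hq1 := hex hwa hwp
        set u := t / 3 ^ s with hu
        have htu : t = 3 ^ s * u := by
          rw [hu, Nat.mul_div_cancel' pow_padicValNat_dvd]
        have hu3 : ¬ 3 ∣ u := by
          intro h3u
          have h4 : 3 ^ (s + 1) ∣ t := by
            rw [htu, pow_succ]
            exact mul_dvd_mul_left _ h3u
          have := (padicValNat_dvd_iff_le (by omega)).mp h4
          omega
        -- twice the value
        have hV2 : Val 3 (v + a - s) (2 * S (3 ^ a) m (3 ^ a * t)) := by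
          apply Val3 (y := 2 * c + μ * q * u)
          · intro hd
            have hq3 : q % 3 = 2 := by omega
            obtain ⟨x, hx⟩ := h1
            obtain ⟨z, hz⟩ := hd
            have hu2 : ∃ g : ℤ, (u : ℤ) ^ 2 = 1 + 3 * g := by
              have h1 : (u : ℤ) % 3 = 1 ∨ (u : ℤ) % 3 = 2 := by omega
              rcases h1 with h1 | h1
              · refine ⟨3 * (u / 3) ^ 2 + 2 * (u / 3), ?_⟩
                have h3 : (u : ℤ) = 3 * (u / 3) + 1 := by omega
                nth_rewrite 1 [h3]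
                ring
              · refine ⟨3 * (u / 3) ^ 2 + 4 * (u / 3) + 1, ?_⟩
                have h3 : (u : ℤ) = 3 * (u / 3) + 2 := by omega
                nth_rewrite 1 [h3]
                ring
            obtain ⟨g, hg⟩ := hu2
            have hq' : (q : ℤ) = 3 * (q / 3) + 2 := by omega
            apply hμp
            have h5 : (3 : ℤ) ∣ 4 * μ := by
              refine ⟨u * z - 2 * x - μ * q * g - μ * (q / 3), ?_⟩
              have h6 : 2 * ((u : ℤ) * c) + μ * q * u ^ 2 = 3 * (u * z) := by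
                linear_combination (u : ℤ) * hz
              rw [hg] at h6
              linear_combination h6 - 2 * hx - (μ : ℤ) * hq'
            have h6 : (3 : ℤ) ∣ μ := by omega
            exact_mod_cast h6
          · have e : 2 * S (3 ^ a) m (3 ^ a * t) - 3 ^ (v + a - s) * (2 * c + μ * q * u) =
                2 * (S (3 ^ a) m t - 3 ^ (v + a - s) * c) +
                (2 * E - 9 * (m : ℤ) ^ 2 * (m + 1) * t) + 2 * Xc := by
              have e2 : 9 * (m : ℤ) ^ 2 * (m + 1) * t =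
                  3 ^ (v + a - s) * ((μ : ℤ) * q * u) := by
                rw [h, pow_add (3 : ℤ) (v + 2 + w) s]
                have htz : (t : ℤ) = 3 ^ s * u := by exact_mod_cast htu
                rw [htz]
                linear_combination (3 : ℤ) ^ s * u * hLZ
              rw [e2, hst]
              ring
            rw [e]
            refine dvd_add (dvd_add (Dvd.dvd.mul_left h3 2) ((pow_dvd_pow _ (by omega)).trans hE))
              (Dvd.dvd.mul_left ((pow_dvd_pow _ (by omega)).trans hX) 2)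
        refine ⟨?_, fun hc => hV2.2 (Dvd.dvd.mul_left hc 2)⟩
        have := hV2.1
        push_cast at this ⊢
        exact dvd2 this
      · rw [min_eq_right h.le]
        have hu3 : ¬ (3 : ℤ) ∣ (μ : ℤ) * q * (t / 3 ^ padicValNat 3 t : ℕ) := by
          intro hd
          rcases Int.prime_three.dvd_or_dvd hd with hd | hd
          · rcases Int.prime_three.dvd_or_dvd hd with hd | hd
            · exact hμp (by exact_mod_cast hd)
            · exact hqp (by exact_mod_cast hd)
          · have h3u : 3 ∣ t / 3 ^ padicValNat 3 t := by exact_mod_cast hd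
            have htu : t = 3 ^ padicValNat 3 t * (t / 3 ^ padicValNat 3 t) := by
              rw [Nat.mul_div_cancel' pow_padicValNat_dvd]
            have h4 : 3 ^ (padicValNat 3 t + 1) ∣ t := by
              rw [pow_succ]
              nth_rewrite 2 [htu]
              exact mul_dvd_mul_left _ h3u
            have := (padicValNat_dvd_iff_le (by omega)).mp h4
            omega
        have hV2 : Val 3 (v + 2 + w + padicValNat 3 t) (2 * S (3 ^ a) m (3 ^ a * t)) := by
          apply Val3 hu3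
          have e : 2 * S (3 ^ a) m (3 ^ a * t) - 3 ^ (v + 2 + w + padicValNat 3 t) *
              ((μ : ℤ) * q * (t / 3 ^ padicValNat 3 t : ℕ)) =
              2 * S (3 ^ a) m t + (2 * E - 9 * (m : ℤ) ^ 2 * (m + 1) * t) + 2 * Xc := by
            have htz : (t : ℤ) = 3 ^ padicValNat 3 t * (t / 3 ^ padicValNat 3 t : ℕ) := by
              have htu : t = 3 ^ padicValNat 3 t * (t / 3 ^ padicValNat 3 t) := by
                rw [Nat.mul_div_cancel' pow_padicValNat_dvd]
              exact_mod_cast htu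
            have e2 : 9 * (m : ℤ) ^ 2 * (m + 1) * t = 3 ^ (v + 2 + w + padicValNat 3 t) *
                ((μ : ℤ) * q * (t / 3 ^ padicValNat 3 t : ℕ)) := by
              rw [pow_add (3 : ℤ) (v + 2 + w)]
              linear_combination (t : ℤ) * hLZ + 3 ^ (v + 2 + w) * ((μ : ℤ) * q) * htz
            rw [e2, hst]
            ring
          rw [e]
          have hS : (3 : ℤ) ^ (v + 2 + w + padicValNat 3 t + 1) ∣ S (3 ^ a) m t := by
            have := IH.1
            push_cast at this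
            exact (pow_dvd_pow _ (by omega)).trans this
          refine dvd_add (dvd_add (Dvd.dvd.mul_left hS 2) ((pow_dvd_pow _ (by omega)).trans hE))
              (Dvd.dvd.mul_left ((pow_dvd_pow _ (by omega)).trans hX) 2)
        refine ⟨?_, fun hc => hV2.2 (Dvd.dvd.mul_left hc 2)⟩
        have := hV2.1
        push_cast at this ⊢
        exact dvd2 this

end Pool.Agent.K9h30.CP
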