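import Pool.Agent.K9h30.CP.FormP
import Pool.Agent.K9h30.CP.Stm5

/-!
# MP_9acee6_nt: `p ≥ 5`: FORMp2 (helper30)
-/

set_option autoImplicit false

open PowerSeries Finset
open Pool.Agent.Results.MP_9acee6_nt.Four (S V Automatic geom)

namespace Pool.Agent.K9h30.CP

theorem formp2 (dig : S_DIG) (fe : S_FUN) (u0 : S_U0) (rr : S_RR) (linc : S_LINC2)
    (blkp2 : S_BLKp2) : S_FORMp2 := by
  intro p a m hp hp5 hW4 ha hm hexc n hn
  have := Fact.mk hp
  have hpZ : (p : ℤ) ≠ 0 := by exact_mod_cast hp.ne_zero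
  have hpI : Prime (p : ℤ) := Nat.prime_iff_prime_int.mp hp
  obtain ⟨v, μ, hμp, hmμ⟩ := Nat.exists_eq_pow_mul_and_not_dvd hm.ne' p hp.ne_one
  have hμ : 1 ≤ μ := by
    rcases Nat.eq_zero_or_pos μ with rfl | h
    · simp at hμp
    · exact h
  have hv : padicValNat p m = v := by
    rw [hmμ, padicValNat.mul (pow_ne_zero _ hp.ne_zero) (by omega), padicValNat.prime_pow,
      padicValNat.eq_zero_of_not_dvd hμp, add_zero]
  have hm' : p ^ v ∣ m := ⟨μ, hmμ⟩
  obtain ⟨w, P, hPp, hmP⟩ := Nat.exists_eq_pow_mul_and_not_dvd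
    (Nat.mul_pos hm (Nat.succ_pos m)).ne' p hp.ne_one
  have hP0 : P ≠ 0 := by rintro rfl; simp at hPp
  have hw : padicValNat p (m * (m + 1)) = w := by
    have h1 : m * (m + 1) = p ^ w * P := hmP
    rw [h1, padicValNat.mul (pow_ne_zero _ hp.ne_zero) hP0, padicValNat.prime_pow,
      padicValNat.eq_zero_of_not_dvd hPp, add_zero]
  have hdiv : m * (m + 1) / p ^ w = P := by
    have h1 : m * (m + 1) = p ^ w * P := hmP
    rw [h1]
    exact Nat.mul_div_cancel_left _ (Nat.pow_pos hp.pos)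
  unfold Excp2 at hexc
  rw [hw, hdiv] at hexc
  simp only [Fp2, hv, hw]
  have hmz : (m : ℤ) ^ 2 * (m + 1) = (p : ℤ) ^ (v + w) * (μ * P) := by
    have h1 : m * (m + 1) = p ^ w * P := hmP
    have h2 : (m : ℤ) * (m + 1) = p ^ w * P := by exact_mod_cast h1
    have h3 : (m : ℤ) = p ^ v * μ := by
      have : ((m : ℕ) : ℤ) = ((p ^ v * μ : ℕ) : ℤ) := by rw [← hmμ]
      rw [this]; push_cast; ring
    calc (m : ℤ) ^ 2 * (m + 1) = m * (m * (m + 1)) := by ring
      _ = m * (p ^ w * P) := by rw [h2]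
      _ = (p ^ v * μ) * (p ^ w * P) := by rw [← h3]
      _ = _ := by ring
  have hmn : p ^ (v + w) ∣ m ^ 2 * (m + 1) := by
    have : (p : ℤ) ^ (v + w) ∣ (m : ℤ) ^ 2 * (m + 1) := ⟨_, hmz⟩
    exact_mod_cast this
  have h2p : ¬ (p : ℤ) ∣ 2 := by
    intro h7
    have : p ∣ 2 := by exact_mod_cast h7
    have := Nat.le_of_dvd (by norm_num) this
    omega
  -- `W`
  have hWd : p ^ 3 ∣ (2 * p - 1).choose (p - 1) - 1 := by
    have h1 := (u0 p 0 1 1 hp (by omega) le_rfl (by
      intro h
      have := Nat.le_of_dvd one_pos h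
      omega) le_rfl).1 hp5
    have h3 := linc p 0 1 hp hp5 le_rfl (by simp)
    simp only [mul_zero, zero_add, pow_zero, Nat.cast_one, one_pow, mul_one] at h1 h3
    have h4 : (p : ℤ) ^ 3 ∣ 2 * coeff 1 (U p 0 (P1 p ^ 1)) -
        ((((2 * p - 1).choose (p - 1) : ℕ) : ℤ) - 1) * (1 + 1) := (pow_dvd_pow _ (by omega)).trans h3
    have h5 : (p : ℤ) ^ 3 ∣ ((((2 * p - 1).choose (p - 1) : ℕ) : ℤ) - 1) * (1 + 1) := by
      have := dvd_sub (Dvd.dvd.mul_left h1 2) h4
      simpa using this
    have h6 : IsCoprime ((p : ℤ) ^ 3) (1 + 1) := by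
      apply IsCoprime.pow_left
      rw [(Nat.prime_iff_prime_int.mp hp).coprime_iff_not_dvd]
      intro h7
      have : p ∣ 2 := by exact_mod_cast h7
      have := Nat.le_of_dvd (by norm_num) this
      omega
    have h7 := h6.dvd_of_dvd_mul_right h5
    have h8 : (((2 * p - 1).choose (p - 1) : ℕ) : ℤ) - 1 =
        (((2 * p - 1).choose (p - 1) - 1 : ℕ) : ℤ) := by
      have : 1 ≤ (2 * p - 1).choose (p - 1) := Nat.choose_pos (by omega)
      push_cast [this]
      ring
    rw [h8] at h7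
    exact_mod_cast h7
  have hWe : (2 * p - 1).choose (p - 1) - 1 = p ^ 3 * Wp p := by
    unfold Wp
    exact (Nat.mul_div_cancel' hWd).symm
  have hW : (((2 * p - 1).choose (p - 1) : ℕ) - 1 : ℤ) = p ^ 3 * (Wp p : ℕ) := by
    have h8 : (((2 * p - 1).choose (p - 1) : ℕ) : ℤ) - 1 =
        (((2 * p - 1).choose (p - 1) - 1 : ℕ) : ℤ) := by
      have : 1 ≤ (2 * p - 1).choose (p - 1) := Nat.choose_pos (by omega)
      push_cast [this]
      ring
    rw [h8, hWe]
    push_cast
    ring
  have hWp : ¬ p ∣ Wp p := by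
    intro h
    apply hW4
    rw [hWe, pow_succ]
    exact mul_dvd_mul_left _ h
  -- the linear coefficient
  have hl := linc p (v + w) m hp hp5 hm hmn
  have hcd : (p : ℤ) ^ (v + w + 3) ∣ coeff 1 (U p 0 (P1 p ^ m)) := by
    have h1 : (p : ℤ) ^ (v + w + 3) ∣ (((2 * p - 1).choose (p - 1) : ℕ) - 1 : ℤ) * m ^ 2 * (m + 1) := by
      rw [hW, mul_assoc, hmz]
      exact ⟨(Wp p : ℕ) * (μ * P), by ring⟩
    have h2 := (pow_dvd_pow (p : ℤ) (by omega : v + w + 3 ≤ v + w + 4)).trans hl
    have h3 := (Int.dvd_iff_dvd_of_dvd_sub h2).mpr h1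
    exact (IsCoprime.pow_left (hpI.coprime_iff_not_dvd.mpr h2p)).dvd_of_dvd_mul_left h3
  obtain ⟨ℓ, hℓ⟩ := hcd
  have hℓc : (p : ℤ) ∣ 2 * ℓ - (Wp p : ℕ) * (μ * P) := by
    rw [hℓ, hW] at hl
    have e1 : 2 * ((p : ℤ) ^ (v + w + 3) * ℓ) - p ^ 3 * (Wp p : ℕ) * m ^ 2 * (m + 1) =
        (p : ℤ) ^ (v + w + 3) * (2 * ℓ - (Wp p : ℕ) * (μ * P)) := by
      have : (p : ℤ) ^ 3 * (Wp p : ℕ) * m ^ 2 * (m + 1) = p ^ 3 * (Wp p : ℕ) * (m ^ 2 * (m + 1)) := by
        ring
      rw [this, hmz]
      ring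
    have e2 : (p : ℤ) ^ (v + w + 4) = (p : ℤ) ^ (v + w + 3) * p := by ring
    rw [e1, e2] at hl
    exact (mul_dvd_mul_iff_left (pow_ne_zero _ hpZ)).mp hl
  have hℓp : ¬ (p : ℤ) ∣ ℓ := by
    intro h
    have h1 : (p : ℤ) ∣ (Wp p : ℕ) * (μ * P) := by
      have := dvd_sub (Dvd.dvd.mul_left h 2) hℓc
      simpa using this
    have h2 : p ∣ Wp p * (μ * P) := by exact_mod_cast h1
    rcases (Nat.Prime.dvd_mul hp).mp h2 with h3 | h3
    · exact hWp h3
    · rcases (Nat.Prime.dvd_mul hp).mp h3 with h4 | h4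
      · exact hμp h4
      · exact hPp h4
  -- `E`
  obtain ⟨hB, hA0⟩ := blkp2 p a m (v + w) hp hp5 ha hm hmn
  set E := run p a m (fun _ => 0) a - 1 with hE
  have hE0 : coeff 0 E = 0 := by
    rw [hE, map_sub, hA0]; simp
  have hEt : ∀ t s : ℕ, p ^ s ∣ t → (p : ℤ) ^ (v + w + 4 + s) ∣ coeff t E -
      (p : ℤ) ^ (v + w + 3) * ℓ * t := by
    intro t s hs
    have := CLp_val2 hp hB (by simp [hE0]) t s hs
    rw [hℓ] at this
    exact this
  have hEt2 : ∀ t s : ℕ, p ^ s ∣ t → (p : ℤ) ^ (v + w + 3 + s) ∣ coeff t E := by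
    intro t s hs
    have h1 := (pow_dvd_pow (p : ℤ) (by omega : v + w + 3 + s ≤ v + w + 4 + s)).trans (hEt t s hs)
    have h2 : (p : ℤ) ^ (v + w + 3 + s) ∣ (p : ℤ) ^ (v + w + 3) * ℓ * t := by
      rw [pow_add, mul_assoc]
      apply mul_dvd_mul_left
      apply Dvd.dvd.mul_left
      exact_mod_cast hs
    exact (Int.dvd_iff_dvd_of_dvd_sub h1).mpr h2
  have hSd := S_dvd1 fe rr p a v μ hp (by omega) ha hμ hμp
  rw [← hmμ] at hSd
  have hSb := S_base1 fe rr p a v μ hp (by omega) ha hμ hμp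
  rw [← hmμ] at hSb
  have hSbd : ∀ l, 1 ≤ l → padicValNat p l < a →
      (p : ℤ) ^ (v + a - padicValNat p l) ∣ S (p ^ a) m l := by
    intro l hl h
    obtain ⟨c, -, hc2⟩ := hSb l hl (fun hd => by
      have := (padicValNat_dvd_iff_le (by omega)).mp hd
      omega)
    have h3 := (pow_dvd_pow (p : ℤ) (by omega : v + a - padicValNat p l ≤
      a - padicValNat p l + v + 1)).trans hc2
    have h4 : (p : ℤ) ^ (v + a - padicValNat p l) ∣ (p : ℤ) ^ (a - padicValNat p l + v) * c := by
      have : v + a - padicValNat p l = a - padicValNat p l + v := by omega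
      rw [this]
      exact dvd_mul_right _ _
    exact (Int.dvd_iff_dvd_of_dvd_sub h3).mpr h4
  -- cross terms
  have hcross : ∀ t e : ℕ, 1 ≤ t → e ≤ v + w + 3 + v + a → e ≤ v + w + v + 4 + padicValNat p t →
      (p : ℤ) ^ e ∣ coeff t (E * (ser (p ^ a) m - 1)) := by
    intro t e ht he1 he2
    rw [coeff_mul]
    apply dvd_sum
    rintro ⟨i, l⟩ hil
    rw [HasAntidiagonal.mem_antidiagonal] at hil
    simp only at hil ⊢
    rcases Nat.eq_zero_or_pos i with rfl | hi
    · rw [hE0, zero_mul]; exact dvd_zero _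
    rcases Nat.eq_zero_or_pos l with rfl | hl
    · have : coeff 0 (ser (p ^ a) m - 1) = 0 := by simp [ser, S_zero]
      rw [this, mul_zero]; exact dvd_zero _
    have h0 : coeff l (1 : ℤ⟦X⟧) = 0 := by rw [coeff_one, if_neg (by omega)]
    have e3 : coeff l (ser (p ^ a) m - 1) = S (p ^ a) m l := by
      rw [map_sub, h0, sub_zero]; simp [ser]
    rw [e3]
    by_cases hit : padicValNat p i < padicValNat p t
    · have hvl := val_sub p hp i l t hi hl hil hit
      by_cases hia : padicValNat p i < a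
      · have h5 := mul_dvd_mul (hEt2 i _ pow_padicValNat_dvd) (hSbd l hl (by omega))
        rw [← pow_add] at h5
        exact (pow_dvd_pow _ (by omega)).trans h5
      · have h5 := mul_dvd_mul (hEt2 i _ pow_padicValNat_dvd) (hSd l hl)
        rw [← pow_add] at h5
        exact (pow_dvd_pow _ (by omega)).trans h5
    · have h5 := mul_dvd_mul (hEt2 i _ pow_padicValNat_dvd) (hSd l hl)
      rw [← pow_add] at h5
      exact (pow_dvd_pow _ (by omega)).trans h5
  apply Val_emul
  have hk2 : 2 ≤ p ^ a := by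
    calc 2 ≤ p := hp.two_le
      _ = p ^ 1 := (pow_one p).symm
      _ ≤ p ^ a := Nat.pow_le_pow_right hp.pos (by omega)
  -- base
  have base : ∀ t, 1 ≤ t → ¬ p ^ a ∣ t → Val p (v + a - padicValNat p t) (S (p ^ a) m t) := by
    intro t ht hk
    have hs : padicValNat p t < a := by
      by_contra hcon
      exact hk ((padicValNat_dvd_iff_le (by omega)).mpr (by omega))
    obtain ⟨c, hc, hc2⟩ := hSb t ht hk
    have e : v + a - padicValNat p t = a - padicValNat p t + v := by omega
    rw [e]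
    have h1 : Val p (a - padicValNat p t + v) ((p : ℤ) ^ (a - padicValNat p t + v) * c) := by
      refine ⟨dvd_mul_right _ _, ?_⟩
      rw [pow_succ]
      intro h
      have h2 := (mul_dvd_mul_iff_left (pow_ne_zero _ hpZ)).mp h
      have h3 : (p : ℤ) ∣ μ := by
        have := dvd_sub (Dvd.dvd.mul_left h2 ((t / p ^ padicValNat p t : ℕ) : ℤ)) hc
        simpa using this
      exact hμp (by exact_mod_cast h3)
    have := Val_add h1 hc2
    convert this using 1
    ring
  induction n using Nat.strong_induction_on with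
  | _ n ih =>
  by_cases hk : p ^ a ∣ n
  swap
  · have hs : padicValNat p n < a := by
      by_contra hcon
      exact hk ((padicValNat_dvd_iff_le (by omega)).mpr (by omega))
    rw [if_pos hs]
    exact base n hn hk
  obtain ⟨t, rfl⟩ := hk
  have ht : 1 ≤ t := by
    rcases Nat.eq_zero_or_pos t with rfl | h
    · simp at hn
    · exact h
  have hlt : t < p ^ a * t := by nlinarith
  have IH := ih t hlt ht
  have hvn : padicValNat p (p ^ a * t) = a + padicValNat p t := by
    rw [padicValNat.mul (pow_ne_zero _ hp.ne_zero) (by omega), padicValNat.prime_pow]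
  rw [hvn, if_neg (by omega), Nat.add_mod_left]
  have hstep := S_step1 dig p a m t hp ha
  rw [← hE] at hstep
  have hts : p ^ padicValNat p t ∣ t := pow_padicValNat_dvd
  by_cases hsa : padicValNat p t < a
  swap
  · -- `v(t) ≥ a`
    rw [if_neg hsa] at IH
    have hr : padicValNat p t % a < a := Nat.mod_lt _ (by omega)
    set r := padicValNat p t % a with hrdef
    have h1 : (p : ℤ) ^ (min (v + a - r) (v + 3 + w + r) + 1) ∣ coeff t E :=
      (pow_dvd_pow _ (by omega)).trans (hEt2 t _ hts)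
    have h2 := hcross t (min (v + a - r) (v + 3 + w + r) + 1) ht (by omega) (by omega)
    have e13 : S (p ^ a) m (p ^ a * t) = S (p ^ a) m t + (coeff t E +
        coeff t (E * (ser (p ^ a) m - 1))) := by rw [hstep]; ring
    rw [e13]
    exact Val_add IH (dvd_add h1 h2)
  · -- `v(t) = r < a`
    rw [if_pos hsa] at IH
    rw [Nat.mod_eq_of_lt hsa]
    set r := padicValNat p t with hrdef
    have hcr := fun e h1 h2 => hcross t e ht h1 h2
    rcases Nat.lt_trichotomy (v + a - r) (v + 3 + w + r) with hlt' | heq | hgt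
    · rw [min_eq_left hlt'.le]
      have h1 : (p : ℤ) ^ (v + a - r + 1) ∣ coeff t E :=
        (pow_dvd_pow _ (by omega)).trans (hEt2 t _ hts)
      have e13 : S (p ^ a) m (p ^ a * t) = S (p ^ a) m t + (coeff t E +
        coeff t (E * (ser (p ^ a) m - 1))) := by rw [hstep]; ring
      rw [e13]
      exact Val_add IH (dvd_add h1 (hcr _ (by omega) (by omega)))
    · -- the tie
      rw [heq, min_self]
      obtain ⟨u, hu⟩ := hts
      have hup : ¬ p ∣ u := by
        rintro ⟨u', rfl⟩
        have : p ^ (r + 1) ∣ t := ⟨u', by rw [hu]; ring⟩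
        have := (padicValNat_dvd_iff_le (by omega)).mp this
        omega
      have hnk : ¬ p ^ a ∣ t := by
        intro h
        have := (padicValNat_dvd_iff_le (by omega)).mp h
        omega
      obtain ⟨c, hc, hc2⟩ := hSb t ht hnk
      have htu : t / p ^ r = u := by
        rw [hu]
        exact Nat.mul_div_cancel_left _ (Nat.pow_pos hp.pos)
      rw [← hrdef, htu] at hc
      rw [← hrdef] at hc2
      have er : a - r + v = v + 3 + w + r := by omega
      rw [er] at hc2
      have hE2 := hEt t r ⟨u, hu⟩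
      have hx := hcr (v + 3 + w + r + 1) (by omega) (by omega)
      have hmain : Val p (v + 3 + w + r) ((p : ℤ) ^ (v + 3 + w + r) * (c + ℓ * u)) := by
        refine ⟨dvd_mul_right _ _, ?_⟩
        rw [pow_succ]
        intro h
        have h2 := (mul_dvd_mul_iff_left (pow_ne_zero _ hpZ)).mp h
        apply hexc
        refine ⟨by omega, by omega, u, ?_⟩
        have h3 : (p : ℤ) ∣ 2 + (Wp p : ℕ) * P * u ^ 2 := by
          obtain ⟨x1, hx1⟩ := h2
          obtain ⟨x2, hx2⟩ := hc
          obtain ⟨x3, hx3⟩ := hℓc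
          have h4 : (p : ℤ) ∣ μ * (2 + (Wp p : ℕ) * P * u ^ 2) := by
            refine ⟨2 * u * x1 - 2 * x2 - u ^ 2 * x3, ?_⟩
            linear_combination 2 * (u : ℤ) * hx1 - 2 * hx2 - (u : ℤ) ^ 2 * hx3
          rcases hpI.dvd_or_dvd h4 with h5 | h5
          · exact absurd (by exact_mod_cast h5) hμp
          · exact h5
        exact_mod_cast h3
      have h9 : (p : ℤ) ^ (v + 3 + w + r + 1) ∣ S (p ^ a) m (p ^ a * t) -
          (p : ℤ) ^ (v + 3 + w + r) * (c + ℓ * u) := by
        have e9 : v + w + 4 + r = v + 3 + w + r + 1 := by ring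
        rw [e9] at hE2
        have h10 := dvd_add (dvd_add hc2 hE2) hx
        have e10 : S (p ^ a) m (p ^ a * t) - (p : ℤ) ^ (v + 3 + w + r) * (c + ℓ * u) =
            S (p ^ a) m t - (p : ℤ) ^ (v + 3 + w + r) * c +
            (coeff t E - (p : ℤ) ^ (v + w + 3) * ℓ * t) + coeff t (E * (ser (p ^ a) m - 1)) := by
          rw [hstep]
          have htz : (t : ℤ) = p ^ r * u := by
            have : ((t : ℕ) : ℤ) = ((p ^ r * u : ℕ) : ℤ) := by rw [← hu]
            rw [this]; push_cast; ring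
          rw [htz]
          ring
        rw [e10]
        exact h10
      have := Val_add hmain h9
      convert this using 1
      ring
    · rw [min_eq_right hgt.le]
      have hmain : Val p (v + 3 + w + r) (coeff t E) := by
        refine ⟨by
          have := hEt2 t _ hts
          have e14 : v + w + 3 + r = v + 3 + w + r := by ring
          rwa [e14] at this, ?_⟩
        intro h
        have e9 : v + w + 4 + r = v + 3 + w + r + 1 := by ring
        have h1 := hEt t r hts
        rw [e9] at h1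
        have h2 := (Int.dvd_iff_dvd_of_dvd_sub h1).mp h
        obtain ⟨u, hu⟩ := hts
        have hup : ¬ p ∣ u := by
          rintro ⟨u', rfl⟩
          have : p ^ (r + 1) ∣ t := ⟨u', by rw [hu]; ring⟩
          have := (padicValNat_dvd_iff_le (by omega)).mp this
          omega
        have htz : (t : ℤ) = p ^ r * u := by
          have : ((t : ℕ) : ℤ) = ((p ^ r * u : ℕ) : ℤ) := by rw [← hu]
          rw [this]; push_cast; ring
        have e11 : (p : ℤ) ^ (v + w + 3) * ℓ * t = (p : ℤ) ^ (v + 3 + w + r) * (ℓ * u) := by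
          rw [htz]; ring
        rw [e11, pow_succ] at h2
        have h3 := (mul_dvd_mul_iff_left (pow_ne_zero _ hpZ)).mp h2
        rcases hpI.dvd_or_dvd h3 with h4 | h4
        · exact hℓp h4
        · exact hup (by exact_mod_cast h4)
      have h1 : (p : ℤ) ^ (v + 3 + w + r + 1) ∣ S (p ^ a) m t :=
        (pow_dvd_pow _ (by omega)).trans IH.1
      have h2 := Val_add hmain (dvd_add h1 (hcr _ (by omega) (by omega)))
      have e12 : S (p ^ a) m (p ^ a * t) = coeff t E + (S (p ^ a) m t +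
          coeff t (E * (ser (p ^ a) m - 1))) := by rw [hstep]; ring
      rw [e12]
      exact h2

end Pool.Agent.K9h30.CP
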