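import Pool.Agent.K9h30.CP.Stm

/-!
# MP_9acee6_nt, leaf INI1 (helper81)
-/

set_option autoImplicit false

open PowerSeries Finset

namespace Pool.Agent.K9h30.CP

namespace Ini1_

/-! ## forward differences -/

theorem mu_fwd (j : ℕ) (f : ℕ → ℤ) : mu j f = (fwdDiff (1 : ℕ))^[j] f 0 := by
  rw [fwdDiff_iter_eq_sum_shift]
  unfold mu
  apply sum_congr rfl
  intro i _
  simp

theorem mu_choose (j k : ℕ) : mu j (fun n => (n.choose k : ℤ)) = if j = k then 1 else 0 := by
  rw [mu_fwd]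
  exact fwdDiff_iter_choose_zero k j

theorem mu_congr (j : ℕ) (f g : ℕ → ℤ) (h : ∀ i ≤ j, f i = g i) : mu j f = mu j g := by
  unfold mu
  apply sum_congr rfl
  intro i hi
  rw [h i (by have := mem_range.1 hi; omega)]

theorem mu_mul (j : ℕ) (a : ℤ) (f : ℕ → ℤ) : mu j (fun n => a * f n) = a * mu j f := by
  unfold mu
  rw [mul_sum]
  exact sum_congr rfl fun i _ => by ring

theorem mu_add (j : ℕ) (f g : ℕ → ℤ) : mu j (fun n => f n + g n) = mu j f + mu j g := by
  unfold mu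
  rw [← sum_add_distrib]
  exact sum_congr rfl fun i _ => by ring

theorem mu_sum {ι : Type*} (j : ℕ) (s : Finset ι) (a : ι → ℤ) (f : ι → ℕ → ℤ) :
    mu j (fun n => ∑ i ∈ s, a i * f i n) = ∑ i ∈ s, a i * mu j (f i) := by
  unfold mu
  simp only [mul_sum]
  rw [sum_comm]
  exact sum_congr rfl fun i _ => sum_congr rfl fun k _ => by ring

/-! ## the powers of `z = x / (1 - x)^2` -/

/-- the coefficients of `z^l`, `l ≥ 1` -/
def c (l n : ℕ) : ℤ := ((n + (l - 1)).choose (2 * l - 1) : ℕ)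

/-- `z = x / (1 - x)^2` -/
noncomputable def Z : ℤ⟦X⟧ := X * y ^ 2

theorem y_mul : y * (1 - X) = 1 := by
  unfold y
  exact mk_one_mul_one_sub_eq_one ℤ

theorem P1_eq : P1 3 - 1 = 3 * Z := by
  unfold P1 Z
  have h : (1 - X ^ 3 : ℤ⟦X⟧) = (1 - X) * (1 + X + X ^ 2) := by ring
  calc (1 - X ^ 3) * y ^ 3 - 1 = (y * (1 - X)) * ((1 + X + X ^ 2) * y ^ 2) - 1 := by rw [h]; ring
    _ = (1 + X + X ^ 2) * y ^ 2 - (y * (1 - X)) ^ 2 := by rw [y_mul]; ring
    _ = 3 * (X * y ^ 2) := by ring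

theorem c_zero (l n : ℕ) (h : n < l) : c l n = 0 := by
  unfold c
  rw [Nat.choose_eq_zero_of_lt (by omega)]
  rfl

theorem coeff_Z (l n : ℕ) (hl : 1 ≤ l) : coeff n (Z ^ l) = c l n := by
  have h : (Z ^ l : ℤ⟦X⟧) = X ^ l * y ^ (2 * l - 1 + 1) := by
    unfold Z
    rw [mul_pow, ← pow_mul, show 2 * l - 1 + 1 = 2 * l by omega]
  rw [h, coeff_X_pow_mul']
  split_ifs with h1
  · unfold y c
    rw [show (PowerSeries.mk (1 : ℕ → ℤ)) = PowerSeries.mk 1 from rfl, mk_one_pow_eq_mk_choose_add,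
      coeff_mk]
    congr 2
    omega
  · exact (c_zero l n (by omega)).symm

theorem c_sum (l n : ℕ) : c l n = ∑ ij ∈ antidiagonal (2 * l - 1),
    (((l - 1).choose ij.2 : ℕ) : ℤ) * ((n.choose ij.1 : ℕ) : ℤ) := by
  unfold c
  rw [Nat.add_choose_eq]
  push_cast
  exact sum_congr rfl fun ij _ => by ring

theorem mu_c_zero (l j : ℕ) (hl : 1 ≤ l) (hj : 2 * l ≤ j) : mu j (c l) = 0 := by
  have h : c l = fun n => ∑ ij ∈ antidiagonal (2 * l - 1),
      (((l - 1).choose ij.2 : ℕ) : ℤ) * (fun n : ℕ => ((n.choose ij.1 : ℕ) : ℤ)) n := by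
    funext n
    exact c_sum l n
  rw [h, mu_sum]
  apply sum_eq_zero
  intro ij hij
  rw [mu_choose, if_neg, mul_zero]
  have := mem_antidiagonal.1 hij
  omega

theorem CL_c (e s l : ℕ) (hl : 1 ≤ l) (h : e + Nat.log 3 (2 * l - 1) ≤ s) :
    CL e fun n => 3 ^ s * c l n := by
  intro j hj
  rw [mu_mul]
  rcases Nat.lt_or_ge j (2 * l) with h1 | h1
  · apply Dvd.dvd.mul_right
    apply pow_dvd_pow
    have : Nat.log 3 j ≤ Nat.log 3 (2 * l - 1) := Nat.log_mono_right (by omega)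
    omega
  · rw [mu_c_zero l j hl h1, mul_zero]
    exact dvd_zero _

theorem norm_c (clu : S_CLU) (e s l j : ℕ) (hl : 1 ≤ l) (hj : 1 ≤ j)
    (h : e + Nat.log 3 (2 * l - 1) ≤ s) :
    (3 : ℝ) ^ (-(s : ℤ)) * ‖((mu j (fun t => c l (3 * t)) : ℤ) : ℚ_[3])‖ ≤
      (3 : ℝ) ^ (-((e + 1 + Nat.log 3 j : ℕ) : ℤ)) := by
  have h1 := clu e 0 (fun n => 3 ^ s * c l n) (by norm_num) (CL_c e s l hl h) j hj
  simp only [add_zero] at h1
  rw [mu_mul j (3 ^ s) (fun t => c l (3 * t))] at h1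
  have h2 := (Padic.norm_int_le_pow_iff_dvd (p := 3) (3 ^ s * mu j (fun t => c l (3 * t)))
    (e + 1 + Nat.log 3 j)).2 (by exact_mod_cast h1)
  push_cast at h2
  rw [norm_mul, norm_pow] at h2
  have h3 : ‖(3 : ℚ_[3])‖ = 3⁻¹ := by
    have := Padic.norm_p (p := 3)
    exact_mod_cast this
  rw [h3] at h2
  refine le_trans (le_of_eq ?_) (h2.trans (le_of_eq ?_))
  · rw [zpow_neg, zpow_natCast, inv_pow]
  · push_cast
    rfl

/-! ## binomial coefficients -/

theorem choose_dvd (v M r : ℕ) (hM : 1 ≤ M) (h : 3 ^ v ∣ M) :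
    3 ^ (v - Nat.log 3 (r + 1)) ∣ M.choose (r + 1) := by
  obtain ⟨κ, u, hu, hru⟩ := Nat.exists_eq_pow_mul_and_not_dvd (n := r + 1) (by omega) 3 (by norm_num)
  have hκ : κ ≤ Nat.log 3 (r + 1) := by
    apply Nat.le_log_of_pow_le (by norm_num)
    exact Nat.le_of_dvd (by omega) ⟨u, hru⟩
  have h1 : (r + 1) * M.choose (r + 1) = M * (M - 1).choose r := by
    have := Nat.add_one_mul_choose_eq (M - 1) r
    rw [Nat.sub_add_cancel hM] at this
    linarith
  rcases Nat.lt_or_ge v κ with hv | hv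
  · rw [Nat.sub_eq_zero_of_le (by omega), pow_zero]
    exact one_dvd _
  · have h2 : 3 ^ v ∣ 3 ^ κ * (u * M.choose (r + 1)) := by
      rw [← mul_assoc, ← hru, h1]
      exact h.mul_right _
    have h3 : 3 ^ (v - κ) ∣ u * M.choose (r + 1) := by
      have e : 3 ^ v = 3 ^ κ * 3 ^ (v - κ) := by rw [← pow_add]; congr 1; omega
      rw [e] at h2
      exact Nat.dvd_of_mul_dvd_mul_left (pow_pos (by norm_num) κ) h2
    have hcop : Nat.Coprime (3 ^ (v - κ)) u :=
      Nat.Coprime.pow_left _ ((Nat.Prime.coprime_iff_not_dvd Nat.prime_three).2 hu)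
    exact (pow_dvd_pow 3 (by omega)).trans (hcop.dvd_of_dvd_mul_left h3)

theorem bin (v M : ℕ) (hM : 1 ≤ M) (h : 3 ^ v ∣ M) (r : ℕ) :
    (3 : ℤ) ^ (v - Nat.log 3 r) ∣ ((M - 1).choose r : ℤ) - (-1) ^ r := by
  induction r with
  | zero => simp
  | succ r ih =>
    have h1 : ((M.choose (r + 1) : ℕ) : ℤ) = ((M - 1).choose r : ℤ) + ((M - 1).choose (r + 1) : ℤ) := by
      have := Nat.choose_succ_succ (M - 1) r
      rw [Nat.succ_eq_add_one, Nat.succ_eq_add_one, Nat.sub_add_cancel hM] at this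
      rw [this]
      push_cast
      ring
    have h2 : (3 : ℤ) ^ (v - Nat.log 3 (r + 1)) ∣ ((M.choose (r + 1) : ℕ) : ℤ) := by
      exact_mod_cast choose_dvd v M r hM h
    have h3 : (3 : ℤ) ^ (v - Nat.log 3 (r + 1)) ∣ ((M - 1).choose r : ℤ) - (-1) ^ r := by
      refine (pow_dvd_pow 3 ?_).trans ih
      have : Nat.log 3 r ≤ Nat.log 3 (r + 1) := Nat.log_mono_right (by omega)
      omega
    have h4 : ((M - 1).choose (r + 1) : ℤ) - (-1) ^ (r + 1) =
        ((M.choose (r + 1) : ℕ) : ℤ) - (((M - 1).choose r : ℤ) - (-1) ^ r) := by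
      rw [h1, pow_succ]
      ring
    rw [h4]
    exact dvd_sub h2 h3

/-- `3^l γ_l` -/
noncomputable def g (M l : ℕ) : ℚ_[3] :=
  3 ^ l * ((M.choose l : ℚ_[3]) - (-1) ^ (l + 1) * M / l)

theorem pow_ge (x : ℕ) (hx : 3 ≤ x) : 9 * x ≤ 3 ^ x := by
  induction x, hx using Nat.le_induction with
  | base => norm_num
  | succ x _ ih => rw [pow_succ]; omega

theorem ineq (l A B κ : ℕ) (hl : 4 ≤ l) (hA : 3 ^ A ≤ 2 * l - 1) (hB : 3 ^ B ≤ l - 1)
    (hκ : 3 ^ κ ∣ l) : 2 + A + B + κ ≤ l := by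
  have hκ' : 3 ^ κ ≤ l := Nat.le_of_dvd (by omega) hκ
  have hA' : A < 3 ∨ 9 * A ≤ 2 * l - 1 := by
    rcases Nat.lt_or_ge A 3 with h | h
    · exact Or.inl h
    · exact Or.inr ((pow_ge A h).trans hA)
  have hB' : B < 3 ∨ 9 * B ≤ l - 1 := by
    rcases Nat.lt_or_ge B 3 with h | h
    · exact Or.inl h
    · exact Or.inr ((pow_ge B h).trans hB)
  have hκ'' : κ < 3 ∨ 9 * κ ≤ l := by
    rcases Nat.lt_or_ge κ 3 with h | h
    · exact Or.inl h
    · exact Or.inr ((pow_ge κ h).trans hκ')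
  rcases Nat.lt_or_ge l 27 with h | h
  · have hA4 : A < 4 := by
      by_contra hc
      have : 3 ^ 4 ≤ 3 ^ A := pow_le_pow_right₀ (by norm_num) (by omega)
      norm_num at this
      omega
    have hB4 : B < 3 := by
      by_contra hc
      have : 3 ^ 3 ≤ 3 ^ B := pow_le_pow_right₀ (by norm_num) (by omega)
      norm_num at this
      omega
    have hκ4 : κ < 3 := by
      by_contra hc
      have : 3 ^ 3 ≤ 3 ^ κ := pow_le_pow_right₀ (by norm_num) (by omega)
      norm_num at this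
      omega
    interval_cases A <;> interval_cases B <;> interval_cases κ <;> norm_num at hA hB hκ <;> omega
  · omega

theorem norm3 : ‖(3 : ℚ_[3])‖ = 3⁻¹ := by
  have := Padic.norm_p (p := 3)
  exact_mod_cast this

theorem g_norm (v M l : ℕ) (hv : 1 ≤ v) (hM : 1 ≤ M) (h : 3 ^ v ∣ M) (hl : 3 ≤ l) :
    ‖g M l‖ ≤ (3 : ℝ) ^ (-((2 * v + 2 + Nat.log 3 (2 * l - 1) : ℕ) : ℤ)) := by
  rcases Nat.lt_or_ge l 4 with hl4 | hl4
  · have h3 : l = 3 := by omega
    subst h3
    -- `27 γ_3 = (9 M³ - 27 M²) / 2`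
    have e1 : g M 3 = ((9 * (M : ℤ) ^ 3 - 27 * (M : ℤ) ^ 2 : ℤ) : ℚ_[3]) / 2 := by
      unfold g
      have h4 : (6 : ℚ_[3]) * (M.choose 3 : ℚ_[3]) = M * (M - 1) * (M - 2) := by
        have h5 := Nat.descFactorial_eq_factorial_mul_choose M 3
        have h6 : ((M.descFactorial 3 : ℕ) : ℚ_[3]) = M * (M - 1) * (M - 2) := by
          rcases Nat.lt_or_ge M 3 with hM3 | hM3
          · have h7 : M = 1 ∨ M = 2 := by omega
            rcases h7 with rfl | rfl
            · simp [Nat.descFactorial]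
            · simp [Nat.descFactorial]
          · simp only [Nat.descFactorial, Nat.sub_zero, mul_one]
            rw [Nat.cast_mul, Nat.cast_mul, Nat.cast_sub (by omega), Nat.cast_sub (by omega)]
            push_cast
            ring
        rw [h5] at h6
        push_cast at h6
        rw [← h6]
        norm_num [Nat.factorial]
      have h8 : (M.choose 3 : ℚ_[3]) = M * (M - 1) * (M - 2) / 6 := by
        rw [eq_div_iff (by norm_num), ← h4]
        ring
      rw [h8]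
      push_cast
      ring
    rw [e1, norm_div]
    have h2 : ‖(2 : ℚ_[3])‖ = 1 := by
      have := (Padic.norm_natCast_eq_one_iff (p := 3) (n := 2)).2 (by norm_num)
      exact_mod_cast this
    rw [h2, div_one]
    apply (Padic.norm_int_le_pow_iff_dvd (p := 3) _ _).2
    have h9 : Nat.log 3 (2 * 3 - 1) = 1 := by
      rw [Nat.log_eq_iff (by norm_num)]
      norm_num
    rw [h9]
    obtain ⟨w, rfl⟩ := h
    refine dvd_sub ?_ ?_
    · obtain ⟨u, rfl⟩ : ∃ u, v = u + 1 := ⟨v - 1, by omega⟩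
      refine ⟨(3 ^ u * w ^ 3 : ℤ), ?_⟩
      push_cast
      ring
    · refine ⟨(w ^ 2 : ℤ), ?_⟩
      push_cast
      ring
  · set L := Nat.log 3 (2 * l - 1) with hL
    set lam := Nat.log 3 (l - 1) with hlam
    obtain ⟨κ, u, hu, hlu⟩ := Nat.exists_eq_pow_mul_and_not_dvd (n := l) (by omega) 3 (by norm_num)
    have hineq : 2 + L + lam + κ ≤ l := by
      apply ineq l L lam κ hl4
      · exact Nat.pow_log_le_self 3 (by omega)
      · exact Nat.pow_log_le_self 3 (by omega)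
      · exact ⟨u, hlu⟩
    -- `l γ_l = N`
    set N : ℤ := M * (((M - 1).choose (l - 1) : ℤ) - (-1) ^ (l - 1)) with hN
    have hNd : (3 : ℤ) ^ (v + (v - lam)) ∣ N := by
      rw [pow_add]
      apply mul_dvd_mul
      · exact_mod_cast h
      · exact bin v M hM h (l - 1)
    have hl0 : (l : ℚ_[3]) ≠ 0 := by
      have : l ≠ 0 := by omega
      exact_mod_cast this
    have h1 : (l : ℚ_[3]) * (M.choose l : ℚ_[3]) = M * ((M - 1).choose (l - 1) : ℚ_[3]) := by
      have h2 := Nat.add_one_mul_choose_eq (M - 1) (l - 1)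
      rw [Nat.sub_add_cancel hM, Nat.sub_add_cancel (by omega : 1 ≤ l)] at h2
      have h3 : l * M.choose l = M * (M - 1).choose (l - 1) := by linarith
      exact_mod_cast h3
    have hpow : ((-1 : ℚ_[3])) ^ (l + 1) = (-1) ^ (l - 1) := by
      have : l + 1 = l - 1 + 2 := by omega
      rw [this, pow_add]
      norm_num
    have e1 : g M l = ((3 ^ l * N : ℤ) : ℚ_[3]) / l := by
      unfold g
      rw [eq_div_iff hl0, hpow, hN]
      push_cast
      have h5 : ((-1 : ℚ_[3])) ^ (l - 1) * M / l * l = (-1) ^ (l - 1) * M := by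
        field_simp
      calc (3 : ℚ_[3]) ^ l * ((M.choose l : ℚ_[3]) - (-1) ^ (l - 1) * M / l) * l
          = 3 ^ l * (l * (M.choose l : ℚ_[3]) - (-1) ^ (l - 1) * M / l * l) := by ring
        _ = _ := by rw [h5, h1]; ring
    have hln : ‖(l : ℚ_[3])‖ = (3 : ℝ) ^ (-(κ : ℤ)) := by
      have h6 : (l : ℚ_[3]) = 3 ^ κ * u := by
        conv_lhs => rw [hlu]
        push_cast
        rfl
      rw [h6, norm_mul, norm_pow, norm3]
      have h7 : ‖(u : ℚ_[3])‖ = 1 := by
        rw [Padic.norm_natCast_eq_one_iff]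
        exact (Nat.Prime.coprime_iff_not_dvd Nat.prime_three).2 hu
      rw [h7, mul_one, zpow_neg, zpow_natCast, inv_pow]
    have hNn : ‖((3 ^ l * N : ℤ) : ℚ_[3])‖ ≤ (3 : ℝ) ^ (-((2 * v + 2 + L + κ : ℕ) : ℤ)) := by
      refine ((Padic.norm_int_le_pow_iff_dvd (p := 3) _ _).2 ?_)
      have h8 : (3 : ℤ) ^ (l + (v + (v - lam))) ∣ 3 ^ l * N := by
        rw [pow_add]
        exact mul_dvd_mul_left _ hNd
      exact (pow_dvd_pow 3 (by omega)).trans h8
    rw [e1, norm_div, hln, div_le_iff₀ (by positivity), ← zpow_add₀ (by norm_num)]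
    refine hNn.trans (le_of_eq ?_)
    congr 1
    push_cast
    ring

theorem g_two (M : ℕ) : g M 2 = ((9 * (M : ℤ) ^ 2 : ℤ) : ℚ_[3]) / 2 := by
  unfold g
  have h := Nat.cast_choose_two ℚ_[3] M
  rw [h]
  push_cast
  ring

theorem g_one (M : ℕ) : g M 1 = 0 := by
  unfold g
  simp

/-- the coefficients -/
theorem coeff_eq (log : S_LOG) (M t L : ℕ) (hL : 3 * t ≤ L) :
    ((coeff t (U 3 0 (P1 3 ^ M) - 1) : ℤ) : ℚ_[3]) =
      ∑ l ∈ Icc 1 L, g M l * ((c l (3 * t) : ℤ) : ℚ_[3]) := by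
  have h1 : coeff t (U 3 0 (P1 3 ^ M) - 1) = coeff (3 * t) (P1 3 ^ M) - if t = 0 then 1 else 0 := by
    rw [map_sub]
    unfold U
    rw [coeff_mk, add_zero, coeff_one]
  have hZ3 : ∀ l n, coeff n ((3 * Z : ℤ⟦X⟧) ^ l) = 3 ^ l * coeff n (Z ^ l) := by
    intro l n
    rw [mul_pow]
    have : (3 : ℤ⟦X⟧) ^ l = C ((3 : ℤ) ^ l) := by
      rw [map_pow]
      rfl
    rw [this, coeff_C_mul]
  have h2 : coeff (3 * t) (P1 3 ^ M) = (if t = 0 then 1 else 0) +
      ∑ l ∈ Icc 1 L, (M.choose l : ℤ) * (3 ^ l * c l (3 * t)) := by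
    have e1 : (P1 3 : ℤ⟦X⟧) = 3 * Z + 1 := by rw [← P1_eq]; ring
    have e2 : coeff (3 * t) (P1 3 ^ M) = ∑ m ∈ range (M + 1),
        (M.choose m : ℤ) * (3 ^ m * coeff (3 * t) (Z ^ m)) := by
      rw [e1, add_pow, map_sum]
      apply sum_congr rfl
      intro m _
      rw [one_pow, mul_one]
      have : ((M.choose m : ℕ) : ℤ⟦X⟧) = C ((M.choose m : ℕ) : ℤ) := by simp
      rw [this, coeff_mul_C, hZ3]
      ring
    have e3 : ∑ m ∈ range (M + 1), (M.choose m : ℤ) * (3 ^ m * coeff (3 * t) (Z ^ m)) =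
        ∑ m ∈ range (M + L + 1), (M.choose m : ℤ) * (3 ^ m * coeff (3 * t) (Z ^ m)) := by
      apply sum_subset (range_subset_range.2 (by omega))
      intro m _ hm
      rw [mem_range, not_lt] at hm
      rw [Nat.choose_eq_zero_of_lt (by omega)]
      simp
    have e4 : ∑ m ∈ range (L + 1), (M.choose m : ℤ) * (3 ^ m * coeff (3 * t) (Z ^ m)) =
        ∑ m ∈ range (M + L + 1), (M.choose m : ℤ) * (3 ^ m * coeff (3 * t) (Z ^ m)) := by
      apply sum_subset (range_subset_range.2 (by omega))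
      intro m _ hm
      rw [mem_range, not_lt] at hm
      rw [coeff_Z m _ (by omega), c_zero m _ (by omega)]
      simp
    rw [e2, e3, ← e4, range_eq_Ico, sum_eq_sum_Ico_succ_bot (by omega)]
    congr 1
    · simp only [Nat.choose_zero_right, Nat.cast_one, pow_zero, one_mul, coeff_one]
      by_cases ht : t = 0
      · simp [ht]
      · rw [if_neg ht, if_neg (by omega)]
    · have e5 : Ico (0 + 1) (L + 1) = Icc 1 L := by
        ext m
        simp only [mem_Ico, mem_Icc]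
        omega
      rw [e5]
      apply sum_congr rfl
      intro m hm
      rw [coeff_Z m _ (mem_Icc.1 hm).1]
  have h3 : ∑ l ∈ Icc 1 L, ((-1 : ℚ_[3]) ^ (l + 1) / l) * ((3 ^ l * c l (3 * t) : ℤ) : ℚ_[3]) = 0 := by
    rcases Nat.eq_zero_or_pos t with ht | ht
    · apply sum_eq_zero
      intro l hl
      rw [ht, c_zero l _ (by have := (mem_Icc.1 hl).1; omega)]
      simp
    · have h4 := log 3 (3 * t) Nat.prime_three (by omega) ⟨t, rfl⟩
      have h5 := congrArg (Rat.cast : ℚ → ℚ_[3]) h4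
      push_cast at h5
      have h6 : ∑ l ∈ Icc 1 (3 * t), ((-1 : ℚ_[3]) ^ (l + 1) / l) *
          ((3 ^ l * c l (3 * t) : ℤ) : ℚ_[3]) = 0 := by
        rw [← h5]
        apply sum_congr rfl
        intro l hl
        rw [P1_eq, hZ3, coeff_Z l _ (mem_Icc.1 hl).1]
      rw [← h6]
      symm
      apply sum_subset (Icc_subset_Icc le_rfl hL)
      intro l hl hl2
      rw [mem_Icc] at hl hl2
      rw [c_zero l _ (by omega)]
      simp
  rw [h1, h2, add_sub_cancel_left]
  have h4 : ((∑ l ∈ Icc 1 L, (M.choose l : ℤ) * (3 ^ l * c l (3 * t)) : ℤ) : ℚ_[3]) =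
      (∑ l ∈ Icc 1 L, (M.choose l : ℚ_[3]) * ((3 ^ l * c l (3 * t) : ℤ) : ℚ_[3])) -
      M * ∑ l ∈ Icc 1 L, ((-1 : ℚ_[3]) ^ (l + 1) / l) * ((3 ^ l * c l (3 * t) : ℤ) : ℚ_[3]) := by
    rw [h3, mul_zero, sub_zero]
    push_cast
    rfl
  rw [h4, mul_sum, ← sum_sub_distrib]
  apply sum_congr rfl
  intro l _
  unfold g
  push_cast
  ring

/-- the differences -/
theorem mu_eq (log : S_LOG) (M j : ℕ) (hj : 1 ≤ j) :
    ((mu j (fun t => coeff t (U 3 0 (P1 3 ^ M) - 1)) : ℤ) : ℚ_[3]) =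
      g M 2 * ((mu j (fun t => c 2 (3 * t)) : ℤ) : ℚ_[3]) +
      ∑ l ∈ Icc 3 (3 * j), g M l * ((mu j (fun t => c l (3 * t)) : ℤ) : ℚ_[3]) := by
  have h1 : ((mu j (fun t => coeff t (U 3 0 (P1 3 ^ M) - 1)) : ℤ) : ℚ_[3]) =
      ∑ l ∈ Icc 1 (3 * j), g M l * ((mu j (fun t => c l (3 * t)) : ℤ) : ℚ_[3]) := by
    unfold mu
    push_cast
    simp only [mul_sum]
    rw [sum_comm]
    apply sum_congr rfl
    intro i hi
    have h2 := coeff_eq log M i (3 * j) (by have := mem_range.1 hi; omega)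
    rw [h2, mul_sum]
    exact sum_congr rfl fun l _ => by ring
  have h3 : Icc 1 (3 * j) = insert 1 (insert 2 (Icc 3 (3 * j))) := by
    ext l
    simp only [mem_Icc, mem_insert]
    omega
  rw [h1, h3, sum_insert (by simp), sum_insert (by simp), g_one, zero_mul, zero_add]

theorem tail (clu : S_CLU) (v M j : ℕ) (hv : 1 ≤ v) (hM : 1 ≤ M) (h : 3 ^ v ∣ M) (hj : 1 ≤ j) :
    ‖∑ l ∈ Icc 3 (3 * j), g M l * ((mu j (fun t => c l (3 * t)) : ℤ) : ℚ_[3])‖ ≤
      (3 : ℝ) ^ (-((2 * v + 3 + Nat.log 3 j : ℕ) : ℤ)) := by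
  apply IsUltrametricDist.norm_sum_le_of_forall_le_of_nonneg (by positivity)
  intro l hl
  have hl3 := (mem_Icc.1 hl).1
  rw [norm_mul]
  refine (mul_le_mul_of_nonneg_right (g_norm v M l hv hM h hl3) (norm_nonneg _)).trans ?_
  have h1 := norm_c clu (2 * v + 2) (2 * v + 2 + Nat.log 3 (2 * l - 1)) l j (by omega) hj le_rfl
  have e : 2 * v + 2 + 1 + Nat.log 3 j = 2 * v + 3 + Nat.log 3 j := by ring
  rw [e] at h1
  exact h1

theorem c_two (t : ℕ) : 2 * c 2 (3 * t) = 9 * (t : ℤ) ^ 3 - t := by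
  have h := Nat.descFactorial_eq_factorial_mul_choose (3 * t + 1) 3
  have h1 : (((3 * t + 1).descFactorial 3 : ℕ) : ℤ) = (3 * t + 1) * (3 * t) * (3 * t - 1) := by
    rcases Nat.eq_zero_or_pos t with ht | ht
    · subst ht; simp [Nat.descFactorial]
    · simp only [Nat.descFactorial, Nat.sub_zero, mul_one]
      rw [show 3 * t + 1 - 1 = 3 * t by omega, Nat.cast_mul, Nat.cast_mul,
        Nat.cast_sub (by omega : 2 ≤ 3 * t + 1)]
      push_cast
      ring
  rw [h] at h1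
  have h2 : c 2 (3 * t) = (((3 * t + 1).choose 3 : ℕ) : ℤ) := rfl
  rw [h2]
  push_cast at h1
  norm_num [Nat.factorial] at h1
  linarith

theorem mu_cube (j : ℕ) : mu j (fun t => (t : ℤ) ^ 3) =
    (if j = 1 then 1 else 0) + 6 * (if j = 2 then 1 else 0) + 6 * (if j = 3 then 1 else 0) := by
  have h : (fun t : ℕ => (t : ℤ) ^ 3) = fun t : ℕ => ((t.choose 1 : ℕ) : ℤ) +
      (6 * ((t.choose 2 : ℕ) : ℤ) + 6 * ((t.choose 3 : ℕ) : ℤ)) := by
    funext t
    have h2 : (t : ℤ) * (t - 1) = 2 * ((t.choose 2 : ℕ) : ℤ) := by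
      have h3 := Nat.descFactorial_eq_factorial_mul_choose t 2
      have h4 : ((t.descFactorial 2 : ℕ) : ℤ) = t * (t - 1) := by
        rcases Nat.eq_zero_or_pos t with ht | ht
        · subst ht; simp [Nat.descFactorial]
        · simp only [Nat.descFactorial, Nat.sub_zero, mul_one]
          rw [Nat.cast_mul, Nat.cast_sub (by omega)]
          push_cast
          ring
      rw [h3] at h4
      push_cast at h4
      norm_num [Nat.factorial] at h4
      linarith
    have h3 : (t : ℤ) * (t - 1) * (t - 2) = 6 * ((t.choose 3 : ℕ) : ℤ) := by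
      have h3 := Nat.descFactorial_eq_factorial_mul_choose t 3
      have h4 : ((t.descFactorial 3 : ℕ) : ℤ) = t * (t - 1) * (t - 2) := by
        rcases Nat.lt_or_ge t 2 with ht | ht
        · have h7 : t = 0 ∨ t = 1 := by omega
          rcases h7 with rfl | rfl
          · simp [Nat.descFactorial]
          · simp [Nat.descFactorial]
        · simp only [Nat.descFactorial, Nat.sub_zero, mul_one]
          rw [Nat.cast_mul, Nat.cast_mul, Nat.cast_sub (by omega), Nat.cast_sub (by omega)]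
          push_cast
          ring
      rw [h3] at h4
      push_cast at h4
      norm_num [Nat.factorial] at h4
      linarith
    rw [Nat.choose_one_right]
    linear_combination (3 : ℤ) * h2 + h3
  rw [h, mu_add, mu_add, mu_mul, mu_mul, mu_choose, mu_choose, mu_choose]
  ring

end Ini1_

open Ini1_ in
theorem ini1 (log : S_LOG) (clu : S_CLU) : S_INI1 := by
  intro v M hv hM h
  have h2 : ‖(2 : ℚ_[3])‖ = 1 := by
    have := (Padic.norm_natCast_eq_one_iff (p := 3) (n := 2)).2 (by norm_num)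
    exact_mod_cast this
  have hMz : (3 : ℤ) ^ v ∣ M := by exact_mod_cast h
  constructor
  · intro j hj
    have h1 : cf (U 3 0 (P1 3 ^ M) - 1) = fun t => coeff t (U 3 0 (P1 3 ^ M) - 1) := rfl
    rw [h1]
    have h3 : ((3 : ℕ) : ℤ) ^ (2 * v + 2 + Nat.log 3 j) ∣
        mu j (fun t => coeff t (U 3 0 (P1 3 ^ M) - 1)) := by
      rw [← Padic.norm_int_le_pow_iff_dvd, mu_eq log M j hj]
      refine (Padic.nonarchimedean _ _).trans (max_le ?_ ?_)
      · rw [norm_mul]
        have h4 : ‖g M 2‖ ≤ (3 : ℝ) ^ (-((2 * v + 2 : ℕ) : ℤ)) := by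
          rw [g_two, norm_div, h2, div_one]
          apply (Padic.norm_int_le_pow_iff_dvd (p := 3) _ _).2
          obtain ⟨w, hw⟩ := hMz
          refine ⟨w ^ 2, ?_⟩
          rw [hw]
          push_cast
          ring
        refine (mul_le_mul_of_nonneg_right h4 (norm_nonneg _)).trans ?_
        have h5 : Nat.log 3 (2 * 2 - 1) = 1 := by
          rw [Nat.log_eq_iff (by norm_num)]
          norm_num
        have h6 := norm_c clu (2 * v + 1) (2 * v + 2) 2 j (by norm_num) hj (by rw [h5])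
        have e : 2 * v + 1 + 1 + Nat.log 3 j = 2 * v + 2 + Nat.log 3 j := by ring
        rw [e] at h6
        exact_mod_cast h6
      · refine (tail clu v M j hv hM h hj).trans ?_
        apply zpow_le_zpow_right₀ (by norm_num)
        push_cast
        linarith
    exact_mod_cast h3
  · intro j hj
    have h3 : ((3 : ℕ) : ℤ) ^ (2 * v + 3 + Nat.log 3 j) ∣
        mu j (fun t => 4 * coeff t (U 3 0 (P1 3 ^ M) - 1) + 9 * (M : ℤ) ^ 2 * t) := by
      rw [← Padic.norm_int_le_pow_iff_dvd]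
      have e1 : mu j (fun t => 4 * coeff t (U 3 0 (P1 3 ^ M) - 1) + 9 * (M : ℤ) ^ 2 * t) =
          4 * mu j (fun t => coeff t (U 3 0 (P1 3 ^ M) - 1)) +
          9 * (M : ℤ) ^ 2 * mu j (fun t => (t : ℤ)) := by
        rw [mu_add, mu_mul, mu_mul]
      have e2 : 2 * mu j (fun t => c 2 (3 * t)) =
          9 * mu j (fun t => (t : ℤ) ^ 3) - mu j (fun t => (t : ℤ)) := by
        have h5 : mu j (fun t => 2 * c 2 (3 * t) + (t : ℤ)) = mu j (fun t => 9 * (t : ℤ) ^ 3) := by
          apply mu_congr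
          intro i _
          rw [c_two]
          ring
        rw [mu_add, mu_mul, mu_mul] at h5
        linarith
      rw [e1]
      push_cast
      rw [mu_eq log M j hj, g_two]
      have e3 : 4 * (((9 * (M : ℤ) ^ 2 : ℤ) : ℚ_[3]) / 2 *
            ((mu j (fun t => c 2 (3 * t)) : ℤ) : ℚ_[3]) +
            ∑ l ∈ Icc 3 (3 * j), g M l * ((mu j (fun t => c l (3 * t)) : ℤ) : ℚ_[3])) +
          9 * (M : ℚ_[3]) ^ 2 * ((mu j (fun t => (t : ℤ)) : ℤ) : ℚ_[3]) =
          ((81 * (M : ℤ) ^ 2 * mu j (fun t => (t : ℤ) ^ 3) : ℤ) : ℚ_[3]) +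
          4 * ∑ l ∈ Icc 3 (3 * j), g M l * ((mu j (fun t => c l (3 * t)) : ℤ) : ℚ_[3]) := by
        have e4 : (2 : ℚ_[3]) * ((mu j (fun t => c 2 (3 * t)) : ℤ) : ℚ_[3]) =
            9 * ((mu j (fun t => (t : ℤ) ^ 3) : ℤ) : ℚ_[3]) - ((mu j (fun t => (t : ℤ)) : ℤ) : ℚ_[3]) := by
          exact_mod_cast congrArg (Int.cast : ℤ → ℚ_[3]) e2
        push_cast
        linear_combination (9 : ℚ_[3]) * (M : ℚ_[3]) ^ 2 * e4
      rw [e3]
      refine (Padic.nonarchimedean _ _).trans (max_le ?_ ?_)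
      · apply (Padic.norm_int_le_pow_iff_dvd (p := 3) _ _).2
        rw [mu_cube]
        obtain ⟨w, hw⟩ := hMz
        rw [hw]
        by_cases hj1 : j = 1
        · subst hj1
          have : Nat.log 3 1 = 0 := by simp
          rw [this]
          refine ⟨3 * w ^ 2, ?_⟩
          push_cast
          norm_num
          ring
        · by_cases hj2 : j = 2
          · subst hj2
            have : Nat.log 3 2 = 0 := by simp
            rw [this]
            refine ⟨18 * w ^ 2, ?_⟩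
            push_cast
            norm_num
            ring
          · by_cases hj3 : j = 3
            · subst hj3
              have : Nat.log 3 3 = 1 := by
                rw [Nat.log_eq_iff (by norm_num)]
                norm_num
              rw [this]
              refine ⟨6 * w ^ 2, ?_⟩
              push_cast
              norm_num
              ring
            · simp [hj1, hj2, hj3]
      · rw [norm_mul]
        have h4 : ‖(4 : ℚ_[3])‖ ≤ 1 := by
          have := Padic.norm_int_le_one (p := 3) 4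
          exact_mod_cast this
        calc ‖(4 : ℚ_[3])‖ * ‖∑ l ∈ Icc 3 (3 * j), g M l *
              ((mu j (fun t => c l (3 * t)) : ℤ) : ℚ_[3])‖
            ≤ 1 * (3 : ℝ) ^ (-((2 * v + 3 + Nat.log 3 j : ℕ) : ℤ)) :=
              mul_le_mul h4 (tail clu v M j hv hM h hj) (norm_nonneg _) zero_le_one
          _ = _ := by rw [one_mul]; norm_num
    exact_mod_cast h3

end Pool.Agent.K9h30.CP
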