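import Pool.Agent.K9h30.CP.Stm2
import Pool.Agent.K9h30.CP.Ini1

/-!
# MP_9acee6_nt, leaf G3 (helper14)
-/

set_option autoImplicit false

open PowerSeries Finset

namespace Pool.Agent.K9h30.CP

namespace G3_

open Ini1_

theorem coeff_P1_pow (M t L : ℕ) (hL : t ≤ L) :
    coeff t (P1 3 ^ M - 1) = ∑ l ∈ Icc 1 L, (M.choose l : ℤ) * (3 ^ l * c l t) := by
  have hZ3 : ∀ l n, coeff n ((3 * Z : ℤ⟦X⟧) ^ l) = 3 ^ l * coeff n (Z ^ l) := by
    intro l n
    rw [mul_pow]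
    have : (3 : ℤ⟦X⟧) ^ l = C ((3 : ℤ) ^ l) := by
      rw [map_pow]
      rfl
    rw [this, coeff_C_mul]
  have e1 : (P1 3 : ℤ⟦X⟧) = 3 * Z + 1 := by rw [← P1_eq]; ring
  have e2 : coeff t (P1 3 ^ M) = ∑ m ∈ range (M + 1),
      (M.choose m : ℤ) * (3 ^ m * coeff t (Z ^ m)) := by
    rw [e1, add_pow, map_sum]
    apply sum_congr rfl
    intro m _
    rw [one_pow, mul_one]
    have : ((M.choose m : ℕ) : ℤ⟦X⟧) = C ((M.choose m : ℕ) : ℤ) := by simp
    rw [this, coeff_mul_C, hZ3]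
    ring
  have e3 : ∑ m ∈ range (M + 1), (M.choose m : ℤ) * (3 ^ m * coeff t (Z ^ m)) =
      ∑ m ∈ range (M + L + 1), (M.choose m : ℤ) * (3 ^ m * coeff t (Z ^ m)) := by
    apply sum_subset (range_subset_range.2 (by omega))
    intro m _ hm
    rw [mem_range, not_lt] at hm
    rw [Nat.choose_eq_zero_of_lt (by omega)]
    simp
  have e4 : ∑ m ∈ range (L + 1), (M.choose m : ℤ) * (3 ^ m * coeff t (Z ^ m)) =
      ∑ m ∈ range (M + L + 1), (M.choose m : ℤ) * (3 ^ m * coeff t (Z ^ m)) := by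
    apply sum_subset (range_subset_range.2 (by omega))
    intro m _ hm
    rw [mem_range, not_lt] at hm
    rw [coeff_Z m _ (by omega), c_zero m _ (by omega)]
    simp
  rw [map_sub, e2, e3, ← e4, range_eq_Ico, sum_eq_sum_Ico_succ_bot (by omega)]
  have e5 : Ico (0 + 1) (L + 1) = Icc 1 L := by
    ext m
    simp only [mem_Ico, mem_Icc]
    omega
  rw [e5]
  have e6 : ∑ m ∈ Icc 1 L, (M.choose m : ℤ) * (3 ^ m * coeff t (Z ^ m)) =
      ∑ l ∈ Icc 1 L, (M.choose l : ℤ) * (3 ^ l * c l t) := by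
    apply sum_congr rfl
    intro m hm
    rw [coeff_Z m _ (mem_Icc.1 hm).1]
  rw [e6]
  simp

theorem ineq (l A K : ℕ) (hl : 4 ≤ l) (hA : 3 ^ A ≤ 2 * l - 1) (hK : 3 ^ K ≤ l) :
    2 + A + K ≤ l := by
  have hA' : A < 3 ∨ 9 * A ≤ 2 * l - 1 := by
    rcases Nat.lt_or_ge A 3 with h | h
    · exact Or.inl h
    · exact Or.inr ((pow_ge A h).trans hA)
  have hK' : K < 3 ∨ 9 * K ≤ l := by
    rcases Nat.lt_or_ge K 3 with h | h
    · exact Or.inl h
    · exact Or.inr ((pow_ge K h).trans hK)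
  rcases Nat.lt_or_ge l 27 with h | h
  · have hA4 : A < 4 := by
      by_contra hc
      have : 3 ^ 4 ≤ 3 ^ A := pow_le_pow_right₀ (by norm_num) (by omega)
      norm_num at this
      omega
    have hK4 : K < 3 := by
      by_contra hc
      have : 3 ^ 3 ≤ 3 ^ K := pow_le_pow_right₀ (by norm_num) (by omega)
      norm_num at this
      omega
    interval_cases A <;> interval_cases K <;> norm_num at hA hK <;> omega
  · omega

theorem c_one (t : ℕ) : c 1 t = t := by simp [c]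

theorem c_two' (t : ℕ) : c 2 t = ((t + 1).choose 3 : ℕ) := rfl

theorem c_three (t : ℕ) : c 3 t = ((t + 2).choose 5 : ℕ) := rfl

end G3_

open Ini1_ G3_ in
/-- G3 -/
theorem g3 : S_G3 := by
  intro v M hM j hj
  rcases Nat.eq_zero_or_pos M with rfl | hM0
  · have : (fun t => coeff t (P1 3 ^ 0 - 1) - (3 * ((0 : ℕ) : ℤ) * t +
        9 * ((0 : ℕ).choose 2 : ℤ) * ((t + 1).choose 3 : ℤ) +
        27 * ((0 : ℕ).choose 3 : ℤ) * ((t + 2).choose 5 : ℤ))) = fun _ : ℕ => (0 : ℤ) := by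
      funext t
      simp
    rw [this]
    simp [mu]
  have h1 : mu j (fun t => coeff t (P1 3 ^ M - 1) - (3 * (M : ℤ) * t +
      9 * (M.choose 2 : ℤ) * ((t + 1).choose 3 : ℤ) +
      27 * (M.choose 3 : ℤ) * ((t + 2).choose 5 : ℤ))) =
      mu j (fun t => ∑ l ∈ Icc 4 (j + 3), ((M.choose l : ℤ) * 3 ^ l) * c l t) := by
    apply mu_congr
    intro i hi
    rw [coeff_P1_pow M i (j + 3) (by omega)]
    have h3 : Icc 1 (j + 3) = insert 1 (insert 2 (insert 3 (Icc 4 (j + 3)))) := by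
      ext l
      simp only [mem_Icc, mem_insert]
      omega
    rw [h3, sum_insert (by simp), sum_insert (by simp), sum_insert (by simp), c_one, c_two', c_three]
    have h4 : ∑ l ∈ Icc 4 (j + 3), (M.choose l : ℤ) * (3 ^ l * c l i) =
        ∑ l ∈ Icc 4 (j + 3), ((M.choose l : ℤ) * 3 ^ l) * c l i :=
      sum_congr rfl fun l _ => by ring
    rw [h4, Nat.choose_one_right]
    ring
  rw [h1, mu_sum]
  apply dvd_sum
  intro l hl
  have hl4 := (mem_Icc.1 hl).1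
  rcases Nat.lt_or_ge j (2 * l) with h2 | h2
  · apply Dvd.dvd.mul_right
    obtain ⟨r, rfl⟩ : ∃ r, l = r + 1 := ⟨l - 1, by omega⟩
    have h5 : (3 : ℤ) ^ (v - Nat.log 3 (r + 1)) ∣ ((M.choose (r + 1) : ℕ) : ℤ) := by
      exact_mod_cast choose_dvd v M r hM0 hM
    have h6 := mul_dvd_mul h5 (dvd_refl ((3 : ℤ) ^ (r + 1)))
    rw [← pow_add] at h6
    refine (pow_dvd_pow 3 ?_).trans h6
    have h7 : Nat.log 3 j ≤ Nat.log 3 (2 * (r + 1) - 1) := Nat.log_mono_right (by omega)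
    have h8 := ineq (r + 1) (Nat.log 3 (2 * (r + 1) - 1)) (Nat.log 3 (r + 1)) hl4
      (Nat.pow_log_le_self 3 (by omega)) (Nat.pow_log_le_self 3 (by omega))
    omega
  · rw [mu_c_zero l j (by omega) h2, mul_zero]
    exact dvd_zero _

end Pool.Agent.K9h30.CP
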