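import Pool.Agent.K9h30.CP.Stm3

/-!
# MP_9acee6_nt: `p ≥ 5`: further statements (helper30)

Notation: `z = x / (1 - x)`, so `1 / (1 - x) = 1 + z`, `z^d / (1 - x)` has the coefficients `binom(n, d)`, and
`G = P1 p = (1 + z)^p - z^p = 1 + p η(z)`, `η = ∑_(0<i<p) (binom(p,i)/p) z^i`, `η(-1) = 0`.
`mu j f` are the coefficients of `f` in the basis `binom(n, j)`.
-/

set_option autoImplicit false

open PowerSeries Finset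
open Pool.Agent.Results.MP_9acee6_nt.Four (S V Automatic geom)

namespace Pool.Agent.K9h30.CP

/-- the class for `p` -/
def CLp (p e : ℕ) (f : ℕ → ℤ) : Prop := ∀ j, 1 ≤ j → (p : ℤ) ^ (e + Nat.log p j) ∣ mu j f

/-- KAP: `binom(pt+b, d) = ∑_j κ_j binom(t, j)`, `κ_j = [T^d] (1+T)^b ((1+T)^p - 1)^j`,
`(1+T)^p - 1 = T^p + p η(T)` -/
def S_KAP : Prop := ∀ p b d j : ℕ, p.Prime →
  (p : ℤ) ^ (j - (d - j) / (p - 1)) ∣ mu j (fun t => (((p * t + b).choose d : ℕ) : ℤ))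

/-- CLU for `p` (from KAP) -/
def S_CLUp : Prop := ∀ (p e b : ℕ) (f : ℕ → ℤ), p.Prime → b < p → CLp p e f →
  CLp p (e + 1) fun t => f (p * t + b)

/-- CLG for `p`: `G^M - 1 = ∑_(l≥1) binom(M,l) p^l η^l`, `v_p (binom(M,l)) ≥ v - v_p(l)`, `1 + l(p-1) ≤ p^(l-v(l))` -/
def S_CLGp : Prop := ∀ (p e v M : ℕ) (f : ℤ⟦X⟧), p.Prime → p ≠ 2 → p ^ v ∣ M → CLp p e (cf f) →
  (p : ℤ) ^ e ∣ coeff 0 f → CLp p (e + v) (cf (f * (P1 p ^ M - 1)))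

/-- INIp (nonlinear part of `U_0(G^M)`), `p ≥ 5`. By LOG (`U_0(log G) = 0`), for `X_l = U_0(η^l)`,
`U_0(G^M) - 1 = ∑_(l≥2) γ_l p^l X_l`, `γ_l = binom(M,l) - (-1)^(l+1) M/l` (valuation `≥ 2v - v(l) - log_p(l-1)`
for `v ≥ 1`, `≥ -v(l)` for `v = 0`), and by KAP `mu_i X_l` is divisible by `p^(i - l + ⌈i/(p-1)⌉)`
(if positive): this gives `mu_j` divisible by `p^(2v+4+log_p j)` for `j ≥ 3`. For `j = 2`: `U_0(G^M) - 1` is an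
odd polynomial `F` in `t` (`G^M` is a polynomial in `Z = z(1+z)`, coefficients of `Z^i`: `binom(n+i-1, 2i-1)`),
`F(1) + F(-1) = 0` says `∑_(j≥2) (-1)^j mu_j = 0`, so `mu_2` is a combination of the `mu_j`, `j ≥ 3`. -/
def S_INIp : Prop := ∀ p v M : ℕ, p.Prime → 5 ≤ p → 1 ≤ M → p ^ v ∣ M →
  CLp p (2 * v + 4) fun t => coeff t (U p 0 (P1 p ^ M) - 1) - coeff 1 (U p 0 (P1 p ^ M)) * t

/-- LINC (its linear part): `coeff 1 (U_0(G^M)) = binom(pM+p-1, p) - M = M (∏_(0<s<p) (1 + pM/s) - 1)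
= M (p M e_1 + p^2 M^2 e_2 + ...)`, `e_i = e_i(1/s)` divisible by `p` for `1 ≤ i ≤ p-2`; comparing `M = 1` and
`M = -1`: `p e_1 ≡ p^2 e_2 ≡ W/2 mod p^4`, `W = binom(2p-1,p-1) - 1`. -/
def S_LINC : Prop := ∀ p v M : ℕ, p.Prime → 5 ≤ p → 1 ≤ M → p ^ v ∣ M →
  (p : ℤ) ^ (2 * v + 4) ∣ 2 * coeff 1 (U p 0 (P1 p ^ M)) -
    (((2 * p - 1).choose (p - 1) : ℕ) - 1 : ℤ) * M ^ 2 * (M + 1)

/-- GB: sections of `G^M` at `b ≠ 0`: `G^M - 1 = (1/(1-x)) ∑_(l≥1) binom(M,l) p^l η^(l-1) (η/(1+z))`, degree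
`≤ l(p-1) - 1` in `z`, and KAP -/
def S_GB : Prop := ∀ p v M b : ℕ, p.Prime → 5 ≤ p → 1 ≤ v → p ^ v ∣ M → 0 < b → b < p →
  ∀ j, 2 ≤ j → (p : ℤ) ^ (v + 3 + Nat.log p j) ∣ mu j (fun t => coeff (p * t + b) (P1 p ^ M))

/-- RR2: `n coeff_n(G^M) = p M ∑_(0<i≤n, p∤i) coeff_(n-i)(G^M)` and `coeff_j(G^M) ≡ 0 mod p^(v+1)` for `j ≥ 1` -/
def S_RR2 : Prop := ∀ p v M n : ℕ, p.Prime → p ≠ 2 → p ^ v ∣ M → ¬ p ∣ n →
  (p : ℤ) ^ (2 * v + 2) ∣ n * coeff n (P1 p ^ M) - p * M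

/-- LIN: sections of `G^M / (1 - x) = (1/(1-x)) ∑ binom(M,l) p^l η^l` and of `x G^M / (1 - x)^2
= (1/(1-x)) ∑ binom(M,l) p^l z η^l` (`y = 1/(1-x)`), by KAP; the coefficient of `z^(p-1)` in `η` is `1` and
`binom(pt+b, p)` has `mu_1 = binom(p+b,p) - binom(b,p) ≡ 1 mod p` -/
def S_LIN : Prop := ∀ p M b : ℕ, p.Prime → 5 ≤ p → b < p →
  ((p : ℤ) ^ 2 ∣ mu 1 (fun t => coeff (p * t + b) (y * P1 p ^ M)) ∧
    ∀ j, 2 ≤ j → (p : ℤ) ^ (2 + Nat.log p j) ∣ mu j (fun t => coeff (p * t + b) (y * P1 p ^ M))) ∧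
  ((p : ℤ) ^ 2 ∣ mu 1 (fun t => coeff (p * t + b) (X * y ^ 2 * P1 p ^ M)) - p * (1 + M) ∧
    ∀ j, 2 ≤ j → (p : ℤ) ^ (2 + Nat.log p j) ∣
      mu j (fun t => coeff (p * t + b) (X * y ^ 2 * P1 p ^ M)))

/-- `W = (binom(2p-1, p-1) - 1) / p^3` -/
def Wp (p : ℕ) : ℕ := ((2 * p - 1).choose (p - 1) - 1) / p ^ 3

/-- the exceptional `m` -/
def Excp (p a m : ℕ) : Prop := padicValNat p m + 3 ≤ a ∧ (a - padicValNat p m) % 2 = 1 ∧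
  ∃ u : ℕ, p ∣ 2 + Wp p * (m / p ^ padicValNat p m) * (m + 1) * u ^ 2

/-- the valuations at `n` with `v_p(n) = s` -/
def Fp (p a m s : ℕ) : ℕ := if s < a then padicValNat p m + a - s else
  min (padicValNat p m + a - s % a) (2 * padicValNat p m + 3 + s % a)

/-- FORMp: the explicit valuations -/
def S_FORMp : Prop := ∀ p a m : ℕ, p.Prime → 5 ≤ p → ¬ p ^ 4 ∣ (2 * p - 1).choose (p - 1) - 1 →
  1 ≤ a → 0 < m → ¬ p ∣ m + 1 → ¬ Excp p a m → ∀ n, 1 ≤ n →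
  emultiplicity (p : ℤ) (S (p ^ a) m n) = (Fp p a m (padicValNat p n) : ℕ∞)

/-- UNBp -/
def S_UNBp : Prop := ∀ p a m : ℕ, p.Prime → 5 ≤ p → ¬ p ^ 4 ∣ (2 * p - 1).choose (p - 1) - 1 →
  1 ≤ a → 0 < m → ¬ p ∣ m + 1 → Excp p a m → ∀ d, ∃ n, (p : ℤ) ^ d ∣ S (p ^ a) m n

/-- BLKp: a block of `a` zero digits, `c = coeff 1 (U_0(G^m))` -/
def S_BLKp : Prop := ∀ p a m v : ℕ, p.Prime → 5 ≤ p → 1 ≤ a → 1 ≤ m → p ^ v ∣ m →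
  (CLp p (2 * v + 4) fun t => coeff t (run p a m (fun _ => 0) a - 1) -
    coeff 1 (U p 0 (P1 p ^ m)) * t) ∧ coeff 0 (run p a m (fun _ => 0) a) = 1

end Pool.Agent.K9h30.CP
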