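import Pool.Agent.K9h30.CP.Mu
import Pool.Agent.K9h30.CP.Stm4

/-!
# MP_9acee6_nt, leaf GB (helper14)
-/

set_option autoImplicit false

open PowerSeries Finset

namespace Pool.Agent.K9h30.CP

namespace GB_

/-- `η`, as a polynomial in `z` -/
noncomputable def E (p : ℕ) : Polynomial ℤ :=
  ∑ i ∈ Ico 1 p, Polynomial.C ((p.choose i / p : ℕ) : ℤ) * Polynomial.X ^ i

theorem y_eq : (y : ℤ⟦X⟧) = X * y + 1 := by
  have h : (y : ℤ⟦X⟧) * (1 - X) = 1 := PowerSeries.mk_one_mul_one_sub_eq_one ℤ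
  linear_combination h

theorem coeff_yz (d n : ℕ) : coeff n (y * (X * y) ^ d) = ((n.choose d : ℕ) : ℤ) := by
  have e : (y * (X * y) ^ d : ℤ⟦X⟧) = X ^ d * y ^ (d + 1) := by ring
  rw [e, coeff_X_pow_mul']
  split_ifs with h
  · rw [y, PowerSeries.mk_one_pow_eq_mk_choose_add, coeff_mk]
    rw [Nat.add_sub_cancel' h]
  · rw [Nat.choose_eq_zero_of_lt (by omega)]
    simp

theorem sum_choose {R : Type*} [CommRing R] (p : ℕ) (hp : p.Prime) (x : R) :
    (x + 1) ^ p = x ^ p + 1 + p * ∑ i ∈ Ico 1 p, ((p.choose i / p : ℕ) : R) * x ^ i := by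
  rw [add_pow, sum_range_succ, range_eq_Ico, sum_eq_sum_Ico_succ_bot hp.pos, mul_sum]
  have : ∑ k ∈ Ico (0 + 1) p, x ^ k * 1 ^ (p - k) * (p.choose k : R) =
      ∑ i ∈ Ico 1 p, (p : R) * (((p.choose i / p : ℕ) : R) * x ^ i) := by
    apply sum_congr rfl
    intro i hi
    rw [mem_Ico] at hi
    have h1 : p ∣ p.choose i := hp.dvd_choose_self (by omega) hi.2
    have h2 : (p.choose i : R) = (p : R) * ((p.choose i / p : ℕ) : R) := by
      rw [← Nat.cast_mul, Nat.mul_div_cancel' h1]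
    rw [h2, one_pow]
    ring
  rw [this]
  simp
  ring

theorem P1_eq (p : ℕ) (hp : p.Prime) : P1 p = (p : ℤ⟦X⟧) * Polynomial.aeval (X * y) (E p) + 1 := by
  have h := sum_choose (R := ℤ⟦X⟧) p hp (X * y)
  rw [← y_eq] at h
  rw [P1, E, map_sum]
  have : ∑ i ∈ Ico 1 p, Polynomial.aeval (X * y : ℤ⟦X⟧)
      (Polynomial.C ((p.choose i / p : ℕ) : ℤ) * Polynomial.X ^ i) =
      ∑ i ∈ Ico 1 p, ((p.choose i / p : ℕ) : ℤ⟦X⟧) * (X * y) ^ i := by
    apply sum_congr rfl
    intro i _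
    rw [map_mul, map_pow, Polynomial.aeval_X, Polynomial.aeval_C, map_natCast]
  rw [this]
  linear_combination h

theorem E_neg (p : ℕ) (hp : p.Prime) (hp2 : p ≠ 2) : (E p).eval (-1) = 0 := by
  have h := sum_choose (R := ℤ) p hp (-1)
  have hodd : Odd p := hp.odd_of_ne_two hp2
  rw [neg_add_cancel, zero_pow hp.ne_zero, hodd.neg_one_pow] at h
  have h3 : (p : ℤ) * (E p).eval (-1) = 0 := by
    rw [E, Polynomial.eval_finset_sum]
    have : ∑ i ∈ Ico 1 p, Polynomial.eval (-1)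
        (Polynomial.C ((p.choose i / p : ℕ) : ℤ) * Polynomial.X ^ i) =
        ∑ i ∈ Ico 1 p, ((p.choose i / p : ℕ) : ℤ) * (-1) ^ i := by
      apply sum_congr rfl
      intro i _
      simp
    rw [this]
    linarith
  rcases mul_eq_zero.1 h3 with h4 | h4
  · have := hp.pos
    omega
  · exact h4

theorem E_deg (p : ℕ) : (E p).natDegree ≤ p - 1 := by
  unfold E
  apply Polynomial.natDegree_sum_le_of_forall_le
  intro i hi
  rw [mem_Ico] at hi
  refine (Polynomial.natDegree_C_mul_X_pow_le _ _).trans ?_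
  omega

theorem E_fac (p : ℕ) (hp : p.Prime) (hp2 : p ≠ 2) : ∃ Q : Polynomial ℤ,
    E p = (Polynomial.X + 1) * Q ∧ Q.natDegree + 1 ≤ p - 1 := by
  have h1 : Polynomial.X - Polynomial.C (-1) ∣ E p :=
    Polynomial.dvd_iff_isRoot.2 (E_neg p hp hp2)
  obtain ⟨Q, hQ⟩ := h1
  have h2 : (Polynomial.X - Polynomial.C (-1) : Polynomial ℤ) = Polynomial.X + 1 := by
    simp
  rw [h2] at hQ
  refine ⟨Q, hQ, ?_⟩
  have h3 := E_deg p
  have h5 := hp.two_le
  by_cases hQ0 : Q = 0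
  · rw [hQ0]
    simp
    omega
  · have h4 : ((Polynomial.X + 1 : Polynomial ℤ) * Q).natDegree = 1 + Q.natDegree := by
      have hm : (Polynomial.X + 1 : Polynomial ℤ).Monic := Polynomial.monic_X_add_C 1
      rw [hm.natDegree_mul' hQ0]
      congr 1
      exact Polynomial.natDegree_X_add_C 1
    rw [hQ, h4] at h3
    omega

/-- coefficients of `y * F(z)` -/
theorem coeff_y_aeval (F : Polynomial ℤ) (D : ℕ) (hD : F.natDegree < D) (n : ℕ) :
    coeff n (y * Polynomial.aeval (X * y) F) =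
      ∑ d ∈ range D, F.coeff d * ((n.choose d : ℕ) : ℤ) := by
  rw [Polynomial.aeval_eq_sum_range' hD, mul_sum, map_sum]
  apply sum_congr rfl
  intro d _
  rw [mul_smul_comm, coeff_smul, coeff_yz, smul_eq_mul]

theorem mu_sum {ι : Type*} (s : Finset ι) (j : ℕ) (f : ι → ℕ → ℤ) :
    mu j (fun t => ∑ i ∈ s, f i t) = ∑ i ∈ s, mu j (f i) := by
  classical
  simp only [mu, mul_sum]
  rw [sum_comm]

/-- `mu` of the sections of `y * F(z)` -/
theorem mu_y_aeval (kap : S_KAP) (p b l j : ℕ) (hp : p.Prime) (F : Polynomial ℤ) (D k : ℕ)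
    (hD : F.natDegree < D) (hk : ∀ d < D, (d - j) / (p - 1) + k ≤ j ∨ k = 0) :
    (p : ℤ) ^ k ∣ mu j (fun t => coeff (p * t + b) (y * Polynomial.aeval (X * y) F)) := by
  have e : (fun t => coeff (p * t + b) (y * Polynomial.aeval (X * y) F)) =
      fun t => ∑ d ∈ range D, F.coeff d * (((p * t + b).choose d : ℕ) : ℤ) := by
    funext t
    rw [coeff_y_aeval F D hD]
  rw [e, mu_sum]
  apply dvd_sum
  intro d hd
  rw [mem_range] at hd
  rw [mu_smul]
  apply Dvd.dvd.mul_left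
  rcases hk d hd with h | h
  · exact (pow_dvd_pow _ (by omega)).trans (kap p b d j hp)
  · rw [h]
    simp

theorem coeff_P1_pow (p M n : ℕ) (hp : p.Prime) (h : ℤ⟦X⟧) :
    coeff n (h * P1 p ^ M) = ∑ l ∈ range (M + 1), ((p : ℤ) ^ l * (M.choose l : ℕ)) *
      coeff n (h * Polynomial.aeval (X * y) (E p ^ l)) := by
  rw [P1_eq p hp, add_pow, mul_sum, map_sum]
  apply sum_congr rfl
  intro l _
  rw [one_pow, mul_one, mul_pow, map_pow]
  have e : h * ((p : ℤ⟦X⟧) ^ l * Polynomial.aeval (X * y) (E p) ^ l * (M.choose l : ℕ)) =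
      C ((p : ℤ) ^ l * (M.choose l : ℕ)) * (h * Polynomial.aeval (X * y) (E p) ^ l) := by
    simp
    ring
  rw [e, coeff_C_mul]

theorem dvd_choose (p v M l : ℕ) (hp : p.Prime) (hv : p ^ v ∣ M) (hl : 1 ≤ l) :
    ∃ k, p ^ k ∣ l ∧ p ^ (v - k) ∣ M.choose l := by
  obtain ⟨k, m, hm, rfl⟩ := Nat.exists_eq_pow_mul_and_not_dvd (n := l) (by omega) p hp.ne_one
  refine ⟨k, dvd_mul_right _ _, ?_⟩
  rcases Nat.eq_zero_or_pos M with h0 | h0
  · rw [h0, Nat.choose_eq_zero_of_lt (by omega)]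
    exact dvd_zero _
  obtain ⟨N, rfl⟩ : ∃ N, M = N + 1 := ⟨M - 1, by omega⟩
  obtain ⟨L, hL⟩ : ∃ L, p ^ k * m = L + 1 := ⟨p ^ k * m - 1, by omega⟩
  have h1 := Nat.add_one_mul_choose_eq N L
  have h2 : p ^ v ∣ (N + 1).choose (L + 1) * (L + 1) := by
    rw [← h1]
    exact hv.mul_right _
  have hL' : (N + 1).choose (p ^ k * m) = (N + 1).choose (L + 1) := by rw [hL]
  rw [hL']
  rcases Nat.lt_or_ge k v with hk | hk
  · have h3 : p ^ (v - k) ∣ (N + 1).choose (L + 1) * m := by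
      have h4 : p ^ k * p ^ (v - k) ∣ p ^ k * ((N + 1).choose (L + 1) * m) := by
        rw [← pow_add, Nat.add_sub_cancel' hk.le]
        have h5 : p ^ k * ((N + 1).choose (L + 1) * m) = (N + 1).choose (L + 1) * (L + 1) := by
          rw [← hL]
          ring
        rw [h5]
        exact h2
      exact Nat.dvd_of_mul_dvd_mul_left (pow_pos hp.pos _) h4
    exact Nat.Coprime.dvd_of_dvd_mul_right
      (Nat.Coprime.pow_left _ ((Nat.Prime.coprime_iff_not_dvd hp).2 hm)) h3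
  · rw [Nat.sub_eq_zero_of_le hk]
    simp

theorem pow_ge (p k : ℕ) (hp : 5 ≤ p) : 4 * k + 1 ≤ p ^ k := by
  have h1 : 5 ^ k ≤ p ^ k := Nat.pow_le_pow_left hp k
  have h2 : ∀ k : ℕ, 4 * k + 1 ≤ 5 ^ k := by
    intro k
    induction k with
    | zero => norm_num
    | succ k ih =>
      rw [pow_succ]
      omega
  exact (h2 k).trans h1

theorem log_le (p j : ℕ) (hp : 5 ≤ p) (hj : 1 ≤ j) : 4 * Nat.log p j + 1 ≤ j :=
  (pow_ge p _ hp).trans (Nat.pow_log_le_self p (by omega))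

end GB_

open GB_ in
theorem gb (kap : S_KAP) : S_GB := by
  intro p v M b hp hp5 hv hM hb0 hb j hj
  obtain ⟨Q, hQ, hQd⟩ := E_fac p hp (by omega)
  have e : (fun t => coeff (p * t + b) (P1 p ^ M)) = fun t =>
      ∑ l ∈ range (M + 1), ((p : ℤ) ^ l * (M.choose l : ℕ)) *
        coeff (p * t + b) (1 * Polynomial.aeval (X * y) (E p ^ l)) := by
    funext t
    rw [← coeff_P1_pow p M _ hp 1, one_mul]
  rw [e, mu_sum]
  apply dvd_sum
  intro l _
  rw [mu_smul]
  rcases Nat.eq_zero_or_pos l with rfl | hl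
  · have : (fun t => coeff (p * t + b)
        ((1 : ℤ⟦X⟧) * Polynomial.aeval (X * y) (E p ^ 0))) = fun _ => 0 := by
      funext t
      rw [pow_zero, map_one, mul_one, coeff_one, if_neg (by omega)]
    rw [this, mu_const j (by omega), mul_zero]
    exact dvd_zero _
  obtain ⟨k, hk1, hk2⟩ := dvd_choose p v M l hp hM hl
  have hk3 : 4 * k + 1 ≤ l := (pow_ge p k hp5).trans (Nat.le_of_dvd hl hk1)
  have hL := log_le p j hp5 (by omega)
  have h1 : (p : ℤ) ^ (j + 1 - l) ∣ mu j (fun t => coeff (p * t + b)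
      ((1 : ℤ⟦X⟧) * Polynomial.aeval (X * y) (E p ^ l))) := by
    obtain ⟨i, rfl⟩ : ∃ i, l = i + 1 := ⟨l - 1, by omega⟩
    have e2 : ((1 : ℤ⟦X⟧) * Polynomial.aeval (X * y) (E p ^ (i + 1))) =
        y * Polynomial.aeval (X * y) (Q * E p ^ i) := by
      rw [pow_succ', one_mul, map_mul]
      conv_lhs => rw [hQ]
      rw [map_mul, map_mul, map_add, Polynomial.aeval_X, map_one, ← y_eq, ← hQ]
      ring
    rw [e2]
    have hd : (Q * E p ^ i).natDegree < (i + 1) * (p - 1) := by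
      have d1 := Polynomial.natDegree_mul_le (p := Q) (q := E p ^ i)
      have d2 := Polynomial.natDegree_pow_le (p := E p) (n := i)
      have d3 := E_deg p
      have d4 : i * (E p).natDegree ≤ i * (p - 1) := Nat.mul_le_mul_left i d3
      rw [add_mul, one_mul]
      omega
    apply mu_y_aeval kap p b 0 j hp _ ((i + 1) * (p - 1)) _ hd
    intro d hd'
    have h2 : (d - j) / (p - 1) < i + 1 := by
      rw [Nat.div_lt_iff_lt_mul (by omega)]
      omega
    omega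
  have h2 : (p : ℤ) ^ (v - k) ∣ ((M.choose l : ℕ) : ℤ) := by
    have := Int.natCast_dvd_natCast.2 hk2
    push_cast at this
    exact this
  have h3 : (p : ℤ) ^ (l + (v - k) + (j + 1 - l)) ∣ (p : ℤ) ^ l * (M.choose l : ℕ) *
      mu j (fun t => coeff (p * t + b) ((1 : ℤ⟦X⟧) * Polynomial.aeval (X * y) (E p ^ l))) := by
    rw [pow_add, pow_add]
    exact mul_dvd_mul (mul_dvd_mul (dvd_refl _) h2) h1
  exact (pow_dvd_pow _ (by omega)).trans h3

end Pool.Agent.K9h30.CP
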