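import Pool.Agent.K9h30.CP.Stm4

/-! MP_9acee6_nt, leaf CP-KAP: forward differences of `t ↦ binom(p t + b, d)`. -/

set_option autoImplicit false

open Polynomial Finset

namespace Pool.Agent.K9h30.CP

/-- every coefficient `c_d` satisfies `(p - 1) v_p(c_d) + d ≥ w` -/
def KapW (p w : ℕ) (F : Polynomial ℤ) : Prop :=
  ∀ d, ∃ k, (p : ℤ) ^ k ∣ F.coeff d ∧ w ≤ (p - 1) * k + d

lemma kap_min (p w d : ℕ) (hp : 2 ≤ p) (c : ℤ) :
    (∃ k, (p : ℤ) ^ k ∣ c ∧ w ≤ (p - 1) * k + d) ↔ (p : ℤ) ^ ((w - d + (p - 2)) / (p - 1)) ∣ c := by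
  obtain ⟨q, rfl⟩ : ∃ q, p = q + 2 := ⟨p - 2, by omega⟩
  have e1 : q + 2 - 1 = q + 1 := by omega
  have e2 : q + 2 - 2 = q := by omega
  rw [e1, e2]
  constructor
  · rintro ⟨k, hk, hw⟩
    refine (pow_dvd_pow _ ?_).trans hk
    have h1 : (w - d + q) / (q + 1) < k + 1 := by
      rw [Nat.div_lt_iff_lt_mul (by omega)]
      have : (k + 1) * (q + 1) = (q + 1) * k + (q + 1) := by ring
      omega
    omega
  · intro h
    refine ⟨_, h, ?_⟩
    have h1 := Nat.lt_mul_div_succ (w - d + q) (show 0 < q + 1 by omega)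
    have h2 : (q + 1) * ((w - d + q) / (q + 1) + 1) = (q + 1) * ((w - d + q) / (q + 1)) + (q + 1) := by
      ring
    omega

lemma KapW.zero_weight (p : ℕ) (F : Polynomial ℤ) : KapW p 0 F :=
  fun d => ⟨0, by simp, by omega⟩

lemma KapW.mul {p w₁ w₂ : ℕ} (hp : 2 ≤ p) {F G : Polynomial ℤ} (hF : KapW p w₁ F)
    (hG : KapW p w₂ G) : KapW p (w₁ + w₂) (F * G) := by
  intro d
  rw [kap_min p (w₁ + w₂) d hp, Polynomial.coeff_mul]
  apply dvd_sum
  rintro ⟨i, j⟩ hij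
  rw [HasAntidiagonal.mem_antidiagonal] at hij
  simp only at hij ⊢
  obtain ⟨k₁, h1, h1'⟩ := hF i
  obtain ⟨k₂, h2, h2'⟩ := hG j
  rw [← kap_min p (w₁ + w₂) d hp]
  refine ⟨k₁ + k₂, ?_, ?_⟩
  · rw [pow_add]
    exact mul_dvd_mul h1 h2
  · rw [mul_add]
    omega

lemma KapW.pow {p w : ℕ} (hp : 2 ≤ p) {F : Polynomial ℤ} (hF : KapW p w F) (j : ℕ) :
    KapW p (w * j) (F ^ j) := by
  induction j with
  | zero => exact KapW.zero_weight p _
  | succ j ih =>
    rw [pow_succ, mul_add, mul_one]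
    exact ih.mul hp hF

lemma KapW.base {p : ℕ} (hp : p.Prime) : KapW p p ((1 + X : Polynomial ℤ) ^ p - 1) := by
  intro d
  have h2 := hp.two_le
  rw [Polynomial.coeff_sub, Polynomial.coeff_one_add_X_pow, Polynomial.coeff_one]
  rcases Nat.eq_zero_or_pos d with h | h
  · subst h
    refine ⟨p, by simp, ?_⟩
    have : 1 * p ≤ (p - 1) * p := Nat.mul_le_mul_right _ (by omega)
    omega
  · rw [if_neg (by omega), sub_zero]
    rcases lt_or_ge d p with h' | h'
    · refine ⟨1, ?_, by omega⟩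
      rw [pow_one]
      exact_mod_cast hp.dvd_choose_self (by omega) h'
    · exact ⟨0, by simp, by omega⟩

theorem kap : S_KAP := by
  intro p b d j hp
  have h2 := hp.two_le
  have h1 : mu j (fun t => (((p * t + b).choose d : ℕ) : ℤ)) =
      (((1 + X : Polynomial ℤ) ^ p - 1) ^ j * (1 + X) ^ b).coeff d := by
    rw [sub_eq_add_neg, add_pow, sum_mul, Polynomial.finsetSum_coeff]
    unfold mu
    refine sum_congr rfl fun i _ => ?_
    have e1 : ((1 + X : Polynomial ℤ) ^ p) ^ i * (-1) ^ (j - i) * ((j.choose i : ℕ) : Polynomial ℤ) *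
        (1 + X) ^ b = Polynomial.C ((-1 : ℤ) ^ (j - i) * (j.choose i : ℤ)) *
          (1 + X) ^ (p * i + b) := by
      simp only [map_mul, map_pow, map_neg, map_one, pow_add, pow_mul]
      have : (Polynomial.C ((j.choose i : ℕ) : ℤ) : Polynomial ℤ) =
        ((j.choose i : ℕ) : Polynomial ℤ) := by simp
      rw [this]
      ring
    rw [e1, Polynomial.coeff_C_mul, Polynomial.coeff_one_add_X_pow]
  rw [h1]
  obtain ⟨k, hk, hw⟩ := ((KapW.base hp).pow h2 j).mul h2 (KapW.zero_weight p ((1 + X) ^ b)) d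
  refine (pow_dvd_pow _ ?_).trans hk
  obtain ⟨q, rfl⟩ : ∃ q, p = q + 2 := ⟨p - 2, by omega⟩
  have e1 : q + 2 - 1 = q + 1 := by omega
  rw [e1] at hw ⊢
  rw [add_zero] at hw
  have h3 := Nat.lt_mul_div_succ (d - j) (show 0 < q + 1 by omega)
  by_contra hc
  rw [not_le] at hc
  have h4 : (q + 1) * (k + (d - j) / (q + 1) + 1) ≤ (q + 1) * j := Nat.mul_le_mul_left _ (by omega)
  have h5 : (q + 1) * (k + (d - j) / (q + 1) + 1) =
    (q + 1) * k + (q + 1) * ((d - j) / (q + 1) + 1) := by ring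
  have h6 : (q + 2) * j = (q + 1) * j + j := by ring
  omega

end Pool.Agent.K9h30.CP
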