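import Pool.Agent.K9h30.CP.GB
import Pool.Agent.K9h30.CP.Kap
import Pool.Agent.K9h30.CP.Stm5

/-!
# MP_9acee6_nt, leaf GB2 (helper14)
-/

set_option autoImplicit false

open PowerSeries Finset

namespace Pool.Agent.K9h30.CP

open GB_ in
theorem gb2_of (kap : S_KAP) : S_GB2 := by
  intro p v M b hp hp5 hv hM hb0 hb j hj
  obtain ⟨Q, hQ, hQd⟩ := E_fac p hp (by omega)
  have e : (fun t => coeff (p * t + b) (P1 p ^ M)) = fun t =>
      ∑ l ∈ range (M + 1), ((p : ℤ) ^ l * (M.choose l : ℕ)) *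
        coeff (p * t + b) (1 * Polynomial.aeval (X * y) (E p ^ l)) := by
    funext t
    rw [← coeff_P1_pow p M _ hp 1, one_mul]
  rw [e, mu_sum]
  apply dvd_sum
  intro l _
  rw [mu_smul]
  rcases Nat.eq_zero_or_pos l with rfl | hl
  · have : (fun t => coeff (p * t + b)
        ((1 : ℤ⟦X⟧) * Polynomial.aeval (X * y) (E p ^ 0))) = fun _ => 0 := by
      funext t
      rw [pow_zero, map_one, mul_one, coeff_one, if_neg (by omega)]
    rw [this, mu_const j (by omega), mul_zero]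
    exact dvd_zero _
  obtain ⟨k, hk1, hk2⟩ := dvd_choose p v M l hp hM hl
  have hk3 : 4 * k + 1 ≤ l := (pow_ge p k hp5).trans (Nat.le_of_dvd hl hk1)
  have hL := log_le p (j + 1) hp5 (by omega)
  have h1 : (p : ℤ) ^ (j + 1 - l) ∣ mu j (fun t => coeff (p * t + b)
      ((1 : ℤ⟦X⟧) * Polynomial.aeval (X * y) (E p ^ l))) := by
    obtain ⟨i, rfl⟩ : ∃ i, l = i + 1 := ⟨l - 1, by omega⟩
    have e2 : ((1 : ℤ⟦X⟧) * Polynomial.aeval (X * y) (E p ^ (i + 1))) =
        y * Polynomial.aeval (X * y) (Q * E p ^ i) := by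
      rw [pow_succ', one_mul, map_mul]
      conv_lhs => rw [hQ]
      rw [map_mul, map_mul, map_add, Polynomial.aeval_X, map_one, ← y_eq, ← hQ]
      ring
    rw [e2]
    have hd : (Q * E p ^ i).natDegree < (i + 1) * (p - 1) := by
      have d1 := Polynomial.natDegree_mul_le (p := Q) (q := E p ^ i)
      have d2 := Polynomial.natDegree_pow_le (p := E p) (n := i)
      have d3 := E_deg p
      have d4 : i * (E p).natDegree ≤ i * (p - 1) := Nat.mul_le_mul_left i d3
      rw [add_mul, one_mul]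
      omega
    apply mu_y_aeval kap p b 0 j hp _ ((i + 1) * (p - 1)) _ hd
    intro d hd'
    have h2 : (d - j) / (p - 1) < i + 1 := by
      rw [Nat.div_lt_iff_lt_mul (by omega)]
      omega
    omega
  have h2 : (p : ℤ) ^ (v - k) ∣ ((M.choose l : ℕ) : ℤ) := by
    have := Int.natCast_dvd_natCast.2 hk2
    push_cast at this
    exact this
  have h3 : (p : ℤ) ^ (l + (v - k) + (j + 1 - l)) ∣ (p : ℤ) ^ l * (M.choose l : ℕ) *
      mu j (fun t => coeff (p * t + b) ((1 : ℤ⟦X⟧) * Polynomial.aeval (X * y) (E p ^ l))) := by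
    rw [pow_add, pow_add]
    exact mul_dvd_mul (mul_dvd_mul (dvd_refl _) h2) h1
  exact (pow_dvd_pow _ (by omega)).trans h3

theorem gb2 : S_GB2 := gb2_of kap

end Pool.Agent.K9h30.CP
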