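import Pool.Agent.K9h30.CP.Stm

/-!
# MP_9acee6_nt: differences (helper30)
-/

set_option autoImplicit false

open PowerSeries Finset

namespace Pool.Agent.K9h30.CP

theorem mu_eq (j : ℕ) (f : ℕ → ℤ) : mu j f = (fwdDiff (1 : ℕ))^[j] f 0 := by
  rw [fwdDiff_iter_eq_sum_shift]
  unfold mu
  apply sum_congr rfl
  intro i _
  simp

theorem mu_zero (f : ℕ → ℤ) : mu 0 f = f 0 := by simp [mu]

theorem mu_one (f : ℕ → ℤ) : mu 1 f = f 1 - f 0 := by
  simp [mu, sum_range_succ]
  ring

theorem mu_two (f : ℕ → ℤ) : mu 2 f = f 2 - 2 * f 1 + f 0 := by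
  simp [mu, sum_range_succ, Nat.choose]
  ring

theorem mu_add (j : ℕ) (f g : ℕ → ℤ) : mu j (fun n => f n + g n) = mu j f + mu j g := by
  simp only [mu, mul_add, sum_add_distrib]

theorem mu_sub (j : ℕ) (f g : ℕ → ℤ) : mu j (fun n => f n - g n) = mu j f - mu j g := by
  simp only [mu, mul_sub, sum_sub_distrib]

theorem mu_smul (j : ℕ) (c : ℤ) (f : ℕ → ℤ) : mu j (fun n => c * f n) = c * mu j f := by
  simp only [mu, mul_sum]
  apply sum_congr rfl
  intro i _
  ring

theorem mu_succ (j : ℕ) (f : ℕ → ℤ) : mu (j + 1) f = mu j (fun n => f (n + 1) - f n) := by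
  rw [mu_eq, mu_eq, Function.iterate_succ_apply]
  rfl

theorem mu_const (j : ℕ) (hj : 1 ≤ j) (c : ℤ) : mu j (fun _ => c) = 0 := by
  obtain ⟨i, rfl⟩ : ∃ i, j = i + 1 := ⟨j - 1, by omega⟩
  rw [mu_succ]
  simp [mu]

theorem mu_linear (j : ℕ) (hj : 2 ≤ j) (α β : ℤ) : mu j (fun n => α + β * n) = 0 := by
  obtain ⟨i, rfl⟩ : ∃ i, j = i + 1 := ⟨j - 1, by omega⟩
  rw [mu_succ]
  have : (fun n : ℕ => (α + β * ((n + 1 : ℕ) : ℤ)) - (α + β * (n : ℤ))) = fun _ => β := by
    funext n
    push_cast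
    ring
  rw [this, mu_const i (by omega)]

/-- Newton's formula -/
theorem newton (f : ℕ → ℤ) (n : ℕ) : f n = ∑ j ∈ range (n + 1), (n.choose j : ℤ) * mu j f := by
  have := shift_eq_sum_fwdDiff_iter (1 : ℕ) f n 0
  simp only [zero_add, smul_eq_mul, mul_one] at this
  rw [this]
  apply sum_congr rfl
  intro j _
  rw [mu_eq]
  simp

theorem CL_mono {e e' : ℕ} (h : e' ≤ e) {f : ℕ → ℤ} (hf : CL e f) : CL e' f := fun j hj =>
  (pow_dvd_pow 3 (by omega)).trans (hf j hj)

theorem CL_add {e : ℕ} {f g : ℕ → ℤ} (hf : CL e f) (hg : CL e g) : CL e fun n => f n + g n := by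
  intro j hj
  rw [mu_add]
  exact dvd_add (hf j hj) (hg j hj)

theorem CL_sub {e : ℕ} {f g : ℕ → ℤ} (hf : CL e f) (hg : CL e g) : CL e fun n => f n - g n := by
  intro j hj
  rw [mu_sub]
  exact dvd_sub (hf j hj) (hg j hj)

theorem CL_smul {e i : ℕ} {c : ℤ} {f : ℕ → ℤ} (hc : (3 : ℤ) ^ i ∣ c) (hf : CL e f) :
    CL (e + i) fun n => c * f n := by
  intro j hj
  rw [mu_smul]
  have := mul_dvd_mul hc (hf j hj)
  rw [← pow_add] at this
  have e2 : e + i + Nat.log 3 j = i + (e + Nat.log 3 j) := by omega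
  rw [e2]
  exact this

theorem CL_const (e : ℕ) (c : ℤ) : CL e fun _ => c := by
  intro j hj
  rw [mu_const j hj]
  exact dvd_zero _

/-- a class function with constant term divisible by `3^e` takes values divisible by `3^e` -/
theorem CL_val {e : ℕ} {f : ℕ → ℤ} (hf : CL e f) (h0 : (3 : ℤ) ^ e ∣ f 0) (n : ℕ) :
    (3 : ℤ) ^ e ∣ f n := by
  rw [newton f n]
  apply dvd_sum
  intro j _
  apply Dvd.dvd.mul_left
  rcases Nat.eq_zero_or_pos j with rfl | hj
  · rw [mu_zero]; exact h0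
  · exact (pow_dvd_pow 3 (by omega)).trans (hf j hj)

theorem cf_U (p b : ℕ) (f : ℤ⟦X⟧) : cf (U p b f) = fun t => cf f (p * t + b) := by
  funext t
  simp [cf, U]

theorem P1_zero (p : ℕ) (hp : p ≠ 0) : coeff 0 (P1 p) = 1 := by
  simp [P1, y, hp]

theorem P1_pow_zero (p M : ℕ) (hp : p ≠ 0) : coeff 0 (P1 p ^ M) = 1 := by
  have := P1_zero p hp
  rw [coeff_zero_eq_constantCoeff_apply] at this ⊢
  rw [map_pow, this, one_pow]

theorem eng (clu : S_CLU) (clg : S_CLG) : S_ENG := by
  intro d M f hM ⟨h0, h1, h1', h2⟩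
  -- multiplication
  have hcl : CL d (cf f) := by
    intro j hj
    rcases Nat.lt_or_ge j 2 with h | h
    · have : j = 1 := by omega
      subst this
      simpa using h1
    · exact (pow_dvd_pow 3 (by omega)).trans (h2 j h)
  have hmul : CL (d + 1) (cf (f * (P1 3 ^ M - 1))) := clg d 1 M f (by simpa using hM) hcl h0
  set g := f * P1 3 ^ M with hg
  have hgf : cf g = fun n => cf f n + cf (f * (P1 3 ^ M - 1)) n := by
    funext n
    simp only [cf, hg, mul_sub, mul_one, map_sub]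
    ring
  have hg0 : coeff 0 g = coeff 0 f := by
    have := P1_pow_zero 3 M (by norm_num)
    rw [coeff_zero_eq_constantCoeff_apply] at this ⊢
    rw [coeff_zero_eq_constantCoeff_apply, hg, map_mul, this, mul_one]
  have g1 : (3 : ℤ) ^ d ∣ mu 1 (cf g) ∧ ¬ (3 : ℤ) ^ (d + 1) ∣ mu 1 (cf g) := by
    have hx := hmul 1 le_rfl
    simp only [Nat.log_one_right, add_zero] at hx
    rw [hgf, mu_add]
    refine ⟨dvd_add h1 ((pow_dvd_pow 3 (by omega)).trans hx), fun hc => h1' ?_⟩
    exact (Int.dvd_add_left hx).mp hc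
  have g2 : ∀ j, 2 ≤ j → (3 : ℤ) ^ (d + 1 + Nat.log 3 j) ∣ mu j (cf g) := by
    intro j hj
    rw [hgf, mu_add]
    exact dvd_add (h2 j hj) (hmul j (by omega))
  obtain ⟨β, hβ⟩ := g1.1
  obtain ⟨α, hα⟩ : (3 : ℤ) ^ d ∣ coeff 0 g := by rw [hg0]; exact h0
  have hβ3 : ¬ (3 : ℤ) ∣ β := by
    rintro ⟨c, rfl⟩
    apply g1.2
    rw [hβ]
    exact ⟨c, by ring⟩
  obtain ⟨b, hb, hαβ⟩ : ∃ b : ℕ, b < 3 ∧ (3 : ℤ) ∣ α + β * b := by
    have hβm : β % 3 = 1 ∨ β % 3 = 2 := by omega
    have hαm : α % 3 = 0 ∨ α % 3 = 1 ∨ α % 3 = 2 := by omega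
    rcases hβm with h | h <;> rcases hαm with h' | h' | h'
    · exact ⟨0, by norm_num, by push_cast; omega⟩
    · exact ⟨2, by norm_num, by push_cast; omega⟩
    · exact ⟨1, by norm_num, by push_cast; omega⟩
    · exact ⟨0, by norm_num, by push_cast; omega⟩
    · exact ⟨1, by norm_num, by push_cast; omega⟩
    · exact ⟨2, by norm_num, by push_cast; omega⟩
  refine ⟨b, hb, ?_⟩
  -- the remainder
  set r : ℕ → ℤ := fun n => cf g n - (coeff 0 g + mu 1 (cf g) * n) with hr
  have hr0 : r 0 = 0 := by simp [hr, cf]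
  have hr1 : r 1 = 0 := by
    simp only [hr, mu_one, cf]
    push_cast
    ring
  have hrj : ∀ j, 2 ≤ j → mu j r = mu j (cf g) := by
    intro j hj
    rw [hr, mu_sub, mu_linear j hj, sub_zero]
  have hrcl : CL (d + 1) r := by
    intro j hj
    rcases Nat.lt_or_ge j 2 with h | h
    · have : j = 1 := by omega
      subst this
      rw [mu_one, hr0, hr1]
      simp
    · rw [hrj j h]
      exact g2 j h
  have hru := clu (d + 1) b r hb hrcl
  have hh : cf (U 3 b g) = fun t => r (3 * t + b) +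
      ((coeff 0 g + mu 1 (cf g) * b) + (3 * mu 1 (cf g)) * t) := by
    rw [cf_U]
    funext t
    simp only [hr]
    push_cast
    ring
  have hrb : (3 : ℤ) ^ (d + 1) ∣ r b := CL_val hrcl (by rw [hr0]; exact dvd_zero _) b
  refine ⟨?_, ?_, ?_, ?_⟩
  · have e : coeff 0 (U 3 b g) = r b + (coeff 0 g + mu 1 (cf g) * b) := by
      have := congrFun hh 0
      simp only [cf, mul_zero, zero_add, Nat.cast_zero, add_zero] at this
      exact this
    rw [e, hα, hβ]
    apply dvd_add hrb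
    obtain ⟨c, hc⟩ := hαβ
    exact ⟨c, by rw [pow_succ]; linear_combination (3 : ℤ) ^ d * hc⟩
  · rw [hh, mu_add]
    apply dvd_add
    · have := hru 1 le_rfl
      simp only [Nat.log_one_right, add_zero] at this
      exact (pow_dvd_pow 3 (by omega)).trans this
    · rw [mu_one]
      push_cast
      rw [hβ]
      exact ⟨β, by ring⟩
  · rw [hh, mu_add]
    intro hc
    have h3 := hru 1 le_rfl
    simp only [Nat.log_one_right, add_zero] at h3
    have h4 := (Int.dvd_add_right h3).mp hc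
    rw [mu_one] at h4
    push_cast at h4
    rw [hβ] at h4
    apply hβ3
    obtain ⟨c, hc'⟩ := h4
    refine ⟨c, ?_⟩
    have h5 : (3 : ℤ) ^ (d + 1) * β = (3 : ℤ) ^ (d + 1) * (3 * c) := by
      rw [pow_succ] at hc' ⊢
      rw [pow_succ] at hc'
      linarith
    exact mul_left_cancel₀ (by positivity) h5
  · intro j hj
    rw [hh, mu_add, mu_linear j hj, add_zero]
    exact hru j (by omega)

theorem run_congr (p a m : ℕ) {b b' : ℕ → ℕ} (i : ℕ) (h : ∀ l, l < i → b l = b' l) :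
    run p a m b i = run p a m b' i := by
  induction i with
  | zero => rfl
  | succ i ih =>
    simp only [run]
    rw [ih fun l hl => h l (by omega), h i (by omega)]

theorem unb (dig : S_DIG) (engh : S_ENG) (ini : S_INI2) : S_UNB := by
  intro a m ha hm d
  have h3m : 3 ∣ m := by
    have h1 : 3 ^ (a - 2) ∣ m := by
      have h2 : 3 ^ (a - 2) ∣ 3 ^ (a - 1) := pow_dvd_pow 3 (by omega)
      have h3 : 3 ^ (a - 2) ∣ m % 3 ^ (a - 1) := by rw [hm]
      exact (Nat.dvd_mod_iff h2).mp h3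
    exact (dvd_pow_self 3 (by omega)).trans h1
  have key : ∀ N, ∃ b : ℕ → ℕ, (∀ i, b i < 3) ∧
      St (2 * (a - 2) + 3 + N) (run 3 a m b (a + 1 + N)) := by
    intro N
    induction N with
    | zero =>
      refine ⟨fun i => if i = a then 1 else 0, ?_, ini a m ha hm⟩
      intro i
      simp only
      split_ifs <;> norm_num
    | succ N ih =>
      obtain ⟨b, hb, hst⟩ := ih
      obtain ⟨c, hc, hst'⟩ := engh _ (m * 3 ^ (a - 1 - (a + 1 + N) % a)) _
        (h3m.trans (dvd_mul_right _ _)) hst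
      refine ⟨Function.update b (a + 1 + N) c, ?_, ?_⟩
      · intro i
        by_cases h : i = a + 1 + N
        · subst h; simpa using hc
        · rw [Function.update_of_ne h]; exact hb i
      · have e : a + 1 + (N + 1) = (a + 1 + N) + 1 := by omega
        rw [e]
        simp only [run, Function.update_self]
        have e2 : run 3 a m (Function.update b (a + 1 + N) c) (a + 1 + N) =
            run 3 a m b (a + 1 + N) := by
          apply run_congr
          intro l hl
          rw [Function.update_of_ne (by omega)]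
        rw [e2]
        have e3 : 2 * (a - 2) + 3 + (N + 1) = 2 * (a - 2) + 3 + N + 1 := by omega
        rw [e3]
        exact hst'
  obtain ⟨b, hb, hst⟩ := key d
  refine ⟨∑ l ∈ range (a + 1 + d), b l * 3 ^ l, ?_⟩
  rw [(dig 3 a m Nat.prime_three (by omega)).1 b hb]
  exact (pow_dvd_pow 3 (by omega)).trans hst.1

end Pool.Agent.K9h30.CP
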