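import Pool.Agent.K9h30.CP.Stm3
import Pool.Agent.K9h30.CP.Ini1
import Pool.Agent.K9h30.CP.Mu

/-!
# MP_9acee6_nt, leaf INIG (helper81)
-/

set_option autoImplicit false

open PowerSeries Finset

namespace Pool.Agent.K9h30.CP

namespace IG_

open Nat in
theorem acf (i j : ℕ) : (i + j).choose i * i ! * j ! = (i + j)! := by
  rw [Nat.choose_symm_add]
  exact Nat.add_choose_mul_factorial_mul_factorial i j

open Nat in
/-- the product formula for the binomial coefficients -/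
theorem bin_id (N k : ℕ) : (3 * k + 2) * (3 * k + 1) * (3 * k).choose k * (N + 2 * k + 2).choose (3 * k + 2) =
    (N + 1) * (N + 2) * N.choose k * (N + 2 * k + 2).choose (2 * k) := by
  rcases Nat.lt_or_ge N k with h | h
  · rw [Nat.choose_eq_zero_of_lt h, Nat.choose_eq_zero_of_lt (show N + 2 * k + 2 < 3 * k + 2 by omega)]
    ring
  · obtain ⟨r, rfl⟩ := Nat.exists_eq_add_of_le h
    have e1 := acf (3 * k + 2) r
    have e2 := acf k (2 * k)
    have e3 := acf k r
    have e4 := acf (2 * k) (k + r + 2)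
    have f1 : (3 * k + 2)! = (3 * k + 2) * ((3 * k + 1) * (3 * k)!) := by
      rw [Nat.factorial_succ, Nat.factorial_succ]
    have f2 : (k + r + 2)! = (k + r + 2) * ((k + r + 1) * (k + r)!) := by
      rw [Nat.factorial_succ, Nat.factorial_succ]
    rw [show (3 * k + 2) + r = k + r + 2 * k + 2 by omega] at e1
    rw [show k + 2 * k = 3 * k by omega] at e2
    rw [show 2 * k + (k + r + 2) = k + r + 2 * k + 2 by omega] at e4
    have hpos : 0 < k ! * (2 * k)! * r ! := by positivity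
    apply Nat.eq_of_mul_eq_mul_right hpos
    have g1 : (3 * k + 2) * (3 * k + 1) * (3 * k).choose k * (k + r + 2 * k + 2).choose (3 * k + 2) *
        (k ! * (2 * k)! * r !) = (k + r + 2 * k + 2)! := by
      rw [← e1, f1, ← e2]
      ring
    have g2 : (k + r + 1) * (k + r + 2) * (k + r).choose k * (k + r + 2 * k + 2).choose (2 * k) *
        (k ! * (2 * k)! * r !) = (k + r + 2 * k + 2)! := by
      rw [← e4, f2, ← e3]
      ring
    rw [g1, g2]

/-- cancel a factor -/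
theorem cancel {u : ℕ} (hu : u ≠ 0) {c : ℤ} {N a : ℕ} (h : (3 : ℤ) ^ N ∣ u * c) (hv : padicValNat 3 u ≤ a) :
    (3 : ℤ) ^ (N - a) ∣ c := by
  obtain ⟨v, u', hu', rfl⟩ := Nat.exists_eq_pow_mul_and_not_dvd hu 3 (by norm_num)
  have : Fact (Nat.Prime 3) := ⟨Nat.prime_three⟩
  have hu0 : u' ≠ 0 := by
    rintro rfl
    exact hu' (dvd_zero _)
  rw [padicValNat.mul (by positivity) hu0, padicValNat.prime_pow,
    padicValNat.eq_zero_of_not_dvd hu', add_zero] at hv
  rcases Nat.lt_or_ge a N with h1 | h1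
  · have h2 : (3 : ℤ) ^ v * 3 ^ (N - v) ∣ 3 ^ v * (u' * c) := by
      rw [← pow_add, Nat.add_sub_cancel' (by omega : v ≤ N)]
      push_cast at h
      rwa [mul_assoc] at h
    have h3 := (mul_dvd_mul_iff_left (by positivity : (3 : ℤ) ^ v ≠ 0)).1 h2
    have h4 : IsCoprime ((3 : ℤ) ^ (N - v)) (u' : ℤ) := by
      apply IsCoprime.pow_left
      have h5 : Nat.Coprime 3 u' := (Nat.Prime.coprime_iff_not_dvd Nat.prime_three).2 hu'
      exact_mod_cast Nat.isCoprime_iff_coprime.2 h5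
    exact (pow_dvd_pow 3 (by omega)).trans (h4.dvd_of_dvd_mul_left h3)
  · rw [Nat.sub_eq_zero_of_le h1, pow_zero]
    exact one_dvd _

theorem log_le_of_lt {n k : ℕ} (hn : n ≠ 0) (h : n < 3 ^ (k + 1)) : Nat.log 3 n ≤ k := by
  have := Nat.log_lt_of_lt_pow hn h
  omega

theorem pow3_a (k : ℕ) : 2 * k + 1 < 3 ^ (k + 1) := by
  induction k with
  | zero => norm_num
  | succ k ih =>
    rw [pow_succ]
    omega

theorem pow3_b (k : ℕ) : k + 2 < 3 ^ (k + 1) := by
  induction k with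
  | zero => norm_num
  | succ k ih =>
    rw [pow_succ]
    omega

/-- the valuation of `c_i`, `i = k + 1`, `k ≥ 1` -/
theorem val_c {M e k : ℕ} (hM : 1 ≤ M) (hk : 1 ≤ k) (he : 3 ^ e ∣ 9 * M ^ 2 * (M + 1)) {c : ℤ}
    (hc : ((k + 1 : ℕ) : ℤ) * c = 3 ^ (3 * k + 2) * ((M : ℤ) * (((M + 2 * k + 1).choose (3 * k + 2) : ℕ) : ℤ))) :
    (3 : ℤ) ^ (e + 1 + Nat.log 3 (2 * k + 1)) ∣ c := by
  obtain ⟨N, rfl⟩ : ∃ N, M = N + 1 := ⟨M - 1, by omega⟩
  have : Fact (Nat.Prime 3) := ⟨Nat.prime_three⟩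
  obtain ⟨D, hD⟩ := he
  have hb := bin_id N k
  rw [show N + 1 + 2 * k + 1 = N + 2 * k + 2 by omega] at hc
  -- the product
  have h1 : (9 : ℤ) * (((3 * k + 2) * (3 * k + 1) : ℕ) * (((3 * k).choose k : ℕ) * (((k + 1 : ℕ) : ℤ) * c))) =
      3 ^ (3 * k + 2) * (3 ^ e * D * ((N.choose k : ℕ) * ((N + 2 * k + 2).choose (2 * k) : ℕ))) := by
    have hb' : (((3 * k + 2) * (3 * k + 1) : ℕ) : ℤ) * ((3 * k).choose k : ℕ) *
        ((N + 2 * k + 2).choose (3 * k + 2) : ℕ) =
        ((N : ℤ) + 1) * (N + 2) * (N.choose k : ℕ) * ((N + 2 * k + 2).choose (2 * k) : ℕ) := by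
      exact_mod_cast hb
    have hD' : (9 : ℤ) * ((N : ℤ) + 1) ^ 2 * (N + 1 + 1) = 3 ^ e * D := by
      exact_mod_cast hD
    rw [hc, ← hD']
    push_cast at hb' ⊢
    linear_combination (9 * 3 ^ (3 * k + 2) * ((N : ℤ) + 1)) * hb'
  have h2 : (3 : ℤ) ^ (3 * k + e) ∣ ((3 * k + 2) * (3 * k + 1) : ℕ) * (((3 * k).choose k : ℕ) *
      (((k + 1 : ℕ) : ℤ) * c)) := by
    have h3 : (9 : ℤ) * 3 ^ (3 * k + e) ∣ 9 * (((3 * k + 2) * (3 * k + 1) : ℕ) * (((3 * k).choose k : ℕ) *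
        (((k + 1 : ℕ) : ℤ) * c))) := by
      rw [h1]
      refine ⟨D * ((N.choose k : ℕ) * ((N + 2 * k + 2).choose (2 * k) : ℕ)), ?_⟩
      rw [pow_add, pow_add]
      ring
    exact (mul_dvd_mul_iff_left (by norm_num : (9 : ℤ) ≠ 0)).1 h3
  have h3 := cancel (u := (3 * k + 2) * (3 * k + 1)) (by positivity) (a := 0) h2 (by
    rw [padicValNat.eq_zero_of_not_dvd]
    intro h
    rcases (Nat.Prime.dvd_mul Nat.prime_three).1 h with h | h <;> omega)
  rw [Nat.sub_zero] at h3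
  have hB0 : (3 * k).choose k ≠ 0 := (Nat.choose_pos (by omega)).ne'
  have h4 := cancel hB0 (a := k) h3 (by
    have h5 : (Nat.factorization ((3 * k).choose k)) 3 ≤ Nat.log 3 (3 * k) := Nat.factorization_choose_le_log
    rw [Nat.factorization_def _ Nat.prime_three] at h5
    refine h5.trans (log_le_of_lt (by omega) ?_)
    rw [pow_succ]
    have : k < 3 ^ k := Nat.lt_pow_self (by norm_num)
    omega)
  obtain ⟨j, rfl⟩ : ∃ j, k = j + 1 := ⟨k - 1, by omega⟩
  have h6 := cancel (u := j + 1 + 1) (by omega) (a := j) h4 (by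
    refine (padicValNat_le_nat_log _).trans (log_le_of_lt (by omega) ?_)
    exact pow3_b j)
  refine (pow_dvd_pow 3 ?_).trans h6
  have h7 : Nat.log 3 (2 * (j + 1) + 1) ≤ j + 1 := log_le_of_lt (by omega) (pow3_a (j + 1))
  omega

end IG_

open IG_ in
theorem inig (w : S_W) : S_INIG := by
  intro M e he
  obtain ⟨c, hc, hU⟩ := w M
  -- the function
  have hf : (fun t => 2 * coeff t (U 3 0 (P1 3 ^ M) - 1) - 9 * (M : ℤ) ^ 2 * (M + 1) * t) =
      fun t => (∑ i ∈ Icc 1 M, (2 * c i) * Ini1_.c i t) - (9 * (M : ℤ) ^ 2 * (M + 1)) * ((t.choose 1 : ℕ) : ℤ) := by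
    funext t
    rw [hU, add_sub_cancel_left, map_sum, Finset.mul_sum, Nat.choose_one_right]
    congr 1
    refine Finset.sum_congr rfl fun i hi => ?_
    have hi1 : 1 ≤ i := (Finset.mem_Icc.1 hi).1
    have hZ : coeff t (Zs ^ i) = Ini1_.c i t := Ini1_.coeff_Z i t hi1
    rw [PowerSeries.coeff_C_mul, hZ]
    ring
  rw [hf]
  intro j hj
  have hmu : mu j (fun t => (∑ i ∈ Icc 1 M, (2 * c i) * Ini1_.c i t) -
      (9 * (M : ℤ) ^ 2 * (M + 1)) * ((t.choose 1 : ℕ) : ℤ)) =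
      (∑ i ∈ Icc 1 M, (2 * c i) * mu j (Ini1_.c i)) - (9 * (M : ℤ) ^ 2 * (M + 1)) * (if j = 1 then 1 else 0) := by
    rw [mu_sub, Ini1_.mu_sum, mu_smul, Ini1_.mu_choose]
  rw [hmu]
  rcases Nat.eq_or_lt_of_le hj with h1 | h1
  · -- `j = 1`
    subst h1
    rw [if_pos rfl]
    have h2 : ∀ i ∈ Icc 1 M, (2 * c i) * mu 1 (Ini1_.c i) = if i = 1 then 2 * c 1 else 0 := by
      intro i hi
      have hi1 : 1 ≤ i := (Finset.mem_Icc.1 hi).1
      rw [mu_one, Ini1_.c_zero i 0 (by omega), sub_zero]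
      rcases Nat.eq_or_lt_of_le hi1 with h3 | h3
      · subst h3
        rw [if_pos rfl]
        have : Ini1_.c 1 1 = 1 := by simp [Ini1_.c]
        rw [this, mul_one]
      · rw [if_neg (by omega), Ini1_.c_zero i 1 h3, mul_zero]
    rw [Finset.sum_congr rfl h2, Finset.sum_ite_eq']
    rcases Nat.eq_zero_or_pos M with hM | hM
    · subst hM
      simp
    · rw [if_pos (Finset.mem_Icc.2 ⟨le_rfl, hM⟩)]
      have h3 := hc 1 le_rfl
      have h4 : 2 * ((M + 1).choose 2 : ℤ) = (M + 1) * M := by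
        have h5 := Nat.choose_two_right (M + 1)
        have h6 : 2 * (M + 1).choose 2 = (M + 1) * M := by
          rw [h5, Nat.add_sub_cancel]
          exact Nat.mul_div_cancel' (Nat.even_mul_pred_self (M + 1)).two_dvd
        exact_mod_cast h6
      have h7 : 2 * c 1 = 9 * (M : ℤ) ^ 2 * (M + 1) := by
        norm_num at h3
        rw [h3]
        linear_combination 9 * (M : ℤ) * h4
      rw [h7, mul_one, sub_self]
      exact dvd_zero _
  · rw [if_neg (by omega), mul_zero, sub_zero]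
    refine Finset.dvd_sum fun i hi => ?_
    obtain ⟨hi1, hiM⟩ := Finset.mem_Icc.1 hi
    rcases Nat.lt_or_ge j (2 * i) with h2 | h2
    · obtain ⟨k, rfl⟩ : ∃ k, i = k + 1 := ⟨i - 1, by omega⟩
      have h3 := val_c (M := M) (k := k) (c := c (k + 1)) (by omega) (by omega) he (by
        have := hc (k + 1) (by omega)
        rw [show 3 * (k + 1) - 1 = 3 * k + 2 by omega, show M + 2 * (k + 1) - 1 = M + 2 * k + 1 by omega] at this
        exact this)
      have h4 : Nat.log 3 j ≤ Nat.log 3 (2 * k + 1) := Nat.log_mono_right (by omega)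
      exact (((pow_dvd_pow 3 (by omega)).trans h3).mul_left 2).mul_right _
    · rw [Ini1_.mu_c_zero i j hi1 h2, mul_zero]
      exact dvd_zero _

end Pool.Agent.K9h30.CP
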