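import Pool.Agent.K9h30.CP.Log

/-!
# Leaf CP-U0 (helper62)
-/

set_option autoImplicit false

open PowerSeries Finset
open Pool.Agent.Results.MP_9acee6_nt.Four (S V Automatic geom)

namespace Pool.Agent.K9h30.CP
namespace U0

section gen

variable (R : Type*) [CommRing R] (p : ℕ)

/-- `1 / (1 - x)` over any ring -/
noncomputable def Y : R⟦X⟧ := PowerSeries.mk 1

/-- `1 / (1 - x^p)` over any ring -/
noncomputable def E : R⟦X⟧ := PowerSeries.mk fun k => if p ∣ k then 1 else 0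

/-- `(1 - x^p) / (1 - x)^p` over any ring -/
noncomputable def GG : R⟦X⟧ := (1 - X ^ p) * Y R ^ p

lemma Y_mul : Y R * (1 - X) = 1 := mk_one_mul_one_sub_eq_one R

lemma E_mul (hp : 0 < p) : (1 - X ^ p) * E R p = 1 := by
  ext n
  rw [sub_mul, one_mul, map_sub, coeff_X_pow_mul', coeff_one]
  simp only [E, coeff_mk]
  rcases Nat.eq_zero_or_pos n with rfl | hn
  · simp [hp.ne']
  · rw [if_neg hn.ne']
    by_cases h : p ≤ n
    · rw [if_pos h]
      by_cases hd : p ∣ n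
      · rw [if_pos hd, if_pos (Nat.dvd_sub hd (dvd_refl p)), sub_self]
      · rw [if_neg hd, if_neg, sub_self]
        intro h'
        apply hd
        have := Nat.dvd_add h' (dvd_refl p)
        rwa [Nat.sub_add_cancel h] at this
    · have : ¬ p ∣ n := fun h' => h (Nat.le_of_dvd hn h')
      simp [h, this]

lemma DY : d⁄dX R (Y R) = Y R ^ 2 := by
  have h := congrArg (d⁄dX R) (Y_mul R)
  simp only [Derivation.leibniz, smul_eq_mul, map_sub, derivative_X, Derivation.map_one_eq_zero]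
    at h
  have h2 : (1 - X) * d⁄dX R (Y R) = Y R := by linear_combination h
  calc d⁄dX R (Y R) = (Y R * (1 - X)) * d⁄dX R (Y R) := by rw [Y_mul, one_mul]
    _ = Y R * ((1 - X) * d⁄dX R (Y R)) := by ring
    _ = Y R ^ 2 := by rw [h2, sq]

lemma DG (hp : 0 < p) : d⁄dX R (GG R p) =
    (p : R⟦X⟧) * (Y R * GG R p - X ^ (p - 1) * Y R ^ p) := by
  obtain ⟨q, rfl⟩ := Nat.exists_eq_succ_of_ne_zero hp.ne'
  unfold GG
  simp only [Derivation.leibniz, smul_eq_mul, map_sub, derivative_X, Derivation.map_one_eq_zero,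
    Derivation.leibniz_pow, DY]
  simp only [Nat.succ_eq_add_one, Nat.add_sub_cancel, nsmul_eq_mul]
  ring

lemma Y_pow (hp : 0 < p) : Y R ^ p = E R p * GG R p := by
  unfold GG
  rw [← mul_assoc, mul_comm (E R p), E_mul R p hp, one_mul]

lemma GG_zero (hp : 0 < p) : constantCoeff (GG R p) = 1 := by
  simp [GG, Y, hp.ne']

end gen

lemma GG_int (p : ℕ) : GG ℤ p = P1 p := rfl

lemma map_P1 (R : Type*) [CommRing R] (p : ℕ) :
    PowerSeries.map (Int.castRingHom R) (P1 p) = GG R p := by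
  have h : PowerSeries.map (Int.castRingHom R) y = Y R := by ext n; simp [y, Y]
  simp [P1, GG, h]

/-! ## Divisibility of rational numbers -/

/-- `q` is divisible by `p ^ k` in the local ring of `ℤ` at `p` -/
def D (p k : ℕ) (q : ℚ) : Prop := ∃ (b : ℕ) (a : ℤ), ¬ p ∣ b ∧ q * b = (p : ℚ) ^ k * a

lemma D_of_dvd {p k : ℕ} (hp : p.Prime) {z : ℤ} (h : (p : ℤ) ^ k ∣ z) : D p k z := by
  obtain ⟨a, rfl⟩ := h
  exact ⟨1, a, hp.one_lt.ne' ∘ Nat.dvd_one.1, by push_cast; ring⟩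

lemma D_add {p k : ℕ} (hp : p.Prime) {q r : ℚ} (hq : D p k q) (hr : D p k r) : D p k (q + r) := by
  obtain ⟨b, a, hb, h1⟩ := hq
  obtain ⟨b', a', hb', h2⟩ := hr
  refine ⟨b * b', a * b' + a' * b, fun h => (hp.dvd_mul.1 h).elim hb hb', ?_⟩
  push_cast
  calc (q + r) * (b * b') = (q * b) * b' + (r * b') * b := by ring
    _ = _ := by rw [h1, h2]; ring

lemma D_zero {p k : ℕ} (hp : p.Prime) : D p k 0 :=
  ⟨1, 0, hp.one_lt.ne' ∘ Nat.dvd_one.1, by simp⟩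

lemma D_sum {p k : ℕ} (hp : p.Prime) {ι : Type*} (s : Finset ι) (f : ι → ℚ)
    (h : ∀ i ∈ s, D p k (f i)) : D p k (∑ i ∈ s, f i) := by
  classical
  induction s using Finset.induction_on with
  | empty => simpa using D_zero hp
  | insert a s ha ih =>
    rw [Finset.sum_insert ha]
    exact D_add hp (h a (mem_insert_self _ _)) (ih fun i hi => h i (mem_insert_of_mem hi))

lemma D_mul {p k : ℕ} {q : ℚ} (hq : D p k q) (z : ℤ) : D p k (z * q) := by
  obtain ⟨b, a, hb, h1⟩ := hq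
  exact ⟨b, z * a, hb, by rw [mul_assoc, h1]; push_cast; ring⟩

lemma dvd_of_D {p k : ℕ} (hp : p.Prime) {z : ℤ} (h : D p k z) : (p : ℤ) ^ k ∣ z := by
  obtain ⟨b, a, hb, h1⟩ := h
  have h2 : z * b = (p : ℤ) ^ k * a := by exact_mod_cast h1
  have h3 : IsCoprime ((p : ℤ) ^ k) (b : ℤ) :=
    (Nat.isCoprime_iff_coprime.2 ((Nat.Prime.coprime_iff_not_dvd hp).2 hb)).pow_left
  exact h3.dvd_of_dvd_mul_right ⟨a, h2⟩

lemma D_div {p k K l : ℕ} (hp : p.Prime) (hl : l ≠ 0) (h : k + padicValNat p l ≤ K) :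
    D p k ((p : ℚ) ^ K / l) := by
  have := Fact.mk hp
  obtain ⟨u, hu⟩ : p ^ padicValNat p l ∣ l := pow_padicValNat_dvd
  have hu' : ¬ p ∣ u := by
    intro h'
    have : p ^ (padicValNat p l + 1) ∣ l := by
      conv_rhs => rw [hu]
      rw [pow_succ]
      exact mul_dvd_mul_left _ h'
    exact pow_succ_padicValNat_not_dvd hl this
  refine ⟨u, (p : ℤ) ^ (K - k - padicValNat p l), hu', ?_⟩
  have hu0 : (u : ℚ) ≠ 0 := by
    rintro h0
    apply hu'
    rw [Nat.cast_eq_zero.1 h0]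
    exact dvd_zero _
  have hp0 : (p : ℚ) ≠ 0 := by exact_mod_cast hp.ne_zero
  have h1 : (l : ℚ) = (p : ℚ) ^ padicValNat p l * u := by
    conv_lhs => rw [hu]
    push_cast; ring
  have h2 : (p : ℚ) ^ K = (p : ℚ) ^ k * (p : ℚ) ^ padicValNat p l *
      (p : ℚ) ^ (K - k - padicValNat p l) := by
    rw [← pow_add, ← pow_add]; congr 1; omega
  push_cast
  rw [div_mul_eq_mul_div, div_eq_iff (by rw [h1]; positivity), h1, h2]
  ring

/-! ## The series `ζ = (G - 1) / p` -/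

lemma GG_zmod {p : ℕ} (hp : p.Prime) : GG (ZMod p) p = 1 := by
  have := Fact.mk hp
  have : CharP (ZMod p)⟦X⟧ p := charP_of_injective_ringHom (f := PowerSeries.C)
    PowerSeries.C_injective p
  unfold GG
  have h : (1 - X ^ p : (ZMod p)⟦X⟧) = (1 - X) ^ p := by rw [sub_pow_char]; simp
  rw [h, ← mul_pow, mul_comm, Y_mul, one_pow]

lemma exists_zeta {p : ℕ} (hp : p.Prime) : ∃ ζ : ℤ⟦X⟧, P1 p - 1 = C (p : ℤ) * ζ := by
  have h : ∀ i, (p : ℤ) ∣ coeff i (P1 p - 1) := fun i => by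
    rw [← ZMod.intCast_zmod_eq_zero_iff_dvd]
    have h1 := congrArg (coeff i) ((map_P1 (ZMod p) p).trans (GG_zmod hp))
    rw [coeff_map] at h1
    rw [map_sub, Int.cast_sub]
    have h2 : ((coeff i (1 : ℤ⟦X⟧) : ℤ) : ZMod p) = coeff i (1 : (ZMod p)⟦X⟧) := by
      rw [coeff_one, coeff_one]; split_ifs <;> simp
    rw [h2, ← h1]
    simp
  refine ⟨PowerSeries.mk fun i => coeff i (P1 p - 1) / p, ?_⟩
  ext i
  rw [coeff_C_mul, coeff_mk, Int.mul_ediv_cancel' (h i)]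

lemma pow_zeta {p : ℕ} {ζ : ℤ⟦X⟧} (hζ : P1 p - 1 = C (p : ℤ) * ζ) (n l : ℕ) :
    coeff n ((P1 p - 1) ^ l) = (p : ℤ) ^ l * coeff n (ζ ^ l) := by
  rw [hζ, mul_pow, ← map_pow, coeff_C_mul]

lemma le_aux {p l : ℕ} (hp : 3 ≤ p) (hp' : p.Prime) (hl : 2 ≤ l) : 2 + padicValNat p l ≤ l := by
  have := Fact.mk hp'
  have h1 : 3 ^ padicValNat p l ≤ l := (Nat.pow_le_pow_left hp _).trans
    (Nat.le_of_dvd (by omega) pow_padicValNat_dvd)
  have h2 : ∀ a : ℕ, 1 ≤ a → a + 2 ≤ 3 ^ a := fun a ha => by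
    induction a, ha using Nat.le_induction with
    | base => norm_num
    | succ a _ ih => rw [pow_succ]; omega
  rcases Nat.eq_zero_or_pos (padicValNat p l) with h | h
  · omega
  · have := h2 _ h; omega

/-- `p ∣ ζ_n` for `p ∣ n` -/
lemma zeta_dvd {p : ℕ} (hp : p.Prime) (hp2 : p ≠ 2) {ζ : ℤ⟦X⟧} (hζ : P1 p - 1 = C (p : ℤ) * ζ)
    {n : ℕ} (hpn : p ∣ n) : (p : ℤ) ∣ coeff n ζ := by
  have hp3 : 3 ≤ p := by have := hp.two_le; omega
  have hp0 : (p : ℤ) ≠ 0 := by exact_mod_cast hp.ne_zero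
  rcases Nat.eq_zero_or_pos n with rfl | hn
  · have h1 := congrArg (coeff 0) hζ
    rw [coeff_C_mul, ← GG_int, coeff_zero_eq_constantCoeff_apply, map_sub, GG_zero ℤ p hp.pos] at h1
    simp only [map_one, sub_self] at h1
    have := (mul_eq_zero.1 h1.symm).resolve_left hp0
    rw [this]
    exact dvd_zero _
  have h := log_van p n hp hn hpn
  have h1 : Icc 1 n = insert 1 (Icc 2 n) := by
    ext x; simp only [mem_Icc, mem_insert]; omega
  rw [h1, Finset.sum_insert (by simp)] at h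
  have h2 : D p 2 (((p : ℤ) * coeff n ζ : ℤ) : ℚ) := by
    have e1 : (((p : ℤ) * coeff n ζ : ℤ) : ℚ) = ∑ l ∈ Icc 2 n,
        ((((-1) ^ l * coeff n (ζ ^ l) : ℤ)) : ℚ) * ((p : ℚ) ^ l / l) := by
      have e2 : ∀ l ∈ Icc 2 n, ((((-1) ^ l * coeff n (ζ ^ l) : ℤ)) : ℚ) * ((p : ℚ) ^ l / l) =
          - (((-1 : ℚ) ^ (l + 1) / l) * ((coeff n ((P1 p - 1) ^ l) : ℤ) : ℚ)) := fun l _ => by
        rw [pow_zeta hζ]
        push_cast
        ring
      rw [Finset.sum_congr rfl e2, Finset.sum_neg_distrib, eq_neg_iff_add_eq_zero]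
      rw [pow_zeta hζ] at h
      push_cast at h ⊢
      simpa using h
    rw [e1]
    refine D_sum hp _ _ fun l hl => D_mul (D_div hp ?_ ?_) _
    · have := (mem_Icc.1 hl).1; omega
    · exact le_aux hp3 hp (mem_Icc.1 hl).1
  have h3 := dvd_of_D hp h2
  rw [sq] at h3
  exact (mul_dvd_mul_iff_left hp0).1 h3

/-- `ζ_i ≡ 1 / i` -/
lemma zeta_mod {p : ℕ} [Fact p.Prime] (hp2 : p ≠ 2) {ζ : ℤ⟦X⟧} (hζ : P1 p - 1 = C (p : ℤ) * ζ)
    (i : ℕ) : ((coeff i ζ : ℤ) : ZMod p) = (i : ZMod p)⁻¹ := by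
  have hp : p.Prime := Fact.out
  have hp0 : (p : ℤ) ≠ 0 := by exact_mod_cast hp.ne_zero
  by_cases hpi : p ∣ i
  · rw [(ZMod.natCast_eq_zero_iff i p).2 hpi, inv_zero, ZMod.intCast_zmod_eq_zero_iff_dvd]
    exact zeta_dvd hp hp2 hζ hpi
  obtain ⟨j, rfl⟩ : ∃ j, i = j + 1 := Nat.exists_eq_succ_of_ne_zero (by rintro rfl; simp at hpi)
  have h1 : C (p : ℤ) * d⁄dX ℤ ζ = C (p : ℤ) * (Y ℤ * P1 p - X ^ (p - 1) * Y ℤ ^ p) := by
    have := congrArg (d⁄dX ℤ) hζ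
    rw [map_sub, Derivation.map_one_eq_zero, sub_zero, ← GG_int, DG ℤ p hp.pos,
      Derivation.leibniz, derivative_C, smul_zero, add_zero, smul_eq_mul] at this
    rw [← this, GG_int]
    simp
  have hC : (C (p : ℤ) : ℤ⟦X⟧) ≠ 0 := by
    rw [Ne, ← map_zero (PowerSeries.C (R := ℤ)), PowerSeries.C_injective.eq_iff]
    exact hp0
  have h2 := mul_left_cancel₀ hC h1
  have h3 := congrArg (PowerSeries.map (Int.castRingHom (ZMod p))) h2
  have hY : PowerSeries.map (Int.castRingHom (ZMod p)) (Y ℤ) = Y (ZMod p) := by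
    ext n; simp [Y]
  rw [map_sub, map_mul, map_mul, map_P1, GG_zmod hp, hY, map_pow, map_pow, hY, map_X,
    Y_pow (ZMod p) p hp.pos, GG_zmod hp, mul_one, mul_one] at h3
  have h4 := congrArg (coeff j) h3
  rw [coeff_map, coeff_derivative, map_sub, coeff_X_pow_mul'] at h4
  simp only [Y, E, coeff_mk, Pi.one_apply] at h4
  have h5 : (if p - 1 ≤ j then (if p ∣ j - (p - 1) then (1 : ZMod p) else 0) else 0) = 0 := by
    split_ifs with h6 h7
    · exfalso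
      apply hpi
      have := Nat.dvd_add h7 (dvd_refl p)
      rwa [show j - (p - 1) + p = j + 1 by have := hp.pos; omega] at this
    · rfl
    · rfl
  rw [h5, sub_zero] at h4
  refine eq_inv_of_mul_eq_one_left ?_
  simpa using h4

/-! ## The coefficients of `ζ ^ 2` and `ζ ^ 3` -/

lemma sum_mod {p : ℕ} [Fact p.Prime] {M : Type*} [CommRing M] (g : ZMod p → M) (t : ℕ) :
    ∑ i ∈ range (p * t), g (i : ZMod p) = t * ∑ a, g a := by
  have h0 : ∑ i ∈ range p, g (i : ZMod p) = ∑ a, g a := by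
    refine Finset.sum_bij (fun i _ => (i : ZMod p)) (fun _ _ => mem_univ _) ?_ ?_ fun _ _ => rfl
    · intro a ha b hb hab
      rw [ZMod.natCast_eq_natCast_iff', Nat.mod_eq_of_lt (mem_range.1 ha),
        Nat.mod_eq_of_lt (mem_range.1 hb)] at hab
      exact hab
    · intro a _
      exact ⟨a.val, mem_range.2 (ZMod.val_lt a), by simp⟩
  induction t with
  | zero => simp
  | succ t ih =>
    rw [Nat.mul_succ, Finset.sum_range_add, ih]
    have : ∀ i ∈ range p, g ((p * t + i : ℕ) : ZMod p) = g (i : ZMod p) := fun i _ => by simp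
    rw [Finset.sum_congr rfl this, h0]
    push_cast; ring

lemma zeta_sq {p : ℕ} [Fact p.Prime] (hp2 : p ≠ 2) {ζ : ℤ⟦X⟧} (hζ : P1 p - 1 = C (p : ℤ) * ζ)
    (t : ℕ) : ((coeff (p * t) (ζ ^ 2) : ℤ) : ZMod p) = -(t * ∑ a : ZMod p, a ^ 2) := by
  rw [sq ζ, coeff_mul]
  push_cast
  have h1 : ∀ x ∈ antidiagonal (p * t), ((coeff x.1 ζ : ℤ) : ZMod p) * ((coeff x.2 ζ : ℤ) : ZMod p)
      = -(((x.1 : ZMod p)⁻¹) ^ 2) := fun x hx => by
    rw [zeta_mod hp2 hζ, zeta_mod hp2 hζ]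
    have h2 : (x.1 : ZMod p) + (x.2 : ZMod p) = 0 := by
      have := congrArg (Nat.cast (R := ZMod p)) (mem_antidiagonal.1 hx)
      push_cast at this
      rw [this]; simp
    rw [eq_neg_of_add_eq_zero_right h2, inv_neg]
    ring
  rw [Finset.sum_congr rfl h1, Finset.Nat.sum_antidiagonal_eq_sum_range_succ_mk,
    Finset.sum_range_succ, Finset.sum_neg_distrib,
    sum_mod (fun a : ZMod p => (a⁻¹) ^ 2) t]
  have h3 : ∑ a : ZMod p, (a⁻¹) ^ 2 = ∑ a : ZMod p, a ^ 2 :=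
    Equiv.sum_comp (Equiv.inv (ZMod p)) fun a => a ^ 2
  rw [h3]
  simp

lemma mul_self3 : ∀ a : ZMod 3, a ≠ 0 → a * a = 1 := by decide

lemma sum_sq3 : ∑ a : ZMod 3, a ^ 2 = 2 := by decide

lemma neg_two3 : ∀ t : ZMod 3, -(t * 2) - t = 0 := by decide

lemma pow3 : ∀ a : ZMod 3, a ^ 3 = a := by decide

lemma inv3 [Fact (Nat.Prime 3)] (a : ZMod 3) : a⁻¹ = a := by
  by_cases h : a = 0
  · rw [h, inv_zero]
  · exact (eq_inv_of_mul_eq_one_left (mul_self3 a h)).symm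

lemma cube_inv [Fact (Nat.Prime 3)] (a : ZMod 3) : a⁻¹ ^ 3 = a := by
  rw [inv3, pow3]

lemma zeta_cube {ζ : ℤ⟦X⟧} (hζ : P1 3 - 1 = C ((3 : ℕ) : ℤ) * ζ) (t : ℕ) :
    ((coeff (3 * t) (ζ ^ 3) : ℤ) : ZMod 3) = t := by
  have : Fact (Nat.Prime 3) := ⟨Nat.prime_three⟩
  set f : (ZMod 3)⟦X⟧ := PowerSeries.map (Int.castRingHom (ZMod 3)) ζ with hf
  have h1 : ((coeff (3 * t) (ζ ^ 3) : ℤ) : ZMod 3) = coeff (3 * t) (f ^ 3) := by
    rw [hf, ← map_pow, coeff_map]; rfl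
  have h2 : PowerSeries.map (frobenius (ZMod 3) 3) (f.expand 3 (by norm_num)) = f ^ 3 :=
    MvPowerSeries.map_frobenius_expand 3 (by norm_num)
  rw [h1, ← h2, coeff_map, coeff_expand_mul, hf, coeff_map]
  have h3 := zeta_mod (p := 3) (by norm_num) hζ t
  rw [show (Int.castRingHom (ZMod 3)) (coeff t ζ) = ((coeff t ζ : ℤ) : ZMod 3) from rfl, h3]
  rw [frobenius_def]
  exact cube_inv _

/-! ## The expansion -/

lemma coeff_low {p n l : ℕ} (hp : 0 < p) (h : n < l) : coeff n ((P1 p - 1) ^ l) = 0 := by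
  have hX : (X : ℤ⟦X⟧) ∣ P1 p - 1 := by
    rw [X_dvd_iff, map_sub, ← GG_int, GG_zero ℤ p hp]; simp
  exact X_pow_dvd_iff.1 (pow_dvd_pow_of_dvd hX l) n h

lemma binom_exp {p n M : ℕ} (hp : 0 < p) (hn : 1 ≤ n) :
    coeff n (P1 p ^ M) = ∑ l ∈ Icc 1 n, (M.choose l : ℤ) * coeff n ((P1 p - 1) ^ l) := by
  have h1 : P1 p ^ M = ∑ l ∈ range (M + 1), (P1 p - 1) ^ l * (M.choose l : ℤ⟦X⟧) := by
    conv_lhs => rw [← sub_add_cancel (P1 p) 1, add_pow]
    simp
  have h2 : coeff n (P1 p ^ M) =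
      ∑ l ∈ range (M + 1), (M.choose l : ℤ) * coeff n ((P1 p - 1) ^ l) := by
    rw [h1, map_sum]
    refine Finset.sum_congr rfl fun l _ => ?_
    rw [mul_comm, show ((M.choose l : ℕ) : ℤ⟦X⟧) = C (M.choose l : ℤ) by simp, coeff_C_mul]
  rw [h2]
  have h3 : ∑ l ∈ range (M + 1), (M.choose l : ℤ) * coeff n ((P1 p - 1) ^ l) =
      ∑ l ∈ range (M + n + 1), (M.choose l : ℤ) * coeff n ((P1 p - 1) ^ l) := by
    refine Finset.sum_subset (fun x hx => mem_range.2 (by have := mem_range.1 hx; omega))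
      fun l _ hl => ?_
    rw [Nat.choose_eq_zero_of_lt (by rw [mem_range] at hl; omega)]
    simp
  rw [h3]
  symm
  refine Finset.sum_subset (fun x hx => mem_range.2 (by have := mem_Icc.1 hx; omega))
    fun l _ hl => ?_
  rcases Nat.eq_zero_or_pos l with rfl | h
  · rw [pow_zero, coeff_one, if_neg (by omega), mul_zero]
  · rw [coeff_low hp (by rw [mem_Icc] at hl; omega), mul_zero]

lemma main_id {p n M : ℕ} (hp : p.Prime) (hn : 1 ≤ n) (hpn : p ∣ n) :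
    ((coeff n (P1 p ^ M) : ℤ) : ℚ) = ∑ l ∈ Icc 1 n,
      ((M.choose l : ℚ) - M * ((-1) ^ (l + 1) / l)) * ((coeff n ((P1 p - 1) ^ l) : ℤ) : ℚ) := by
  have h1 := log_van p n hp hn hpn
  rw [binom_exp hp.pos hn]
  push_cast
  simp only [sub_mul, Finset.sum_sub_distrib, mul_assoc]
  rw [← Finset.mul_sum, h1, mul_zero, sub_zero]

lemma A_dvd {p v M J : ℕ} (hp : p.Prime) (hM : p ^ v ∣ M) (hM1 : 1 ≤ M) :
    ∀ j ≤ J, (p : ℤ) ^ v ∣ (p : ℤ) ^ Nat.log p J * (((M - 1).choose j : ℤ) - (-1) ^ j) := by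
  intro j
  induction j with
  | zero => intro _; simp
  | succ j ih =>
    intro hj
    have h1 : ((M - 1).choose (j + 1) : ℤ) = M.choose (j + 1) - (M - 1).choose j := by
      obtain ⟨m, rfl⟩ := Nat.exists_eq_add_of_le' hM1
      rw [Nat.choose_succ_succ]
      push_cast
      simp
    have h2 : (p : ℤ) ^ v ∣ (p : ℤ) ^ Nat.log p J * M.choose (j + 1) := by
      obtain ⟨m, rfl⟩ := Nat.exists_eq_add_of_le' hM1
      have h3 : p ^ v ∣ (m + 1).choose (j + 1) * (j + 1) := by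
        rw [← Nat.add_one_mul_choose_eq m j]
        exact hM.mul_right _
      obtain ⟨e, u, hu, he⟩ := Nat.exists_eq_pow_mul_and_not_dvd (Nat.succ_ne_zero j) p
        hp.one_lt.ne'
      rw [Nat.succ_eq_add_one] at he
      rw [he, ← mul_assoc] at h3
      have h4 : p ^ v ∣ (m + 1).choose (p ^ e * u) * p ^ e :=
        (Nat.Coprime.pow_left v ((Nat.Prime.coprime_iff_not_dvd hp).2 hu)).dvd_of_dvd_mul_right h3
      have h5 : e ≤ Nat.log p J := by
        refine Nat.le_log_of_pow_le hp.one_lt (le_trans ?_ hj)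
        rw [he]
        exact Nat.le_mul_of_pos_right _ (Nat.pos_of_ne_zero (by rintro rfl; simp at hu))
      rw [← he] at h4
      have h6 : p ^ v ∣ p ^ Nat.log p J * (m + 1).choose (j + 1) := by
        rw [mul_comm]
        exact h4.trans (mul_dvd_mul_left _ (pow_dvd_pow p h5))
      exact_mod_cast h6
    have h7 : (p : ℤ) ^ Nat.log p J * (((M - 1).choose (j + 1) : ℤ) - (-1) ^ (j + 1)) =
        (p : ℤ) ^ Nat.log p J * M.choose (j + 1) -
          (p : ℤ) ^ Nat.log p J * (((M - 1).choose j : ℤ) - (-1) ^ j) := by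
      rw [h1]; ring
    rw [h7]
    exact dvd_sub h2 (ih (by omega))

lemma le_aux2 {p l : ℕ} (hp : 3 ≤ p) (hp' : p.Prime) (hl : 4 ≤ l) :
    padicValNat p l + Nat.log p (l - 1) + 3 ≤ l := by
  have := Fact.mk hp'
  set a := padicValNat p l with ha
  set b := Nat.log p (l - 1) with hb
  have hpa : p ^ a ∣ l := pow_padicValNat_dvd
  have h1 : 3 ^ a ≤ l := (Nat.pow_le_pow_left hp _).trans (Nat.le_of_dvd (by omega) hpa)
  have h2 : 3 ^ b ≤ l - 1 := (Nat.pow_le_pow_left hp _).trans (Nat.pow_log_le_self p (by omega))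
  have k1 : ∀ c : ℕ, 2 * c + 1 ≤ 3 ^ c := fun c => by
    induction c with
    | zero => norm_num
    | succ c ih => rw [pow_succ]; omega
  have k2 : ∀ c : ℕ, 2 ≤ c → 2 * c + 5 ≤ 3 ^ c := fun c hc => by
    induction c, hc using Nat.le_induction with
    | base => norm_num
    | succ c _ ih => rw [pow_succ]; omega
  have k3 := k1 b
  rcases lt_or_ge a 2 with h | h
  · rcases lt_or_ge b 2 with h' | h'
    · rcases Nat.eq_zero_or_pos a with h'' | h''
      · omega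
      · have h3 : a = 1 := by omega
        rw [h3, pow_one] at hpa
        have : l ≠ 4 := by
          rintro rfl
          have h4 := Nat.le_of_dvd (by norm_num) hpa
          have h5 : p = 3 ∨ p = 4 := by omega
          rcases h5 with rfl | rfl
          · revert hpa; decide
          · revert hp'; decide
        omega
    · have := k2 b h'; omega
  · have := k2 a h; omega

/-- the terms with `l ≥ 4` -/
lemma D_term {p v μ l n : ℕ} (hp : p.Prime) (hp3 : 3 ≤ p) (hμ : 1 ≤ μ) (hl : 4 ≤ l) {ζ : ℤ⟦X⟧}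
    (hζ : P1 p - 1 = C (p : ℤ) * ζ) :
    D p (2 * v + 3) ((((p ^ v * μ).choose l : ℚ) - (p ^ v * μ : ℕ) * ((-1) ^ (l + 1) / l)) *
      ((coeff n ((P1 p - 1) ^ l) : ℤ) : ℚ)) := by
  set M := p ^ v * μ with hM
  have hM1 : 1 ≤ M := Nat.one_le_iff_ne_zero.2 (mul_ne_zero (pow_ne_zero _ hp.ne_zero) (by omega))
  obtain ⟨c, hc⟩ := A_dvd (J := l - 1) hp (Dvd.intro _ rfl : p ^ v ∣ M) hM1 (l - 1) le_rfl
  have hlog : Nat.log p (l - 1) ≤ l := (Nat.log_le_self _ _).trans (by omega)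
  have h1 : ((M.choose l : ℚ) - M * ((-1) ^ (l + 1) / l)) =
      M * (((M - 1).choose (l - 1) : ℚ) - (-1) ^ (l - 1)) / l := by
    have h2 : (M : ℚ) * (M - 1).choose (l - 1) = M.choose l * l := by
      obtain ⟨m, hm⟩ := Nat.exists_eq_add_of_le' hM1
      obtain ⟨k, rfl⟩ := Nat.exists_eq_add_of_le' (show 1 ≤ l by omega)
      rw [hm]
      exact_mod_cast Nat.add_one_mul_choose_eq m k
    have hl0 : (l : ℚ) ≠ 0 := by
      have : l ≠ 0 := by omega
      exact_mod_cast this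
    have h3 : (-1 : ℚ) ^ (l + 1) = (-1) ^ (l - 1) := by
      rw [show l + 1 = l - 1 + 2 by omega, pow_add]; norm_num
    rw [mul_sub, h2, h3]
    field_simp
  have h4 : ((M.choose l : ℚ) - M * ((-1) ^ (l + 1) / l)) *
      ((coeff n ((P1 p - 1) ^ l) : ℤ) : ℚ) =
      ((μ * c * coeff n (ζ ^ l) : ℤ) : ℚ) * ((p : ℚ) ^ (2 * v + (l - Nat.log p (l - 1))) / l) := by
    rw [h1, pow_zeta hζ, hM]
    have h5 : (p : ℚ) ^ l = (p : ℚ) ^ Nat.log p (l - 1) * (p : ℚ) ^ (l - Nat.log p (l - 1)) := by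
      rw [← pow_add]; congr 1; omega
    have h6 : (p : ℚ) ^ Nat.log p (l - 1) * (((M - 1).choose (l - 1) : ℚ) - (-1) ^ (l - 1)) =
        (p : ℚ) ^ v * c := by exact_mod_cast hc
    push_cast
    rw [h5, pow_add, show 2 * v = v + v by ring, pow_add]
    calc (p : ℚ) ^ v * μ * (((M - 1).choose (l - 1) : ℚ) - (-1) ^ (l - 1)) / l *
          ((p : ℚ) ^ Nat.log p (l - 1) * (p : ℚ) ^ (l - Nat.log p (l - 1)) *
            ((coeff n (ζ ^ l) : ℤ) : ℚ)) =
        (p : ℚ) ^ v * μ * ((p : ℚ) ^ Nat.log p (l - 1) *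
          (((M - 1).choose (l - 1) : ℚ) - (-1) ^ (l - 1))) / l *
            ((p : ℚ) ^ (l - Nat.log p (l - 1)) * ((coeff n (ζ ^ l) : ℤ) : ℚ)) := by ring
      _ = _ := by rw [h6]; ring
  rw [h4]
  refine D_mul (D_div hp (by omega) ?_) _
  have := le_aux2 hp3 hp hl
  omega

lemma choose_two (M : ℕ) : 2 * (M.choose 2 : ℚ) = M * (M - 1) := by
  induction M with
  | zero => simp
  | succ M ih =>
    rw [Nat.choose_succ_succ' M 1, Nat.choose_one_right]
    push_cast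
    linarith

lemma choose_three (M : ℕ) : 6 * (M.choose 3 : ℚ) = M * (M - 1) * (M - 2) := by
  induction M with
  | zero => simp
  | succ M ih =>
    rw [Nat.choose_succ_succ' M 2]
    push_cast
    have := choose_two M
    linear_combination ih + 3 * this

/-- the expansion up to terms divisible by `p ^ (2 v + 3)` -/
lemma expansion {p v μ t : ℕ} (hp : p.Prime) (hp2 : p ≠ 2) (hμ : 1 ≤ μ) (ht : 1 ≤ t)
    {ζ : ℤ⟦X⟧} (hζ : P1 p - 1 = C (p : ℤ) * ζ) :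
    ∃ R : ℚ, D p (2 * v + 3) R ∧
      2 * ((coeff (p * t) (P1 p ^ (p ^ v * μ)) : ℤ) : ℚ) =
        (p ^ v * μ : ℕ) ^ 2 * (p : ℚ) ^ 2 * ((coeff (p * t) (ζ ^ 2) : ℤ) : ℚ) +
        (p ^ v * μ : ℕ) ^ 2 * ((p ^ v * μ : ℕ) - 3) / 3 * (p : ℚ) ^ 3 *
          ((coeff (p * t) (ζ ^ 3) : ℤ) : ℚ) + R := by
  have hp3 : 3 ≤ p := by have := hp.two_le; omega
  have hn3 : 3 ≤ p * t := hp3.trans (Nat.le_mul_of_pos_right _ ht)
  have h := main_id (M := p ^ v * μ) hp (by omega) (Dvd.intro t rfl : p ∣ p * t)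
  have h1 : Icc 1 (p * t) = insert 1 (insert 2 (insert 3 (Icc 4 (p * t)))) := by
    ext x; simp only [mem_Icc, mem_insert]; omega
  rw [h1, Finset.sum_insert (by simp), Finset.sum_insert (by simp),
    Finset.sum_insert (by simp)] at h
  refine ⟨((2 : ℤ) : ℚ) * ∑ l ∈ Icc 4 (p * t), (((p ^ v * μ).choose l : ℚ) -
    (p ^ v * μ : ℕ) * ((-1) ^ (l + 1) / l)) * ((coeff (p * t) ((P1 p - 1) ^ l) : ℤ) : ℚ),
    D_mul (D_sum hp _ _ fun l hl => D_term hp hp3 hμ (mem_Icc.1 hl).1 hζ) 2, ?_⟩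
  rw [h, pow_zeta hζ, pow_zeta hζ, pow_zeta hζ]
  have h2 := choose_two (p ^ v * μ)
  have h3 := choose_three (p ^ v * μ)
  generalize p ^ v * μ = M at *
  have h2' : (M.choose 2 : ℚ) = M * (M - 1) / 2 := by linarith
  have h3' : (M.choose 3 : ℚ) = M * (M - 1) * (M - 2) / 6 := by linarith
  rw [Nat.choose_one_right, h2', h3']
  push_cast
  ring

end U0

open U0 in
theorem u0 : S_U0 := by
  intro p v μ t hp hp2 hμ hpμ ht
  have := Fact.mk hp
  obtain ⟨ζ, hζ⟩ := exists_zeta hp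
  obtain ⟨R, hR, hmain⟩ := expansion (v := v) hp hp2 hμ ht hζ
  have hU : coeff t (U p 0 (P1 p ^ (p ^ v * μ))) = coeff (p * t) (P1 p ^ (p ^ v * μ)) := by
    simp [U]
  have hp3 : 3 ≤ p := by have := hp.two_le; omega
  have h2 : IsCoprime ((p : ℤ) ^ (2 * v + 3)) 2 := by
    refine IsCoprime.pow_left (Nat.isCoprime_iff_coprime.2 ?_)
    exact (Nat.coprime_primes hp Nat.prime_two).2 hp2
  refine ⟨fun hp5 => ?_, ?_, ?_⟩
  · rw [hU]
    refine h2.dvd_of_dvd_mul_left (dvd_of_D hp ?_)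
    have hz : (p : ℤ) ∣ coeff (p * t) (ζ ^ 2) := by
      rw [← ZMod.intCast_zmod_eq_zero_iff_dvd, zeta_sq hp2 hζ,
        FiniteField.sum_pow_lt_card_sub_one (ZMod p) 2 (by rw [ZMod.card]; omega)]
      simp
    obtain ⟨c, hc⟩ := hz
    push_cast
    rw [hmain]
    refine D_add hp (D_add hp ?_ ?_) hR
    · have : (((p ^ v * μ : ℕ) : ℚ) ^ 2 * (p : ℚ) ^ 2 * ((coeff (p * t) (ζ ^ 2) : ℤ) : ℚ)) =
          (((p : ℤ) ^ (2 * v + 3) * ((μ : ℤ) ^ 2 * c) : ℤ) : ℚ) := by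
        rw [hc]; push_cast; ring
      rw [this]
      exact D_of_dvd hp (Dvd.intro _ rfl)
    · refine ⟨3, (μ : ℤ) ^ 2 * ((p : ℤ) ^ v * μ - 3) * coeff (p * t) (ζ ^ 3), fun h => ?_, ?_⟩
      · have := Nat.le_of_dvd (by norm_num) h; omega
      · push_cast; ring
  · rintro rfl hv
    rw [hU]
    have hz : (3 : ℤ) ∣ coeff (3 * t) (ζ ^ 2) - t := by
      have h := zeta_sq (p := 3) hp2 hζ t
      rw [← Nat.cast_ofNat (R := ℤ), ← ZMod.intCast_zmod_eq_zero_iff_dvd]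
      push_cast
      have h5 : ∑ a : ZMod 3, a ^ 2 = 2 := sum_sq3
      rw [h, h5]
      exact neg_two3 _
    obtain ⟨c, hc⟩ := hz
    obtain ⟨w, rfl⟩ := Nat.exists_eq_add_of_le' hv
    refine h2.dvd_of_dvd_mul_left (dvd_of_D hp ?_)
    have hc' : ((coeff (3 * t) (ζ ^ 2) : ℤ) : ℚ) = t + 3 * c := by
      have : coeff (3 * t) (ζ ^ 2) = t + 3 * c := by linarith
      rw [this]; push_cast; ring
    have e : (((2 : ℤ) * (coeff (3 * t) (P1 3 ^ (3 ^ (w + 1) * μ)) +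
        3 ^ (2 * (w + 1) + 2) * μ ^ 2 * t) : ℤ) : ℚ) =
        (((3 : ℕ) : ℤ) ^ (2 * (w + 1) + 3) * ((μ : ℤ) ^ 2 * c + (μ : ℤ) ^ 2 * t +
          μ ^ 2 * (3 ^ w * μ - 1) * coeff (3 * t) (ζ ^ 3)) : ℤ) + R := by
      push_cast
      rw [mul_add, hmain, hc']
      push_cast
      ring
    rw [e]
    exact D_add hp (D_of_dvd hp (Dvd.intro _ rfl)) hR
  · rintro rfl rfl
    rw [pow_zero, one_mul] at hU hmain
    rw [hU]
    change ((3 : ℤ) ^ 3 ∣ _)
    have hz : (3 : ℤ) ∣ coeff (3 * t) (ζ ^ 2) - t := by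
      have h := zeta_sq (p := 3) hp2 hζ t
      rw [← Nat.cast_ofNat (R := ℤ), ← ZMod.intCast_zmod_eq_zero_iff_dvd]
      push_cast
      have h5 : ∑ a : ZMod 3, a ^ 2 = 2 := sum_sq3
      rw [h, h5]
      exact neg_two3 _
    have hz3 : (3 : ℤ) ∣ μ ^ 2 * (μ - 3) * coeff (3 * t) (ζ ^ 3) - μ * t := by
      have h := zeta_cube hζ t
      rw [← Nat.cast_ofNat (R := ℤ), ← ZMod.intCast_zmod_eq_zero_iff_dvd]
      push_cast
      rw [h]
      have h6 : ∀ m t : ZMod 3, m ^ 2 * (m - 3) * t - m * t = 0 := by decide +revert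
      exact h6 _ _
    obtain ⟨c, hc⟩ := hz
    obtain ⟨d, hd⟩ := hz3
    have hc' : ((coeff (3 * t) (ζ ^ 2) : ℤ) : ℚ) = t + 3 * c := by
      have : coeff (3 * t) (ζ ^ 2) = t + 3 * c := by linarith
      rw [this]; push_cast; ring
    have hd' : (μ : ℚ) ^ 2 * (μ - 3) * ((coeff (3 * t) (ζ ^ 3) : ℤ) : ℚ) = μ * t + 3 * d := by
      have : (μ : ℤ) ^ 2 * (μ - 3) * coeff (3 * t) (ζ ^ 3) = μ * t + 3 * d := by linarith
      exact_mod_cast this
    have e : (((2 : ℤ) * (coeff (3 * t) (P1 3 ^ μ) + 9 * (μ ^ 2 + μ) * t) : ℤ) : ℚ) =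
        (((3 : ℕ) : ℤ) ^ (2 * 0 + 3) * ((μ : ℤ) ^ 2 * c + d + (μ ^ 2 + μ) * t) : ℤ) + R := by
      push_cast
      rw [mul_add, hmain, hc']
      push_cast
      linear_combination 9 * hd'
    refine h2.dvd_of_dvd_mul_left (dvd_of_D hp ?_)
    rw [e]
    exact D_add hp (D_of_dvd hp (Dvd.intro _ rfl)) hR

end Pool.Agent.K9h30.CP
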