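import Pool.Agent.K9h30.CP.Stm4
import Pool.Agent.K9h30.CP.Ini1
import Pool.Agent.K9h30.CP.U0

/-!
# MP_9acee6_nt, leaf INIp (helper62)
-/

set_option autoImplicit false

open PowerSeries Finset

namespace Pool.Agent.K9h30.CP
namespace IniP_

/-! ## The inequality of the valuations -/

lemma pow5_a (b : ℕ) : b + 3 ≤ 5 ^ (b + 1) := by
  induction b with
  | zero => norm_num
  | succ b ih => rw [pow_succ]; omega

lemma pow5_b (b : ℕ) : 3 * b + 5 ≤ 5 ^ (b + 1) := by
  induction b with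
  | zero => norm_num
  | succ b ih => rw [pow_succ]; omega

lemma pow5_c (b : ℕ) : 3 * b + 10 ≤ 5 ^ (b + 2) := by
  induction b with
  | zero => norm_num
  | succ b ih => rw [show b + 1 + 2 = b + 2 + 1 by ring, pow_succ]; omega

lemma ineq {p j l : ℕ} (hp : p.Prime) (hp5 : 5 ≤ p) (hj : 3 ≤ j) (hl : 2 ≤ l) :
    4 + Nat.log p j + padicValNat p l + Nat.log p (l - 1) ≤
      l + (j - (l * (p - 1) - 1 - j) / (p - 1)) := by
  have := Fact.mk hp
  set q := (l * (p - 1) - 1 - j) / (p - 1) with hq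
  set s := p - 1 with hs
  have hq1 : q * s ≤ l * s - 1 - j := Nat.div_mul_le_self _ _
  have e1 : j + 1 ≤ l + (j - q) := by
    rcases Nat.lt_or_ge (j + 1) (l * s) with h | h
    · have h1 : q * s < l * s := by omega
      have h2 : q < l := lt_of_mul_lt_mul_right h1 (Nat.zero_le _)
      omega
    · have h1 : q * s = 0 := by omega
      have h2 : q = 0 := by
        rcases Nat.mul_eq_zero.1 h1 with h3 | h3
        · exact h3
        · omega
      omega
  have e2 : p ≤ j → j + 2 ≤ l + (j - q) := fun hpj => by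
    rcases Nat.lt_or_ge (j + 1) (l * s) with h | h
    · have h1 : (q + 1) * s < l * s := by
        rw [add_mul, one_mul]; omega
      have h2 : q + 1 < l := lt_of_mul_lt_mul_right h1 (Nat.zero_le _)
      omega
    · have h1 : q * s = 0 := by omega
      have h2 : q = 0 := by
        rcases Nat.mul_eq_zero.1 h1 with h3 | h3
        · exact h3
        · omega
      omega
  have e0 : l ≤ l + (j - q) := Nat.le_add_right _ _
  generalize l + (j - q) = e at *
  have hc : 5 ^ Nat.log p j ≤ j := (Nat.pow_le_pow_left hp5 _).trans (Nat.pow_log_le_self p (by omega))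
  have hc1 : Nat.log p j + 3 ≤ j := by
    rcases Nat.eq_zero_or_pos (Nat.log p j) with h | h
    · omega
    · obtain ⟨b, hb⟩ : ∃ b, Nat.log p j = b + 1 := ⟨Nat.log p j - 1, by omega⟩
      rw [hb] at hc ⊢
      have := pow5_b b
      omega
  rcases Nat.lt_or_ge l p with hlp | hlp
  · have h1 : padicValNat p l = 0 :=
      padicValNat.eq_zero_of_not_dvd fun h => by
        have := Nat.le_of_dvd (by omega) h; omega
    have h2 : Nat.log p (l - 1) = 0 := Nat.log_of_lt (by omega)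
    rw [h1, h2]
    omega
  · set a := padicValNat p l with ha
    set b := Nat.log p (l - 1) with hb
    set c := Nat.log p j with hcc
    have ha1 : p ^ a ∣ l := pow_padicValNat_dvd
    have ha2 : p ^ a ≤ l := Nat.le_of_dvd (by omega) ha1
    have hb1 : p ^ b ≤ l - 1 := Nat.pow_log_le_self p (by omega)
    have hb2 : l - 1 < p ^ (b + 1) := Nat.lt_pow_succ_log_self hp.one_lt _
    have hb3 : 5 ^ b ≤ l - 1 := (Nat.pow_le_pow_left hp5 _).trans hb1
    rcases Nat.lt_or_ge j l with hjl | hjl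
    · have h1 : c ≤ b := Nat.log_mono_right (by omega)
      rcases Nat.lt_or_ge b a with h2 | h2
      · -- `l = p ^ (b + 1)`
        have h3 : p ^ (b + 1) ≤ p ^ a := Nat.pow_le_pow_right hp.pos h2
        have h4 : p ^ (b + 1) ≤ l := h3.trans ha2
        have h5 : l = p ^ (b + 1) := by omega
        have h6 : a = b + 1 := by
          rw [ha, h5, padicValNat.prime_pow]
        have h7 := pow5_b b
        have h8 : 5 ^ (b + 1) ≤ l := by rw [h5]; exact Nat.pow_le_pow_left hp5 _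
        omega
      · rcases Nat.lt_or_ge b 2 with h3 | h3
        · rcases Nat.eq_zero_or_pos a with h4 | h4
          · rcases Nat.eq_zero_or_pos b with h5 | h5
            · omega
            · have h6 : b = 1 := by omega
              rw [h6, pow_one] at hb1
              omega
          · have h5 : a = 1 := by omega
            have h6 : b = 1 := by omega
            rw [h5, pow_one] at ha1
            rw [h6, pow_one] at hb1
            obtain ⟨r, hr⟩ := ha1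
            have h7 : 2 ≤ r := by
              by_contra h8
              have : r = 0 ∨ r = 1 := by omega
              rcases this with rfl | rfl
              · omega
              · omega
            have h8 : p * 2 ≤ p * r := Nat.mul_le_mul_left p h7
            omega
        · obtain ⟨b', hb'⟩ := Nat.exists_eq_add_of_le' h3
          have h4 := pow5_c b'
          rw [hb'] at hb3
          omega
    · have hpj : p ≤ j := hlp.trans hjl
      have h1 := e2 hpj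
      have h2 : a ≤ c := by
        rw [hcc]
        exact Nat.le_log_of_pow_le hp.one_lt (ha2.trans hjl)
      have h3 : b ≤ c := Nat.log_mono_right (by omega)
      have h4 : 1 ≤ c := Nat.le_log_of_pow_le hp.one_lt (by rw [pow_one]; exact hpj)
      obtain ⟨c', hc'⟩ := Nat.exists_eq_add_of_le' h4
      have h5 := pow5_b c'
      rw [hc'] at hc
      omega

/-! ## Odd polynomials -/

/-- `binom(x+i, 2i+1)` -/
noncomputable def B : ℕ → Polynomial ℚ
  | 0 => Polynomial.X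
  | (i + 1) => B i * ((Polynomial.X ^ 2 - Polynomial.C (((i : ℚ) + 1) ^ 2)) *
      Polynomial.C (1 / ((2 * (i : ℚ) + 2) * (2 * i + 3))))

lemma B_odd (i : ℕ) (x : ℚ) : (B i).eval (-x) = -(B i).eval x := by
  induction i with
  | zero => simp [B]
  | succ i ih =>
    simp only [B, Polynomial.eval_mul, Polynomial.eval_sub, Polynomial.eval_pow, Polynomial.eval_X,
      Polynomial.eval_C, ih]
    ring

lemma choose_rel (n i : ℕ) : ((n + i + 1).choose (2 * i + 3) : ℤ) * ((2 * i + 2) * (2 * i + 3)) =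
    (n + i).choose (2 * i + 1) * (n ^ 2 - (i + 1) ^ 2) := by
  rcases Nat.lt_or_ge i n with h | h
  · have h1 := Nat.add_one_mul_choose_eq (n + i) (2 * i + 2)
    have h2 := Nat.choose_succ_right_eq (n + i) (2 * i + 1)
    obtain ⟨r, rfl⟩ : ∃ r, n = i + 1 + r := ⟨n - (i + 1), by omega⟩
    rw [show i + 1 + r + i - (2 * i + 1) = r by omega] at h2
    have h1' : ((i + 1 + r + i + 1 : ℕ) : ℤ) * ((i + 1 + r + i).choose (2 * i + 2) : ℕ) =
      ((i + 1 + r + i + 1).choose (2 * i + 3) : ℕ) * ((2 * i + 2 + 1 : ℕ) : ℤ) := by exact_mod_cast h1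
    have h2' : ((i + 1 + r + i).choose (2 * i + 2) : ℤ) * ((2 * i + 1 + 1 : ℕ) : ℤ) =
      (i + 1 + r + i).choose (2 * i + 1) * (r : ℤ) := by exact_mod_cast h2
    push_cast at h1' h2' ⊢
    linear_combination (-(2 * (i : ℤ) + 2)) * h1' + ((i : ℤ) + 1 + r + i + 1) * h2'
  · rw [Nat.choose_eq_zero_of_lt (by omega), Nat.choose_eq_zero_of_lt (by omega)]
    simp

lemma B_nat (i n : ℕ) : (B i).eval (n : ℚ) = (((n + i).choose (2 * i + 1) : ℕ) : ℚ) := by
  induction i with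
  | zero => simp [B]
  | succ i ih =>
    simp only [B, Polynomial.eval_mul, Polynomial.eval_sub, Polynomial.eval_pow, Polynomial.eval_X,
      Polynomial.eval_C, ih]
    have h := choose_rel n i
    have h' : (((n + i + 1).choose (2 * i + 3) : ℕ) : ℚ) * ((2 * (i : ℚ) + 2) * (2 * i + 3)) =
      ((n + i).choose (2 * i + 1) : ℕ) * ((n : ℚ) ^ 2 - ((i : ℚ) + 1) ^ 2) := by exact_mod_cast h
    rw [show n + (i + 1) = n + i + 1 by ring, show 2 * (i + 1) + 1 = 2 * i + 3 by ring]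
    field_simp
    linear_combination -h'

/-! ## Newton's formula at `-1` -/

lemma newton (f : ℚ → ℚ) (x : ℚ) (N : ℕ) :
    ∑ j ∈ range N, (-1) ^ j * (fwdDiff 1)^[j] f (x + 1) = f x - (-1) ^ N * (fwdDiff 1)^[N] f x := by
  induction N with
  | zero => simp
  | succ N ih =>
    rw [Finset.sum_range_succ, ih, Function.iterate_succ_apply', fwdDiff, pow_succ]
    ring

lemma mu_cast {F : ℕ → ℤ} {f : ℚ → ℚ} (h : ∀ n : ℕ, f n = F n) (j : ℕ) :
    (fwdDiff 1)^[j] f 0 = (mu j F : ℚ) := by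
  rw [fwdDiff_iter_eq_sum_shift]
  unfold mu
  push_cast
  refine Finset.sum_congr rfl fun i _ => ?_
  have : (0 : ℚ) + i • (1 : ℚ) = (i : ℚ) := by simp
  rw [this, h]
  simp

lemma mu_two {F : ℕ → ℤ} {q : Polynomial ℚ} (hodd : ∀ x, q.eval (-x) = -q.eval x)
    (hq : ∀ n : ℕ, q.eval (n : ℚ) = F n) (h1 : F 1 = 0) {d : ℤ} (h : ∀ j, 3 ≤ j → d ∣ mu j F) :
    d ∣ mu 2 F := by
  have h0 : F 0 = 0 := by
    have h2 := hodd 0
    have h3 := hq 0
    rw [neg_zero] at h2
    have h4 : q.eval 0 = 0 := by linarith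
    rw [Nat.cast_zero, h4] at h3
    exact_mod_cast h3.symm
  set N := q.natDegree with hN
  have h2 := newton (fun x => q.eval x) (-1) (N + 3)
  have h3 : (fwdDiff (1 : ℚ))^[N + 3] (fun x => q.eval x) = 0 :=
    Polynomial.fwdDiff_iter_eq_zero_of_degree_lt (by omega)
  rw [h3] at h2
  simp only [neg_add_cancel, Pi.zero_apply, mul_zero, sub_zero] at h2
  rw [hodd 1] at h2
  have h4 := hq 1
  rw [h1] at h4
  simp only [Nat.cast_one, Int.cast_zero] at h4
  rw [h4, neg_zero] at h2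
  have h5 : ∑ j ∈ range (N + 3), (-1) ^ j * (mu j F : ℚ) = 0 := by
    rw [← h2]
    refine Finset.sum_congr rfl fun j _ => ?_
    rw [mu_cast (f := fun x => q.eval x) hq]
  have h6 : ∑ j ∈ range (N + 3), (-1) ^ j * mu j F = 0 := by exact_mod_cast h5
  rw [show N + 3 = 3 + N by ring, Finset.sum_range_add] at h6
  rw [Finset.sum_range_succ, Finset.sum_range_succ, Finset.sum_range_succ] at h6
  have m0 : mu 0 F = 0 := by simp [mu, h0]
  have m1 : mu 1 F = 0 := by simp [mu, h0, h1, Finset.sum_range_succ]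
  rw [m0, m1] at h6
  have h7 : mu 2 F = -∑ x ∈ range N, (-1) ^ (3 + x) * mu (3 + x) F := by
    simp at h6
    linarith
  rw [h7, dvd_neg]
  exact Finset.dvd_sum fun x _ => (h _ (by omega)).mul_left _

/-! ## `G ^ M` is a polynomial in `Z = x / (1 - x)^2` -/

lemma y_sub : (y : ℤ⟦X⟧) - X * y = 1 := by
  have := Ini1_.y_mul
  linear_combination this

lemma P1_eq' {p : ℕ} (hp : Odd p) : P1 p = y ^ p + (-(X * y)) ^ p := by
  rw [hp.neg_pow, mul_pow]
  unfold P1
  ring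

lemma lucas (n : ℕ) : (∃ R : Polynomial ℤ, Polynomial.aeval Ini1_.Z R = (y : ℤ⟦X⟧) ^ n + (-(X * y)) ^ n) ∧
    ∃ R : Polynomial ℤ, Polynomial.aeval Ini1_.Z R =
      (y : ℤ⟦X⟧) ^ (n + 1) + (-(X * y)) ^ (n + 1) := by
  induction n with
  | zero =>
    refine ⟨⟨2, ?_⟩, ⟨1, ?_⟩⟩
    · rw [map_ofNat]; ring
    · rw [map_one]
      linear_combination -y_sub
  | succ n ih =>
    obtain ⟨⟨R0, h0⟩, ⟨R1, h1⟩⟩ := ih
    refine ⟨⟨R1, h1⟩, ⟨R1 + Polynomial.X * R0, ?_⟩⟩
    rw [map_add, map_mul, Polynomial.aeval_X, h0, h1]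
    unfold Ini1_.Z
    have h := y_sub
    linear_combination (-(y ^ (n + 1) - X * y * (-(X * y)) ^ n)) * h

lemma exists_R {p : ℕ} (hp : Odd p) (M : ℕ) :
    ∃ R : Polynomial ℤ, Polynomial.aeval Ini1_.Z R = P1 p ^ M := by
  obtain ⟨R, hR⟩ := (lucas p).1
  exact ⟨R ^ M, by rw [map_pow, hR, P1_eq' hp]⟩

lemma coeff_R {R : Polynomial ℤ} {n : ℕ} (hn : 1 ≤ n) :
    coeff n (Polynomial.aeval Ini1_.Z R : ℤ⟦X⟧) =
      ∑ i ∈ range R.natDegree, R.coeff (i + 1) * (((n + i).choose (2 * i + 1) : ℕ) : ℤ) := by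
  rw [Polynomial.aeval_eq_sum_range, map_sum, Finset.sum_range_succ']
  rw [pow_zero, coeff_smul, coeff_one, if_neg (by omega), smul_zero, add_zero]
  refine Finset.sum_congr rfl fun i _ => ?_
  rw [coeff_smul, Ini1_.coeff_Z (i + 1) n (by omega), Ini1_.c, smul_eq_mul]
  congr 3

/-! ## The powers of `ζ = (G - 1) / p` -/

/-- `η` as a polynomial -/
noncomputable def E (p : ℕ) : Polynomial ℤ :=
  ∑ i ∈ Ico 1 p, Polynomial.C ((p.choose i / p : ℕ) : ℤ) * Polynomial.X ^ i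

lemma E_deg (p : ℕ) : (E p).natDegree ≤ p - 1 := by
  unfold E
  refine Polynomial.natDegree_sum_le_of_forall_le _ _ fun i hi => ?_
  have := mem_Ico.1 hi
  exact (Polynomial.natDegree_C_mul_X_pow_le _ _).trans (by omega)

lemma E_mul {p : ℕ} (hp : p.Prime) : Polynomial.C (p : ℤ) * E p =
    (Polynomial.X + 1) ^ p - Polynomial.X ^ p - 1 := by
  obtain ⟨q, hq⟩ : ∃ q, p = q + 1 := ⟨p - 1, by have := hp.pos; omega⟩
  have h1 : ((Polynomial.X + 1) ^ p : Polynomial ℤ) = 1 + (∑ i ∈ Ico 1 p,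
      Polynomial.C ((p.choose i : ℕ) : ℤ) * Polynomial.X ^ i) + Polynomial.X ^ p := by
    rw [add_pow, Finset.sum_range_succ, Finset.range_eq_Ico, Finset.sum_eq_sum_Ico_succ_bot hp.pos]
    simp only [one_pow, mul_one, pow_zero, Nat.choose_zero_right, Nat.choose_self, Nat.cast_one,
      zero_add]
    congr 2
    refine Finset.sum_congr rfl fun i _ => ?_
    rw [mul_comm]
    simp
  rw [h1]
  unfold E
  rw [Finset.mul_sum]
  have h2 : ∀ i ∈ Ico 1 p, Polynomial.C (p : ℤ) * (Polynomial.C ((p.choose i / p : ℕ) : ℤ) *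
      Polynomial.X ^ i) = Polynomial.C ((p.choose i : ℕ) : ℤ) * Polynomial.X ^ i := fun i hi => by
    have h3 := mem_Ico.1 hi
    have h4 : p ∣ p.choose i := hp.dvd_choose_self (by omega) h3.2
    rw [← mul_assoc, ← Polynomial.C_mul, ← Nat.cast_mul, Nat.mul_div_cancel' h4]
  rw [Finset.sum_congr rfl h2]
  ring

lemma E_zeta {p : ℕ} (hp : p.Prime) {ζ : ℤ⟦X⟧} (hζ : P1 p - 1 = C (p : ℤ) * ζ) :
    Polynomial.aeval (X * y : ℤ⟦X⟧) (E p) = ζ := by
  have h1 := congrArg (Polynomial.aeval (X * y : ℤ⟦X⟧)) (E_mul hp)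
  rw [map_mul, map_sub, map_sub, map_pow, map_pow, map_add, map_one, Polynomial.aeval_X,
    Polynomial.aeval_C] at h1
  have h2 : (X * y + 1 : ℤ⟦X⟧) = y := by linear_combination -y_sub
  have h3 : (y ^ p - (X * y) ^ p - 1 : ℤ⟦X⟧) = C (p : ℤ) * ζ := by
    rw [← hζ]; unfold P1; ring
  rw [h2, h3] at h1
  have h4 : (C (p : ℤ) : ℤ⟦X⟧) ≠ 0 := by
    rw [Ne, ← map_zero (PowerSeries.C (R := ℤ)), PowerSeries.C_injective.eq_iff]
    exact_mod_cast hp.ne_zero
  exact mul_left_cancel₀ h4 h1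

lemma E_root {p : ℕ} (hp : p.Prime) (ho : Odd p) : (E p).IsRoot (-1) := by
  have h1 := congrArg (Polynomial.eval (-1)) (E_mul hp)
  simp only [Polynomial.eval_mul, Polynomial.eval_C, Polynomial.eval_sub, Polynomial.eval_pow,
    Polynomial.eval_add, Polynomial.eval_X, Polynomial.eval_one, neg_add_cancel,
    zero_pow hp.ne_zero, ho.neg_one_pow] at h1
  have h2 : (p : ℤ) ≠ 0 := by exact_mod_cast hp.ne_zero
  have h3 : (p : ℤ) * Polynomial.eval (-1) (E p) = 0 := by linarith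
  exact (mul_eq_zero.1 h3).resolve_left h2

lemma E_fac {p : ℕ} (hp : p.Prime) (ho : Odd p) : ∃ E' : Polynomial ℤ, E'.natDegree ≤ p - 2 ∧
    E p = (Polynomial.X + 1) * E' := by
  obtain ⟨E', hE'⟩ := Polynomial.dvd_iff_isRoot.2 (E_root hp ho)
  have h1 : (Polynomial.X - Polynomial.C (-1) : Polynomial ℤ) = Polynomial.X + 1 := by simp
  refine ⟨E', ?_, by rw [hE', h1]⟩
  by_cases h : E' = 0
  · rw [h]; simp
  · have h2 := Polynomial.natDegree_mul (Polynomial.X_sub_C_ne_zero (-1 : ℤ)) h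
    rw [← hE', Polynomial.natDegree_X_sub_C] at h2
    have h3 := E_deg p
    omega

lemma exists_W {p : ℕ} (hp : p.Prime) (ho : Odd p) {ζ : ℤ⟦X⟧} (hζ : P1 p - 1 = C (p : ℤ) * ζ)
    {l : ℕ} (hl : 1 ≤ l) : ∃ W : Polynomial ℤ, W.natDegree ≤ l * (p - 1) - 1 ∧
      ζ ^ l = y * Polynomial.aeval (X * y : ℤ⟦X⟧) W := by
  obtain ⟨E', h1, h2⟩ := E_fac hp ho
  obtain ⟨k, rfl⟩ : ∃ k, l = k + 1 := ⟨l - 1, by omega⟩
  refine ⟨E' * E p ^ k, ?_, ?_⟩
  · refine Polynomial.natDegree_mul_le.trans ?_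
    have h3 : (E p ^ k).natDegree ≤ k * (p - 1) :=
      Polynomial.natDegree_pow_le.trans (Nat.mul_le_mul_left k (E_deg p))
    have h4 := hp.two_le
    rw [add_mul, one_mul]
    omega
  · rw [map_mul, map_pow, E_zeta hp hζ, ← mul_assoc]
    have h3 : y * Polynomial.aeval (X * y : ℤ⟦X⟧) E' = ζ := by
      rw [← E_zeta hp hζ, h2, map_mul, map_add, map_one, Polynomial.aeval_X]
      linear_combination (Polynomial.aeval (X * y : ℤ⟦X⟧) E') * y_sub
    rw [h3, pow_succ']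

lemma coeff_yz (n d : ℕ) : coeff n (y * (X * y) ^ d : ℤ⟦X⟧) = ((n.choose d : ℕ) : ℤ) := by
  have h : (y * (X * y) ^ d : ℤ⟦X⟧) = X ^ d * y ^ (d + 1) := by ring
  rw [h, coeff_X_pow_mul']
  split_ifs with h1
  · unfold y
    rw [mk_one_pow_eq_mk_choose_add, coeff_mk]
    congr 2
    omega
  · rw [Nat.choose_eq_zero_of_lt (by omega)]
    rfl

lemma coeff_W (W : Polynomial ℤ) (n : ℕ) : coeff n (y * Polynomial.aeval (X * y : ℤ⟦X⟧) W) =
    ∑ d ∈ range (W.natDegree + 1), W.coeff d * ((n.choose d : ℕ) : ℤ) := by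
  rw [Polynomial.aeval_eq_sum_range, Finset.mul_sum, map_sum]
  refine Finset.sum_congr rfl fun d _ => ?_
  rw [mul_smul_comm, coeff_smul, coeff_yz, smul_eq_mul]

lemma mu_sec (kap : S_KAP) {p : ℕ} (hp : p.Prime) (ho : Odd p) {ζ : ℤ⟦X⟧}
    (hζ : P1 p - 1 = C (p : ℤ) * ζ) {l : ℕ} (hl : 1 ≤ l) (j : ℕ) :
    (p : ℤ) ^ (j - (l * (p - 1) - 1 - j) / (p - 1)) ∣ mu j (fun t => coeff (p * t) (ζ ^ l)) := by
  obtain ⟨W, hW, h⟩ := exists_W hp ho hζ hl
  have h1 : (fun t => coeff (p * t) (ζ ^ l)) = fun t => ∑ d ∈ range (W.natDegree + 1), W.coeff d *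
      (fun t => ((((p * t + 0).choose d : ℕ) : ℤ))) t := by
    funext t
    rw [h, coeff_W]
    rfl
  rw [h1, Ini1_.mu_sum j (range (W.natDegree + 1)) (fun d => W.coeff d)
    (fun d t => ((((p * t + 0).choose d : ℕ) : ℤ)))]
  refine Finset.dvd_sum fun d hd => Dvd.dvd.mul_left ?_ _
  refine (pow_dvd_pow _ ?_).trans (kap p 0 d j hp)
  have h2 := mem_range.1 hd
  have h3 : (d - j) / (p - 1) ≤ (l * (p - 1) - 1 - j) / (p - 1) :=
    Nat.div_le_div_right (by omega)
  omega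

/-! ## The terms -/

lemma gam_term {p v μ l K e : ℕ} (hp : p.Prime) (hμ : 1 ≤ μ) (hl : 2 ≤ l)
    (h : e + padicValNat p l + Nat.log p (l - 1) ≤ K) (w : ℤ) :
    U0.D p (2 * v + e) ((((p ^ v * μ).choose l : ℚ) - (p ^ v * μ : ℕ) * ((-1) ^ (l + 1) / l)) *
      ((p : ℚ) ^ K * w)) := by
  set M := p ^ v * μ with hM
  have hM1 : 1 ≤ M := Nat.one_le_iff_ne_zero.2 (mul_ne_zero (pow_ne_zero _ hp.ne_zero) (by omega))
  obtain ⟨c, hc⟩ := U0.A_dvd (J := l - 1) hp (Dvd.intro _ rfl : p ^ v ∣ M) hM1 (l - 1) le_rfl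
  have h1 : ((M.choose l : ℚ) - M * ((-1) ^ (l + 1) / l)) =
      M * (((M - 1).choose (l - 1) : ℚ) - (-1) ^ (l - 1)) / l := by
    have h2 : (M : ℚ) * (M - 1).choose (l - 1) = M.choose l * l := by
      obtain ⟨m, hm⟩ := Nat.exists_eq_add_of_le' hM1
      obtain ⟨k, rfl⟩ := Nat.exists_eq_add_of_le' (show 1 ≤ l by omega)
      rw [hm]
      exact_mod_cast Nat.add_one_mul_choose_eq m k
    have hl0 : (l : ℚ) ≠ 0 := by
      have : l ≠ 0 := by omega
      exact_mod_cast this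
    have h3 : (-1 : ℚ) ^ (l + 1) = (-1) ^ (l - 1) := by
      rw [show l + 1 = l - 1 + 2 by omega, pow_add]; norm_num
    rw [mul_sub, h2, h3]
    field_simp
  have h4 : ((M.choose l : ℚ) - M * ((-1) ^ (l + 1) / l)) * ((p : ℚ) ^ K * w) =
      ((μ * c * w : ℤ) : ℚ) * ((p : ℚ) ^ (2 * v + (K - Nat.log p (l - 1))) / l) := by
    rw [h1, hM]
    have h5 : (p : ℚ) ^ K = (p : ℚ) ^ Nat.log p (l - 1) * (p : ℚ) ^ (K - Nat.log p (l - 1)) := by
      rw [← pow_add]; congr 1; omega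
    have h6 : (p : ℚ) ^ Nat.log p (l - 1) * (((M - 1).choose (l - 1) : ℚ) - (-1) ^ (l - 1)) =
        (p : ℚ) ^ v * c := by exact_mod_cast hc
    push_cast
    rw [h5, pow_add, show 2 * v = v + v by ring, pow_add]
    calc (p : ℚ) ^ v * μ * (((M - 1).choose (l - 1) : ℚ) - (-1) ^ (l - 1)) / l *
          ((p : ℚ) ^ Nat.log p (l - 1) * (p : ℚ) ^ (K - Nat.log p (l - 1)) * w) =
        (p : ℚ) ^ v * μ * ((p : ℚ) ^ Nat.log p (l - 1) *
          (((M - 1).choose (l - 1) : ℚ) - (-1) ^ (l - 1))) / l *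
            ((p : ℚ) ^ (K - Nat.log p (l - 1)) * w) := by ring
      _ = _ := by rw [h6]; ring
  rw [h4]
  refine U0.D_mul (U0.D_div hp (by omega) ?_) _
  omega

/-- the expansion at all the points `p i`, `i ≤ j` -/
lemma exp_all {p M j i : ℕ} (hp : p.Prime) (hi : i ≤ j) :
    ((coeff i (U p 0 (P1 p ^ M) - 1) : ℤ) : ℚ) = ∑ l ∈ Icc 1 (p * j),
      ((M.choose l : ℚ) - M * ((-1) ^ (l + 1) / l)) * ((coeff (p * i) ((P1 p - 1) ^ l) : ℤ) : ℚ) := by
  have hU : coeff i (U p 0 (P1 p ^ M)) = coeff (p * i) (P1 p ^ M) := by simp [U]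
  rw [map_sub, hU, coeff_one]
  rcases Nat.eq_zero_or_pos i with rfl | h
  · rw [Finset.sum_eq_zero]
    · have : coeff 0 (P1 p ^ M) = 1 := by
        rw [coeff_zero_eq_constantCoeff_apply, map_pow, ← U0.GG_int, U0.GG_zero ℤ p hp.pos, one_pow]
      simp [this]
    · intro l hl
      rw [U0.coeff_low hp.pos (by have := mem_Icc.1 hl; simp; omega)]
      simp
  · rw [if_neg (by omega), sub_zero, U0.main_id hp (Nat.mul_pos hp.pos h) (Dvd.intro i rfl)]
    refine Finset.sum_subset (fun x hx => ?_) fun l hl hl' => ?_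
    · rw [mem_Icc] at hx ⊢
      exact ⟨hx.1, hx.2.trans (Nat.mul_le_mul_left p hi)⟩
    · rw [U0.coeff_low hp.pos, Int.cast_zero, mul_zero]
      rw [mem_Icc] at hl hl'
      omega

lemma mu_all {p M j : ℕ} (hp : p.Prime) :
    ((mu j (fun t => coeff t (U p 0 (P1 p ^ M) - 1)) : ℤ) : ℚ) = ∑ l ∈ Icc 1 (p * j),
      ((M.choose l : ℚ) - M * ((-1) ^ (l + 1) / l)) *
        ((mu j (fun t => coeff (p * t) ((P1 p - 1) ^ l)) : ℤ) : ℚ) := by
  unfold mu
  push_cast
  have h1 : ∀ i ∈ range (j + 1), (-1 : ℚ) ^ (j - i) * (j.choose i : ℚ) *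
      ((coeff i (U p 0 (P1 p ^ M) - 1) : ℤ) : ℚ) = ∑ l ∈ Icc 1 (p * j),
        (-1 : ℚ) ^ (j - i) * (j.choose i : ℚ) * (((M.choose l : ℚ) - M * ((-1) ^ (l + 1) / l)) *
          ((coeff (p * i) ((P1 p - 1) ^ l) : ℤ) : ℚ)) := fun i hi => by
    rw [exp_all hp (by have := mem_range.1 hi; omega : i ≤ j), Finset.mul_sum]
  rw [Finset.sum_congr rfl h1, Finset.sum_comm]
  refine Finset.sum_congr rfl fun l _ => ?_
  rw [Finset.mul_sum]
  exact Finset.sum_congr rfl fun i _ => by ring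

/-! ## The divisibility for `j ≥ 3` -/

lemma mu_lin {j : ℕ} (hj : 2 ≤ j) (c : ℤ) (f : ℕ → ℤ) :
    mu j (fun t => f t - c * t) = mu j f := by
  have h1 : (fun t : ℕ => f t - c * (t : ℤ)) =
      fun t => f t + (fun t : ℕ => (-c) * (fun n : ℕ => ((n.choose 1 : ℕ) : ℤ)) t) t := by
    funext t
    simp only [Nat.choose_one_right]
    ring
  rw [h1, Ini1_.mu_add, Ini1_.mu_mul, Ini1_.mu_choose, if_neg (by omega), mul_zero, add_zero]

lemma mu_big (kap : S_KAP) {p v μ : ℕ} (hp : p.Prime) (hp5 : 5 ≤ p) (hμ : 1 ≤ μ) {j : ℕ}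
    (hj : 3 ≤ j) : (p : ℤ) ^ (2 * v + 4 + Nat.log p j) ∣
      mu j (fun t => coeff t (U p 0 (P1 p ^ (p ^ v * μ)) - 1)) := by
  have ho : Odd p := hp.odd_of_ne_two (by omega)
  obtain ⟨ζ, hζ⟩ := U0.exists_zeta hp
  refine U0.dvd_of_D hp ?_
  rw [mu_all hp]
  refine U0.D_sum hp _ _ fun l hl => ?_
  have hl1 := (mem_Icc.1 hl).1
  rcases Nat.lt_or_ge l 2 with h | h
  · have h1 : l = 1 := by omega
    subst h1
    have h2 : (((p ^ v * μ).choose 1 : ℚ) - (p ^ v * μ : ℕ) * ((-1) ^ (1 + 1) / (1 : ℕ))) = 0 := by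
      rw [Nat.choose_one_right]; push_cast; ring
    rw [h2, zero_mul]
    exact U0.D_zero hp
  · obtain ⟨w, hw⟩ := mu_sec kap hp ho hζ hl1 j
    have h1 : mu j (fun t => coeff (p * t) ((P1 p - 1) ^ l)) =
        (p : ℤ) ^ (l + (j - (l * (p - 1) - 1 - j) / (p - 1))) * w := by
      simp only [U0.pow_zeta hζ]
      rw [Ini1_.mu_mul, hw, pow_add]
      ring
    rw [h1]
    have h2 := ineq hp hp5 hj h
    have h3 := gam_term (v := v) (e := 4 + Nat.log p j) hp hμ h h2 w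
    rw [show 2 * v + 4 + Nat.log p j = 2 * v + (4 + Nat.log p j) by ring]
    push_cast at h3 ⊢
    exact h3

/-- the odd polynomial -/
lemma exists_q {p : ℕ} (hp : p.Prime) (ho : Odd p) (M : ℕ) (c : ℤ) : ∃ q : Polynomial ℚ,
    (∀ x, q.eval (-x) = -q.eval x) ∧
    ∀ n : ℕ, q.eval (n : ℚ) = ((coeff n (U p 0 (P1 p ^ M) - 1) - c * n : ℤ) : ℚ) := by
  obtain ⟨R, hR⟩ := exists_R ho M
  refine ⟨∑ i ∈ range R.natDegree, Polynomial.C ((R.coeff (i + 1) : ℤ) : ℚ) *
    (B i).comp (Polynomial.C (p : ℚ) * Polynomial.X) - Polynomial.C (c : ℚ) * Polynomial.X,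
    fun x => ?_, fun n => ?_⟩
  · simp only [Polynomial.eval_sub, Polynomial.eval_finsetSum, Polynomial.eval_mul,
      Polynomial.eval_C, Polynomial.eval_comp, Polynomial.eval_X, mul_neg, B_odd,
      Finset.sum_neg_distrib]
    ring
  · simp only [Polynomial.eval_sub, Polynomial.eval_finsetSum, Polynomial.eval_mul,
      Polynomial.eval_C, Polynomial.eval_comp, Polynomial.eval_X]
    have h1 : ∀ i, (B i).eval ((p : ℚ) * n) = (((p * n + i).choose (2 * i + 1) : ℕ) : ℚ) :=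
      fun i => by rw [← B_nat, Nat.cast_mul]
    simp only [h1]
    have hU : coeff n (U p 0 (P1 p ^ M)) = coeff (p * n) (P1 p ^ M) := by simp [U]
    rw [map_sub, hU, coeff_one]
    rcases Nat.eq_zero_or_pos n with rfl | h
    · have h2 : coeff 0 (P1 p ^ M) = 1 := by
        rw [coeff_zero_eq_constantCoeff_apply, map_pow, ← U0.GG_int, U0.GG_zero ℤ p hp.pos, one_pow]
      rw [Finset.sum_eq_zero]
      · simp [h2]
      · intro i _
        rw [Nat.choose_eq_zero_of_lt (by simp; omega)]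
        simp
    · rw [if_neg (by omega), ← hR, coeff_R (Nat.mul_pos hp.pos h)]
      push_cast
      ring

end IniP_

open IniP_ in
/-- **INIp** -/
theorem inip (kap : S_KAP) : S_INIp := by
  intro p v M hp hp5 hM hv
  obtain ⟨μ, rfl⟩ := hv
  have hμ : 1 ≤ μ := by
    rcases Nat.eq_zero_or_pos μ with h | h
    · rw [h, mul_zero] at hM; omega
    · exact h
  have ho : Odd p := hp.odd_of_ne_two (by omega)
  set c := coeff 1 (U p 0 (P1 p ^ (p ^ v * μ))) with hc
  have h3 : ∀ j, 3 ≤ j → (p : ℤ) ^ (2 * v + 4 + Nat.log p j) ∣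
      mu j (fun t => coeff t (U p 0 (P1 p ^ (p ^ v * μ)) - 1) - c * t) := fun j hj => by
    rw [mu_lin (by omega)]
    exact mu_big kap hp hp5 hμ hj
  have h1 : (fun t : ℕ => coeff t (U p 0 (P1 p ^ (p ^ v * μ)) - 1) - c * t) 1 = 0 := by
    simp [hc, coeff_one]
  have h0 : (fun t : ℕ => coeff t (U p 0 (P1 p ^ (p ^ v * μ)) - 1) - c * t) 0 = 0 := by
    have hU : coeff 0 (U p 0 (P1 p ^ (p ^ v * μ))) = 1 := by
      have h2 : coeff 0 (P1 p ^ (p ^ v * μ)) = 1 := by
        rw [coeff_zero_eq_constantCoeff_apply, map_pow, ← U0.GG_int, U0.GG_zero ℤ p hp.pos, one_pow]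
      simp only [U, coeff_mk, mul_zero, add_zero]
      exact h2
    show coeff 0 (U p 0 (P1 p ^ (p ^ v * μ)) - 1) - c * ((0 : ℕ) : ℤ) = 0
    rw [map_sub, hU, coeff_one, if_pos rfl]
    simp
  intro j hj
  rcases Nat.lt_or_ge j 3 with h | h
  · have h4 : j = 1 ∨ j = 2 := by omega
    rcases h4 with rfl | rfl
    · have h5 : mu 1 (fun t : ℕ => coeff t (U p 0 (P1 p ^ (p ^ v * μ)) - 1) - c * t) = 0 := by
        generalize (fun t : ℕ => coeff t (U p 0 (P1 p ^ (p ^ v * μ)) - 1) - c * t) = F at *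
        simp [mu, Finset.sum_range_succ, h0, h1]
      rw [h5]
      exact dvd_zero _
    · obtain ⟨q, hq1, hq2⟩ := exists_q hp ho (p ^ v * μ) c
      have h5 : Nat.log p 2 = 0 := Nat.log_of_lt (by omega)
      rw [h5, add_zero]
      refine mu_two hq1 hq2 h1 fun j hj => ?_
      exact (pow_dvd_pow _ (by omega)).trans (h3 j hj)
  · exact h3 j h

end Pool.Agent.K9h30.CP
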