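import Pool.Agent.K9h30.CP.UnbP
import Pool.Agent.K9h30.CP.GB2
import Pool.Agent.K9h30.CP.U0

/-!
# MP_9acee6_nt, leaf INIp2 (helper14)
-/

set_option autoImplicit false

open PowerSeries Finset

namespace Pool.Agent.K9h30.CP

namespace IniP2_

theorem sum_cube (p : ℕ) [Fact p.Prime] (hp5 : 5 ≤ p) :
    ∑ i ∈ Ico 1 p, ((i : ZMod p)⁻¹) ^ 3 = 0 := by
  have h1 := U0.sum_mod (fun a : ZMod p => a⁻¹ ^ 3) 1
  have h3 : ∑ a : ZMod p, (a⁻¹) ^ 3 = ∑ a : ZMod p, a ^ 3 :=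
    Equiv.sum_comp (Equiv.inv (ZMod p)) fun a => a ^ 3
  have h4 : ∑ a : ZMod p, a ^ 3 = 0 := by
    apply FiniteField.sum_pow_lt_card_sub_one
    rw [ZMod.card]
    omega
  rw [h3, h4, mul_zero, mul_one, range_eq_Ico,
    sum_eq_sum_Ico_succ_bot (Fact.out : p.Prime).pos] at h1
  simpa using h1

theorem choose_mod (p : ℕ) (hp : p.Prime) (k : ℕ) (hk : k < p) :
    (((p - 1).choose k : ℕ) : ZMod p) = (-1) ^ k := by
  induction k with
  | zero => simp
  | succ k ih =>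
    have h1 := ih (by omega)
    have h2 : p.choose (k + 1) = (p - 1).choose k + (p - 1).choose (k + 1) := by
      obtain ⟨q, rfl⟩ : ∃ q, p = q + 1 := ⟨p - 1, by have := hp.pos; omega⟩
      rw [Nat.choose_succ_succ, Nat.add_sub_cancel]
    have h3 : ((p.choose (k + 1) : ℕ) : ZMod p) = 0 := by
      rw [ZMod.natCast_eq_zero_iff]
      exact hp.dvd_choose_self (by omega) hk
    rw [h2, Nat.cast_add, h1] at h3
    rw [pow_succ]
    linear_combination h3

/-- the case `j = 2` -/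
theorem core (rr2 : S_RR2) (p l N : ℕ) (hp : p.Prime) (hp5 : 5 ≤ p) (hl : 1 ≤ l)
    (hN : p ^ l ∣ N) : (p : ℤ) ^ (l + 4) ∣ ∑ i ∈ Ico 1 p, (-1) ^ i * (p.choose i : ℤ) *
      (coeff (p * 1 + (p - i)) (P1 p ^ N) - coeff (p * 0 + (p - i)) (P1 p ^ N)) := by
  haveI : Fact p.Prime := ⟨hp⟩
  obtain ⟨n, hn⟩ := hN
  have key : ∀ i ∈ Ico 1 p, ∃ d : ℤ,
      coeff (p * 1 + (p - i)) (P1 p ^ N) - coeff (p * 0 + (p - i)) (P1 p ^ N) =
        (p : ℤ) ^ (l + 2) * d ∧ (d : ZMod p) = - n * ((i : ZMod p)⁻¹) ^ 2 := by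
    intro i hi
    rw [mem_Ico] at hi
    have hi0 : (i : ZMod p) ≠ 0 := by
      intro h
      rw [ZMod.natCast_eq_zero_iff] at h
      have := Nat.le_of_dvd (by omega) h
      omega
    have hd1 : ¬ p ∣ p * 1 + (p - i) := by
      intro h
      have h1 := (Nat.dvd_add_right (Dvd.intro 1 rfl)).1 h
      have := Nat.le_of_dvd (by omega) h1
      omega
    have hd0 : ¬ p ∣ p * 0 + (p - i) := by
      intro h
      rw [mul_zero, zero_add] at h
      have := Nat.le_of_dvd (by omega) h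
      omega
    have r1 := rr2 p l N (p * 1 + (p - i)) hp (by omega) ⟨n, hn⟩ hd1
    have r0 := rr2 p l N (p * 0 + (p - i)) hp (by omega) ⟨n, hn⟩ hd0
    set x := coeff (p * 1 + (p - i)) (P1 p ^ N) with hx
    set y' := coeff (p * 0 + (p - i)) (P1 p ^ N) with hy
    set n1 : ℤ := ((p * 1 + (p - i) : ℕ) : ℤ) with hn1
    set n0 : ℤ := ((p * 0 + (p - i) : ℕ) : ℤ) with hn0
    have e01 : n1 = n0 + p := by
      rw [hn1, hn0]
      push_cast
      ring
    have hNz : (N : ℤ) = (p : ℤ) ^ l * n := by rw [hn]; push_cast; ring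
    have h1 : (p : ℤ) ^ (2 * l + 2) ∣ n0 * n1 * (x - y') + (p : ℤ) ^ 2 * N := by
      have e : n0 * n1 * (x - y') + (p : ℤ) ^ 2 * N =
          n0 * (n1 * x - p * N) - n1 * (n0 * y' - p * N) := by
        rw [e01]
        ring
      rw [e]
      exact dvd_sub (r1.mul_left _) (r0.mul_left _)
    have hcop : ∀ m : ℕ, ¬ p ∣ m → IsCoprime ((p : ℤ) ^ (l + 2)) (m : ℤ) := by
      intro m hm
      apply IsCoprime.pow_left
      rw [Nat.isCoprime_iff_coprime]
      exact (Nat.Prime.coprime_iff_not_dvd hp).2 hm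
    have h2 : (p : ℤ) ^ (l + 2) ∣ n0 * n1 * (x - y') := by
      have h3 : (p : ℤ) ^ (l + 2) ∣ n0 * n1 * (x - y') + (p : ℤ) ^ 2 * N :=
        (pow_dvd_pow _ (by omega)).trans h1
      have h4 : (p : ℤ) ^ (l + 2) ∣ (p : ℤ) ^ 2 * N := ⟨n, by rw [hNz]; ring⟩
      exact (Int.dvd_add_left h4).1 h3
    have h3 : (p : ℤ) ^ (l + 2) ∣ x - y' := by
      rw [mul_assoc] at h2
      exact (hcop _ hd1).dvd_of_dvd_mul_left ((hcop _ hd0).dvd_of_dvd_mul_left h2)
    obtain ⟨d, hd⟩ := h3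
    refine ⟨d, hd, ?_⟩
    have h4 : (p : ℤ) ∣ n0 * n1 * d + n := by
      have h5 : (p : ℤ) ^ (l + 2) * (p : ℤ) ^ l ∣ (p : ℤ) ^ (l + 2) * (n0 * n1 * d + n) := by
        have e1 : (p : ℤ) ^ (l + 2) * (p : ℤ) ^ l = (p : ℤ) ^ (2 * l + 2) := by ring
        have e2 : (p : ℤ) ^ (l + 2) * (n0 * n1 * d + n) =
            n0 * n1 * (x - y') + (p : ℤ) ^ 2 * N := by
          rw [hd, hNz]
          ring
        rw [e1, e2]
        exact h1
      have h6 := (mul_dvd_mul_iff_left (pow_ne_zero _ (by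
        exact_mod_cast hp.ne_zero) : (p : ℤ) ^ (l + 2) ≠ 0)).1 h5
      exact (dvd_pow_self _ (by omega)).trans h6
    have h5 : ((n0 * n1 * d + n : ℤ) : ZMod p) = 0 := (ZMod.intCast_zmod_eq_zero_iff_dvd _ _).2 h4
    have e0 : ((n0 : ℤ) : ZMod p) = - i := by
      rw [hn0]
      push_cast [Nat.cast_sub hi.2.le]
      simp
    have e1 : ((n1 : ℤ) : ZMod p) = - i := by
      rw [e01]
      push_cast
      rw [e0]
      simp
    push_cast at h5
    rw [e0, e1] at h5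
    have h6 : (d : ZMod p) * (i : ZMod p) ^ 2 = - n := by linear_combination h5
    rw [← h6, mul_assoc, ← mul_pow, mul_inv_cancel₀ hi0]
    ring
  have hb : ∀ i ∈ Ico 1 p, ∃ b : ℤ, (p.choose i : ℤ) = p * b ∧
      (b : ZMod p) = (-1) ^ (i - 1) * (i : ZMod p)⁻¹ := by
    intro i hi
    rw [mem_Ico] at hi
    obtain ⟨c, hc⟩ := hp.dvd_choose_self (k := i) (by omega) hi.2
    refine ⟨c, by rw [hc]; push_cast; ring, ?_⟩
    have hi0 : (i : ZMod p) ≠ 0 := by
      intro h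
      rw [ZMod.natCast_eq_zero_iff] at h
      have := Nat.le_of_dvd (by omega) h
      omega
    obtain ⟨q, hq⟩ : ∃ q, p = q + 1 := ⟨p - 1, by omega⟩
    obtain ⟨s, hs⟩ : ∃ s, i = s + 1 := ⟨i - 1, by omega⟩
    have h1 := Nat.add_one_mul_choose_eq q s
    rw [← hq, ← hs, hc] at h1
    have h2 : q.choose s = c * i := by
      apply Nat.eq_of_mul_eq_mul_left hp.pos
      rw [h1]
      ring
    have h3 := choose_mod p hp s (by omega)
    have e : p - 1 = q := by omega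
    rw [e, h2] at h3
    push_cast at h3
    have e2 : i - 1 = s := by omega
    rw [e2, ← h3, mul_assoc, mul_inv_cancel₀ hi0, mul_one]
    simp
  choose! d hd1 hd2 using key
  choose! b hb1 hb2 using hb
  have e : ∑ i ∈ Ico 1 p, (-1) ^ i * (p.choose i : ℤ) *
      (coeff (p * 1 + (p - i)) (P1 p ^ N) - coeff (p * 0 + (p - i)) (P1 p ^ N)) =
      (p : ℤ) ^ (l + 3) * ∑ i ∈ Ico 1 p, (-1) ^ i * b i * d i := by
    rw [mul_sum]
    apply sum_congr rfl
    intro i hi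
    rw [hd1 i hi, hb1 i hi]
    ring
  rw [e]
  have h7 : (p : ℤ) ∣ ∑ i ∈ Ico 1 p, (-1) ^ i * b i * d i := by
    rw [← ZMod.intCast_zmod_eq_zero_iff_dvd]
    push_cast
    have : ∑ i ∈ Ico 1 p, (-1 : ZMod p) ^ i * (b i : ZMod p) * (d i : ZMod p) =
        ∑ i ∈ Ico 1 p, (n : ZMod p) * ((i : ZMod p)⁻¹) ^ 3 := by
      apply sum_congr rfl
      intro i hi
      rw [hb2 i hi, hd2 i hi]
      rw [mem_Ico] at hi
      obtain ⟨s, hs⟩ : ∃ s, i = s + 1 := ⟨i - 1, by omega⟩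
      have e1 : (-1 : ZMod p) ^ i * (-1) ^ (i - 1) = -1 := by
        have e2 : i - 1 = s := by omega
        rw [e2]
        conv_lhs => rw [hs]
        rw [pow_succ, mul_comm ((-1 : ZMod p) ^ s) (-1), mul_assoc, ← mul_pow]
        simp
      linear_combination (-(n : ZMod p) * ((i : ZMod p)⁻¹) ^ 3) * e1
    rw [this, ← mul_sum, sum_cube p hp5, mul_zero]
  obtain ⟨c, hc⟩ := h7
  rw [hc]
  exact ⟨c, by ring⟩

theorem Rkp_one (p N : ℕ) : Rkp p 1 N = P1 p ^ N := by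
  simp [Rkp, P1]

theorem fin_zero (p M : ℕ) (hp : 0 < p) :
    coeff 0 (U p 0 (P1 p ^ M) - 1) = 0 := by
  rw [map_sub, U_coeff_zero, P1_pow_zero p M (by omega)]
  simp

end IniP2_

open IniP2_ in
theorem inip2 (inip : S_INIp) (twp : S_TWp) (gb2 : S_GB2) (rr2 : S_RR2) (u0 : S_U0) :
    S_INIp2 := by
  intro p e M hp hp5 hM he
  by_cases hA : p ∣ M + 1
  swap
  · -- `p^e ∣ M^2`
    have h1 : p ^ e ∣ M ^ 2 := (Nat.Coprime.pow_left e
      ((Nat.Prime.coprime_iff_not_dvd hp).2 hA)).dvd_of_dvd_mul_right he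
    obtain ⟨v, μ, hμ, hM'⟩ := Nat.exists_eq_pow_mul_and_not_dvd (by omega : M ≠ 0) p hp.ne_one
    have h2 : e ≤ 2 * v := by
      rw [hM', mul_pow, ← pow_mul, mul_comm v 2] at h1
      have hc : Nat.Coprime (p ^ e) (μ ^ 2) := Nat.Coprime.pow_left _
        (Nat.Coprime.pow_right _ ((Nat.Prime.coprime_iff_not_dvd hp).2 hμ))
      exact (Nat.pow_dvd_pow_iff_le_right hp.one_lt).1 (hc.dvd_of_dvd_mul_right h1)
    exact CLp_mono (by omega) (inip p v M hp hp5 hM ⟨μ, hM'⟩)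
  -- `N = M + 1`
  have hpM : ¬ p ∣ M := by
    intro h
    have := (Nat.dvd_add_right h).1 hA
    have := Nat.le_of_dvd one_pos this
    omega
  have h1 : p ^ e ∣ M + 1 := (Nat.Coprime.pow_left e
    (Nat.Coprime.pow_right 2 ((Nat.Prime.coprime_iff_not_dvd hp).2 hpM))).dvd_of_dvd_mul_left he
  obtain ⟨l, μ, hμ, hN⟩ := Nat.exists_eq_pow_mul_and_not_dvd (by omega : M + 1 ≠ 0) p hp.ne_one
  have hel : e ≤ l := by
    rw [hN] at h1
    have hc : Nat.Coprime (p ^ e) μ := Nat.Coprime.pow_left _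
      ((Nat.Prime.coprime_iff_not_dvd hp).2 hμ)
    exact (Nat.pow_dvd_pow_iff_le_right hp.one_lt).1 (hc.dvd_of_dvd_mul_right h1)
  have hl : 1 ≤ l := by
    rcases Nat.eq_zero_or_pos l with rfl | h
    · rw [pow_zero, one_mul] at hN
      rw [hN] at hA
      exact absurd hA hμ
    · exact h
  have hNl : p ^ l ∣ M + 1 := ⟨μ, hN⟩
  intro j hj
  have hf0 := fin_zero p M hp.pos
  rcases Nat.lt_or_ge j 2 with hj2 | hj2
  · have : j = 1 := by omega
    subst this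
    rw [mu_one]
    have e1 : coeff 1 (U p 0 (P1 p ^ M) - 1) = coeff 1 (U p 0 (P1 p ^ M)) := by
      rw [map_sub, coeff_one]
      simp
    rw [hf0, e1]
    simp
  rw [mu_sub, show (fun t : ℕ => coeff 1 (U p 0 (P1 p ^ M)) * (t : ℤ)) =
    fun t : ℕ => 0 + coeff 1 (U p 0 (P1 p ^ M)) * (t : ℤ) by funext t; ring,
    mu_linear j hj2, sub_zero]
  have e1 : (fun t => coeff t (U p 0 (P1 p ^ M) - 1)) = fun t =>
      cf (U p 0 (P1 p ^ (M + 1)) - 1) t + ∑ i ∈ Ico 1 p, (-1) ^ i * (p.choose i : ℤ) *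
        ∑ s ∈ range t, coeff (p * s + (p - i)) (P1 p ^ (M + 1)) := by
    funext t
    have h2 := twp p 1 (M + 1) t hp (by omega) le_rfl (by omega)
    rw [Nat.add_sub_cancel, Rkp_one, Rkp_one, pow_one] at h2
    simp only [cf, map_sub, U, coeff_mk, add_zero]
    rw [h2]
    ring
  rw [e1, mu_add]
  apply dvd_add
  · exact CLp_mono (by omega) (UG u0 inip p l (M + 1) hp hp5 (by omega) hNl) j hj
  · obtain ⟨i, rfl⟩ : ∃ i, j = i + 1 := ⟨j - 1, by omega⟩
    rw [mu_succ]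
    have e2 : (fun n => ∑ i ∈ Ico 1 p, (-1) ^ i * (p.choose i : ℤ) *
        ∑ s ∈ range (n + 1), coeff (p * s + (p - i)) (P1 p ^ (M + 1)) -
        ∑ i ∈ Ico 1 p, (-1) ^ i * (p.choose i : ℤ) *
        ∑ s ∈ range n, coeff (p * s + (p - i)) (P1 p ^ (M + 1))) =
        fun n => ∑ i ∈ Ico 1 p, (-1) ^ i * (p.choose i : ℤ) *
          coeff (p * n + (p - i)) (P1 p ^ (M + 1)) := by
      funext n
      rw [← sum_sub_distrib]
      apply sum_congr rfl
      intro i _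
      rw [sum_range_succ]
      ring
    rw [e2]
    rcases Nat.lt_or_ge i 2 with hi | hi
    · have : i = 1 := by omega
      subst this
      have h3 := core rr2 p l (M + 1) hp hp5 hl hNl
      rw [mu_one, ← sum_sub_distrib]
      have hlog : Nat.log p (1 + 1) = 0 := Nat.log_of_lt (by omega)
      rw [hlog]
      have e3 : ∑ x ∈ Ico 1 p, ((-1) ^ x * (p.choose x : ℤ) *
          coeff (p * 1 + (p - x)) (P1 p ^ (M + 1)) - (-1) ^ x * (p.choose x : ℤ) *
          coeff (p * 0 + (p - x)) (P1 p ^ (M + 1))) =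
          ∑ i ∈ Ico 1 p, (-1) ^ i * (p.choose i : ℤ) *
          (coeff (p * 1 + (p - i)) (P1 p ^ (M + 1)) -
            coeff (p * 0 + (p - i)) (P1 p ^ (M + 1))) := by
        apply sum_congr rfl
        intro x _
        ring
      rw [e3]
      exact (pow_dvd_pow _ (by omega)).trans h3
    · rw [GB_.mu_sum]
      apply dvd_sum
      intro x hx
      rw [mem_Ico] at hx
      rw [mu_smul]
      have h3 := gb2 p l (M + 1) (p - x) hp hp5 hl hNl (by omega) (by omega) i hi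
      have h4 : (p : ℤ) ∣ (p.choose x : ℤ) :=
        Int.natCast_dvd_natCast.2 (hp.dvd_choose_self (by omega) hx.2)
      have h5 := mul_dvd_mul (h4.mul_left ((-1) ^ x)) h3
      rw [← pow_succ'] at h5
      exact (pow_dvd_pow _ (by omega)).trans h5

end Pool.Agent.K9h30.CP
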