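import Pool.Agent.K9h30.CP.Stm4
import Pool.Agent.K9h30.CP.Mu

/-!
# MP_9acee6_nt: LIN (written by helper84 for helper30)
-/

set_option autoImplicit false

open PowerSeries Finset

namespace Pool.Agent.K9h30.CP.LinP

/-- `z = x / (1 - x)` -/
noncomputable def z : ℤ⟦X⟧ := X * y

theorem y_mul : y * (1 - X) = 1 := PowerSeries.mk_one_mul_one_sub_eq_one ℤ

theorem y_eq : y = 1 + z := by
  unfold z
  linear_combination y_mul

theorem coeff_yz (n d : ℕ) : coeff n (y * z ^ d) = ((n.choose d : ℕ) : ℤ) := by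
  have h1 : y * z ^ d = X ^ d * y ^ (d + 1) := by
    unfold z
    rw [mul_pow]
    ring
  have h2 : y ^ (d + 1) = PowerSeries.mk fun n => (((d + n).choose d : ℕ) : ℤ) :=
    PowerSeries.mk_one_pow_eq_mk_choose_add ℤ d
  rw [h1, coeff_X_pow_mul', h2]
  split_ifs with h
  · rw [coeff_mk, Nat.add_sub_cancel' h]
  · rw [Nat.choose_eq_zero_of_lt (by omega), Nat.cast_zero]

/-- `η = ∑_(0<i<p) (binom(p,i)/p) T^i` -/
noncomputable def eta (p : ℕ) : Polynomial ℤ :=
  ∑ i ∈ Ico 1 p, Polynomial.C ((p.choose i / p : ℕ) : ℤ) * Polynomial.X ^ i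

theorem eta_deg (p : ℕ) : (eta p).natDegree ≤ p - 1 := by
  refine Polynomial.natDegree_sum_le_of_forall_le _ _ fun i hi => ?_
  rw [mem_Ico] at hi
  exact (Polynomial.natDegree_C_mul_X_pow_le _ _).trans (by omega)

theorem eta_coeff (p : ℕ) (hp : 2 ≤ p) : (eta p).coeff (p - 1) = 1 := by
  unfold eta
  rw [Polynomial.finsetSum_coeff, Finset.sum_eq_single (p - 1)]
  · rw [Polynomial.coeff_C_mul, Polynomial.coeff_X_pow_self, mul_one]
    have h1 : p.choose (p - 1) = p := by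
      rw [Nat.choose_symm (by omega : 1 ≤ p), Nat.choose_one_right]
    rw [h1, Nat.div_self (by omega), Nat.cast_one]
  · intro i _ hi
    rw [Polynomial.coeff_C_mul, Polynomial.coeff_X_pow, if_neg (by omega), mul_zero]
  · intro h
    exact absurd (mem_Ico.2 ⟨by omega, by omega⟩) h

theorem eta_zero (p : ℕ) : (eta p).coeff 0 = 0 := by
  unfold eta
  rw [Polynomial.finsetSum_coeff]
  refine Finset.sum_eq_zero fun i hi => ?_
  rw [mem_Ico] at hi
  rw [Polynomial.coeff_C_mul, Polynomial.coeff_X_pow, if_neg (by omega), mul_zero]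

/-- `1 + p η` -/
noncomputable def Q1 (p : ℕ) : Polynomial ℤ := 1 + Polynomial.C (p : ℤ) * eta p

theorem P1_eq (p : ℕ) (hp : p.Prime) : P1 p = Polynomial.aeval z (Q1 p) := by
  have h1 : P1 p = (z + 1) ^ p - z ^ p := by
    unfold P1
    rw [add_comm z 1, ← y_eq]
    unfold z
    rw [mul_pow]
    ring
  rw [h1, add_pow, Finset.sum_range_succ, Finset.range_eq_Ico,
    Finset.sum_eq_sum_Ico_succ_bot hp.pos]
  simp only [Q1, eta, map_add, map_one, map_mul, map_sum, Polynomial.aeval_C, Polynomial.aeval_X,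
    map_pow, one_pow, mul_one, pow_zero, Nat.choose_zero_right, Nat.cast_one, Nat.choose_self,
    zero_add]
  rw [add_sub_assoc, sub_self, add_zero, Finset.mul_sum]
  congr 1
  refine Finset.sum_congr rfl fun i hi => ?_
  rw [mem_Ico] at hi
  have h2 : p ∣ p.choose i := hp.dvd_choose_self (by omega) hi.2
  have h3 : (p.choose i : ℤ⟦X⟧) = ((p : ℕ) : ℤ⟦X⟧) * ((p.choose i / p : ℕ) : ℤ⟦X⟧) := by
    rw [← Nat.cast_mul, Nat.mul_div_cancel' h2]
  rw [h3]
  simp only [map_natCast]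
  ring

theorem Q_zero (p M : ℕ) : (Q1 p ^ M).coeff 0 = 1 := by
  rw [Polynomial.coeff_zero_eq_eval_zero, Polynomial.eval_pow, Q1, Polynomial.eval_add,
    Polynomial.eval_one, Polynomial.eval_mul, Polynomial.eval_C,
    ← Polynomial.coeff_zero_eq_eval_zero (eta p), eta_zero, mul_zero, add_zero, one_pow]

theorem Q_dvd (p M k d : ℕ) (h : k * (p - 1) < d) : (p : ℤ) ^ (k + 1) ∣ (Q1 p ^ M).coeff d := by
  unfold Q1
  rw [add_comm (1 : Polynomial ℤ), add_pow, Polynomial.finsetSum_coeff]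
  refine Finset.dvd_sum fun l _ => ?_
  have h1 : (Polynomial.C (p : ℤ) * eta p) ^ l * 1 ^ (M - l) * ((M.choose l : ℕ) : Polynomial ℤ) =
      Polynomial.C ((p : ℤ) ^ l * ((M.choose l : ℕ) : ℤ)) * eta p ^ l := by
    rw [one_pow, mul_one, mul_pow, Polynomial.C_mul, Polynomial.C_pow]
    simp only [map_natCast]
    ring
  rw [h1, Polynomial.coeff_C_mul]
  by_cases hl : l ≤ k
  · have h2 : (eta p ^ l).natDegree < d :=
      (Polynomial.natDegree_pow_le_of_le l (eta_deg p)).trans_lt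
        ((Nat.mul_le_mul_right _ hl).trans_lt h)
    rw [Polynomial.coeff_eq_zero_of_natDegree_lt h2, mul_zero]
    exact dvd_zero _
  · refine Dvd.dvd.mul_right (Dvd.dvd.mul_right (pow_dvd_pow _ (by omega)) _) _

theorem pow_two_terms {R : Type} [CommRing R] (u : R) (M : ℕ) :
    ∃ r : R, (1 + u) ^ M = 1 + M * u + u ^ 2 * r := by
  induction M with
  | zero => exact ⟨0, by simp⟩
  | succ M ih =>
    obtain ⟨r, hr⟩ := ih
    refine ⟨M + r + u * r, ?_⟩
    rw [pow_succ, hr]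
    push_cast
    ring

theorem Q_pm (p M : ℕ) (hp : 2 ≤ p) :
    (p : ℤ) ^ 2 ∣ (Q1 p ^ M).coeff (p - 1) - p * M := by
  obtain ⟨r, hr⟩ := pow_two_terms (Polynomial.C (p : ℤ) * eta p) M
  have h1 : Q1 p ^ M = 1 + Polynomial.C ((M : ℤ) * p) * eta p +
      Polynomial.C ((p : ℤ) ^ 2) * (eta p ^ 2 * r) := by
    unfold Q1
    rw [hr, Polynomial.C_mul, Polynomial.C_pow]
    simp only [map_natCast]
    ring
  rw [h1, Polynomial.coeff_add, Polynomial.coeff_add, Polynomial.coeff_C_mul,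
    Polynomial.coeff_C_mul, eta_coeff p hp, Polynomial.coeff_one, if_neg (by omega)]
  exact ⟨(eta p ^ 2 * r).coeff (p - 1), by ring⟩

theorem mu_sum {ι : Type} (j : ℕ) (s : Finset ι) (a : ι → ℤ) (f : ι → ℕ → ℤ) :
    mu j (fun n => ∑ i ∈ s, a i * f i n) = ∑ i ∈ s, a i * mu j (f i) := by
  classical
  induction s using Finset.induction_on with
  | empty => simp [mu]
  | insert i s hi ih =>
    simp only [Finset.sum_insert hi]
    rw [mu_add, mu_smul, ih]

/-- the expansions -/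
theorem exp1 (p M K : ℕ) (hp : p.Prime) (hK : (Q1 p ^ M).natDegree < K) (n : ℕ) :
    coeff n (y * P1 p ^ M) = ∑ d ∈ range K, (Q1 p ^ M).coeff d * ((n.choose d : ℕ) : ℤ) := by
  rw [P1_eq p hp, ← map_pow, Polynomial.aeval_eq_sum_range' hK, Finset.mul_sum, map_sum]
  refine Finset.sum_congr rfl fun d _ => ?_
  rw [mul_smul_comm, LinearMap.map_smul, coeff_yz, smul_eq_mul]

theorem exp2 (p M K : ℕ) (hp : p.Prime) (hK : (Q1 p ^ M).natDegree < K) (n : ℕ) :
    coeff n (X * y ^ 2 * P1 p ^ M) =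
      ∑ d ∈ range K, (Q1 p ^ M).coeff d * ((n.choose (d + 1) : ℕ) : ℤ) := by
  rw [P1_eq p hp, ← map_pow, Polynomial.aeval_eq_sum_range' hK, Finset.mul_sum, map_sum]
  refine Finset.sum_congr rfl fun d _ => ?_
  have h1 : X * y ^ 2 * z ^ d = y * z ^ (d + 1) := by
    rw [pow_succ z d]
    conv_rhs => rw [z]
    unfold z
    ring
  rw [mul_smul_comm, LinearMap.map_smul, h1, coeff_yz, smul_eq_mul]

theorem dvd_mul' {p : ℕ} {a b : ℤ} {q j : ℕ} (ha : (p : ℤ) ^ (q + 1) ∣ a)
    (hb : (p : ℤ) ^ (j - q) ∣ b) : (p : ℤ) ^ (j + 1) ∣ a * b := by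
  have h := mul_dvd_mul ha hb
  rw [← pow_add] at h
  exact (pow_dvd_pow _ (by omega)).trans h

/-- first part -/
theorem part1 (kap : S_KAP) (p M b j : ℕ) (hp : p.Prime) (hj : 1 ≤ j) :
    (p : ℤ) ^ (j + 1) ∣ mu j (fun t => coeff (p * t + b) (y * P1 p ^ M)) := by
  simp only [exp1 p M _ hp (Nat.lt_succ_self _)]
  rw [mu_sum]
  refine Finset.dvd_sum fun d _ => ?_
  rcases Nat.eq_zero_or_pos d with rfl | hd
  · have h1 : mu j (fun t => (((p * t + b).choose 0 : ℕ) : ℤ)) = 0 := by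
      simp only [Nat.choose_zero_right, Nat.cast_one]
      exact mu_const j hj 1
    rw [h1, mul_zero]
    exact dvd_zero _
  · refine dvd_mul' (q := (d - j) / (p - 1)) (Q_dvd p M _ d ?_) (kap p b d j hp)
    exact (Nat.div_mul_le_self _ _).trans_lt (by omega)

/-- second part, `j ≥ 2` -/
theorem part2 (kap : S_KAP) (p M b j : ℕ) (hp : p.Prime) (hj : 2 ≤ j) :
    (p : ℤ) ^ (j + 1) ∣ mu j (fun t => coeff (p * t + b) (X * y ^ 2 * P1 p ^ M)) := by
  simp only [exp2 p M _ hp (Nat.lt_succ_self _)]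
  rw [mu_sum]
  refine Finset.dvd_sum fun d _ => ?_
  rcases Nat.eq_zero_or_pos d with rfl | hd
  · have h1 : mu j (fun t => (((p * t + b).choose (0 + 1) : ℕ) : ℤ)) = 0 := by
      have h2 : (fun t : ℕ => (((p * t + b).choose (0 + 1) : ℕ) : ℤ)) =
          fun t : ℕ => (b : ℤ) + (p : ℤ) * t := by
        funext t
        rw [zero_add, Nat.choose_one_right]
        push_cast
        ring
      rw [h2]
      exact mu_linear j hj _ _
    rw [h1, mul_zero]
    exact dvd_zero _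
  · refine dvd_mul' (q := (d + 1 - j) / (p - 1)) (Q_dvd p M _ d ?_) (kap p b (d + 1) j hp)
    exact (Nat.div_mul_le_self _ _).trans_lt (by omega)

/-- second part, `j = 1` -/
theorem part3 (kap : S_KAP) (p M b : ℕ) (hp : p.Prime) (hb : b < p) :
    (p : ℤ) ^ 2 ∣ mu 1 (fun t => coeff (p * t + b) (X * y ^ 2 * P1 p ^ M)) - p * (1 + M) := by
  have hp2 := hp.two_le
  obtain ⟨K, hK, hK1⟩ : ∃ K, (Q1 p ^ M).natDegree < K ∧ p < K :=
    ⟨(Q1 p ^ M).natDegree + p + 1, by omega, by omega⟩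
  simp only [exp2 p M K hp hK]
  rw [mu_sum]
  have h1 : (p : ℤ) * (1 + M) = ∑ d ∈ range K, ((if d = 0 then (p : ℤ) else 0) +
      if d = p - 1 then (p : ℤ) * M else 0) := by
    rw [Finset.sum_add_distrib, Finset.sum_ite_eq', Finset.sum_ite_eq',
      if_pos (Finset.mem_range.2 (by omega)), if_pos (Finset.mem_range.2 (by omega))]
    ring
  rw [h1, ← Finset.sum_sub_distrib]
  refine Finset.dvd_sum fun d _ => ?_
  rcases Nat.eq_zero_or_pos d with rfl | hd
  · have h2 : mu 1 (fun t => (((p * t + b).choose (0 + 1) : ℕ) : ℤ)) = p := by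
      rw [mu_one]
      simp
    rw [h2, Q_zero, if_pos rfl, if_neg (by omega)]
    simp
  · rw [if_neg (by omega), zero_add]
    by_cases hd1 : d = p - 1
    · rw [if_pos hd1, hd1]
      have h2 : p - 1 + 1 = p := by omega
      rw [h2]
      have h3 : (p : ℤ) ∣ mu 1 (fun t => (((p * t + b).choose p : ℕ) : ℤ)) - 1 := by
        rw [mu_one]
        have h4 : (p * 0 + b).choose p = 0 := Nat.choose_eq_zero_of_lt (by omega)
        rw [h4, Nat.cast_zero, sub_zero]
        have : Fact p.Prime := ⟨hp⟩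
        have h5 := Choose.choose_modEq_choose_mod_mul_choose_div (n := p * 1 + b) (k := p) (p := p)
        have h6 : (p * 1 + b) % p = b := by
          rw [mul_one, Nat.add_mod_left, Nat.mod_eq_of_lt hb]
        have h7 : (p * 1 + b) / p = 1 := by
          rw [mul_one, Nat.add_div_left _ hp.pos, Nat.div_eq_of_lt hb]
        rw [h6, h7, Nat.mod_self, Nat.div_self hp.pos, Nat.choose_zero_right,
          Nat.choose_self] at h5
        simp only [Nat.cast_one, mul_one] at h5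
        have h8 := (Int.modEq_iff_dvd.1 h5.symm)
        rw [mul_one]
        exact h8
      obtain ⟨r, hr⟩ := h3
      obtain ⟨s, hs⟩ := Q_pm p M hp2
      set κ := mu 1 (fun t => (((p * t + b).choose p : ℕ) : ℤ)) with hκ
      refine ⟨s * κ + M * r, ?_⟩
      linear_combination κ * hs + (p : ℤ) * M * hr
    · rw [if_neg hd1, sub_zero]
      by_cases hd2 : d < p - 1
      · have h2 := Q_dvd p M 0 d (by omega)
        have h3 := kap p b (d + 1) 1 hp
        rw [Nat.add_sub_cancel, Nat.div_eq_of_lt hd2] at h3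
        exact dvd_mul' (q := 0) (j := 1) h2 h3
      · exact Dvd.dvd.mul_right (Q_dvd p M 1 d (by omega)) _

end Pool.Agent.K9h30.CP.LinP

namespace Pool.Agent.K9h30.CP

theorem lin (kap : S_KAP) : S_LIN := by
  intro p M b hp _ hb
  have hlog : ∀ j, 2 ≤ j → 2 + Nat.log p j ≤ j + 1 := fun j hj => by
    have := Nat.log_lt_self p (x := j) (by omega)
    omega
  refine ⟨⟨LinP.part1 kap p M b 1 hp le_rfl, fun j hj =>
    (pow_dvd_pow _ (hlog j hj)).trans (LinP.part1 kap p M b j hp (by omega))⟩,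
    LinP.part3 kap p M b hp hb, fun j hj =>
    (pow_dvd_pow _ (hlog j hj)).trans (LinP.part2 kap p M b j hp hj)⟩

end Pool.Agent.K9h30.CP
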