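import Pool.Agent.K9h30.CP.Mu
import Pool.Agent.K9h30.CP.Stm4

/-!
# MP_9acee6_nt, leaf LINC (helper14)
-/

set_option autoImplicit false

open PowerSeries Finset

namespace Pool.Agent.K9h30.CP

namespace Linc_

/-- `∏_(0<s<p) (T + s)` -/
noncomputable def A (p : ℕ) : Polynomial ℤ :=
  ∏ s ∈ Ico 1 p, (Polynomial.X + Polynomial.C (s : ℤ))

theorem A_monic (p : ℕ) : (A p).Monic :=
  Polynomial.monic_prod_of_monic _ _ fun s _ => Polynomial.monic_X_add_C _

theorem A_deg (p : ℕ) : (A p).natDegree = p - 1 := by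
  unfold A
  rw [Polynomial.natDegree_prod_of_monic _ _ fun s _ => Polynomial.monic_X_add_C _]
  rw [sum_congr rfl fun s _ => Polynomial.natDegree_X_add_C _]
  simp

theorem A_map (p : ℕ) [Fact p.Prime] : (A p).map (Int.castRingHom (ZMod p)) =
    Polynomial.X ^ (p - 1) - 1 := by
  have hp := (Fact.out : p.Prime)
  have h2 := hp.two_le
  have hm : ((A p).map (Int.castRingHom (ZMod p))).Monic := (A_monic p).map _
  have hd : ((A p).map (Int.castRingHom (ZMod p))).natDegree = p - 1 := by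
    rw [(A_monic p).natDegree_map, A_deg]
  have hd' : ((A p).map (Int.castRingHom (ZMod p))).degree = ((p - 1 : ℕ) : WithBot ℕ) := by
    rw [Polynomial.degree_eq_natDegree hm.ne_zero, hd]
  have hg : (Polynomial.X ^ (p - 1) - 1 : Polynomial (ZMod p)).degree =
      ((p - 1 : ℕ) : WithBot ℕ) := by
    have := Polynomial.degree_X_pow_sub_C (R := ZMod p) (n := p - 1) (by omega) 1
    simpa using this
  apply Polynomial.eq_of_degree_sub_lt_of_eval_finset_eq (univ.erase (0 : ZMod p))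
  · rw [card_erase_of_mem (mem_univ _), card_univ, ZMod.card]
    rw [← hd']
    apply Polynomial.degree_sub_lt_left
    · rw [hd', hg]
    · exact hm.ne_zero
    · rw [hm.leadingCoeff, Polynomial.leadingCoeff_X_pow_sub_one (by omega)]
  · intro x hx
    have hx0 : x ≠ 0 := (mem_erase.1 hx).1
    have e1 : (Polynomial.X ^ (p - 1) - 1 : Polynomial (ZMod p)).eval x = 0 := by
      rw [Polynomial.eval_sub, Polynomial.eval_pow, Polynomial.eval_X, Polynomial.eval_one,
        ZMod.pow_card_sub_one_eq_one hx0, sub_self]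
    rw [e1, A, Polynomial.map_prod, Polynomial.eval_prod]
    apply prod_eq_zero (i := (-x).val)
    · rw [mem_Ico]
      refine ⟨?_, ZMod.val_lt _⟩
      rw [Nat.one_le_iff_ne_zero, ne_eq, ZMod.val_eq_zero]
      exact neg_ne_zero.2 hx0
    · rw [Polynomial.map_add, Polynomial.map_X, Polynomial.map_C, Polynomial.eval_add,
        Polynomial.eval_X, Polynomial.eval_C, map_natCast, ZMod.natCast_zmod_val]
      exact add_neg_cancel x

theorem A_coeff (p : ℕ) (hp : p.Prime) (i : ℕ) (hi : 1 ≤ i) (hi' : i + 1 < p) :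
    (p : ℤ) ∣ (A p).coeff i := by
  haveI : Fact p.Prime := ⟨hp⟩
  have h := congrArg (fun f => Polynomial.coeff f i) (A_map p)
  simp only [Polynomial.coeff_map, Polynomial.coeff_sub, Polynomial.coeff_X_pow,
    Polynomial.coeff_one] at h
  rw [if_neg (by omega), if_neg (by omega), sub_zero] at h
  exact (ZMod.intCast_zmod_eq_zero_iff_dvd _ _).1 h

theorem A_eval_nat (p x : ℕ) : (A p).eval (x : ℤ) =
    (((p - 1).factorial * (x + (p - 1)).choose (p - 1) : ℕ) : ℤ) := by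
  rw [← Nat.ascFactorial_eq_factorial_mul_choose, Nat.ascFactorial_eq_prod_range, A,
    Polynomial.eval_prod, prod_Ico_eq_prod_range]
  push_cast
  apply prod_congr rfl
  intro i _
  simp
  ring

theorem A_eval_zero (p : ℕ) : (A p).eval 0 = ((p - 1).factorial : ℤ) := by
  have := A_eval_nat p 0
  simpa using this

theorem A_eval_neg (p : ℕ) (hp : p.Prime) (hp2 : p ≠ 2) :
    (A p).eval (-(p : ℤ)) = ((p - 1).factorial : ℤ) := by
  have hodd : Odd p := hp.odd_of_ne_two hp2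
  obtain ⟨r, hr⟩ := hodd
  have h0 := A_eval_zero p
  rw [A, Polynomial.eval_prod] at h0 ⊢
  simp only [Polynomial.eval_add, Polynomial.eval_X, Polynomial.eval_C, zero_add] at h0 ⊢
  rw [← h0]
  have h1 : ∏ s ∈ Ico 1 p, (-(p : ℤ) + (s : ℤ)) = ∏ s ∈ Ico 1 p, (-1) * ((p : ℤ) - s) := by
    apply prod_congr rfl
    intro s _
    ring
  rw [h1, prod_mul_distrib, prod_const, Nat.card_Ico]
  have h2 : (-1 : ℤ) ^ (p - 1) = 1 := by
    have : p - 1 = 2 * r := by omega
    rw [this, pow_mul]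
    norm_num
  rw [h2, one_mul]
  have h4 : ∏ s ∈ Ico 1 p, ((p : ℤ) - s) = ∏ s ∈ Ico 1 p, (((p - s : ℕ) : ℕ) : ℤ) := by
    apply prod_congr rfl
    intro s hs
    rw [mem_Ico] at hs
    push_cast [Nat.cast_sub hs.2.le]
    ring
  rw [h4]
  apply prod_nbij' (fun s => p - s) (fun s => p - s)
  · intro s hs
    rw [mem_Ico] at hs ⊢
    omega
  · intro s hs
    rw [mem_Ico] at hs ⊢
    omega
  · intro s hs
    rw [mem_Ico] at hs
    omega
  · intro s hs
    rw [mem_Ico] at hs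
    omega
  · intro s hs
    rfl

/-- the expansion of `A(px) - A(0)` -/
theorem A_exp (p : ℕ) (hp : p.Prime) (hp5 : 5 ≤ p) (x : ℤ) : ∃ r : ℤ,
    (A p).eval (p * x) = (A p).eval 0 + (A p).coeff 1 * (p * x) +
      (A p).coeff 2 * (p * x) ^ 2 + p ^ 4 * x * r := by
  have h1 : (A p).eval (p * x) = ∑ i ∈ range p, (A p).coeff i * (p * x) ^ i :=
    Polynomial.eval_eq_sum_range' (by rw [A_deg]; omega) _
  have h0 : (A p).eval 0 = (A p).coeff 0 := (Polynomial.coeff_zero_eq_eval_zero _).symm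
  have h2 : ∑ i ∈ range p, (A p).coeff i * ((p : ℤ) * x) ^ i =
      ∑ i ∈ range 3, (A p).coeff i * ((p : ℤ) * x) ^ i +
      ∑ i ∈ Ico 3 p, (A p).coeff i * ((p : ℤ) * x) ^ i :=
    (sum_range_add_sum_Ico _ (by omega)).symm
  have h3 : (p : ℤ) ^ 4 * x ∣ ∑ i ∈ Ico 3 p, (A p).coeff i * ((p : ℤ) * x) ^ i := by
    apply dvd_sum
    intro i hi
    rw [mem_Ico] at hi
    have hx : x ∣ x ^ i := dvd_pow_self x (by omega)
    rcases Nat.lt_or_ge (i + 1) p with h | h
    · obtain ⟨c, hc⟩ := A_coeff p hp i (by omega) h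
      rw [hc, mul_pow]
      have e : (p : ℤ) * c * ((p : ℤ) ^ i * x ^ i) = ((p : ℤ) ^ (i + 1) * x ^ i) * c := by ring
      rw [e]
      exact (mul_dvd_mul (pow_dvd_pow _ (by omega)) hx).mul_right _
    · rw [mul_pow]
      exact (mul_dvd_mul (pow_dvd_pow _ (by omega)) hx).mul_left _
  obtain ⟨r, hr⟩ := h3
  refine ⟨r, ?_⟩
  rw [h1, h2, hr, h0]
  simp only [sum_range_succ, sum_range_zero]
  ring

theorem coeff_aux (p M : ℕ) (hp : 0 < p) : ∀ h : ℤ⟦X⟧,
    coeff p ((1 - X ^ p) ^ M * h) = coeff p h - M * coeff 0 h ∧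
    coeff 0 ((1 - X ^ p) ^ M * h) = coeff 0 h := by
  have h1 : ∀ h : ℤ⟦X⟧, coeff p ((1 - X ^ p) * h) = coeff p h - coeff 0 h ∧
      coeff 0 ((1 - X ^ p) * h) = coeff 0 h := by
    intro h
    constructor
    · rw [sub_mul, one_mul, map_sub, coeff_X_pow_mul', if_pos le_rfl, Nat.sub_self]
    · rw [sub_mul, one_mul, map_sub, coeff_X_pow_mul', if_neg (by omega), sub_zero]
  induction M with
  | zero => intro h; simp
  | succ M ih =>
    intro h
    have e : (1 - X ^ p) ^ (M + 1) * h = (1 - X ^ p) ^ M * ((1 - X ^ p) * h) := by ring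
    rw [e, (ih _).1, (ih _).2, (h1 h).1, (h1 h).2]
    refine ⟨?_, rfl⟩
    push_cast
    ring

theorem coeff_P1 (p M : ℕ) (hp : 0 < p) (hM : 1 ≤ M) : coeff p (P1 p ^ M) =
    M * ((((p * M + (p - 1)).choose (p - 1) : ℕ) : ℤ) - 1) := by
  rw [P1, mul_pow, (coeff_aux p M hp _).1, ← pow_mul]
  obtain ⟨N, hN⟩ : ∃ N, p * M = N + 1 := ⟨p * M - 1, by
    have : 0 < p * M := Nat.mul_pos hp hM
    omega⟩
  rw [hN, y, PowerSeries.mk_one_pow_eq_mk_choose_add, coeff_mk, coeff_mk]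
  have h1 : (N + 0).choose N = 1 := by simp
  have h2 : (N + p).choose N = M * (N + 1 + (p - 1)).choose (p - 1) := by
    obtain ⟨q, rfl⟩ : ∃ q, p = q + 1 := ⟨p - 1, by omega⟩
    have h3 := Nat.choose_succ_right_eq (N + (q + 1)) q
    have h4 : (N + (q + 1)).choose N = (N + (q + 1)).choose (q + 1) :=
      Nat.choose_symm_of_eq_add rfl
    have h5 : N + 1 + (q + 1 - 1) = N + (q + 1) := by omega
    rw [h4, h5]
    have h6 : q + 1 - 1 = q := by omega
    rw [h6]
    have h7 : N + (q + 1) - q = (q + 1) * M := by omega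
    rw [h7] at h3
    apply Nat.eq_of_mul_eq_mul_right (Nat.succ_pos q)
    rw [Nat.succ_eq_add_one, h3]
    ring
  rw [h1, h2]
  push_cast
  ring

end Linc_

open Linc_ in
theorem linc : S_LINC := by
  intro p v M hp hp5 hM hv
  have hc : coeff 1 (U p 0 (P1 p ^ M)) =
      M * ((((p * M + (p - 1)).choose (p - 1) : ℕ) : ℤ) - 1) := by
    rw [U, coeff_mk, ← coeff_P1 p M hp.pos hM]
    simp
  have hw : (2 * p - 1).choose (p - 1) = (p * 1 + (p - 1)).choose (p - 1) := by
    congr 1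
    omega
  rw [hc, hw]
  set B : ℤ := (((p * M + (p - 1)).choose (p - 1) : ℕ) : ℤ) with hB
  set B1 : ℤ := (((p * 1 + (p - 1)).choose (p - 1) : ℕ) : ℤ) with hB1
  set f : ℤ := ((p - 1).factorial : ℤ) with hf
  have e0 := A_eval_zero p
  have e1 : (A p).eval ((p : ℤ) * M) = f * B := by
    have := A_eval_nat p (p * M)
    push_cast at this
    rw [this]
  have e2 : (A p).eval ((p : ℤ) * 1) = f * B1 := by
    have := A_eval_nat p (p * 1)
    push_cast at this
    rw [this]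
  have e3 : (A p).eval ((p : ℤ) * (-1)) = f := by
    have := A_eval_neg p hp (by omega)
    rw [mul_neg_one]
    exact this
  obtain ⟨r, hr⟩ := A_exp p hp hp5 M
  obtain ⟨r1, hr1⟩ := A_exp p hp hp5 1
  obtain ⟨r2, hr2⟩ := A_exp p hp hp5 (-1)
  rw [e1, e0] at hr
  rw [e2, e0] at hr1
  rw [e3, e0] at hr2
  set c1 := (A p).coeff 1 with hc1
  set c2 := (A p).coeff 2 with hc2
  rw [← hf] at hr hr1 hr2
  have key : f * (2 * (M * (B - 1)) - (B1 - 1) * M ^ 2 * (M + 1)) =
      (p : ℤ) ^ 4 * M ^ 2 * (2 * r - (M + 1) * r1 + (M - 1) * r2) := by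
    linear_combination 2 * (M : ℤ) * hr - (M : ℤ) ^ 2 * (M + 1) * hr1 + (M : ℤ) ^ 2 * (1 - M) * hr2
  have hv' : (p : ℤ) ^ v ∣ M := by exact_mod_cast hv
  have h1 : (p : ℤ) ^ (2 * v + 4) ∣ f * (2 * (M * (B - 1)) - (B1 - 1) * M ^ 2 * (M + 1)) := by
    rw [key]
    apply Dvd.dvd.mul_right
    have : (p : ℤ) ^ (2 * v + 4) = (p : ℤ) ^ 4 * ((p : ℤ) ^ v) ^ 2 := by ring
    rw [this]
    exact mul_dvd_mul (dvd_refl _) (pow_dvd_pow_of_dvd hv' 2)
  have hcop : IsCoprime ((p : ℤ) ^ (2 * v + 4)) f := by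
    apply IsCoprime.pow_left
    rw [hf, Nat.isCoprime_iff_coprime]
    exact (Nat.Prime.coprime_iff_not_dvd hp).2 fun h => by
      have := (hp.dvd_factorial).1 h
      omega
  exact hcop.dvd_of_dvd_mul_left h1

end Pool.Agent.K9h30.CP
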