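import Pool.Agent.K9h30.CP.Linc
import Pool.Agent.K9h30.CP.Stm5

/-!
# MP_9acee6_nt, leaf LINC2 (helper14)
-/

set_option autoImplicit false

open PowerSeries Finset

namespace Pool.Agent.K9h30.CP

namespace Linc2_

open Linc_

/-- the expansion of `A(px) - A(0)`, with a polynomial remainder -/
theorem A_exp' (p : ℕ) (hp : p.Prime) (hp5 : 5 ≤ p) : ∃ R : Polynomial ℤ, ∀ x : ℤ,
    (A p).eval (p * x) = (A p).eval 0 + (A p).coeff 1 * (p * x) +
      (A p).coeff 2 * (p * x) ^ 2 + p ^ 4 * x * R.eval x := by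
  have hd : ∀ i, 3 ≤ i → i < p → ∃ d : ℤ, (A p).coeff i * (p : ℤ) ^ i = (p : ℤ) ^ 4 * d := by
    intro i hi hi'
    rcases Nat.lt_or_ge (i + 1) p with h | h
    · obtain ⟨c, hc⟩ := A_coeff p hp i (by omega) h
      rw [hc]
      have e : (p : ℤ) * c * (p : ℤ) ^ i = ((p : ℤ) ^ (i + 1)) * c := by ring
      rw [e]
      exact (pow_dvd_pow _ (by omega)).mul_right _
    · exact (pow_dvd_pow _ (by omega)).mul_left _
  choose! d hd using hd
  refine ⟨∑ i ∈ Ico 3 p, Polynomial.C (d i) * Polynomial.X ^ (i - 1), ?_⟩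
  intro x
  have h1 : (A p).eval (p * x) = ∑ i ∈ range p, (A p).coeff i * (p * x) ^ i :=
    Polynomial.eval_eq_sum_range' (by rw [A_deg]; omega) _
  have h0 : (A p).eval 0 = (A p).coeff 0 := (Polynomial.coeff_zero_eq_eval_zero _).symm
  have h2 : ∑ i ∈ range p, (A p).coeff i * ((p : ℤ) * x) ^ i =
      ∑ i ∈ range 3, (A p).coeff i * ((p : ℤ) * x) ^ i +
      ∑ i ∈ Ico 3 p, (A p).coeff i * ((p : ℤ) * x) ^ i :=
    (sum_range_add_sum_Ico _ (by omega)).symm
  have h3 : ∑ i ∈ Ico 3 p, (A p).coeff i * ((p : ℤ) * x) ^ i = (p : ℤ) ^ 4 * x *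
      (∑ i ∈ Ico 3 p, Polynomial.C (d i) * Polynomial.X ^ (i - 1) : Polynomial ℤ).eval x := by
    rw [Polynomial.eval_finset_sum, mul_sum]
    apply sum_congr rfl
    intro i hi
    rw [mem_Ico] at hi
    rw [Polynomial.eval_mul, Polynomial.eval_C, Polynomial.eval_pow, Polynomial.eval_X]
    have e := hd i hi.1 hi.2
    have e' : x ^ i = x * x ^ (i - 1) := by
      rw [← pow_succ']
      congr 1
      omega
    rw [mul_pow, ← mul_assoc, e, e']
    ring
  rw [h1, h2, h3, h0]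
  simp only [sum_range_succ, sum_range_zero]
  ring

end Linc2_

open Linc_ Linc2_ in
theorem linc2 : S_LINC2 := by
  intro p e M hp hp5 hM he
  have hc : coeff 1 (U p 0 (P1 p ^ M)) =
      M * ((((p * M + (p - 1)).choose (p - 1) : ℕ) : ℤ) - 1) := by
    rw [U, coeff_mk, ← coeff_P1 p M hp.pos hM]
    simp
  have hw : (2 * p - 1).choose (p - 1) = (p * 1 + (p - 1)).choose (p - 1) := by
    congr 1
    omega
  rw [hc, hw]
  set B : ℤ := (((p * M + (p - 1)).choose (p - 1) : ℕ) : ℤ) with hB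
  set B1 : ℤ := (((p * 1 + (p - 1)).choose (p - 1) : ℕ) : ℤ) with hB1
  set f : ℤ := ((p - 1).factorial : ℤ) with hf
  have e0 := A_eval_zero p
  have e1 : (A p).eval ((p : ℤ) * M) = f * B := by
    have := A_eval_nat p (p * M)
    push_cast at this
    rw [this]
  have e2 : (A p).eval ((p : ℤ) * 1) = f * B1 := by
    have := A_eval_nat p (p * 1)
    push_cast at this
    rw [this]
  have e3 : (A p).eval ((p : ℤ) * (-1)) = f := by
    have := A_eval_neg p hp (by omega)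
    rw [mul_neg_one]
    exact this
  obtain ⟨R, hR⟩ := A_exp' p hp hp5
  have hr := hR M
  have hr1 := hR 1
  have hr2 := hR (-1)
  obtain ⟨q, hq⟩ := Polynomial.sub_dvd_eval_sub (M : ℤ) (-1) R
  set r := R.eval (M : ℤ)
  set r1 := R.eval 1
  set r2 := R.eval (-1)
  rw [e1, e0] at hr
  rw [e2, e0] at hr1
  rw [e3, e0] at hr2
  set c1 := (A p).coeff 1 with hc1
  set c2 := (A p).coeff 2 with hc2
  rw [← hf] at hr hr1 hr2
  have key : f * (2 * (M * (B - 1)) - (B1 - 1) * M ^ 2 * (M + 1)) =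
      (p : ℤ) ^ 4 * (M ^ 2 * (M + 1)) * (2 * q - r1 + r2) := by
    linear_combination 2 * (M : ℤ) * hr - (M : ℤ) ^ 2 * (M + 1) * hr1 +
      (M : ℤ) ^ 2 * (1 - M) * hr2 + 2 * (p : ℤ) ^ 4 * (M : ℤ) ^ 2 * hq
  have he' : (p : ℤ) ^ e ∣ M ^ 2 * (M + 1) := by exact_mod_cast he
  have h1 : (p : ℤ) ^ (e + 4) ∣ f * (2 * (M * (B - 1)) - (B1 - 1) * M ^ 2 * (M + 1)) := by
    rw [key]
    apply Dvd.dvd.mul_right
    have : (p : ℤ) ^ (e + 4) = (p : ℤ) ^ 4 * (p : ℤ) ^ e := by ring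
    rw [this]
    exact mul_dvd_mul (dvd_refl _) he'
  have hcop : IsCoprime ((p : ℤ) ^ (e + 4)) f := by
    apply IsCoprime.pow_left
    rw [hf, Nat.isCoprime_iff_coprime]
    exact (Nat.Prime.coprime_iff_not_dvd hp).2 fun h => by
      have := (hp.dvd_factorial).1 h
      omega
  exact hcop.dvd_of_dvd_mul_left h1

end Pool.Agent.K9h30.CP
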