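import Pool.Agent.K9h30.CP.Stm

/-!
# MP_9acee6_nt: LOG (helper81)
-/

set_option autoImplicit false

open PowerSeries Finset

namespace Pool.Agent.K9h30.CP

namespace LogV

/-- `1 / (1 - x)` over the rationals -/
noncomputable def yq : ℚ⟦X⟧ := PowerSeries.mk 1

/-- `1 / (1 - x^p)` over the rationals -/
noncomputable def yp (p : ℕ) : ℚ⟦X⟧ := PowerSeries.mk fun n => if p ∣ n then 1 else 0

/-- `G` over the rationals -/
noncomputable def Gq (p : ℕ) : ℚ⟦X⟧ := (1 - X ^ p) * yq ^ p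

theorem map_P1 (p : ℕ) : PowerSeries.map (Int.castRingHom ℚ) (P1 p) = Gq p := by
  have h : PowerSeries.map (Int.castRingHom ℚ) y = yq := by
    ext n
    rw [PowerSeries.coeff_map, y, yq, coeff_mk, coeff_mk, Pi.one_apply, Pi.one_apply, map_one]
  rw [P1, Gq, map_mul, map_sub, map_pow, map_pow, map_one, PowerSeries.map_X, h]

theorem yq_mul : yq * (1 - X) = 1 := PowerSeries.mk_one_mul_one_sub_eq_one ℚ

theorem yp_mul {p : ℕ} (hp : 0 < p) : yp p * (1 - X ^ p) = 1 := by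
  ext n
  rw [mul_sub, mul_one, map_sub, PowerSeries.coeff_mul_X_pow', yp, coeff_mk, PowerSeries.coeff_one]
  rcases Nat.eq_zero_or_pos n with hn | hn
  · subst hn
    rw [if_pos (dvd_zero p), if_neg (by omega), if_pos rfl, sub_zero]
  · rw [if_neg hn.ne']
    by_cases hpn : p ≤ n
    · rw [if_pos hpn, coeff_mk]
      have h : p ∣ n - p ↔ p ∣ n := by
        rw [Nat.dvd_sub_iff_left hpn dvd_rfl]
      simp only [h, sub_self]
    · rw [if_neg hpn, if_neg fun h => hpn (Nat.le_of_dvd hn h), sub_zero]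

theorem d_yq : derivative ℚ yq = yq ^ 2 := by
  have h := congrArg (derivative ℚ) yq_mul
  rw [Derivation.leibniz, map_sub, Derivation.map_one_eq_zero, zero_sub, PowerSeries.derivative_X, smul_eq_mul,
    smul_eq_mul, mul_neg, mul_one] at h
  -- `- yq + (1 - X) * D yq = 0`
  have h2 : yq * (-yq + (1 - X) * derivative ℚ yq) = 0 := by rw [h, mul_zero]
  have h3 : yq * (-yq + (1 - X) * derivative ℚ yq) = -yq ^ 2 + yq * (1 - X) * derivative ℚ yq := by ring
  rw [h3, yq_mul, one_mul] at h2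
  linear_combination h2

/-- the logarithmic derivative -/
noncomputable def E (p : ℕ) : ℚ⟦X⟧ := (p : ℚ⟦X⟧) * (X * yq - X ^ p * yp p)

theorem x_dG {p : ℕ} (hp : 0 < p) : X * derivative ℚ (Gq p) = Gq p * E p := by
  obtain ⟨q, rfl⟩ : ∃ q, p = q + 1 := ⟨p - 1, by omega⟩
  have h1 : derivative ℚ (Gq (q + 1)) = (1 - X ^ (q + 1)) * (((q : ℚ⟦X⟧) + 1) * yq ^ (q + 2)) -
      ((q : ℚ⟦X⟧) + 1) * X ^ q * yq ^ (q + 1) := by
    unfold Gq
    rw [Derivation.leibniz, map_sub, Derivation.map_one_eq_zero, Derivation.leibniz_pow, Derivation.leibniz_pow,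
      PowerSeries.derivative_X, d_yq]
    simp only [smul_eq_mul, nsmul_eq_mul, Nat.add_sub_cancel]
    push_cast
    ring
  have h2 := yp_mul (p := q + 1) (Nat.succ_pos q)
  rw [h1]
  unfold Gq E
  push_cast
  have h3 : X * ((1 - X ^ (q + 1)) * (((q : ℚ⟦X⟧) + 1) * yq ^ (q + 2)) - ((q : ℚ⟦X⟧) + 1) * X ^ q * yq ^ (q + 1)) -
      (1 - X ^ (q + 1)) * yq ^ (q + 1) * (((q : ℚ⟦X⟧) + 1) * (X * yq - X ^ (q + 1) * yp (q + 1))) =
      ((q : ℚ⟦X⟧) + 1) * X ^ (q + 1) * yq ^ (q + 1) * (yp (q + 1) * (1 - X ^ (q + 1)) - 1) := by ring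
  rw [h2, sub_self, mul_zero, sub_eq_zero] at h3
  exact h3

theorem coeff_E {p n : ℕ} (hn : 1 ≤ n) (h : p ∣ n) : coeff n (E p) = 0 := by
  unfold E
  have h0 : (p : ℚ⟦X⟧) = C (p : ℚ) := (map_natCast (C (R := ℚ)) p).symm
  have hpn : p ≤ n := Nat.le_of_dvd (by omega) h
  have h1 : coeff n (X * yq) = 1 := by
    obtain ⟨m, rfl⟩ : ∃ m, n = m + 1 := ⟨n - 1, by omega⟩
    rw [mul_comm, PowerSeries.coeff_succ_mul_X, yq, coeff_mk, Pi.one_apply]
  have h2 : coeff n (X ^ p * yp p) = 1 := by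
    rw [mul_comm, PowerSeries.coeff_mul_X_pow', if_pos hpn, yp, coeff_mk, if_pos]
    exact (Nat.dvd_sub_iff_left hpn dvd_rfl).2 h
  rw [h0, PowerSeries.coeff_C_mul, map_sub, h1, h2, sub_self, mul_zero]

theorem coeff_zero_E (p : ℕ) (hp : 0 < p) : coeff 0 (E p) = 0 := by
  unfold E
  rw [PowerSeries.coeff_zero_eq_constantCoeff_apply, map_mul, map_sub, map_mul, map_mul, map_pow,
    PowerSeries.constantCoeff_X, zero_mul, zero_pow hp.ne', zero_mul, sub_self, mul_zero]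

/-- the partial sums of the logarithm -/
noncomputable def Ls (g : ℚ⟦X⟧) (N : ℕ) : ℚ⟦X⟧ := ∑ l ∈ Icc 1 N, C ((-1 : ℚ) ^ (l + 1) / l) * g ^ l

theorem d_Ls (g : ℚ⟦X⟧) (N : ℕ) : (1 + g) * derivative ℚ (Ls g N) = derivative ℚ g * (1 - (-g) ^ N) := by
  induction N with
  | zero =>
    unfold Ls
    rw [Icc_eq_empty (by omega), sum_empty, map_zero, mul_zero, pow_zero, sub_self, mul_zero]
  | succ N ih =>
    have h1 : Ls g (N + 1) = Ls g N + C ((-1 : ℚ) ^ (N + 2) / ((N + 1 : ℕ) : ℚ)) * g ^ (N + 1) := by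
      unfold Ls
      rw [Finset.sum_Icc_succ_top (by omega)]
    have h2 : derivative ℚ (C ((-1 : ℚ) ^ (N + 2) / ((N + 1 : ℕ) : ℚ)) * g ^ (N + 1)) =
        (-1) ^ N * g ^ N * derivative ℚ g := by
      rw [← PowerSeries.smul_eq_C_mul, Derivation.map_smul, Derivation.leibniz_pow, PowerSeries.smul_eq_C_mul,
        nsmul_eq_mul, Nat.add_sub_cancel, smul_eq_mul]
      have h3 : ((N + 1 : ℕ) : ℚ⟦X⟧) = C ((N + 1 : ℕ) : ℚ) := (map_natCast (C (R := ℚ)) (N + 1)).symm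
      have h4 : C ((-1 : ℚ) ^ (N + 2) / ((N + 1 : ℕ) : ℚ)) * C ((N + 1 : ℕ) : ℚ) = (-1 : ℚ⟦X⟧) ^ N := by
        rw [← map_mul, div_mul_cancel₀ _ (by positivity : ((N + 1 : ℕ) : ℚ) ≠ 0), map_pow, map_neg, map_one, pow_add]
        ring
      rw [h3, ← mul_assoc, h4]
      ring
    rw [h1, map_add, mul_add, ih, h2, neg_pow g N, neg_pow g (N + 1)]
    ring

end LogV

open LogV in
/-- **LOG** -/
theorem log_van : S_LOG := by
  intro p n hp hn hpn
  have hp0 : 0 < p := hp.pos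
  set g : ℚ⟦X⟧ := Gq p - 1 with hg
  have hG : 1 + g = Gq p := by rw [hg]; ring
  -- the sum is a coefficient
  have h1 : ∑ l ∈ Icc 1 n, ((-1 : ℚ) ^ (l + 1) / l) * ((coeff n ((P1 p - 1) ^ l) : ℤ) : ℚ) = coeff n (Ls g n) := by
    unfold Ls
    rw [map_sum]
    refine Finset.sum_congr rfl fun l _ => ?_
    rw [PowerSeries.coeff_C_mul, hg, ← map_P1]
    congr 1
    have h2 : (PowerSeries.map (Int.castRingHom ℚ) (P1 p) - 1) ^ l =
        PowerSeries.map (Int.castRingHom ℚ) ((P1 p - 1) ^ l) := by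
      rw [map_pow, map_sub, map_one]
    rw [h2, PowerSeries.coeff_map]
    rfl
  rw [h1]
  -- constant coefficient of `g`
  have hc : constantCoeff g = 0 := by
    rw [hg, Gq, map_sub, map_mul, map_sub, map_pow, map_pow, map_one, PowerSeries.constantCoeff_X, zero_pow hp0.ne',
      sub_zero, one_mul, ← PowerSeries.coeff_zero_eq_constantCoeff_apply, yq, coeff_mk, Pi.one_apply, one_pow, sub_self]
  have hG0 : Gq p ≠ 0 := by
    intro h
    rw [← hG] at h
    have h2 := congrArg constantCoeff h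
    rw [map_add, map_one, hc, add_zero, map_zero] at h2
    exact one_ne_zero h2
  have hdg : derivative ℚ g = derivative ℚ (Gq p) := by
    rw [hg, map_sub, Derivation.map_one_eq_zero, sub_zero]
  have h3 := d_Ls g n
  rw [hG, hdg] at h3
  have h4 : Gq p * (X * derivative ℚ (Ls g n)) = Gq p * (E p * (1 - (-g) ^ n)) := by
    have h5 := x_dG hp0
    calc Gq p * (X * derivative ℚ (Ls g n)) = X * (Gq p * derivative ℚ (Ls g n)) := by ring
      _ = (X * derivative ℚ (Gq p)) * (1 - (-g) ^ n) := by rw [h3]; ring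
      _ = _ := by rw [h5]; ring
  have h6 := mul_left_cancel₀ hG0 h4
  have h7 := congrArg (coeff n) h6
  have hXg : X ∣ -g := by
    rw [PowerSeries.X_dvd_iff, map_neg, hc, neg_zero]
  have hXE : X ∣ E p := by
    rw [PowerSeries.X_dvd_iff, ← PowerSeries.coeff_zero_eq_constantCoeff_apply, coeff_zero_E p hp0]
  have h8 : coeff n (E p * (-g) ^ n) = 0 := by
    have h9 : X ^ (n + 1) ∣ E p * (-g) ^ n := by
      rw [pow_succ, mul_comm (X ^ n) X]
      exact mul_dvd_mul hXE (pow_dvd_pow_of_dvd hXg n)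
    exact PowerSeries.X_pow_dvd_iff.1 h9 n (Nat.lt_succ_self n)
  rw [mul_sub, mul_one, map_sub, h8, sub_zero, coeff_E hn hpn] at h7
  obtain ⟨m, rfl⟩ : ∃ m, n = m + 1 := ⟨n - 1, by omega⟩
  rw [mul_comm X, PowerSeries.coeff_succ_mul_X, PowerSeries.coeff_derivative] at h7
  have h9 : ((m : ℚ) + 1) ≠ 0 := by positivity
  exact (mul_eq_zero.1 h7).resolve_right h9

end Pool.Agent.K9h30.CP
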