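import Pool.Agent.K9h30.CP.Stm

/-! MP_9acee6_nt, leaf CP-RR: the coefficients of `((1 - x^k) / (1 - x)^k)^m`. -/

set_option autoImplicit false

open PowerSeries Finset

namespace Pool.Agent.K9h30.CP

lemma rr_y : (1 - X) * y = 1 := by
  unfold y
  rw [mul_comm]
  exact PowerSeries.mk_one_mul_one_sub_eq_one ℤ

/-- `∑_{k ∣ i} x^i` -/
noncomputable def rr_ex (k : ℕ) : ℤ⟦X⟧ := PowerSeries.mk fun i => if k ∣ i then 1 else 0

lemma rr_ex_mul (k : ℕ) (hk : 1 ≤ k) : (1 - X ^ k) * rr_ex k = 1 := by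
  ext n
  rw [sub_mul, one_mul, map_sub, PowerSeries.coeff_X_pow_mul', PowerSeries.coeff_one]
  unfold rr_ex
  rw [PowerSeries.coeff_mk]
  by_cases h : k ≤ n
  · rw [if_pos h, PowerSeries.coeff_mk, if_neg (show ¬ n = 0 by omega)]
    have : k ∣ n - k ↔ k ∣ n := by
      constructor
      · intro h2
        have := Nat.dvd_add h2 (dvd_refl k)
        rwa [Nat.sub_add_cancel h] at this
      · intro h2
        exact Nat.dvd_sub h2 (dvd_refl k)
    simp only [this, sub_self]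
  · rw [if_neg h, sub_zero]
    by_cases h0 : n = 0
    · subst h0; simp
    · rw [if_neg h0, if_neg]
      intro h2
      exact h (Nat.le_of_dvd (by omega) h2)

/-- `∑_{k ∤ i} x^i` -/
noncomputable def rr_E (k : ℕ) : ℤ⟦X⟧ := X * y - X ^ k * rr_ex k

lemma rr_E_coeff (k n : ℕ) (hk : 1 ≤ k) : coeff n (rr_E k) = if k ∣ n then 0 else 1 := by
  unfold rr_E
  rw [map_sub, PowerSeries.coeff_X_pow_mul']
  have h1 : coeff n (X * y) = if n = 0 then (0 : ℤ) else 1 := by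
    cases n with
    | zero => rw [PowerSeries.coeff_zero_X_mul]; simp
    | succ n =>
      rw [PowerSeries.coeff_succ_X_mul]
      unfold y
      simp
  rw [h1]
  unfold rr_ex
  by_cases h : k ≤ n
  · rw [if_pos h, PowerSeries.coeff_mk, if_neg (by omega)]
    have : k ∣ n - k ↔ k ∣ n := by
      constructor
      · intro h2
        have := Nat.dvd_add h2 (dvd_refl k)
        rwa [Nat.sub_add_cancel h] at this
      · intro h2
        exact Nat.dvd_sub h2 (dvd_refl k)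
    by_cases h3 : k ∣ n
    · rw [if_pos (this.2 h3), if_pos h3]; norm_num
    · rw [if_neg (fun h => h3 (this.1 h)), if_neg h3]; norm_num
  · rw [if_neg h, sub_zero]
    by_cases h0 : n = 0
    · subst h0; simp
    · rw [if_neg h0, if_neg]
      intro h2
      exact h (Nat.le_of_dvd (by omega) h2)

lemma rr_dy : PowerSeries.derivative ℤ y = y ^ 2 := by
  have h := congrArg (PowerSeries.derivative ℤ) rr_y
  rw [Derivation.leibniz] at h
  simp only [map_sub, Derivation.map_one_eq_zero, PowerSeries.derivative_X, smul_eq_mul] at h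
  have h2 := rr_y
  linear_combination y * h + (-PowerSeries.derivative ℤ y) * h2

/-- logarithmic derivative of `(1 - x^k) / (1 - x)^k` -/
lemma rr_log (k : ℕ) (hk : 1 ≤ k) : X * PowerSeries.derivative ℤ ((1 - X ^ k) * y ^ k) =
    (k : ℤ⟦X⟧) * rr_E k * ((1 - X ^ k) * y ^ k) := by
  have h1 : PowerSeries.derivative ℤ ((1 - X ^ k) * y ^ k) =
      (1 - X ^ k) * ((k : ℤ⟦X⟧) * y ^ (k - 1) * y ^ 2) - (k : ℤ⟦X⟧) * X ^ (k - 1) * y ^ k := by
    rw [Derivation.leibniz, Derivation.leibniz_pow, map_sub, Derivation.leibniz_pow,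
      Derivation.map_one_eq_zero, PowerSeries.derivative_X, rr_dy]
    simp only [smul_eq_mul, nsmul_eq_mul]
    ring
  rw [h1]
  obtain ⟨s, rfl⟩ : ∃ s, k = s + 1 := ⟨k - 1, by omega⟩
  rw [Nat.add_sub_cancel]
  have h2 := rr_ex_mul (s + 1) (by omega)
  unfold rr_E
  linear_combination (((s + 1 : ℕ) : ℤ⟦X⟧) * X ^ (s + 1) * y ^ (s + 1)) * h2

lemma rr_pow (k m : ℕ) (hk : 1 ≤ k) : X * PowerSeries.derivative ℤ (((1 - X ^ k) * y ^ k) ^ m) =
    (m : ℤ⟦X⟧) * (k : ℤ⟦X⟧) * (rr_E k * ((1 - X ^ k) * y ^ k) ^ m) := by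
  rw [Derivation.leibniz_pow]
  simp only [smul_eq_mul, nsmul_eq_mul]
  cases m with
  | zero => simp
  | succ m =>
    rw [Nat.add_sub_cancel]
    linear_combination (((m + 1 : ℕ) : ℤ⟦X⟧) * ((1 - X ^ k) * y ^ k) ^ m) * rr_log k hk

lemma rr_rec (k m j : ℕ) (hk : 1 ≤ k) : (j : ℤ) * coeff j (((1 - X ^ k) * y ^ k) ^ m) =
    m * k * coeff j (rr_E k * ((1 - X ^ k) * y ^ k) ^ m) := by
  have h := congrArg (coeff j) (rr_pow k m hk)
  have e1 : (m : ℤ⟦X⟧) * (k : ℤ⟦X⟧) = PowerSeries.C ((m : ℤ) * k) := by simp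
  rw [e1, PowerSeries.coeff_C_mul] at h
  rw [← h]
  cases j with
  | zero => rw [PowerSeries.coeff_zero_X_mul]; simp
  | succ j =>
    rw [PowerSeries.coeff_succ_X_mul, PowerSeries.coeff_derivative]
    push_cast
    ring

/-- `(1 - x)^(p^a) ≡ 1 - x^(p^a)` modulo `p` -/
lemma rr_base (p a : ℕ) (hp : p.Prime) (hp2 : p ≠ 2) :
    (p : ℤ⟦X⟧) ∣ ((1 - X ^ p ^ a) * y ^ p ^ a) - 1 := by
  have h1 : (p : ℤ⟦X⟧) ∣ (1 - X ^ p ^ a) - (1 - X) ^ p ^ a := by
    have h2 : ∃ q : ℤ⟦X⟧, (1 + (-X)) ^ p ^ a = 1 ^ p ^ a + (-X) ^ p ^ a + (p : ℤ⟦X⟧) * q := by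
      obtain ⟨q, hq⟩ := exists_add_pow_prime_pow_eq hp (1 : ℤ⟦X⟧) (-X) a
      exact ⟨1 * -X * q, by rw [hq]; ring⟩
    obtain ⟨q, hq⟩ := h2
    have hodd : Odd (p ^ a) := (hp.odd_of_ne_two hp2).pow
    rw [hodd.neg_pow, one_pow] at hq
    refine ⟨-q, ?_⟩
    rw [sub_eq_add_neg 1 X, hq]
    ring
  have h3 : (1 - X : ℤ⟦X⟧) ^ p ^ a * y ^ p ^ a = 1 := by
    rw [← mul_pow, rr_y, one_pow]
  obtain ⟨q, hq⟩ := h1
  refine ⟨q * y ^ p ^ a, ?_⟩
  linear_combination (y ^ p ^ a) * hq + h3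

lemma rr_coeff (p v : ℕ) (f : ℤ⟦X⟧) (h : (p : ℤ⟦X⟧) ^ (v + 1) ∣ f - 1) (j : ℕ) (hj : 1 ≤ j) :
    (p : ℤ) ^ (v + 1) ∣ coeff j f := by
  obtain ⟨q, hq⟩ := h
  have e1 : f = 1 + PowerSeries.C ((p : ℤ) ^ (v + 1)) * q := by
    have : (PowerSeries.C ((p : ℤ) ^ (v + 1)) : ℤ⟦X⟧) = (p : ℤ⟦X⟧) ^ (v + 1) := by simp
    rw [this]
    linear_combination hq
  rw [e1, map_add, PowerSeries.coeff_one, if_neg (by omega), zero_add, PowerSeries.coeff_C_mul]
  exact dvd_mul_right _ _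

theorem rr : S_RR := by
  intro p a v μ j hp hp2 ha hμ hpμ hj
  have hpI : Prime (p : ℤ) := Nat.prime_iff_prime_int.1 hp
  have hp0 : (p : ℤ) ≠ 0 := hpI.ne_zero
  set P : ℤ⟦X⟧ := (1 - X ^ p ^ a) * y ^ p ^ a with hP
  have hk : 1 ≤ p ^ a := Nat.one_le_pow _ _ hp.pos
  have h1 : (p : ℤ⟦X⟧) ^ (v + 1) ∣ P ^ (p ^ v * μ) - 1 := by
    have h2 := dvd_sub_pow_of_dvd_sub (rr_base p a hp hp2) v
    rw [one_pow] at h2
    rw [pow_mul]
    exact h2.trans (sub_one_dvd_pow_sub_one _ _)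
  have h2 : ∀ j, 1 ≤ j → (p : ℤ) ^ (v + 1) ∣ coeff j (P ^ (p ^ v * μ)) := fun j hj =>
    rr_coeff p v _ h1 j hj
  refine ⟨h2 j hj, fun hna => ?_⟩
  set R := P ^ (p ^ v * μ) with hR
  have hR0 : coeff 0 R = 1 := by
    rw [hR, hP, PowerSeries.coeff_zero_eq_constantCoeff_apply, map_pow, map_mul, map_sub, map_pow,
      map_pow, PowerSeries.constantCoeff_X, map_one, zero_pow (by omega)]
    have : PowerSeries.constantCoeff y = 1 := by
      unfold y
      rw [← PowerSeries.coeff_zero_eq_constantCoeff_apply]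
      simp
    rw [this]
    simp
  have h3 : (p : ℤ) ∣ coeff j (rr_E (p ^ a) * R) - 1 := by
    rw [PowerSeries.coeff_mul]
    rw [← Finset.sum_erase_add _ _ (show (j, 0) ∈ antidiagonal j by simp)]
    rw [hR0, rr_E_coeff _ _ hk, if_neg hna, mul_one, add_sub_cancel_right]
    apply dvd_sum
    rintro ⟨i, l⟩ hil
    rw [mem_erase, HasAntidiagonal.mem_antidiagonal] at hil
    simp only at hil ⊢
    have hl : 1 ≤ l := by
      rcases Nat.eq_zero_or_pos l with h | h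
      · exfalso
        apply hil.1
        rw [h] at hil ⊢
        rw [← hil.2, add_zero]
      · exact h
    exact ((dvd_pow_self _ (by omega)).trans (h2 l hl)).mul_left _
  have h4 := rr_rec (p ^ a) (p ^ v * μ) j hk
  rw [← hP, ← hR] at h4
  set T := coeff j (rr_E (p ^ a) * R) with hT
  set s := padicValNat p j with hs
  have hfact : Fact p.Prime := ⟨hp⟩
  have hsdvd : p ^ s ∣ j := pow_padicValNat_dvd
  have hsa : s < a := by
    by_contra h
    exact hna ((pow_dvd_pow p (not_lt.1 h)).trans hsdvd)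
  obtain ⟨j', hj'⟩ := hsdvd
  have hj'1 : j / p ^ s = j' := by
    rw [hj', Nat.mul_div_cancel_left _ (pow_pos hp.pos _)]
  have hj'p : ¬ p ∣ j' := by
    rintro ⟨i, hi⟩
    have : p ^ (s + 1) ∣ j := ⟨i, by rw [hj', hi]; ring⟩
    rw [padicValNat_dvd_iff_le (by omega)] at this
    omega
  rw [hj'1]
  have h5 : (j' : ℤ) * coeff j R = (p : ℤ) ^ (a - s + v) * (μ * T) := by
    have h6 : (p : ℤ) ^ s * ((j' : ℤ) * coeff j R) = (p : ℤ) ^ s * ((p : ℤ) ^ (a - s + v) * (μ * T)) := by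
      have e1 : (j : ℤ) = (p : ℤ) ^ s * j' := by rw [hj']; push_cast; rfl
      have e2 : (p : ℤ) ^ s * (p : ℤ) ^ (a - s + v) = (p : ℤ) ^ v * (p : ℤ) ^ a := by
        rw [← pow_add, ← pow_add]
        congr 1
        omega
      calc (p : ℤ) ^ s * ((j' : ℤ) * coeff j R) = (j : ℤ) * coeff j R := by rw [e1]; ring
        _ = ((p ^ v * μ : ℕ) : ℤ) * ((p ^ a : ℕ) : ℤ) * T := h4
        _ = ((p : ℤ) ^ v * (p : ℤ) ^ a) * (μ * T) := by push_cast; ring
        _ = _ := by rw [← e2]; ring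
    exact mul_left_cancel₀ (pow_ne_zero _ hp0) h6
  have hcop : IsCoprime ((p : ℤ) ^ (a - s + v)) (j' : ℤ) := by
    apply IsCoprime.pow_left
    rw [Int.isCoprime_iff_gcd_eq_one, Int.gcd_natCast_natCast]
    exact (Nat.Prime.coprime_iff_not_dvd hp).2 hj'p
  obtain ⟨c, hc⟩ := hcop.dvd_of_dvd_mul_left (Dvd.intro _ h5.symm)
  refine ⟨c, hc.symm, ?_⟩
  have h7 : (j' : ℤ) * c = μ * T := by
    have h8 : (p : ℤ) ^ (a - s + v) * ((j' : ℤ) * c) = (p : ℤ) ^ (a - s + v) * (μ * T) := by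
      rw [← h5, hc]; ring
    exact mul_left_cancel₀ (pow_ne_zero _ hp0) h8
  rw [h7]
  have e3 : (μ : ℤ) * T - μ = μ * (T - 1) := by ring
  rw [e3]
  exact h3.mul_left _

end Pool.Agent.K9h30.CP
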