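import Pool.Agent.K9h30.CP.Stm4
import Pool.Agent.K9h30.CP.RR

/-! MP_9acee6_nt, leaf CP-RR2: the coefficients of `G^M` at `n` prime to `p`. -/

set_option autoImplicit false

open PowerSeries Finset

namespace Pool.Agent.K9h30.CP

theorem rr2 : S_RR2 := by
  intro p v M n hp hp2 hM hn
  have hn0 : 1 ≤ n := by
    rcases Nat.eq_zero_or_pos n with h | h
    · exact absurd (h ▸ dvd_zero p) hn
    · exact h
  obtain ⟨μ, rfl⟩ := hM
  have hdef : P1 p = (1 - X ^ p) * y ^ p := rfl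
  rw [hdef]
  set P : ℤ⟦X⟧ := (1 - X ^ p) * y ^ p with hP
  have hb : (p : ℤ⟦X⟧) ∣ P - 1 := by
    have := rr_base p 1 hp hp2
    rwa [pow_one, ← hP] at this
  have h1 : (p : ℤ⟦X⟧) ^ (v + 1) ∣ P ^ (p ^ v * μ) - 1 := by
    have h2 := dvd_sub_pow_of_dvd_sub hb v
    rw [one_pow] at h2
    rw [pow_mul]
    exact h2.trans (sub_one_dvd_pow_sub_one _ _)
  have h2 : ∀ j, 1 ≤ j → (p : ℤ) ^ (v + 1) ∣ coeff j (P ^ (p ^ v * μ)) := fun j hj =>
    rr_coeff p v _ h1 j hj
  set R := P ^ (p ^ v * μ) with hR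
  have hR0 : coeff 0 R = 1 := by
    have hp1 := hp.pos
    rw [hR, hP, PowerSeries.coeff_zero_eq_constantCoeff_apply, map_pow, map_mul, map_sub, map_pow,
      map_pow, PowerSeries.constantCoeff_X, map_one, zero_pow (by omega)]
    have : PowerSeries.constantCoeff y = 1 := by
      unfold y
      rw [← PowerSeries.coeff_zero_eq_constantCoeff_apply]
      simp
    rw [this]
    simp
  have h3 : (p : ℤ) ^ (v + 1) ∣ coeff n (rr_E p * R) - 1 := by
    rw [PowerSeries.coeff_mul]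
    rw [← Finset.sum_erase_add _ _ (show (n, 0) ∈ antidiagonal n by simp)]
    rw [hR0, rr_E_coeff _ _ hp.one_le, if_neg hn, mul_one, add_sub_cancel_right]
    apply dvd_sum
    rintro ⟨i, l⟩ hil
    rw [mem_erase, HasAntidiagonal.mem_antidiagonal] at hil
    simp only at hil ⊢
    have hl : 1 ≤ l := by
      rcases Nat.eq_zero_or_pos l with h | h
      · exfalso
        apply hil.1
        rw [h] at hil ⊢
        rw [← hil.2, add_zero]
      · exact h
    exact (h2 l hl).mul_left _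
  have h4 := rr_rec p (p ^ v * μ) n hp.one_le
  rw [← hP, ← hR] at h4
  rw [h4]
  have e1 : (((p ^ v * μ : ℕ) : ℤ) * (p : ℤ) * coeff n (rr_E p * R) - (p : ℤ) * ((p ^ v * μ : ℕ) : ℤ)) =
      (p : ℤ) ^ (v + 1) * (coeff n (rr_E p * R) - 1) * μ := by
    push_cast
    ring
  rw [e1]
  have e2 : (p : ℤ) ^ (2 * v + 2) = (p : ℤ) ^ (v + 1) * (p : ℤ) ^ (v + 1) := by ring
  rw [e2]
  exact (mul_dvd_mul_left _ h3).mul_right _

end Pool.Agent.K9h30.CP
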