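import Pool.Agent.K9h30.CP.Stm3
import Pool.Agent.K9h30.CP.Dig

/-!
# MP_9acee6_nt: leaves SEC and TW (helper24, for helper30)
-/

set_option autoImplicit false

open PowerSeries Finset
open Pool.Agent.Results.MP_9acee6_nt.Four (S V Automatic geom)

namespace Pool.Agent.K9h30.CP

namespace SecLeaf

open DigLeaf

/-- the product over the remaining digits of one block -/
noncomputable def K1 (p m : ℕ) : ℕ → ℤ⟦X⟧
  | 0 => 1
  | (j + 1) => P1 p ^ (m * p ^ j) * ex p (K1 p m j)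

theorem K1_eq (p m : ℕ) (hp : p ≠ 0) (j : ℕ) :
    K1 p m j = ((1 - X ^ p ^ j) * y ^ p ^ j) ^ m := by
  induction j with
  | zero =>
    have h : (1 - X ^ p ^ 0) * y ^ p ^ 0 = (1 : ℤ⟦X⟧) := by
      rw [pow_zero, pow_one, pow_one]; exact one_sub_mul_y
    rw [h, one_pow, K1]
  | succ j ih =>
    rw [K1, ih, ex_eq p hp, map_pow, map_mul, map_pow, map_sub, map_one, map_pow, expand_X,
      ← geom_one, expand_geom, mul_one, geom_one]
    rw [mul_comm m, pow_mul, ← mul_pow]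
    congr 1
    unfold P1
    have h2 := one_sub_mul_geom p hp
    have h3 : (1 - X ^ p) ^ p ^ j * geom p ^ p ^ j = (1 : ℤ⟦X⟧) := by
      rw [← mul_pow, h2, one_pow]
    rw [mul_pow, ← pow_mul, ← pow_mul, ← pow_succ']
    linear_combination ((1 - X ^ p ^ (j + 1)) * y ^ p ^ (j + 1)) * h3

theorem block (p a m : ℕ) (hp : p ≠ 0) (b : ℕ → ℕ) (hb : ∀ i, b i < p) (i : ℕ) (hi : i ≤ a) :
    ∀ t, coeff (∑ l ∈ range i, b l * p ^ l + p ^ i * t) (K1 p m a) =
      coeff t (run p a m b i * K1 p m (a - i)) := by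
  induction i with
  | zero =>
    intro t
    rw [run, one_mul, Nat.sub_zero]
    simp
  | succ i ih =>
    intro t
    have h1 : ∑ l ∈ range (i + 1), b l * p ^ l + p ^ (i + 1) * t
        = ∑ l ∈ range i, b l * p ^ l + p ^ i * (p * t + b i) := by
      rw [sum_range_succ]; ring
    obtain ⟨j, hj⟩ : ∃ j, a - i = j + 1 := ⟨a - i - 1, by omega⟩
    have hj' : a - (i + 1) = j := by omega
    have hj'' : a - 1 - i % a = j := by
      rw [Nat.mod_eq_of_lt (by omega : i < a)]; omega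
    rw [h1, ih (by omega), hj, K1, ← mul_assoc, run, hj', hj'', ex_eq p hp,
      ← U_mul_ex p (b i) hp (hb i), U, coeff_mk]

end SecLeaf

open SecLeaf DigLeaf in
/-- SEC -/
theorem sec : S_SEC := by
  intro a m b _ hb t
  have h := block 3 a m (by norm_num) b hb a le_rfl t
  rw [Nat.sub_self, K1, mul_one, K1_eq 3 m (by norm_num) a] at h
  rw [← h, Rk, add_comm]

namespace SecLeaf

open DigLeaf

theorem coeff_mul_one_sub_pow (f : ℤ⟦X⟧) (k n : ℕ) (hk : k ≤ n) :
    coeff n (f * (1 - X) ^ k) = ∑ i ∈ range (k + 1), (-1) ^ i * (k.choose i : ℤ) * coeff (n - i) f := by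
  have h : (1 - X : ℤ⟦X⟧) ^ k = ∑ i ∈ range (k + 1), PowerSeries.C ((-1) ^ i * (k.choose i : ℤ)) * X ^ i := by
    rw [sub_eq_neg_add, add_pow]
    apply sum_congr rfl
    intro i _
    rw [one_pow, mul_one, neg_pow]
    simp only [map_mul, map_pow, map_neg, map_one, map_natCast]
    ring
  rw [h, mul_sum, map_sum]
  apply sum_congr rfl
  intro i hi
  rw [mem_range] at hi
  rw [mul_left_comm, coeff_C_mul, coeff_mul_X_pow', if_pos (by omega)]

theorem Rk_rec (a N : ℕ) (hN : 1 ≤ N) :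
    Rk a N * (1 - X) ^ 3 ^ a = Rk a (N - 1) * (1 - X ^ 3 ^ a) := by
  obtain ⟨M, rfl⟩ : ∃ M, N = M + 1 := ⟨N - 1, by omega⟩
  rw [Nat.add_sub_cancel, Rk, Rk, pow_succ]
  have h : y ^ 3 ^ a * (1 - X) ^ 3 ^ a = (1 : ℤ⟦X⟧) := by
    rw [← mul_pow, mul_comm y, one_sub_mul_y, one_pow]
  linear_combination (((1 - X ^ 3 ^ a) * y ^ 3 ^ a) ^ M * (1 - X ^ 3 ^ a)) * h

theorem Rk_zero (a N : ℕ) : coeff 0 (Rk a N) = 1 := by
  rw [Rk, coeff_zero_eq_constantCoeff_apply, map_pow, map_mul, map_pow, y_zero]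
  simp

end SecLeaf

open SecLeaf in
/-- TW -/
theorem tw : S_TW := by
  intro a N t ha hN
  have hk : 0 < 3 ^ a := by positivity
  have hodd : Odd (3 ^ a) := Odd.pow (by decide)
  induction t with
  | zero => simp [Rk_zero]
  | succ t ih =>
    have h1 := congrArg (coeff (3 ^ a * (t + 1))) (Rk_rec a N hN)
    rw [coeff_mul_one_sub_pow _ _ _ (by nlinarith), mul_sub, mul_one, map_sub, coeff_mul_X_pow',
      if_pos (by nlinarith)] at h1
    have h2 : 3 ^ a * (t + 1) - 3 ^ a = 3 ^ a * t := by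
      rw [mul_add, mul_one, Nat.add_sub_cancel]
    rw [h2, sum_range_succ, ← Finset.sum_range_add_sum_Ico _ (show 1 ≤ 3 ^ a from hk),
      sum_range_one] at h1
    rw [Nat.choose_self, Nat.choose_zero_right, Nat.sub_zero, h2, pow_zero, hodd.neg_one_pow] at h1
    have h3 : ∑ i ∈ Ico 1 (3 ^ a), (-1 : ℤ) ^ i * ((3 ^ a).choose i : ℤ) *
        ∑ s ∈ range (t + 1), coeff (3 ^ a * s + (3 ^ a - i)) (Rk a N) =
        ∑ i ∈ Ico 1 (3 ^ a), (-1 : ℤ) ^ i * ((3 ^ a).choose i : ℤ) *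
        ∑ s ∈ range t, coeff (3 ^ a * s + (3 ^ a - i)) (Rk a N) +
        ∑ i ∈ Ico 1 (3 ^ a), (-1 : ℤ) ^ i * ((3 ^ a).choose i : ℤ) *
          coeff (3 ^ a * (t + 1) - i) (Rk a N) := by
      rw [← sum_add_distrib]
      apply sum_congr rfl
      intro i hi
      rw [mem_Ico] at hi
      rw [sum_range_succ, mul_add]
      congr 4
      rw [mul_add, mul_one]
      omega
    rw [h3]
    push_cast at h1 ⊢
    linarith

end Pool.Agent.K9h30.CP
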