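import Pool.Agent.K9h30.CP.Stm5
import Pool.Agent.K9h30.CP.Sec

/-!
# MP_9acee6_nt: leaves SECp and TWp (helper24, for helper30)
-/

set_option autoImplicit false

open PowerSeries Finset
open Pool.Agent.Results.MP_9acee6_nt.Four (S V Automatic geom)

namespace Pool.Agent.K9h30.CP

open SecLeaf DigLeaf in
/-- SECp -/
theorem secp : S_SECp := by
  intro p a m b hp _ hb t
  have h := block p a m hp.ne_zero b hb a le_rfl t
  rw [Nat.sub_self, K1, mul_one, K1_eq p m hp.ne_zero a] at h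
  rw [← h, Rkp, add_comm]

namespace SecPLeaf

open DigLeaf

theorem Rkp_rec (p a N : ℕ) (hN : 1 ≤ N) :
    Rkp p a N * (1 - X) ^ p ^ a = Rkp p a (N - 1) * (1 - X ^ p ^ a) := by
  obtain ⟨M, rfl⟩ : ∃ M, N = M + 1 := ⟨N - 1, by omega⟩
  rw [Nat.add_sub_cancel, Rkp, Rkp, pow_succ]
  have h : y ^ p ^ a * (1 - X) ^ p ^ a = (1 : ℤ⟦X⟧) := by
    rw [← mul_pow, mul_comm y, one_sub_mul_y, one_pow]
  linear_combination (((1 - X ^ p ^ a) * y ^ p ^ a) ^ M * (1 - X ^ p ^ a)) * h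

theorem Rkp_zero (p a N : ℕ) (hp : p ≠ 0) : coeff 0 (Rkp p a N) = 1 := by
  rw [Rkp, coeff_zero_eq_constantCoeff_apply, map_pow, map_mul, map_pow, y_zero]
  simp [hp]

end SecPLeaf

open SecLeaf SecPLeaf in
/-- TWp -/
theorem twp : S_TWp := by
  intro p a N t hp hp2 ha hN
  have hk : 0 < p ^ a := pow_pos hp.pos a
  have hodd : Odd (p ^ a) := Odd.pow (hp.odd_of_ne_two hp2)
  induction t with
  | zero => simp [Rkp_zero _ _ _ hp.ne_zero]
  | succ t ih =>
    have h1 := congrArg (coeff (p ^ a * (t + 1))) (Rkp_rec p a N hN)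
    rw [coeff_mul_one_sub_pow _ _ _ (by nlinarith), mul_sub, mul_one, map_sub, coeff_mul_X_pow',
      if_pos (by nlinarith)] at h1
    have h2 : p ^ a * (t + 1) - p ^ a = p ^ a * t := by
      rw [mul_add, mul_one, Nat.add_sub_cancel]
    rw [h2, sum_range_succ, ← Finset.sum_range_add_sum_Ico _ (show 1 ≤ p ^ a from hk),
      sum_range_one] at h1
    rw [Nat.choose_self, Nat.choose_zero_right, Nat.sub_zero, h2, pow_zero, hodd.neg_one_pow] at h1
    have h3 : ∑ i ∈ Ico 1 (p ^ a), (-1 : ℤ) ^ i * ((p ^ a).choose i : ℤ) *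
        ∑ s ∈ range (t + 1), coeff (p ^ a * s + (p ^ a - i)) (Rkp p a N) =
        ∑ i ∈ Ico 1 (p ^ a), (-1 : ℤ) ^ i * ((p ^ a).choose i : ℤ) *
        ∑ s ∈ range t, coeff (p ^ a * s + (p ^ a - i)) (Rkp p a N) +
        ∑ i ∈ Ico 1 (p ^ a), (-1 : ℤ) ^ i * ((p ^ a).choose i : ℤ) *
          coeff (p ^ a * (t + 1) - i) (Rkp p a N) := by
      rw [← sum_add_distrib]
      apply sum_congr rfl
      intro i hi
      rw [mem_Ico] at hi
      rw [sum_range_succ, mul_add]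
      congr 4
      rw [mul_add, mul_one]
      omega
    rw [h3]
    push_cast at h1 ⊢
    linarith

end Pool.Agent.K9h30.CP
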