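import Mathlib
import Pool.Agent.Results.MP_9acee6_nt.Four

/-!
# MP_9acee6_nt: `k = p ^ a` with `p` odd and `p ^ (a - 2) ∣ m`: statements (helper30)

`S k m n` is the coefficient of `x^n` in `H = F^m`, `H(x) = R(x) H(x^k)`, `R = ((1 - x^k) / (1 - x)^k)^m`.
With `G = (1 - x^p) / (1 - x)^p`: `R = ∏_{r < a} G(x^(p^r))^(m p^(a-1-r))`, so one base-`p` digit at a time:
`A ↦ U p b (A * G ^ M)`, `M = m p^(a-1-r)`.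
Every statement `S_…` is a `Prop`; it has to be proved as a theorem in a file of its own.
-/

set_option autoImplicit false

open PowerSeries Finset
open Pool.Agent.Results.MP_9acee6_nt.Four (S V Automatic geom)

namespace Pool.Agent.K9h30.CP

/-- `1 / (1 - x)` -/
noncomputable def y : ℤ⟦X⟧ := PowerSeries.mk 1

/-- `G = (1 - x^p) / (1 - x)^p` (for `p = 3`: `1 + 3 z + 3 z²`, `z = x / (1 - x)`) -/
noncomputable def P1 (p : ℕ) : ℤ⟦X⟧ := (1 - X ^ p) * y ^ p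

/-- the section `∑ f_(p n + b) x^n` -/
noncomputable def U (p b : ℕ) (f : ℤ⟦X⟧) : ℤ⟦X⟧ := PowerSeries.mk fun n => coeff (p * n + b) f

/-- `f (x^k)` -/
noncomputable def ex (k : ℕ) (f : ℤ⟦X⟧) : ℤ⟦X⟧ :=
  PowerSeries.mk fun n => if k ∣ n then coeff (n / k) f else 0

/-- `H = ∑ S k m n x^n` -/
noncomputable def ser (k m : ℕ) : ℤ⟦X⟧ := PowerSeries.mk fun n => S k m n

/-- `i` digits `b 0, …, b (i - 1)` in base `p` (the least significant digit first) -/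
noncomputable def run (p a m : ℕ) (b : ℕ → ℕ) : ℕ → ℤ⟦X⟧
  | 0 => 1
  | (i + 1) => U p (b i) (run p a m b i * P1 p ^ (m * p ^ (a - 1 - i % a)))

/-- DIG -/
def S_DIG : Prop := ∀ p a m : ℕ, p.Prime → 1 ≤ a →
  (∀ b : ℕ → ℕ, (∀ i, b i < p) → ∀ i, S (p ^ a) m (∑ l ∈ range i, b l * p ^ l) =
    coeff 0 (run p a m b i)) ∧
  (∀ t, S (p ^ a) m (p ^ a * t) = coeff t (run p a m (fun _ => 0) a * ser (p ^ a) m))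

/-- FUN -/
def S_FUN : Prop := ∀ k m : ℕ, 2 ≤ k →
  ser k m = ((1 - X ^ k) * y ^ k) ^ m * ex k (ser k m)

/-- LOG: the coefficients of `log G = p ∑_{p ∤ n} x^n / n` at the multiples of `p` vanish;
`log G = ∑ (-1)^(l+1) (G - 1)^l / l` and `x d/dx log G = p x / (1 - x) - p x^p / (1 - x^p)` -/
def S_LOG : Prop := ∀ p n : ℕ, p.Prime → 1 ≤ n → p ∣ n →
  ∑ l ∈ Icc 1 n, ((-1 : ℚ) ^ (l + 1) / l) * ((coeff n ((P1 p - 1) ^ l) : ℤ) : ℚ) = 0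

/-- U0: `p` odd, `m = p^v μ`; from LOG: for `p ∣ n`, `n ≥ 1`,
`coeff n (P1 p ^ m) = ∑_{l ≥ 2} γ_l coeff n ((P1 p - 1)^l)`, `γ_l = binom m l - (-1)^(l+1) m / l`,
`P1 p - 1 = p ζ`, `ζ_i ≡ 1 / i` for `p ∤ i`, `ζ_i ≡ 0` for `p ∣ i` modulo `p`. -/
def S_U0 : Prop := ∀ p v μ t : ℕ, p.Prime → p ≠ 2 → 1 ≤ μ → ¬ p ∣ μ → 1 ≤ t →
  (5 ≤ p → (p : ℤ) ^ (2 * v + 3) ∣ coeff t (U p 0 (P1 p ^ (p ^ v * μ)))) ∧
  (p = 3 → 1 ≤ v →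
    (3 : ℤ) ^ (2 * v + 3) ∣ coeff t (U 3 0 (P1 3 ^ (3 ^ v * μ))) + 3 ^ (2 * v + 2) * μ ^ 2 * t) ∧
  (p = 3 → v = 0 → (27 : ℤ) ∣ coeff t (U 3 0 (P1 3 ^ μ)) + 9 * (μ ^ 2 + μ) * t)

/-- RR: `R = ((1 - x^k) / (1 - x)^k)^m`, `k = p^a`, `m = p^v μ`, `p ∤ μ`; `x R' = m k (∑_{k ∤ i} x^i) R` and
`R ≡ 1 mod p^(v+1)`, so `R_j = (m k / j) (1 + O(p^(v+1)))` for `k ∤ j` -/
def S_RR : Prop := ∀ p a v μ j : ℕ, p.Prime → p ≠ 2 → 1 ≤ a → 1 ≤ μ → ¬ p ∣ μ → 1 ≤ j →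
  (p : ℤ) ^ (v + 1) ∣ coeff j (((1 - X ^ p ^ a) * y ^ p ^ a) ^ (p ^ v * μ)) ∧
  (¬ p ^ a ∣ j → ∃ c : ℤ, (p : ℤ) ^ (a - padicValNat p j + v) * c =
      coeff j (((1 - X ^ p ^ a) * y ^ p ^ a) ^ (p ^ v * μ)) ∧
    (p : ℤ) ∣ (j / p ^ padicValNat p j : ℕ) * c - μ)

/-- FORM: the explicit valuations -/
def S_FORM : Prop := ∀ p a m : ℕ, p.Prime → p ≠ 2 → 2 ≤ a → 0 < m → p ^ (a - 2) ∣ m →
  ¬ (p = 3 ∧ 3 ≤ a ∧ m % 3 ^ (a - 1) = 3 ^ (a - 2)) → ∀ n, 1 ≤ n →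
  emultiplicity (p : ℤ) (S (p ^ a) m n) = ((padicValNat p m + a - padicValNat p n % a : ℕ) : ℕ∞)

/-- forward differences at `0` -/
def mu (j : ℕ) (f : ℕ → ℤ) : ℤ := ∑ i ∈ range (j + 1), (-1) ^ (j - i) * (j.choose i : ℤ) * f i

/-- the class: `3 ^ (e + ⌊log_3 j⌋) ∣ mu j f` for `j ≥ 1` -/
def CL (e : ℕ) (f : ℕ → ℤ) : Prop := ∀ j, 1 ≤ j → (3 : ℤ) ^ (e + Nat.log 3 j) ∣ mu j f

/-- coefficients of a power series as a function -/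
noncomputable def cf (f : ℤ⟦X⟧) : ℕ → ℤ := fun n => coeff n f

/-- CLU: `f(3t+b) = ∑_j mu_j f binom(3t+b, j)`, `binom(3t+b,j) = ∑_i κ_ij binom(t,i)`,
`κ_ij = [T^j] (1+T)^b ((1+T)^3-1)^i` is divisible by `3^(i - ⌊(j-i)/2⌋)` -/
def S_CLU : Prop := ∀ (e b : ℕ) (f : ℕ → ℤ), b < 3 → CL e f → CL (e + 1) fun t => f (3 * t + b)

/-- CLG: multiplication by `G^M = (1 + 3 z + 3 z²)^M`; multiplication by `z = x/(1-x)` shifts `mu` -/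
def S_CLG : Prop := ∀ (e v M : ℕ) (f : ℤ⟦X⟧), 3 ^ v ∣ M → CL e (cf f) → (3 : ℤ) ^ e ∣ coeff 0 f →
  CL (e + v) (cf (f * (P1 3 ^ M - 1)))

/-- a state: `f ≡ α + β t` modulo a small class, `β / 3^d` a unit -/
def St (d : ℕ) (f : ℤ⟦X⟧) : Prop := (3 : ℤ) ^ d ∣ coeff 0 f ∧ (3 : ℤ) ^ d ∣ mu 1 (cf f) ∧
  ¬ (3 : ℤ) ^ (d + 1) ∣ mu 1 (cf f) ∧ ∀ j, 2 ≤ j → (3 : ℤ) ^ (d + 1 + Nat.log 3 j) ∣ mu j (cf f)

/-- ENG: one digit gains one factor `3` -/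
def S_ENG : Prop := ∀ (d M : ℕ) (f : ℤ⟦X⟧), 3 ∣ M → St d f → ∃ b < 3, St (d + 1) (U 3 b (f * P1 3 ^ M))

/-- INI1: `3^v ∣ M`, `v ≥ 1`: `U_0 (G^M) - 1` is in the class of exponent `2v+2`, and it is
`(9 M² / 2) U_0(Z²)`, `Z² = x²/(1-x)^4`, `U_0(Z²)_t = t (9 t² - 1) / 2`, up to the class of exponent `2v+3` -/
def S_INI1 : Prop := ∀ v M : ℕ, 1 ≤ v → 1 ≤ M → 3 ^ v ∣ M →
  CL (2 * v + 2) (cf (U 3 0 (P1 3 ^ M) - 1)) ∧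
  CL (2 * v + 3) fun t => 4 * coeff t (U 3 0 (P1 3 ^ M) - 1) + 9 * (M : ℤ) ^ 2 * t

/-- INI2: the state after the digits `0, …, 0, 1` (`a + 1` digits) -/
def S_INI2 : Prop := ∀ a m : ℕ, 3 ≤ a → m % 3 ^ (a - 1) = 3 ^ (a - 2) →
  St (2 * (a - 2) + 3) (run 3 a m (fun i => if i = a then 1 else 0) (a + 1))

/-- UNB -/
def S_UNB : Prop := ∀ a m : ℕ, 3 ≤ a → m % 3 ^ (a - 1) = 3 ^ (a - 2) →
  ∀ d, ∃ n, (3 : ℤ) ^ d ∣ S (3 ^ a) m n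

/-- AUT: a sequence given by the explicit formula is automatic and bounded -/
def S_AUT : Prop := ∀ (p a c : ℕ) (e : ℕ → ℕ∞), p.Prime → 1 ≤ a → e 0 = 0 →
  (∀ n, 1 ≤ n → e n = ((c - padicValNat p n % a : ℕ) : ℕ∞)) →
  Automatic p e ∧ ∃ B : ℕ, ∀ n, e n ≤ B

/-- AB: automatic implies bounded for `V`, and `S > 0`, `S k m 0 = 1` (see `Four.lean`) -/
def S_AB : Prop := ∀ p a m : ℕ, p.Prime → 1 ≤ a → 0 < m →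
  (∀ n, 0 < S (p ^ a) m n) ∧ S (p ^ a) m 0 = 1 ∧
  (Automatic p (V p a m) → ∃ B : ℕ, ∀ n, V p a m n ≤ B)

end Pool.Agent.K9h30.CP
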