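import Pool.Agent.K9h30.CP.Stm3
import Pool.Agent.K9h30.CP.Cls
import Pool.Agent.K9h30.CP.Ini2
import Pool.Agent.K9h30.CP.G3
import Pool.Agent.K9h30.CP.Log

/-! MP_9acee6_nt, leaf CP-UB: the sections of `((1 - x^k) / (1 - x)^k)^N` at `b ≠ 0` (helper42). -/

set_option autoImplicit false

open PowerSeries Finset

namespace Pool.Agent.K9h30.CP

/-- `G ^ M - 1` is in the class of exponent `v + 1` -/
lemma ub_G (v M : ℕ) (hM : 3 ^ v ∣ M) : CL (v + 1) (cf (P1 3 ^ M - 1)) := by
  have hg := CL_mono (by omega : v + 1 ≤ v + 2) (g3 v M hM)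
  set c2 : ℤ := ((M.choose 2 : ℕ) : ℤ) with hc2
  set c3 : ℤ := ((M.choose 3 : ℕ) : ℤ) with hc3
  have hMd : (3 : ℤ) ^ v ∣ (M : ℤ) := by exact_mod_cast hM
  have h2 : (3 : ℤ) ^ v ∣ c2 := by
    apply dvd2
    rw [hc2, ch2]
    exact hMd.mul_right _
  have h3 : (3 : ℤ) ^ (v + 2) ∣ 27 * c3 := by
    apply dvd2
    have e : 2 * (27 * c3) = 9 * (M * (M - 1) * (M - 2)) := by
      rw [← ch3 M]; ring
    rw [e, add_comm v 2, pow_add]
    have : (9 : ℤ) = 3 ^ 2 := by norm_num
    rw [this]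
    exact mul_dvd_mul_left _ ((hMd.mul_right _).mul_right _)
  have h4 : (3 : ℤ) ^ (v + 2) ∣ 9 * c2 := by
    rw [add_comm v 2, pow_add]
    have : (9 : ℤ) = 3 ^ 2 := by norm_num
    rw [this]
    exact mul_dvd_mul_left _ h2
  have h5 : (3 : ℤ) ^ (v + 1) ∣ 3 * M := by
    rw [pow_succ']
    exact mul_dvd_mul_left _ hMd
  set k : ℕ → ℤ := fun j => if j = 0 then 0 else if j = 1 then 3 * (M : ℤ) else
    if j = 2 then 9 * c2 else if j = 3 then 9 * c2 + 27 * c3 else
    if j = 4 then 2 * (27 * c3) else if j = 5 then 27 * c3 else 0 with hk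
  have hpoly : CL (v + 1) (bin6 k) := by
    intro j hj
    rw [mu_bin6]
    by_cases h6 : j ≤ 5
    · rw [if_pos h6]
      have w2 : (3 : ℤ) ^ (v + 1 + 0) ∣ 9 * c2 := (pow_dvd_pow 3 (by omega)).trans h4
      interval_cases j
      · have : k 1 = 3 * (M : ℤ) := by simp [hk]
        rw [this, show Nat.log 3 1 = 0 by norm_num]
        exact h5
      · have : k 2 = 9 * c2 := by simp [hk]
        rw [this, show Nat.log 3 2 = 0 by norm_num]
        exact w2
      · have : k 3 = 9 * c2 + 27 * c3 := by simp [hk]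
        rw [this, show Nat.log 3 3 = 1 by norm_num]
        exact dvd_add h4 h3
      · have : k 4 = 2 * (27 * c3) := by simp [hk]
        rw [this, show Nat.log 3 4 = 1 by norm_num]
        exact h3.mul_left _
      · have : k 5 = 27 * c3 := by simp [hk]
        rw [this, show Nat.log 3 5 = 1 by norm_num]
        exact h3
    · rw [if_neg h6]; exact dvd_zero _
  have hsum := CL_add hg hpoly
  convert hsum using 1
  funext t
  unfold bin6 cf
  have e1 : k 0 = 0 := by simp [hk]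
  have e2 : k 1 = 3 * (M : ℤ) := by simp [hk]
  have e3 : k 2 = 9 * c2 := by simp [hk]
  have e4 : k 3 = 9 * c2 + 27 * c3 := by simp [hk]
  have e5 : k 4 = 2 * (27 * c3) := by simp [hk]
  have e6 : k 5 = 27 * c3 := by simp [hk]
  have f1 : (((t + 1).choose 3 : ℕ) : ℤ) = (t.choose 2 : ℕ) + (t.choose 3 : ℕ) := by
    rw [Nat.choose_succ_succ]; push_cast; ring
  have f2 : (((t + 2).choose 5 : ℕ) : ℤ) = (t.choose 3 : ℕ) + 2 * (t.choose 4 : ℕ) +
      (t.choose 5 : ℕ) := by
    rw [Nat.choose_succ_succ (t + 1) 4, Nat.choose_succ_succ t 3, Nat.choose_succ_succ t 4]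
    push_cast; ring
  rw [e1, e2, e3, e4, e5, e6, f1, f2, Nat.choose_one_right]
  ring

/-- multiplication by a power of `G` preserves a class with divisible constant term -/
lemma ub_mul {e : ℕ} {f : ℤ⟦X⟧} (hf : CL e (cf f)) (h0 : (3 : ℤ) ^ e ∣ coeff 0 f) (M : ℕ) :
    CL e (cf (f * P1 3 ^ M)) ∧ coeff 0 (f * P1 3 ^ M) = coeff 0 f := by
  have h1 := clg e 0 M f (by simp) hf h0
  rw [add_zero] at h1
  constructor
  · have h2 := CL_add hf h1
    convert h2 using 1
    funext n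
    simp only [cf, mul_sub, mul_one, map_sub]
    ring
  · rw [coeff_mul_zero, P1_pow_zero 3 M (by norm_num), mul_one]

/-- one digit for a class with divisible constant term -/
lemma ub_step {e : ℕ} {f : ℤ⟦X⟧} (hf : CL e (cf f)) (h0 : (3 : ℤ) ^ e ∣ coeff 0 f) (M : ℕ) {b : ℕ}
    (hb : b < 3) : CL e (cf (U 3 b (f * P1 3 ^ M))) ∧
      (3 : ℤ) ^ e ∣ coeff 0 (U 3 b (f * P1 3 ^ M)) := by
  obtain ⟨h1, h2⟩ := ub_mul hf h0 M
  refine ⟨CL_mono (by omega) (CL_U clu hb h1), ?_⟩
  have h3 := CL_val h1 (by rw [cf, h2]; exact h0) (3 * 0 + b)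
  have e1 : coeff 0 (U 3 b (f * P1 3 ^ M)) = cf (f * P1 3 ^ M) (3 * 0 + b) := by
    simp [U, cf]
  rw [e1]
  exact h3

/-- the zero digits at the beginning -/
lemma ub_chain (a N l : ℕ) (hl : 1 ≤ l) (hN : 1 ≤ N) (hd : 3 ^ l ∣ N) (d : ℕ → ℕ) :
    ∀ i, i < a → (∀ j < i, d j = 0) →
      CL (2 * (l + (a - i)) + 2) (cf (run 3 a N d i - 1)) ∧ coeff 0 (run 3 a N d i) = 1 := by
  intro i
  induction i with
  | zero =>
    intro _ _
    have e : run 3 a N d 0 - 1 = 0 := by simp [run]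
    rw [e]
    refine ⟨?_, by simp [run]⟩
    have : cf (0 : ℤ⟦X⟧) = fun _ => 0 := by funext n; simp [cf]
    rw [this]
    exact CL_const _ _
  | succ i ih =>
    intro hi h0
    obtain ⟨h1, h2⟩ := ih (by omega) fun j hj => h0 j (by omega)
    set A := run 3 a N d i with hA
    set M := N * 3 ^ (a - 1 - i) with hM
    have e : run 3 a N d (i + 1) = U 3 0 (A * P1 3 ^ M) := by
      rw [run, h0 i (by omega), Nat.mod_eq_of_lt (by omega)]
    have hv : 3 ^ (l + (a - 1 - i)) ∣ M := by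
      rw [pow_add]
      exact mul_dvd_mul_right hd _
    have hE0 : coeff 0 (A - 1) = 0 := by
      rw [map_sub, h2]; simp
    have hini := (ini1 log_van clu (l + (a - 1 - i)) M (by omega)
      (Nat.mul_pos hN (by positivity)) hv).1
    obtain ⟨h3, _⟩ := ub_mul h1 (by rw [hE0]; exact dvd_zero _) M
    have h4 := CL_U clu (b := 0) (by norm_num) h3
    have e2 : run 3 a N d (i + 1) - 1 = U 3 0 ((A - 1) * P1 3 ^ M) + (U 3 0 (P1 3 ^ M) - 1) := by
      rw [e]
      have : A * P1 3 ^ M = (A - 1) * P1 3 ^ M + P1 3 ^ M := by ring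
      rw [this, U_add]
      ring
    refine ⟨?_, ?_⟩
    · rw [e2, cf_add]
      refine CL_add (CL_mono ?_ h4) (CL_mono ?_ hini)
      · omega
      · omega
    · rw [e, U_coeff_zero, coeff_mul_zero, h2, P1_pow_zero 3 _ (by norm_num), mul_one]

/-- the digits of `b` -/
lemma ub_digits (b n : ℕ) : ∑ i ∈ range n, b / 3 ^ i % 3 * 3 ^ i = b % 3 ^ n := by
  induction n with
  | zero => simp [Nat.mod_one]
  | succ n ih =>
    rw [sum_range_succ, ih, Nat.mod_pow_succ]
    ring

theorem ub (sec : S_SEC) : S_UB := by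
  intro a N l b ha hl hN hd hb0 hb
  set s := padicValNat 3 b with hs
  have hfact : Fact (Nat.Prime 3) := ⟨Nat.prime_three⟩
  obtain ⟨b', hb'⟩ : 3 ^ s ∣ b := pow_padicValNat_dvd
  have hb'3 : ¬ 3 ∣ b' := by
    rintro ⟨i, hi⟩
    have : 3 ^ (s + 1) ∣ b := ⟨i, by rw [hb', hi]; ring⟩
    rw [padicValNat_dvd_iff_le (by omega)] at this
    omega
  have hb'0 : 0 < b' := Nat.pos_of_ne_zero (by rintro rfl; exact hb'3 (dvd_zero 3))
  have hsa : s < a := by
    by_contra h
    have h1 : 3 ^ a ≤ 3 ^ s := Nat.pow_le_pow_right (by norm_num) (not_lt.1 h)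
    have h2 : 3 ^ s ≤ b := by rw [hb']; exact Nat.le_mul_of_pos_right _ hb'0
    omega
  set d : ℕ → ℕ := fun i => b / 3 ^ i % 3 with hdd
  have hd3 : ∀ i, d i < 3 := fun i => Nat.mod_lt _ (by norm_num)
  have hdsum : ∑ i ∈ range a, d i * 3 ^ i = b := by
    rw [hdd]
    simp only
    rw [ub_digits, Nat.mod_eq_of_lt hb]
  have hd0 : ∀ j < s, d j = 0 := by
    intro j hj
    have e1 : b = 3 ^ j * (3 * (3 ^ (s - j - 1) * b')) := by
      calc b = 3 ^ s * b' := hb'
        _ = 3 ^ (j + 1 + (s - j - 1)) * b' := by congr 2; omega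
        _ = 3 ^ j * (3 * (3 ^ (s - j - 1) * b')) := by rw [pow_add, pow_succ]; ring
    have e2 : b / 3 ^ j = 3 * (3 ^ (s - j - 1) * b') := by
      conv_lhs => rw [e1]
      exact Nat.mul_div_cancel_left _ (by positivity)
    rw [hdd]
    simp only
    rw [e2]
    exact Nat.mul_mod_right _ _
  have hds : 0 < d s := by
    have e2 : b / 3 ^ s = b' := by
      conv_lhs => rw [hb']
      exact Nat.mul_div_cancel_left _ (by positivity)
    rw [hdd]
    simp only
    rw [e2]
    exact Nat.pos_of_ne_zero fun h => hb'3 (Nat.dvd_of_mod_eq_zero h)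
  obtain ⟨hE, hE1⟩ := ub_chain a N l hl hN hd d s hsa hd0
  have key : ∀ i, i + (s + 1) ≤ a → CL (l + (a - s)) (cf (run 3 a N d (i + (s + 1)))) ∧
      (3 : ℤ) ^ (l + (a - s)) ∣ coeff 0 (run 3 a N d (i + (s + 1))) := by
    intro i
    induction i with
    | zero =>
      intro _
      rw [zero_add]
      set A := run 3 a N d s with hA
      set M := N * 3 ^ (a - 1 - s) with hM
      have hv : 3 ^ (l + (a - 1 - s)) ∣ M := by
        rw [pow_add]
        exact mul_dvd_mul_right hd _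
      have e : run 3 a N d (s + 1) = U 3 (d s) (A * P1 3 ^ M) := by
        rw [run, Nat.mod_eq_of_lt hsa]
      have hE0 : coeff 0 (A - 1) = 0 := by
        rw [map_sub, hE1]; simp
      have hE' : CL (l + (a - s)) (cf (A - 1)) := CL_mono (by omega) hE
      obtain ⟨h1, h1'⟩ := ub_mul hE' (by rw [hE0]; exact dvd_zero _) M
      have h2 : CL (l + (a - s)) (cf (P1 3 ^ M - 1)) := CL_mono (by omega) (ub_G _ M hv)
      have h3 : CL (l + (a - s)) (cf ((A - 1) * P1 3 ^ M + (P1 3 ^ M - 1))) := by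
        rw [cf_add]
        exact CL_add h1 h2
      have h4 : coeff 0 ((A - 1) * P1 3 ^ M + (P1 3 ^ M - 1)) = 0 := by
        rw [map_add, h1', hE0, map_sub, P1_pow_zero 3 _ (by norm_num)]
        simp
      have e3 : U 3 (d s) (A * P1 3 ^ M) = U 3 (d s) ((A - 1) * P1 3 ^ M + (P1 3 ^ M - 1)) := by
        have e4 : A * P1 3 ^ M = ((A - 1) * P1 3 ^ M + (P1 3 ^ M - 1)) + 1 := by ring
        rw [e4, U_add]
        have e5 : U 3 (d s) 1 = 0 := by
          ext n
          unfold U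
          rw [PowerSeries.coeff_mk, PowerSeries.coeff_one, if_neg (by omega), map_zero]
        rw [e5, add_zero]
      rw [e, e3]
      refine ⟨CL_mono (by omega) (CL_U clu (hd3 s) h3), ?_⟩
      have h5 := CL_val h3 (by rw [cf, h4]; exact dvd_zero _) (3 * 0 + d s)
      simpa [U, cf] using h5
    | succ i ih =>
      intro hi
      obtain ⟨h1, h2⟩ := ih (by omega)
      have e : i + 1 + (s + 1) = (i + (s + 1)) + 1 := by ring
      rw [e, run]
      exact ub_step h1 h2 _ (hd3 _)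
  obtain ⟨h1, h2⟩ := key (a - (s + 1)) (by omega)
  have e1 : a - (s + 1) + (s + 1) = a := by omega
  rw [e1] at h1 h2
  have hsec : ∀ t, coeff t (run 3 a N d a) = coeff (3 ^ a * t + b) (Rk a N) := fun t => by
    rw [sec a N d ha hd3 t, hdsum]
  constructor
  · have e2 : (fun t => coeff (3 ^ a * t + b) (Rk a N)) = cf (run 3 a N d a) := by
      funext t
      exact (hsec t).symm
    rw [e2]
    exact h1
  · have := hsec 0
    rw [mul_zero, zero_add] at this
    rw [← this]
    exact h2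

theorem ub2 (sec : S_SEC) : S_UB2 := by
  intro a N l c ha hl hN hd hc0 hc
  set d : ℕ → ℕ := fun i => if i = a - 1 then c else 0 with hdd
  have hd3 : ∀ i, d i < 3 := fun i => by
    rw [hdd]; simp only; split_ifs <;> omega
  have hdsum : ∑ i ∈ range a, d i * 3 ^ i = c * 3 ^ (a - 1) := by
    rw [sum_eq_single (a - 1)]
    · simp [hdd]
    · intro i _ hi
      simp [hdd, hi]
    · intro h
      exact absurd (mem_range.2 (by omega)) h
  have hd0 : ∀ j < a - 1, d j = 0 := by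
    intro j hj
    simp [hdd, Nat.ne_of_lt hj]
  obtain ⟨hE, hE1⟩ := ub_chain a N l hl hN hd d (a - 1) (by omega) hd0
  have e0 : 2 * (l + (a - (a - 1))) + 2 = 2 * l + 4 := by omega
  rw [e0] at hE
  set A := run 3 a N d (a - 1) with hA
  have hE0 : coeff 0 (A - 1) = 0 := by
    rw [map_sub, hE1]; simp
  have hrun : run 3 a N d a = U 3 c (A * P1 3 ^ N) := by
    have e1 : run 3 a N d a = run 3 a N d (a - 1 + 1) := by congr 1; omega
    rw [e1, run, Nat.mod_eq_of_lt (by omega)]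
    have e2 : d (a - 1) = c := by simp [hdd]
    rw [e2, Nat.sub_self, pow_zero, mul_one]
  obtain ⟨h1, h2⟩ := ub_step hE (by rw [hE0]; exact dvd_zero _) N hc
  have hsec : ∀ t, coeff t (run 3 a N d a) = coeff (3 ^ a * t + c * 3 ^ (a - 1)) (Rk a N) :=
    fun t => by rw [sec a N d ha hd3 t, hdsum]
  have e3 : ∀ t, coeff (3 ^ a * t + c * 3 ^ (a - 1)) (Rk a N) - coeff (3 * t + c) (P1 3 ^ N) =
      coeff t (U 3 c ((A - 1) * P1 3 ^ N)) := by
    intro t
    rw [← hsec, hrun]
    have e4 : A * P1 3 ^ N = (A - 1) * P1 3 ^ N + P1 3 ^ N := by ring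
    rw [e4, U_add, map_add]
    have e5 : coeff t (U 3 c (P1 3 ^ N)) = coeff (3 * t + c) (P1 3 ^ N) := by simp [U]
    rw [e5]
    ring
  constructor
  · have e7 : (fun t => coeff (3 ^ a * t + c * 3 ^ (a - 1)) (Rk a N) -
        coeff (3 * t + c) (P1 3 ^ N)) = cf (U 3 c ((A - 1) * P1 3 ^ N)) := by
      funext t
      exact e3 t
    rw [e7]
    exact h1
  · have := e3 0
    rw [mul_zero, zero_add, mul_zero, zero_add] at this
    rw [this]
    exact h2

end Pool.Agent.K9h30.CP
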