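import Pool.Agent.K9h30.CP.Form
import Pool.Agent.K9h30.CP.Stm4

/-!
# MP_9acee6_nt: `p ≥ 5`: BLKp, UNBp (helper30)
-/

set_option autoImplicit false

open PowerSeries Finset
open Pool.Agent.Results.MP_9acee6_nt.Four (S V Automatic geom)

namespace Pool.Agent.K9h30.CP

section basics

variable {p : ℕ}

theorem CLp_mono {e e' : ℕ} (h : e' ≤ e) {f : ℕ → ℤ} (hf : CLp p e f) : CLp p e' f := fun j hj =>
  (pow_dvd_pow _ (by omega)).trans (hf j hj)

theorem CLp_add {e : ℕ} {f g : ℕ → ℤ} (hf : CLp p e f) (hg : CLp p e g) :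
    CLp p e fun n => f n + g n := by
  intro j hj
  rw [mu_add]
  exact dvd_add (hf j hj) (hg j hj)

theorem CLp_congr {e : ℕ} {f g : ℕ → ℤ} (h : ∀ t, f t = g t) (hf : CLp p e f) : CLp p e g := by
  have : f = g := funext h
  rwa [← this]

theorem CLp_const (e : ℕ) (c : ℤ) : CLp p e fun _ => c := by
  intro j hj
  rw [mu_const j hj]
  exact dvd_zero _

theorem CLp_lin {e : ℕ} {c : ℤ} (h : (p : ℤ) ^ e ∣ c) : CLp p e fun t => c * (t : ℤ) := by
  intro j hj
  rcases Nat.lt_or_ge j 2 with h' | h'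
  · have : j = 1 := by omega
    subst this
    rw [mu_one]
    simpa using h
  · have := mu_linear j h' 0 c
    simp only [zero_add] at this
    rw [this]
    exact dvd_zero _

theorem CLp_val {e : ℕ} {f : ℕ → ℤ} (hf : CLp p e f) (h0 : (p : ℤ) ^ e ∣ f 0) (n : ℕ) :
    (p : ℤ) ^ e ∣ f n := by
  rw [newton f n]
  apply dvd_sum
  intro j _
  apply Dvd.dvd.mul_left
  rcases Nat.eq_zero_or_pos j with rfl | hj
  · rw [mu_zero]; exact h0
  · exact (pow_dvd_pow _ (by omega)).trans (hf j hj)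

theorem CLp_U (clup : S_CLUp) (hp : p.Prime) {e b : ℕ} (hb : b < p) {f : ℤ⟦X⟧}
    (h : CLp p e (cf f)) : CLp p (e + 1) (cf (U p b f)) := by
  rw [cf_U]
  exact clup p e b (cf f) hp hb h

end basics

/-- the linear coefficient -/
theorem c_dvd (u0 : S_U0) (p v M : ℕ) (hp : p.Prime) (hp5 : 5 ≤ p) (hM : 1 ≤ M) (hv : p ^ v ∣ M) :
    (p : ℤ) ^ (2 * v + 3) ∣ coeff 1 (U p 0 (P1 p ^ M)) := by
  obtain ⟨v', μ, hμp, rfl⟩ := Nat.exists_eq_pow_mul_and_not_dvd (by omega : M ≠ 0) p hp.ne_one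
  have hμ : 1 ≤ μ := by
    rcases Nat.eq_zero_or_pos μ with rfl | h
    · simp at hμp
    · exact h
  have hvv : v ≤ v' := by
    have hc : Nat.Coprime (p ^ v) μ := Nat.Coprime.pow_left _ ((Nat.Prime.coprime_iff_not_dvd hp).mpr hμp)
    exact (Nat.pow_dvd_pow_iff_le_right hp.one_lt).mp (hc.dvd_of_dvd_mul_right hv)
  have := (u0 p v' μ 1 hp (by omega) hμ hμp le_rfl).1 hp5
  exact (pow_dvd_pow _ (by omega)).trans this

/-- `U_0(G^M) - 1` -/
theorem UG (u0 : S_U0) (inip : S_INIp) (p v M : ℕ) (hp : p.Prime) (hp5 : 5 ≤ p) (hM : 1 ≤ M)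
    (hv : p ^ v ∣ M) : CLp p (2 * v + 3) (cf (U p 0 (P1 p ^ M) - 1)) := by
  refine CLp_congr (fun t => ?_) (CLp_add (CLp_mono (by omega) (inip p v M hp hp5 hM hv))
    (CLp_lin (c_dvd u0 p v M hp hp5 hM hv)))
  simp only [cf]
  ring

theorem chainp (u0 : S_U0) (clup : S_CLUp) (clgp : S_CLGp) (inip : S_INIp) (p a m v : ℕ)
    (hp : p.Prime) (hp5 : 5 ≤ p) (hm : p ^ v ∣ m) (hm0 : 1 ≤ m) (b : ℕ → ℕ)
    (hb : ∀ i < a, b i = 0) :
    ∀ i, i < a →
      CLp p (2 * (v + (a - 1 - i)) + 6)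
        (cf (run p a m b (i + 1) - U p 0 (P1 p ^ (m * p ^ (a - 1 - i))))) ∧
      coeff 0 (run p a m b (i + 1)) = 1 := by
  have hp0 : p ≠ 0 := hp.ne_zero
  intro i
  induction i with
  | zero =>
    intro h0
    have e : run p a m b (0 + 1) = U p 0 (P1 p ^ (m * p ^ (a - 1 - 0))) := by
      simp only [run, one_mul, Nat.zero_mod, hb 0 h0]
    rw [e]
    refine ⟨?_, ?_⟩
    · rw [sub_self]
      have : cf (0 : ℤ⟦X⟧) = fun _ => 0 := by funext n; simp [cf]
      rw [this]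
      exact CLp_const _ _
    · rw [U_coeff_zero, P1_pow_zero p _ hp0]
  | succ i ih =>
    intro hi
    obtain ⟨h1, h2⟩ := ih (by omega)
    set M := m * p ^ (a - 1 - (i + 1)) with hM
    set A := run p a m b (i + 1) with hA
    have e : run p a m b (i + 1 + 1) = U p 0 (A * P1 p ^ M) := by
      rw [run, hb (i + 1) hi, Nat.mod_eq_of_lt hi]
    have hv : p ^ (v + (a - 1 - i)) ∣ m * p ^ (a - 1 - i) := by
      rw [pow_add]
      exact mul_dvd_mul_right hm _
    have hE : CLp p (2 * (v + (a - 1 - i)) + 3) (cf (A - 1)) := by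
      have h3 := UG u0 inip p (v + (a - 1 - i)) (m * p ^ (a - 1 - i)) hp hp5
        (Nat.mul_pos hm0 (Nat.pow_pos hp.pos)) hv
      have h4 := CLp_add (CLp_mono (by omega : 2 * (v + (a - 1 - i)) + 3 ≤
        2 * (v + (a - 1 - i)) + 6) h1) h3
      refine CLp_congr (fun t => ?_) h4
      simp only [cf, map_sub]
      ring
    have hE0 : coeff 0 (A - 1) = 0 := by
      rw [map_sub, h2]; simp
    have hEG : CLp p (2 * (v + (a - 1 - i)) + 3) (cf ((A - 1) * (P1 p ^ M - 1))) := by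
      have := clgp p _ 0 M (A - 1) hp (by omega) (by simp) hE (by rw [hE0]; exact dvd_zero _)
      simpa using this
    refine ⟨?_, ?_⟩
    · have hs : CLp p (2 * (v + (a - 1 - i)) + 3) (cf ((A - 1) + (A - 1) * (P1 p ^ M - 1))) := by
        rw [cf_add]
        exact CLp_add hE hEG
      have hs2 := CLp_U clup hp (b := 0) hp.pos hs
      have e3 : run p a m b (i + 1 + 1) - U p 0 (P1 p ^ M) =
          U p 0 ((A - 1) + (A - 1) * (P1 p ^ M - 1)) := by
        rw [e, ← U_sub]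
        congr 1
        ring
      rw [e3]
      refine CLp_mono ?_ hs2
      omega
    · rw [e, U_coeff_zero, coeff_mul_zero, h2, P1_pow_zero p _ hp0, mul_one]

theorem blkp (u0 : S_U0) (clup : S_CLUp) (clgp : S_CLGp) (inip : S_INIp) : S_BLKp := by
  intro p a m v hp hp5 ha hm hv
  obtain ⟨h1, h2⟩ := chainp u0 clup clgp inip p a m v hp hp5 hv hm (fun _ => 0) (fun _ _ => rfl)
    (a - 1) (by omega)
  have e1 : a - 1 - (a - 1) = 0 := by omega
  have e2 : a - 1 + 1 = a := by omega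
  rw [e1, e2, pow_zero, mul_one, add_zero] at h1
  rw [e2] at h2
  refine ⟨?_, h2⟩
  refine CLp_congr (fun t => ?_) (CLp_add (CLp_mono (by omega : 2 * v + 4 ≤ 2 * v + 6) h1)
    (inip p v m hp hp5 hm hv))
  simp only [cf, map_sub]
  ring

/-- zero digits after a block -/
theorem chain3p (u0 : S_U0) (clup : S_CLUp) (clgp : S_CLGp) (inip : S_INIp) (p a m v r : ℕ)
    (hp : p.Prime) (hp5 : 5 ≤ p) (ha : a = v + 3 + 2 * r) (hm : p ^ v ∣ m) (hm0 : 1 ≤ m)
    (b : ℕ → ℕ) (hb : ∀ i < a + r, b i = 0) : ∀ i, i ≤ r →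
      CLp p (2 * v + 4 + i) (fun t => coeff t (run p a m b (a + i) - 1) +
        (-(coeff 1 (U p 0 (P1 p ^ m)) * p ^ i)) * t) ∧
      coeff 0 (run p a m b (a + i)) = 1 := by
  have hp0 : p ≠ 0 := hp.ne_zero
  have hc := c_dvd u0 p v m hp hp5 hm0 hm
  set c := coeff 1 (U p 0 (P1 p ^ m)) with hcdef
  intro i
  induction i with
  | zero =>
    intro _
    obtain ⟨h1, h3⟩ := blkp u0 clup clgp inip p a m v hp hp5 (by omega) hm0 hm
    have h2 : run p a m b (a + 0) = run p a m (fun _ => 0) a :=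
      run_congr p a m a fun l hl => hb l (by omega)
    refine ⟨?_, ?_⟩
    · refine CLp_congr (fun t => ?_) h1
      rw [h2, hcdef]
      ring
    · rw [h2]; exact h3
  | succ i ih =>
    intro hi
    obtain ⟨h1, h2⟩ := ih (by omega)
    set M := m * p ^ (a - 1 - i) with hM
    set A := run p a m b (a + i) with hA
    have hmod : (a + i) % a = i := by
      rw [Nat.add_mod_left]
      exact Nat.mod_eq_of_lt (by omega)
    have e : run p a m b (a + (i + 1)) = U p 0 (A * P1 p ^ M) := by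
      rw [← add_assoc, run, hb (a + i) (by omega), hmod]
    have hv : p ^ (v + (a - 1 - i)) ∣ M := by
      rw [pow_add]
      exact mul_dvd_mul_right hm _
    have hE : CLp p (2 * v + 3 + i) (cf (A - 1)) := by
      have h3 : CLp p (2 * v + 3 + i) fun t => (c * p ^ i) * (t : ℤ) := by
        apply CLp_lin
        rw [pow_add]
        exact mul_dvd_mul_right hc _
      refine CLp_congr (fun t => ?_) (CLp_add (CLp_mono (by omega) h1) h3)
      simp only [cf]
      ring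
    have hE0 : coeff 0 (A - 1) = 0 := by
      rw [map_sub, h2]; simp
    have hEG : CLp p (2 * v + 4 + i) (cf ((A - 1) * (P1 p ^ M - 1))) := by
      have := clgp p _ (v + (a - 1 - i)) M (A - 1) hp (by omega) hv hE
        (by rw [hE0]; exact dvd_zero _)
      exact CLp_mono (by omega) this
    have hI := UG u0 inip p (v + (a - 1 - i)) M hp hp5
      (Nat.mul_pos hm0 (Nat.pow_pos hp.pos)) hv
    refine ⟨?_, ?_⟩
    · have p1 := clup p _ 0 _ hp hp.pos h1
      have p2 := CLp_U clup hp (b := 0) hp.pos hEG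
      have e7 : 2 * v + 4 + (i + 1) = 2 * v + 4 + i + 1 := by ring
      rw [e7]
      refine CLp_congr (fun t => ?_) (CLp_add (CLp_add p1 p2)
        (CLp_mono (by omega : 2 * v + 4 + i + 1 ≤ 2 * (v + (a - 1 - i)) + 3) hI))
      have e3 : run p a m b (a + (i + 1)) = U p 0 (A - 1) + U p 0 ((A - 1) * (P1 p ^ M - 1)) +
          U p 0 (P1 p ^ M) := by
        rw [e, ← U_add, ← U_add]
        congr 1
        ring
      rw [e3]
      have e4 : coeff t (U p 0 (A - 1)) = coeff (p * t + 0) (A - 1) := by simp [U]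
      simp only [cf, map_sub, map_add] at e4 ⊢
      rw [e4]
      push_cast
      ring
    · rw [e, U_coeff_zero, coeff_mul_zero, h2, P1_pow_zero p _ hp0, mul_one]

/-- a state -/
def Stp (p d : ℕ) (f : ℤ⟦X⟧) : Prop := (p : ℤ) ^ d ∣ coeff 0 f ∧ (p : ℤ) ^ d ∣ mu 1 (cf f) ∧
  ¬ (p : ℤ) ^ (d + 1) ∣ mu 1 (cf f) ∧ ∀ j, 2 ≤ j → (p : ℤ) ^ (d + 1 + Nat.log p j) ∣ mu j (cf f)

theorem G_mod (rr : S_RR) (p M : ℕ) (hp : p.Prime) (hp2 : p ≠ 2) : Dv (p : ℤ) (P1 p ^ M - 1) := by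
  intro n
  rcases Nat.eq_zero_or_pos n with rfl | hn
  · rw [map_sub, P1_pow_zero p _ hp.ne_zero]
    simp
  · have h0 : coeff n (1 : ℤ⟦X⟧) = 0 := by rw [coeff_one, if_neg (by omega)]
    rw [map_sub, h0, sub_zero]
    rcases Nat.eq_zero_or_pos M with rfl | hM
    · rw [pow_zero, h0]
      exact dvd_zero _
    obtain ⟨v', μ, hμp, rfl⟩ := Nat.exists_eq_pow_mul_and_not_dvd (by omega : M ≠ 0) p hp.ne_one
    have hμ : 1 ≤ μ := by
      rcases Nat.eq_zero_or_pos μ with rfl | h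
      · simp at hμp
      · exact h
    have := (rr p 1 v' μ n hp hp2 le_rfl hμ hμp hn).1
    rw [pow_one] at this
    exact (dvd_pow_self _ (by omega)).trans this

theorem coeff_y (n : ℕ) : coeff n y = 1 := by simp [y]

theorem coeff_Xy2 (n : ℕ) : coeff n (X * y ^ 2 : ℤ⟦X⟧) = n := by
  have h1 : ∀ n, coeff n (y ^ 2) = (n + 1 : ℤ) := by
    intro n
    rw [sq, coeff_mul]
    simp [coeff_y]
  rcases n with _ | n
  · simp
  · rw [coeff_succ_X_mul, h1]
    push_cast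
    ring

theorem engp (clup : S_CLUp) (clgp : S_CLGp) (lin : S_LIN) (rr : S_RR) (p d M : ℕ) (hp : p.Prime)
    (hp5 : 5 ≤ p) (hM : ¬ p ∣ M + 1) (f : ℤ⟦X⟧) (hf : Stp p d f) :
    ∃ b < p, Stp p (d + 1) (U p b (f * P1 p ^ M)) := by
  obtain ⟨h0, h1, h1', h2⟩ := hf
  have hpZ : (p : ℤ) ≠ 0 := by exact_mod_cast hp.ne_zero
  have hpI : Prime (p : ℤ) := Nat.prime_iff_prime_int.mp hp
  obtain ⟨α, hα⟩ := h0
  obtain ⟨β, hβ⟩ := h1
  have hβp : ¬ (p : ℤ) ∣ β := by
    rintro ⟨c, rfl⟩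
    exact h1' ⟨c, by rw [hβ]; ring⟩
  -- the digit
  obtain ⟨b, hb, hαβ⟩ : ∃ b : ℕ, b < p ∧ (p : ℤ) ∣ α + β * b := by
    have := Fact.mk hp
    have hβ0 : (β : ZMod p) ≠ 0 := by
      intro h
      exact hβp ((ZMod.intCast_zmod_eq_zero_iff_dvd β p).mp h)
    refine ⟨(-(α : ZMod p) / β).val, ZMod.val_lt _, ?_⟩
    rw [← ZMod.intCast_zmod_eq_zero_iff_dvd]
    push_cast
    rw [ZMod.natCast_val, ZMod.cast_id', id]
    field_simp
    ring
  refine ⟨b, hb, ?_⟩
  -- the remainder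
  set r : ℤ⟦X⟧ := f - PowerSeries.C ((p : ℤ) ^ d * α) * y - PowerSeries.C ((p : ℤ) ^ d * β) * (X * y ^ 2)
    with hr
  have hrc : ∀ n, cf r n = cf f n - ((p : ℤ) ^ d * α + ((p : ℤ) ^ d * β) * n) := by
    intro n
    simp only [cf, hr, map_sub, coeff_C_mul, coeff_y, coeff_Xy2]
    ring
  have hr0 : cf r 0 = 0 := by
    rw [hrc 0, ← hα]
    simp [cf]
  have hr1 : cf r 1 = 0 := by
    have := hβ
    rw [mu_one] at this
    rw [hrc 1]
    have h3 : cf f 0 = (p : ℤ) ^ d * α := hα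
    push_cast
    linear_combination this + h3
  have hrj : ∀ j, 2 ≤ j → mu j (cf r) = mu j (cf f) := by
    intro j hj
    have : cf r = fun n => cf f n - ((p : ℤ) ^ d * α + ((p : ℤ) ^ d * β) * n) := funext hrc
    rw [this, mu_sub, mu_linear j hj, sub_zero]
  have hrcl : CLp p (d + 1) (cf r) := by
    intro j hj
    rcases Nat.lt_or_ge j 2 with h | h
    · have : j = 1 := by omega
      subst this
      rw [mu_one, hr0, hr1]
      simp
    · rw [hrj j h]
      exact h2 j h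
  have hrG : CLp p (d + 1) (cf (r * (P1 p ^ M - 1))) := by
    have := clgp p (d + 1) 0 M r hp (by omega) (by simp) hrcl
      (by change _ ∣ cf r 0; rw [hr0]; exact dvd_zero _)
    simpa using this
  have hrG2 : CLp p (d + 1) (cf (r * P1 p ^ M)) := by
    refine CLp_congr (fun t => ?_) (CLp_add hrcl hrG)
    simp only [cf]
    rw [← map_add]
    congr 1
    ring
  have hrU := CLp_U clup hp hb hrG2
  obtain ⟨⟨a1, a2⟩, b1, b2⟩ := lin p M b hp hp5 hb
  have main : cf (U p b (f * P1 p ^ M)) = fun t => cf (U p b (r * P1 p ^ M)) t +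
      (((p : ℤ) ^ d * α) * coeff (p * t + b) (y * P1 p ^ M) +
       ((p : ℤ) ^ d * β) * coeff (p * t + b) (X * y ^ 2 * P1 p ^ M)) := by
    funext t
    simp only [cf, U, coeff_mk]
    have : f * P1 p ^ M = r * P1 p ^ M + (PowerSeries.C ((p : ℤ) ^ d * α) * (y * P1 p ^ M) +
        PowerSeries.C ((p : ℤ) ^ d * β) * (X * y ^ 2 * P1 p ^ M)) := by
      rw [hr]; ring
    rw [this, map_add, map_add, coeff_C_mul, coeff_C_mul]
  have hmu : ∀ j, mu j (cf (U p b (f * P1 p ^ M))) = mu j (cf (U p b (r * P1 p ^ M))) +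
      (((p : ℤ) ^ d * α) * mu j (fun t => coeff (p * t + b) (y * P1 p ^ M)) +
       ((p : ℤ) ^ d * β) * mu j (fun t => coeff (p * t + b) (X * y ^ 2 * P1 p ^ M))) := by
    intro j
    rw [main, mu_add, mu_add, mu_smul, mu_smul]
  have hG := G_mod rr p M hp (by omega)
  have k1 : (p : ℤ) ^ (d + 1 + 1) ∣ mu 1 (cf (U p b (f * P1 p ^ M))) -
      (p : ℤ) ^ (d + 1) * (β * (1 + M)) := by
    rw [hmu 1]
    have q1 := hrU 1 le_rfl
    simp only [Nat.log_one_right, add_zero] at q1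
    obtain ⟨x1, hx1⟩ := a1
    obtain ⟨x2, hx2⟩ := b1
    obtain ⟨x3, hx3⟩ := q1
    rw [hx1, hx3]
    have : mu 1 (fun t => coeff (p * t + b) (X * y ^ 2 * P1 p ^ M)) =
      (p : ℤ) ^ 2 * x2 + p * (1 + M) := by linarith
    rw [this]
    exact ⟨x3 + α * x1 + β * x2, by ring⟩
  refine ⟨?_, ?_, ?_, ?_⟩
  · have h3 : coeff 0 (U p b (f * P1 p ^ M)) = cf (r * P1 p ^ M) b +
      (((p : ℤ) ^ d * α) * coeff b (y * P1 p ^ M) +
       ((p : ℤ) ^ d * β) * coeff b (X * y ^ 2 * P1 p ^ M)) := by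
      have := congrFun main 0
      simp only [cf, mul_zero, zero_add] at this
      rw [this]
      simp [U, cf]
    rw [h3]
    apply dvd_add
    · apply CLp_val hrG2
      have : cf (r * P1 p ^ M) 0 = 0 := by
        simp only [cf] at hr0 ⊢
        rw [coeff_mul_zero, hr0, zero_mul]
      rw [this]; exact dvd_zero _
    · have m1 : (p : ℤ) ∣ coeff b (y * P1 p ^ M) - 1 := by
        have := Dv_mul_right hG y b
        have e : (P1 p ^ M - 1) * y = y * P1 p ^ M - y := by ring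
        rw [e, map_sub, coeff_y] at this
        exact this
      have m2 : (p : ℤ) ∣ coeff b (X * y ^ 2 * P1 p ^ M) - b := by
        have := Dv_mul_right hG (X * y ^ 2) b
        have e : (P1 p ^ M - 1) * (X * y ^ 2) = X * y ^ 2 * P1 p ^ M - X * y ^ 2 := by ring
        rw [e, map_sub, coeff_Xy2] at this
        exact this
      obtain ⟨x1, hx1⟩ := m1
      obtain ⟨x2, hx2⟩ := m2
      obtain ⟨x3, hx3⟩ := hαβ
      have e1 : coeff b (y * P1 p ^ M) = p * x1 + 1 := by linarith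
      have e2 : coeff b (X * y ^ 2 * P1 p ^ M) = p * x2 + b := by linarith
      rw [e1, e2]
      refine ⟨x3 + α * x1 + β * x2, ?_⟩
      linear_combination (p : ℤ) ^ d * hx3
  · obtain ⟨x, hx⟩ := k1
    exact ⟨p * x + β * (1 + M), by linear_combination hx⟩
  · intro hc
    have h5 := dvd_sub hc k1
    have e5 : mu 1 (cf (U p b (f * P1 p ^ M))) - (mu 1 (cf (U p b (f * P1 p ^ M))) -
      (p : ℤ) ^ (d + 1) * (β * (1 + M))) = (p : ℤ) ^ (d + 1) * (β * (1 + M)) := by ring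
    rw [e5, pow_succ] at h5
    have h6 := (mul_dvd_mul_iff_left (pow_ne_zero _ hpZ)).mp h5
    rcases hpI.dvd_or_dvd h6 with h7 | h7
    · exact hβp h7
    · apply hM
      have : (p : ℤ) ∣ ((M + 1 : ℕ) : ℤ) := by
        push_cast
        rwa [add_comm]
      exact_mod_cast this
  · intro j hj
    rw [hmu j]
    apply dvd_add
    · exact hrU j (by omega)
    · apply dvd_add
      · have e6 : d + 1 + 1 + Nat.log p j = d + (2 + Nat.log p j) := by ring
        rw [e6, pow_add, mul_assoc]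
        exact mul_dvd_mul_left _ (Dvd.dvd.mul_left (a2 j hj) _)
      · have e6 : d + 1 + 1 + Nat.log p j = d + (2 + Nat.log p j) := by ring
        rw [e6, pow_add, mul_assoc]
        exact mul_dvd_mul_left _ (Dvd.dvd.mul_left (b2 j hj) _)

theorem ini4 (u0 : S_U0) (clup : S_CLUp) (clgp : S_CLGp) (inip : S_INIp) (linc : S_LINC)
    (gb : S_GB) (rr2 : S_RR2) (p a m v r μ b₀ : ℕ) (W : ℤ) (hp : p.Prime) (hp5 : 5 ≤ p)
    (ha : a = v + 3 + 2 * r) (hmμ : m = p ^ v * μ) (hm0 : 1 ≤ m) (hμ : ¬ p ∣ μ)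
    (hW : (((2 * p - 1).choose (p - 1) : ℕ) - 1 : ℤ) = p ^ 3 * W) (hb0 : 0 < b₀) (hbp : b₀ < p)
    (hb : (p : ℤ) ∣ 2 + W * μ * (m + 1) * b₀ ^ 2) :
    Stp p (2 * v + 4 + r) (run p a m (fun i => if i = a + r then b₀ else 0) (a + r + 1)) := by
  have hp0 : p ≠ 0 := hp.ne_zero
  have hpZ : (p : ℤ) ≠ 0 := by exact_mod_cast hp.ne_zero
  have hpI : Prime (p : ℤ) := Nat.prime_iff_prime_int.mp hp
  have hm : p ^ v ∣ m := ⟨μ, hmμ⟩
  set b : ℕ → ℕ := fun i => if i = a + r then b₀ else 0 with hbdef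
  have hb00 : ∀ i < a + r, b i = 0 := fun i hi => by simp [hbdef, Nat.ne_of_lt hi]
  obtain ⟨hC, hA0⟩ := chain3p u0 clup clgp inip p a m v r hp hp5 ha hm hm0 b hb00 r le_rfl
  have hc := c_dvd u0 p v m hp hp5 hm0 hm
  have hl := linc p v m hp hp5 hm0 hm
  set c := coeff 1 (U p 0 (P1 p ^ m)) with hcdef
  obtain ⟨ℓ, hℓ⟩ := hc
  -- the key congruence
  have hkey : (p : ℤ) ∣ μ + ℓ * b₀ ^ 2 := by
    rw [hℓ, hW] at hl
    have e1 : 2 * ((p : ℤ) ^ (2 * v + 3) * ℓ) - p ^ 3 * W * m ^ 2 * (m + 1) =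
        (p : ℤ) ^ (2 * v + 3) * (2 * ℓ - W * μ ^ 2 * (m + 1)) := by
      have : (m : ℤ) ^ 2 = (p ^ v * μ) ^ 2 := by rw [hmμ]; push_cast; ring
      rw [this]
      ring
    have e2 : (p : ℤ) ^ (2 * v + 4) = (p : ℤ) ^ (2 * v + 3) * p := by ring
    rw [e1, e2] at hl
    have h1 := (mul_dvd_mul_iff_left (pow_ne_zero _ hpZ)).mp hl
    have h2 : (p : ℤ) ∣ 2 * (μ + ℓ * b₀ ^ 2) := by
      obtain ⟨x, hx⟩ := h1
      obtain ⟨x', hx'⟩ := hb
      exact ⟨μ * x' + b₀ ^ 2 * x, by linear_combination (μ : ℤ) * hx' + (b₀ : ℤ) ^ 2 * hx⟩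
    rcases hpI.dvd_or_dvd h2 with h3 | h3
    · exfalso
      have : p ∣ 2 := by exact_mod_cast h3
      have := Nat.le_of_dvd (by norm_num) this
      omega
    · exact h3
  set M := m * p ^ (a - 1 - r) with hM
  have hMe : M = p ^ (2 * v + 2 + r) * μ := by
    have : a - 1 - r = v + 2 + r := by omega
    rw [hM, hmμ, this]
    ring
  have hMv : p ^ (2 * v + 2 + r) ∣ M := ⟨μ, hMe⟩
  have hmod : (a + r) % a = r := by
    rw [Nat.add_mod_left]
    exact Nat.mod_eq_of_lt (by omega)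
  have hrun : run p a m b (a + r + 1) = U p b₀ (run p a m b (a + r) * P1 p ^ M) := by
    rw [run, hmod]
    have : b (a + r) = b₀ := by simp [hbdef]
    rw [this]
  rw [hrun]
  set A := run p a m b (a + r) with hA
  have hE : CLp p (2 * v + 3 + r) (cf (A - 1)) := by
    have h3 : CLp p (2 * v + 3 + r) fun t => (c * p ^ r) * (t : ℤ) := by
      apply CLp_lin
      rw [pow_add]
      exact mul_dvd_mul_right ⟨ℓ, hℓ⟩ _
    refine CLp_congr (fun t => ?_) (CLp_add (CLp_mono (by omega) hC) h3)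
    simp only [cf]
    ring
  have hE0 : coeff 0 (A - 1) = 0 := by
    rw [map_sub, hA0]; simp
  have hQ : CLp p (2 * v + 4 + r) (cf ((A - 1) * (P1 p ^ M - 1))) := by
    have := clgp p _ (2 * v + 2 + r) M (A - 1) hp (by omega) hMv hE (by rw [hE0]; exact dvd_zero _)
    exact CLp_mono (by omega) this
  set ρ : ℕ → ℤ := fun n => (coeff n (A - 1) + (-(c * p ^ r)) * n) +
    cf ((A - 1) * (P1 p ^ M - 1)) n with hρ
  have hρc : CLp p (2 * v + 4 + r) ρ := CLp_add hC hQ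
  have hρ0 : ρ 0 = 0 := by
    simp only [hρ, cf, coeff_mul_zero, hE0]
    simp
  have hρu := clup p _ b₀ ρ hp hbp hρc
  have hρv := CLp_val hρc (by rw [hρ0]; exact dvd_zero _)
  set h : ℕ → ℤ := fun n => coeff n (P1 p ^ M) with hh
  have main : cf (U p b₀ (A * P1 p ^ M)) = fun t => h (p * t + b₀) + (ρ (p * t + b₀) +
      ((c * p ^ r) * b₀ + (c * p ^ r * p) * t)) := by
    funext t
    simp only [cf, U, coeff_mk]
    have e1 : A * P1 p ^ M = P1 p ^ M + (A - 1) + (A - 1) * (P1 p ^ M - 1) := by ring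
    rw [e1]
    simp only [hρ, hh, cf, map_add]
    push_cast
    ring
  have hmu : ∀ j, mu j (cf (U p b₀ (A * P1 p ^ M))) = mu j (fun t => h (p * t + b₀)) +
      (mu j (fun t => ρ (p * t + b₀)) +
      mu j (fun t => (c * p ^ r) * b₀ + (c * p ^ r * p) * (t : ℤ))) := by
    intro j
    rw [main, mu_add, mu_add]
  have g1 := rr2 p (2 * v + 2 + r) M b₀ hp (by omega) hMv (by
    intro hd
    have := Nat.le_of_dvd hb0 hd
    omega)
  have g2 := rr2 p (2 * v + 2 + r) M (p + b₀) hp (by omega) hMv (by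
    intro hd
    have := (Nat.dvd_add_right (dvd_refl p)).mp hd
    have := Nat.le_of_dvd hb0 this
    omega)
  have hbu : ¬ (p : ℤ) ∣ (b₀ : ℤ) := by
    intro hd
    have : p ∣ b₀ := by exact_mod_cast hd
    have := Nat.le_of_dvd hb0 this
    omega
  have hbu2 : ¬ (p : ℤ) ∣ ((p : ℤ) + b₀) := by
    intro hd
    exact hbu ((Int.dvd_add_right (dvd_refl _)).mp hd)
  have cop : ∀ e : ℕ, IsCoprime ((p : ℤ) ^ e) (b₀ : ℤ) := fun e =>
    IsCoprime.pow_left ((hpI.coprime_iff_not_dvd).mpr hbu)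
  have cop2 : ∀ e : ℕ, IsCoprime ((p : ℤ) ^ e) ((b₀ : ℤ) * (p + b₀)) := fun e =>
    IsCoprime.mul_right (cop e) (IsCoprime.pow_left ((hpI.coprime_iff_not_dvd).mpr hbu2))
  have hΛ : c * (p : ℤ) ^ r = (p : ℤ) ^ (2 * v + 3 + r) * ℓ := by rw [hℓ]; ring
  have hpM : (p : ℤ) * M = (p : ℤ) ^ (2 * v + 3 + r) * μ := by
    rw [hMe]; push_cast; ring
  -- `mu 1`
  have k1 : (p : ℤ) ^ (2 * v + 5 + r) ∣ (b₀ : ℤ) * (p + b₀) * mu 1 (cf (U p b₀ (A * P1 p ^ M))) -
      (p : ℤ) ^ (2 * v + 4 + r) * (-2 * μ) := by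
    rw [hmu 1]
    have q1 := hρu 1 le_rfl
    simp only [Nat.log_one_right, add_zero] at q1
    have q1' : (p : ℤ) ^ (2 * v + 5 + r) ∣ mu 1 (fun t => ρ (p * t + b₀)) :=
      (pow_dvd_pow _ (by omega)).trans q1
    have q2 : (p : ℤ) ^ (2 * v + 5 + r) ∣ (b₀ : ℤ) * h b₀ - p * M := (pow_dvd_pow _ (by omega)).trans g1
    have q3 : (p : ℤ) ^ (2 * v + 5 + r) ∣ ((p + b₀ : ℕ) : ℤ) * h (p + b₀) - p * M :=
      (pow_dvd_pow _ (by omega)).trans g2
    obtain ⟨x1, hx1⟩ := q1'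
    obtain ⟨x2, hx2⟩ := q2
    obtain ⟨x3, hx3⟩ := q3
    obtain ⟨x4, hx4⟩ := hkey
    rw [hx1]
    have e1 : mu 1 (fun t => h (p * t + b₀)) = h (p + b₀) - h b₀ := by
      rw [mu_one]; simp
    have e2 : mu 1 (fun t => (c * p ^ r) * b₀ + (c * p ^ r * p) * (t : ℤ)) = c * p ^ r * p := by
      rw [mu_one]; push_cast; ring
    rw [e1, e2, hΛ]
    push_cast at hx3
    have e5 : (p : ℤ) ^ (2 * v + 5 + r) = p ^ (2 * v + 4 + r) * p := by ring
    have e6 : (p : ℤ) ^ (2 * v + 4 + r) = p ^ (2 * v + 3 + r) * p := by ring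
    rw [hpM] at hx2 hx3
    refine ⟨b₀ * x3 - (p + b₀) * x2 + b₀ * (p + b₀) * x1 + x4 + b₀ * ℓ, ?_⟩
    rw [e5, e6] at hx2 hx3 ⊢
    linear_combination (b₀ : ℤ) * hx3 - ((p : ℤ) + b₀) * hx2 +
      (p : ℤ) ^ (2 * v + 3 + r) * p * hx4
  refine ⟨?_, ?_, ?_, ?_⟩
  · have e0 : coeff 0 (U p b₀ (A * P1 p ^ M)) = h b₀ + (ρ b₀ + (c * p ^ r) * b₀) := by
      have := congrFun main 0
      simp only [cf, mul_zero, zero_add, Nat.cast_zero, add_zero] at this
      exact this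
    apply (cop _).dvd_of_dvd_mul_left
    rw [e0]
    have q2 : (p : ℤ) ^ (2 * v + 4 + r) ∣ (b₀ : ℤ) * h b₀ - p * M := (pow_dvd_pow _ (by omega)).trans g1
    obtain ⟨x2, hx2⟩ := q2
    obtain ⟨x3, hx3⟩ := hρv b₀
    obtain ⟨x4, hx4⟩ := hkey
    refine ⟨x2 + b₀ * x3 + x4, ?_⟩
    rw [hx3, hΛ]
    rw [hpM] at hx2
    have e6 : (p : ℤ) ^ (2 * v + 4 + r) = p ^ (2 * v + 3 + r) * p := by ring
    rw [e6] at hx2 ⊢
    linear_combination hx2 + (p : ℤ) ^ (2 * v + 3 + r) * hx4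
  · apply (cop2 _).dvd_of_dvd_mul_left
    obtain ⟨x, hx⟩ := k1
    have e5 : (p : ℤ) ^ (2 * v + 5 + r) = p ^ (2 * v + 4 + r) * p := by ring
    rw [e5] at hx
    exact ⟨p * x - 2 * μ, by linear_combination hx⟩
  · intro hd
    have h5 : (p : ℤ) ^ (2 * v + 5 + r) ∣
        (b₀ : ℤ) * (p + b₀) * mu 1 (cf (U p b₀ (A * P1 p ^ M))) := by
      apply Dvd.dvd.mul_left
      have : 2 * v + 4 + r + 1 = 2 * v + 5 + r := by ring
      rwa [this] at hd
    have h6 := dvd_sub h5 k1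
    have e7 : (b₀ : ℤ) * (p + b₀) * mu 1 (cf (U p b₀ (A * P1 p ^ M))) -
      ((b₀ : ℤ) * (p + b₀) * mu 1 (cf (U p b₀ (A * P1 p ^ M))) -
      (p : ℤ) ^ (2 * v + 4 + r) * (-2 * μ)) = (p : ℤ) ^ (2 * v + 4 + r) * (-2 * μ) := by ring
    have e5 : (p : ℤ) ^ (2 * v + 5 + r) = p ^ (2 * v + 4 + r) * p := by ring
    rw [e7, e5] at h6
    have h7 := (mul_dvd_mul_iff_left (pow_ne_zero _ hpZ)).mp h6
    rcases hpI.dvd_or_dvd h7 with h8 | h8
    · rw [Int.dvd_neg] at h8
      have : p ∣ 2 := by exact_mod_cast h8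
      have := Nat.le_of_dvd (by norm_num) this
      omega
    · exact hμ (by exact_mod_cast h8)
  · intro j hj
    rw [hmu j]
    have e8 : 2 * v + 4 + r + 1 + Nat.log p j = 2 * v + 2 + r + 3 + Nat.log p j := by ring
    apply dvd_add
    · rw [e8]
      exact gb p (2 * v + 2 + r) M b₀ hp hp5 (by omega) hMv hb0 hbp j hj
    · apply dvd_add
      · exact hρu j (by omega)
      · rw [mu_linear j hj]
        exact dvd_zero _

theorem unbp (dig : S_DIG) (u0 : S_U0) (rr : S_RR) (clup : S_CLUp) (clgp : S_CLGp)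
    (inip : S_INIp) (linc : S_LINC) (gb : S_GB) (rr2 : S_RR2) (lin : S_LIN) : S_UNBp := by
  intro p a m hp hp5 _ ha hm hm1 ⟨hva, hpar, u, hu⟩ d
  have := Fact.mk hp
  have hpZ : (p : ℤ) ≠ 0 := by exact_mod_cast hp.ne_zero
  obtain ⟨v, μ, hμp, hmμ⟩ := Nat.exists_eq_pow_mul_and_not_dvd hm.ne' p hp.ne_one
  have hμ : 1 ≤ μ := by
    rcases Nat.eq_zero_or_pos μ with rfl | h
    · simp at hμp
    · exact h
  have hv : padicValNat p m = v := by
    rw [hmμ, padicValNat.mul (pow_ne_zero _ hp.ne_zero) (by omega), padicValNat.prime_pow,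
      padicValNat.eq_zero_of_not_dvd hμp, add_zero]
  rw [hv] at hva hpar hu
  have hdiv : m / p ^ v = μ := by
    rw [hmμ]
    exact Nat.mul_div_cancel_left _ (Nat.pow_pos hp.pos)
  rw [hdiv] at hu
  obtain ⟨r, hr⟩ : ∃ r, a = v + 3 + 2 * r := ⟨(a - 3 - v) / 2, by omega⟩
  -- `W`
  have hWd : p ^ 3 ∣ (2 * p - 1).choose (p - 1) - 1 := by
    have h1 := (u0 p 0 1 1 hp (by omega) le_rfl (by
      intro h
      have := Nat.le_of_dvd one_pos h
      omega) le_rfl).1 hp5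
    have h3 := linc p 0 1 hp hp5 le_rfl (by simp)
    simp only [mul_zero, zero_add, pow_zero, one_mul, Nat.cast_one, one_pow, mul_one] at h1 h3
    have h4 : (p : ℤ) ^ 3 ∣ 2 * coeff 1 (U p 0 (P1 p ^ 1)) -
        ((((2 * p - 1).choose (p - 1) : ℕ) : ℤ) - 1) * (1 + 1) := (pow_dvd_pow _ (by omega)).trans h3
    have h5 : (p : ℤ) ^ 3 ∣ ((((2 * p - 1).choose (p - 1) : ℕ) : ℤ) - 1) * (1 + 1) := by
      have := dvd_sub (Dvd.dvd.mul_left h1 2) h4
      simpa using this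
    have h6 : IsCoprime ((p : ℤ) ^ 3) (1 + 1) := by
      apply IsCoprime.pow_left
      rw [(Nat.prime_iff_prime_int.mp hp).coprime_iff_not_dvd]
      intro h7
      have : p ∣ 2 := by exact_mod_cast h7
      have := Nat.le_of_dvd (by norm_num) this
      omega
    have h7 := h6.dvd_of_dvd_mul_right h5
    have h8 : (((2 * p - 1).choose (p - 1) : ℕ) : ℤ) - 1 =
        (((2 * p - 1).choose (p - 1) - 1 : ℕ) : ℤ) := by
      have : 1 ≤ (2 * p - 1).choose (p - 1) := Nat.choose_pos (by omega)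
      push_cast [this]
      ring
    rw [h8] at h7
    exact_mod_cast h7
  have hW : (((2 * p - 1).choose (p - 1) : ℕ) - 1 : ℤ) = p ^ 3 * (Wp p : ℕ) := by
    have h8 : (((2 * p - 1).choose (p - 1) : ℕ) : ℤ) - 1 =
        (((2 * p - 1).choose (p - 1) - 1 : ℕ) : ℤ) := by
      have : 1 ≤ (2 * p - 1).choose (p - 1) := Nat.choose_pos (by omega)
      push_cast [this]
      ring
    rw [h8]
    have := Nat.mul_div_cancel' hWd
    unfold Wp
    exact_mod_cast this.symm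
  -- the digit
  have hu0 : ¬ p ∣ u := by
    intro h
    have h1 : p ∣ Wp p * μ * (m + 1) * u ^ 2 := Dvd.dvd.mul_left (h.trans (dvd_pow_self u (by norm_num))) _
    have h2 := (Nat.dvd_add_left h1).mp hu
    have := Nat.le_of_dvd (by norm_num) h2
    omega
  set b₀ := u % p with hb₀
  have hb0 : 0 < b₀ := Nat.pos_of_ne_zero fun h => hu0 (Nat.dvd_of_mod_eq_zero h)
  have hbp : b₀ < p := Nat.mod_lt _ hp.pos
  have hbk : (p : ℤ) ∣ 2 + (Wp p : ℕ) * μ * (m + 1) * b₀ ^ 2 := by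
    have h1 : (p : ℤ) ∣ 2 + (Wp p : ℕ) * μ * (m + 1) * u ^ 2 := by exact_mod_cast hu
    have h2 : (p : ℤ) ∣ (u : ℤ) - b₀ := by
      refine ⟨(u / p : ℕ), ?_⟩
      have := Nat.div_add_mod u p
      rw [← hb₀] at this
      have h3 : (u : ℤ) = p * (u / p : ℕ) + b₀ := by exact_mod_cast this.symm
      linarith
    obtain ⟨x, hx⟩ := h1
    obtain ⟨x', hx'⟩ := h2
    refine ⟨x - (Wp p : ℕ) * μ * (m + 1) * (u + b₀) * x', ?_⟩
    linear_combination hx - ((Wp p : ℕ) : ℤ) * μ * (m + 1) * (u + b₀) * hx'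
  have key : ∀ N, ∃ b : ℕ → ℕ, (∀ i, b i < p) ∧
      Stp p (2 * v + 4 + r + N) (run p a m b (a + r + 1 + N)) := by
    intro N
    induction N with
    | zero =>
      refine ⟨fun i => if i = a + r then b₀ else 0, ?_,
        ini4 u0 clup clgp inip linc gb rr2 p a m v r μ b₀ (Wp p : ℕ) hp hp5 hr hmμ hm hμp hW hb0
          hbp hbk⟩
      intro i
      simp only
      split_ifs
      · exact hbp
      · exact hp.pos
    | succ N ih =>
      obtain ⟨b, hb, hst⟩ := ih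
      have hMn : ¬ p ∣ m * p ^ (a - 1 - (a + r + 1 + N) % a) + 1 := by
        rcases Nat.eq_zero_or_pos (a - 1 - (a + r + 1 + N) % a) with h0 | h0
        · rw [h0, pow_zero, mul_one]; exact hm1
        · intro h
          have h1 : p ∣ m * p ^ (a - 1 - (a + r + 1 + N) % a) :=
            Dvd.dvd.mul_left (dvd_pow_self p (by omega)) _
          have h2 := (Nat.dvd_add_right h1).mp h
          have := Nat.le_of_dvd one_pos h2
          omega
      obtain ⟨c, hc, hst'⟩ := engp clup clgp lin rr p _ (m * p ^ (a - 1 - (a + r + 1 + N) % a)) hp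
        hp5 hMn _ hst
      refine ⟨Function.update b (a + r + 1 + N) c, ?_, ?_⟩
      · intro i
        by_cases h : i = a + r + 1 + N
        · subst h; simpa using hc
        · rw [Function.update_of_ne h]; exact hb i
      · have e : a + r + 1 + (N + 1) = (a + r + 1 + N) + 1 := by omega
        rw [e]
        simp only [run, Function.update_self]
        have e2 : run p a m (Function.update b (a + r + 1 + N) c) (a + r + 1 + N) =
            run p a m b (a + r + 1 + N) := by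
          apply run_congr
          intro l hl
          rw [Function.update_of_ne (by omega)]
        rw [e2]
        have e3 : 2 * v + 4 + r + (N + 1) = 2 * v + 4 + r + N + 1 := by omega
        rw [e3]
        exact hst'
  obtain ⟨b, hb, hst⟩ := key d
  refine ⟨∑ l ∈ range (a + r + 1 + d), b l * p ^ l, ?_⟩
  rw [(dig p a m hp (by omega)).1 b hb]
  exact (pow_dvd_pow _ (by omega)).trans hst.1

end Pool.Agent.K9h30.CP
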