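import Pool.Agent.K9h30.CP.Stm5
import Pool.Agent.K9h30.CP.UnbP
import Pool.Agent.K9h30.CP.GB
import Pool.Agent.K9h30.CP.Kap
import Pool.Agent.K9h30.CP.RR2
import Pool.Agent.K9h30.CP.ClsP
import Pool.Agent.K9h30.CP.SecP

/-! MP_9acee6_nt, leaf CP-UBP: the sections of `((1 - x^k) / (1 - x)^k)^N` at `b ≠ 0`, `k = p^a` (helper62, after
helper42's UB.lean). -/

set_option autoImplicit false

open PowerSeries Finset

namespace Pool.Agent.K9h30.CP

namespace UBP_

/-- multiplication by a power of `G` preserves a class with divisible constant term -/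
lemma ub_mul {p : ℕ} (hp : p.Prime) (hp2 : p ≠ 2) {e : ℕ} {f : ℤ⟦X⟧} (hf : CLp p e (cf f))
    (h0 : (p : ℤ) ^ e ∣ coeff 0 f) (M : ℕ) :
    CLp p e (cf (f * P1 p ^ M)) ∧ coeff 0 (f * P1 p ^ M) = coeff 0 f := by
  have h1 := clgp p e 0 M f hp hp2 (by simp) hf h0
  rw [add_zero] at h1
  constructor
  · refine CLp_congr (fun n => ?_) (CLp_add hf h1)
    simp only [cf, mul_sub, mul_one, map_sub]
    ring
  · rw [coeff_mul_zero, P1_pow_zero p M hp.ne_zero, mul_one]

/-- one digit for a class of exponent `e + 1` with constant term divisible by `p ^ e` -/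
lemma ub_step {p : ℕ} (hp : p.Prime) (hp2 : p ≠ 2) {e : ℕ} {f : ℤ⟦X⟧}
    (hf : CLp p (e + 1) (cf f)) (h0 : (p : ℤ) ^ e ∣ coeff 0 f) (M : ℕ) (hM : p ∣ M) {b : ℕ}
    (hb : b < p) : CLp p (e + 1) (cf (U p b (f * P1 p ^ M))) ∧
      (p : ℤ) ^ e ∣ coeff 0 (U p b (f * P1 p ^ M)) := by
  have h1 := clgp p e 1 M f hp hp2 (by simpa using hM) (CLp_mono (by omega) hf) h0
  have h2 : CLp p (e + 1) (cf (f * P1 p ^ M)) := by
    refine CLp_congr (fun n => ?_) (CLp_add hf h1)
    simp only [cf, mul_sub, mul_one, map_sub]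
    ring
  refine ⟨CLp_mono (by omega) (CLp_U clup0 hp hb h2), ?_⟩
  have h3 : (p : ℤ) ^ e ∣ cf (f * P1 p ^ M) 0 := by
    rw [cf, coeff_mul_zero, P1_pow_zero p M hp.ne_zero, mul_one]
    exact h0
  have h4 := CLp_val (CLp_mono (by omega) h2 : CLp p e _) h3 (p * 0 + b)
  simpa [U, cf] using h4

lemma run_congr (p a m : ℕ) (d d' : ℕ → ℕ) : ∀ i, (∀ j < i, d j = d' j) →
    run p a m d i = run p a m d' i := by
  intro i
  induction i with
  | zero => intro _; rfl
  | succ i ih =>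
    intro h
    rw [run, run, ih fun j hj => h j (by omega), h i (by omega)]

/-- the zero digits at the beginning -/
lemma ub_chain (u0 : S_U0) (inip : S_INIp) {p : ℕ} (hp : p.Prime) (hp5 : 5 ≤ p) (a N l : ℕ)
    (hN : 1 ≤ N) (hd : p ^ l ∣ N) (d : ℕ → ℕ) (i : ℕ) (hi : i < a) (h0 : ∀ j < i, d j = 0) :
      CLp p (2 * (l + (a - i)) + 3) (cf (run p a N d i - 1)) ∧ coeff 0 (run p a N d i) = 1 := by
  rw [run_congr p a N d (fun _ => 0) i h0]
  rcases Nat.eq_zero_or_pos i with rfl | hi0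
  · have e : run p a N (fun _ => 0) 0 - 1 = 0 := by simp [run]
    rw [e]
    refine ⟨?_, by simp [run]⟩
    have : cf (0 : ℤ⟦X⟧) = fun _ => 0 := by funext n; simp [cf]
    rw [this]
    exact CLp_const _ _
  · obtain ⟨i', rfl⟩ : ∃ i', i = i' + 1 := ⟨i - 1, by omega⟩
    obtain ⟨h1, h2⟩ := chainp u0 clup0 clgp inip p a N l hp hp5 hd hN (fun _ => 0)
      (fun _ _ => rfl) i' (by omega)
    refine ⟨?_, h2⟩
    have hv : p ^ (l + (a - 1 - i')) ∣ N * p ^ (a - 1 - i') := by
      rw [pow_add]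
      exact mul_dvd_mul_right hd _
    have h3 := UG u0 inip p (l + (a - 1 - i')) (N * p ^ (a - 1 - i')) hp hp5
      (Nat.mul_pos hN (Nat.pow_pos hp.pos)) hv
    have e1 : a - (i' + 1) = a - 1 - i' := by omega
    rw [e1]
    refine CLp_congr (fun t => ?_) (CLp_add (CLp_mono (by omega) h1 :
      CLp p (2 * (l + (a - 1 - i')) + 3) _) h3)
    simp only [cf, map_sub]
    ring

/-- the section of `G ^ M` -/
lemma sec_G {p v M b : ℕ} (hp : p.Prime) (hp5 : 5 ≤ p) (hv : 1 ≤ v) (hM : p ^ v ∣ M) (hb0 : 0 < b)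
    (hb : b < p) : CLp p (v + 2) (cf (U p b (P1 p ^ M))) ∧
      (p : ℤ) ^ (v + 1) ∣ coeff 0 (U p b (P1 p ^ M)) := by
  have hpb : ¬ p ∣ b := fun h => by have := Nat.le_of_dvd hb0 h; omega
  have hpb2 : ¬ p ∣ p + b := fun h => hpb ((Nat.dvd_add_right (dvd_refl p)).1 h)
  have cop : ∀ (n e : ℕ), ¬ p ∣ n → IsCoprime ((p : ℤ) ^ e) (n : ℤ) := fun n e hn =>
    (Nat.isCoprime_iff_coprime.2 ((Nat.Prime.coprime_iff_not_dvd hp).2 hn)).pow_left
  have hMd : (p : ℤ) ^ v ∣ (M : ℤ) := by exact_mod_cast hM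
  have r1 := rr2 p v M b hp (by omega) hM hpb
  have r2 := rr2 p v M (p + b) hp (by omega) hM hpb2
  have hval : (p : ℤ) ^ (v + 1) ∣ coeff b (P1 p ^ M) := by
    have h1 : (p : ℤ) ^ (v + 1) ∣ (b : ℤ) * coeff b (P1 p ^ M) := by
      have h2 : (p : ℤ) ^ (v + 1) ∣ (p : ℤ) * M := by
        rw [pow_succ']
        exact mul_dvd_mul_left _ hMd
      have h3 := dvd_add ((pow_dvd_pow (p : ℤ) (by omega : v + 1 ≤ 2 * v + 2)).trans r1) h2
      simpa using h3
    exact (cop b _ hpb).dvd_of_dvd_mul_left h1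
  constructor
  · intro j hj
    rcases Nat.lt_or_ge j 2 with h | h
    · have : j = 1 := by omega
      subst this
      rw [Nat.log_one_right, add_zero]
      have e1 : mu 1 (cf (U p b (P1 p ^ M))) =
          coeff (p + b) (P1 p ^ M) - coeff b (P1 p ^ M) := by
        simp [mu, cf, U, Finset.sum_range_succ]
        ring
      rw [e1]
      have h1 : (p : ℤ) ^ (v + 2) ∣ ((b * (p + b) : ℕ) : ℤ) *
          (coeff (p + b) (P1 p ^ M) - coeff b (P1 p ^ M)) := by
        have h2 := (pow_dvd_pow (p : ℤ) (by omega : v + 2 ≤ 2 * v + 2)).trans r1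
        have h3 := (pow_dvd_pow (p : ℤ) (by omega : v + 2 ≤ 2 * v + 2)).trans r2
        have h4 : (p : ℤ) ^ (v + 2) ∣ (p : ℤ) * (p * M) := by
          rw [pow_succ', pow_succ']
          exact mul_dvd_mul_left _ (mul_dvd_mul_left _ hMd)
        have h5 := dvd_sub (dvd_sub (h3.mul_left (b : ℤ)) (h2.mul_left ((p + b : ℕ) : ℤ))) h4
        have e2 : ((b * (p + b) : ℕ) : ℤ) * (coeff (p + b) (P1 p ^ M) - coeff b (P1 p ^ M)) =
            (b : ℤ) * (((p + b : ℕ) : ℤ) * coeff (p + b) (P1 p ^ M) - p * M) -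
              ((p + b : ℕ) : ℤ) * ((b : ℤ) * coeff b (P1 p ^ M) - p * M) - p * (p * M) := by
          push_cast
          ring
        rw [e2]
        exact h5
      refine (cop _ _ fun h => ?_).dvd_of_dvd_mul_left h1
      exact (hp.dvd_mul.1 h).elim hpb hpb2
    · have h1 := gb kap p v M b hp hp5 hv hM hb0 hb j h
      have e1 : cf (U p b (P1 p ^ M)) = fun t => coeff (p * t + b) (P1 p ^ M) := by
        funext t
        simp [cf, U]
      rw [e1]
      exact (pow_dvd_pow (p : ℤ) (by omega : v + 2 + Nat.log p j ≤ v + 3 + Nat.log p j)).trans h1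
  · simpa [U] using hval

/-- the digits of `b` -/
lemma ub_digits (p b n : ℕ) : ∑ i ∈ range n, b / p ^ i % p * p ^ i = b % p ^ n := by
  induction n with
  | zero => simp [Nat.mod_one]
  | succ n ih =>
    rw [sum_range_succ, ih, Nat.mod_pow_succ]
    ring

end UBP_

open UBP_ in
/-- **UBp** -/
theorem ubp (u0 : S_U0) (inip : S_INIp) : S_UBp := by
  intro p a N l b hp hp5 ha hl hN hd hb0 hb
  have hp2 : p ≠ 2 := by omega
  set s := padicValNat p b with hs
  have hfact : Fact (Nat.Prime p) := ⟨hp⟩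
  obtain ⟨b', hb'⟩ : p ^ s ∣ b := pow_padicValNat_dvd
  have hb'3 : ¬ p ∣ b' := by
    rintro ⟨i, hi⟩
    have : p ^ (s + 1) ∣ b := ⟨i, by rw [hb', hi]; ring⟩
    rw [padicValNat_dvd_iff_le (by omega)] at this
    omega
  have hb'0 : 0 < b' := Nat.pos_of_ne_zero (by rintro rfl; exact hb'3 (dvd_zero p))
  have hsa : s < a := by
    by_contra h
    have h1 : p ^ a ≤ p ^ s := Nat.pow_le_pow_right hp.pos (not_lt.1 h)
    have h2 : p ^ s ≤ b := by rw [hb']; exact Nat.le_mul_of_pos_right _ hb'0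
    omega
  set d : ℕ → ℕ := fun i => b / p ^ i % p with hdd
  have hd3 : ∀ i, d i < p := fun i => Nat.mod_lt _ hp.pos
  have hdsum : ∑ i ∈ range a, d i * p ^ i = b := by
    rw [hdd]
    simp only
    rw [ub_digits, Nat.mod_eq_of_lt hb]
  have hd0 : ∀ j < s, d j = 0 := by
    intro j hj
    have e1 : b = p ^ j * (p * (p ^ (s - j - 1) * b')) := by
      calc b = p ^ s * b' := hb'
        _ = p ^ (j + 1 + (s - j - 1)) * b' := by congr 2; omega
        _ = p ^ j * (p * (p ^ (s - j - 1) * b')) := by rw [pow_add, pow_succ]; ring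
    have e2 : b / p ^ j = p * (p ^ (s - j - 1) * b') := by
      conv_lhs => rw [e1]
      exact Nat.mul_div_cancel_left _ (Nat.pow_pos hp.pos)
    rw [hdd]
    simp only
    rw [e2]
    exact Nat.mul_mod_right _ _
  have hds : 0 < d s := by
    have e2 : b / p ^ s = b' := by
      conv_lhs => rw [hb']
      exact Nat.mul_div_cancel_left _ (Nat.pow_pos hp.pos)
    rw [hdd]
    simp only
    rw [e2]
    exact Nat.pos_of_ne_zero fun h => hb'3 (Nat.dvd_of_mod_eq_zero h)
  obtain ⟨hE, hE1⟩ := ub_chain u0 inip hp hp5 a N l hN hd d s hsa hd0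
  have key : ∀ i, i + (s + 1) ≤ a → CLp p (l + (a - s) + 1) (cf (run p a N d (i + (s + 1)))) ∧
      (p : ℤ) ^ (l + (a - s)) ∣ coeff 0 (run p a N d (i + (s + 1))) := by
    intro i
    induction i with
    | zero =>
      intro _
      rw [zero_add]
      set A := run p a N d s with hA
      set M := N * p ^ (a - 1 - s) with hM
      have hv : p ^ (l + (a - 1 - s)) ∣ M := by
        rw [pow_add]
        exact mul_dvd_mul_right hd _
      have e : run p a N d (s + 1) = U p (d s) (A * P1 p ^ M) := by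
        rw [run, Nat.mod_eq_of_lt hsa]
      have hE0 : coeff 0 (A - 1) = 0 := by
        rw [map_sub, hE1]; simp
      obtain ⟨h1, h1'⟩ := ub_mul hp hp2 hE (by rw [hE0]; exact dvd_zero _) M
      obtain ⟨h2, h2'⟩ := sec_G hp hp5 (by omega : 1 ≤ l + (a - 1 - s)) hv hds (hd3 s)
      have h3 := CLp_U clup0 hp (hd3 s) h1
      have h3' := CLp_val h1 (by rw [cf, h1', hE0]; exact dvd_zero _) (p * 0 + d s)
      have e3 : U p (d s) (A * P1 p ^ M) = U p (d s) ((A - 1) * P1 p ^ M) + U p (d s) (P1 p ^ M) := by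
        rw [← U_add]
        congr 1
        ring
      rw [e, e3]
      constructor
      · rw [cf_add]
        exact CLp_add (CLp_mono (by omega) h3) (CLp_mono (by omega) h2)
      · rw [map_add]
        refine dvd_add ?_ ?_
        · have h4 : coeff 0 (U p (d s) ((A - 1) * P1 p ^ M)) =
              cf ((A - 1) * P1 p ^ M) (p * 0 + d s) := by simp [U, cf]
          rw [h4]
          exact (pow_dvd_pow (p : ℤ) (by omega)).trans h3'
        · exact (pow_dvd_pow (p : ℤ) (by omega)).trans h2'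
    | succ i ih =>
      intro hi
      obtain ⟨h1, h2⟩ := ih (by omega)
      have e : i + 1 + (s + 1) = (i + (s + 1)) + 1 := by ring
      rw [e, run]
      refine ub_step hp hp2 h1 h2 _ ?_ (hd3 _)
      exact ((dvd_pow_self p (by omega)).trans hd).mul_right _
  obtain ⟨h1, h2⟩ := key (a - (s + 1)) (by omega)
  have e1 : a - (s + 1) + (s + 1) = a := by omega
  rw [e1] at h1 h2
  have hsec : ∀ t, coeff t (run p a N d a) = coeff (p ^ a * t + b) (Rkp p a N) := fun t => by
    rw [secp p a N d hp ha hd3 t, hdsum]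
  constructor
  · exact CLp_congr (fun t => hsec t) h1
  · have := hsec 0
    rw [mul_zero, zero_add] at this
    rw [← this]
    exact h2

open UBP_ in
/-- **UB2p** -/
theorem ub2p (u0 : S_U0) (inip : S_INIp) : S_UB2p := by
  intro p a N l c hp hp5 ha hl hN hd hc0 hc
  have hp2 : p ≠ 2 := by omega
  set d : ℕ → ℕ := fun i => if i = a - 1 then c else 0 with hdd
  have hd3 : ∀ i, d i < p := fun i => by
    rw [hdd]; simp only; split_ifs <;> omega
  have hdsum : ∑ i ∈ range a, d i * p ^ i = c * p ^ (a - 1) := by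
    rw [sum_eq_single (a - 1)]
    · simp [hdd]
    · intro i _ hi
      simp [hdd, hi]
    · intro h
      exact absurd (mem_range.2 (by omega)) h
  have hd0 : ∀ j < a - 1, d j = 0 := by
    intro j hj
    simp [hdd, Nat.ne_of_lt hj]
  obtain ⟨hE, hE1⟩ := ub_chain u0 inip hp hp5 a N l hN hd d (a - 1) (by omega) hd0
  have e0 : 2 * (l + (a - (a - 1))) + 3 = 2 * l + 5 := by omega
  rw [e0] at hE
  set A := run p a N d (a - 1) with hA
  have hE0 : coeff 0 (A - 1) = 0 := by
    rw [map_sub, hE1]; simp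
  have hrun : run p a N d a = U p c (A * P1 p ^ N) := by
    have e1 : run p a N d a = run p a N d (a - 1 + 1) := by congr 1; omega
    rw [e1, run, Nat.mod_eq_of_lt (by omega)]
    have e2 : d (a - 1) = c := by simp [hdd]
    rw [e2, Nat.sub_self, pow_zero, mul_one]
  obtain ⟨h1, h1'⟩ := ub_mul hp hp2 hE (by rw [hE0]; exact dvd_zero _) N
  have h2 := CLp_U clup0 hp hc h1
  have h3 := CLp_val h1 (by rw [cf, h1', hE0]; exact dvd_zero _) (p * 0 + c)
  have hsec : ∀ t, coeff t (run p a N d a) = coeff (p ^ a * t + c * p ^ (a - 1)) (Rkp p a N) :=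
    fun t => by rw [secp p a N d hp ha hd3 t, hdsum]
  have e3 : ∀ t, coeff (p ^ a * t + c * p ^ (a - 1)) (Rkp p a N) - coeff (p * t + c) (P1 p ^ N) =
      coeff t (U p c ((A - 1) * P1 p ^ N)) := by
    intro t
    rw [← hsec, hrun]
    have e4 : A * P1 p ^ N = (A - 1) * P1 p ^ N + P1 p ^ N := by ring
    rw [e4, U_add, map_add]
    have e5 : coeff t (U p c (P1 p ^ N)) = coeff (p * t + c) (P1 p ^ N) := by simp [U]
    rw [e5]
    ring
  constructor
  · exact CLp_congr (fun t => (e3 t).symm) (CLp_mono (by omega) h2)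
  · have := e3 0
    rw [mul_zero, zero_add, mul_zero, zero_add] at this
    rw [this]
    have h4 : coeff 0 (U p c ((A - 1) * P1 p ^ N)) =
        cf ((A - 1) * P1 p ^ N) (p * 0 + c) := by simp [U, cf]
    rw [h4]
    exact h3

end Pool.Agent.K9h30.CP
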