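import Pool.Agent.K9h30.CP.Blk

/-!
# MP_9acee6_nt: UNB3 (helper30)
-/

set_option autoImplicit false

open PowerSeries Finset
open Pool.Agent.Results.MP_9acee6_nt.Four (S V Automatic geom)

namespace Pool.Agent.K9h30.CP

theorem CL_dvd2 {e : ℕ} {f : ℕ → ℤ} (h : CL e fun t => 2 * f t) : CL e f := by
  intro j hj
  have := h j hj
  rw [mu_smul] at this
  exact dvd2 this

/-- zero digits after a block -/
theorem chain3 (clu : S_CLU) (clg : S_CLG) (ini1 : S_INI1) (blk : S_BLK) (a m w r : ℕ)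
    (hw : 1 ≤ w) (ha : a = w + 2 + 2 * r) (hm : 3 ^ w ∣ m) (hm0 : 1 ≤ m) (b : ℕ → ℕ)
    (hb : ∀ i < a + r, b i = 0) : ∀ i, i ≤ r →
      CL (2 * w + 3 + i) (fun t => 2 * coeff t (run 3 a m b (a + i) - 1) +
        (-(9 * (m : ℤ) ^ 2 * (m + 1) * 3 ^ i)) * t) ∧
      coeff 0 (run 3 a m b (a + i)) = 1 := by
  have he : 3 ^ (2 * w + 2) ∣ 9 * m ^ 2 * (m + 1) := by
    have h1 := mul_dvd_mul hm hm
    have h2 : 3 ^ (2 * w + 2) = 9 * (3 ^ w * 3 ^ w) := by ring
    rw [h2, sq]
    exact (mul_dvd_mul_left 9 h1).trans (dvd_mul_right _ _)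
  intro i
  induction i with
  | zero =>
    intro _
    have h1 := blk a m (2 * w + 2) (by omega) hm0 he
    have h2 : run 3 a m b (a + 0) = run 3 a m (fun _ => 0) a :=
      run_congr 3 a m a fun l hl => hb l (by omega)
    refine ⟨?_, ?_⟩
    · refine CL_congr (fun t => ?_) h1
      rw [h2]
      ring
    · have := (chain' clu clg ini1 a m w hm hm0 b (fun i hi => hb i (by omega)) (a - 1)
        (by omega)).2
      have e2 : a - 1 + 1 = a := by omega
      rw [e2] at this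
      exact this
  | succ i ih =>
    intro hi
    obtain ⟨h1, h2⟩ := ih (by omega)
    set M := m * 3 ^ (a - 1 - i) with hM
    set A := run 3 a m b (a + i) with hA
    have hmod : (a + i) % a = i := by
      rw [Nat.add_mod_left]
      exact Nat.mod_eq_of_lt (by omega)
    have e : run 3 a m b (a + (i + 1)) = U 3 0 (A * P1 3 ^ M) := by
      rw [← add_assoc, run, hb (a + i) (by omega), hmod]
    have hv : 3 ^ (w + (a - 1 - i)) ∣ M := by
      rw [pow_add]
      exact mul_dvd_mul_right hm _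
    have hE : CL (2 * w + 2 + i) (cf (A - 1)) := by
      apply CL_dvd2
      have h3 : CL (2 * w + 2 + i) fun t => (9 * (m : ℤ) ^ 2 * (m + 1) * 3 ^ i) * t := by
        apply CL_lin
        rw [pow_add]
        exact mul_dvd_mul_right (by exact_mod_cast he) _
      refine CL_congr (fun t => ?_) (CL_add (CL_mono (by omega) h1) h3)
      simp only [cf]
      ring
    have hE0 : coeff 0 (A - 1) = 0 := by
      rw [map_sub, h2]; simp
    have hEG : CL (2 * w + 3 + i) (cf ((A - 1) * (P1 3 ^ M - 1))) := by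
      have := clg _ (w + (a - 1 - i)) M (A - 1) hv hE (by rw [hE0]; exact dvd_zero _)
      exact CL_mono (by omega) this
    have hI := (ini1 (w + (a - 1 - i)) M (by omega) (Nat.mul_pos hm0 (by positivity)) hv).1
    refine ⟨?_, ?_⟩
    · have p1 := clu _ 0 _ (by norm_num) h1
      have p2 := CL_U clu (b := 0) (by norm_num) hEG
      have e7 : 2 * w + 3 + (i + 1) = 2 * w + 3 + i + 1 := by ring
      rw [e7]
      refine CL_congr (fun t => ?_) (CL_add (CL_add p1 (CL_two 2 p2))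
        (CL_two 2 (CL_mono (by omega : 2 * w + 3 + i + 1 ≤ 2 * (w + (a - 1 - i)) + 2) hI)))
      have e3 : run 3 a m b (a + (i + 1)) = U 3 0 (A - 1) + U 3 0 ((A - 1) * (P1 3 ^ M - 1)) +
          U 3 0 (P1 3 ^ M) := by
        rw [e, ← U_add, ← U_add]
        congr 1
        ring
      rw [e3]
      have e4 : coeff t (U 3 0 (A - 1)) = coeff (3 * t + 0) (A - 1) := by simp [U]
      simp only [cf, map_sub, map_add] at e4 ⊢
      rw [e4]
      push_cast
      ring
    · rw [e, U_coeff_zero, coeff_mul_zero, h2, P1_pow_zero 3 _ (by norm_num), mul_one]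

theorem ini3 (clu : S_CLU) (clg : S_CLG) (ini1 : S_INI1) (blk : S_BLK) (g3 : S_G3)
    (a m w r μ q : ℕ) (hw : 1 ≤ w) (ha : a = w + 2 + 2 * r) (hmμ : m = 3 ^ w * μ) (hm0 : 1 ≤ m)
    (hq : μ * (m + 1) = 3 * q + 1) :
    St (2 * w + 3 + r) (run 3 a m (fun i => if i = a + r then 1 else 0) (a + r + 1)) := by
  set b : ℕ → ℕ := fun i => if i = a + r then 1 else 0 with hb
  have hb0 : ∀ i < a + r, b i = 0 := fun i hi => by simp [hb, Nat.ne_of_lt hi]
  obtain ⟨hC, hA0⟩ := chain3 clu clg ini1 blk a m w r hw ha ⟨μ, hmμ⟩ hm0 b hb0 r le_rfl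
  set M := m * 3 ^ (a - 1 - r) with hM
  have hMe : M = 3 ^ (2 * w + 1 + r) * μ := by
    have : a - 1 - r = w + 1 + r := by omega
    rw [hM, hmμ, this]
    ring
  have hMv : 3 ^ (2 * w + 1 + r) ∣ M := ⟨μ, hMe⟩
  have hR := g3 (2 * w + 1 + r) M hMv
  have hmod : (a + r) % a = r := by
    rw [Nat.add_mod_left]
    exact Nat.mod_eq_of_lt (by omega)
  have hrun : run 3 a m b (a + r + 1) = U 3 1 (run 3 a m b (a + r) * P1 3 ^ M) := by
    rw [run, hmod]
    have : b (a + r) = 1 := by simp [hb]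
    rw [this]
  rw [hrun]
  set A := run 3 a m b (a + r) with hA
  have he : 3 ^ (2 * w + 2) ∣ 9 * m ^ 2 * (m + 1) := by
    rw [hmμ]
    exact ⟨μ ^ 2 * (3 ^ w * μ + 1), by ring⟩
  have hE : CL (2 * w + 2 + r) (cf (A - 1)) := by
    apply CL_dvd2
    have h3 : CL (2 * w + 2 + r) fun t => (9 * (m : ℤ) ^ 2 * (m + 1) * 3 ^ r) * t := by
      apply CL_lin
      rw [pow_add]
      exact mul_dvd_mul_right (by exact_mod_cast he) _
    refine CL_congr (fun t => ?_) (CL_add (CL_mono (by omega) hC) h3)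
    simp only [cf]
    ring
  have hE0 : coeff 0 (A - 1) = 0 := by
    rw [map_sub, hA0]; simp
  have hQ : CL (2 * w + 3 + r) (cf ((A - 1) * (P1 3 ^ M - 1))) := by
    have := clg _ (2 * w + 1 + r) M (A - 1) hMv hE (by rw [hE0]; exact dvd_zero _)
    exact CL_mono (by omega) this
  -- the small part
  set ρ : ℕ → ℤ := fun n => ((2 * coeff n (A - 1) + (-(9 * (m : ℤ) ^ 2 * (m + 1) * 3 ^ r)) * n)) +
    (2 * (coeff n (P1 3 ^ M - 1) - (3 * (M : ℤ) * n + 9 * (M.choose 2 : ℤ) * ((n + 1).choose 3 : ℤ) +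
    27 * (M.choose 3 : ℤ) * ((n + 2).choose 5 : ℤ))) +
    2 * cf ((A - 1) * (P1 3 ^ M - 1)) n) with hρ
  have hρc : CL (2 * w + 3 + r) ρ := by
    apply CL_add
    · exact hC
    · apply CL_add
      · exact CL_two 2 (CL_mono (by omega) hR)
      · exact CL_two 2 hQ
  have hρ0 : ρ 0 = 0 := by
    have h1 : coeff 0 (P1 3 ^ M) = 1 := P1_pow_zero 3 _ (by norm_num)
    have h4 : coeff 0 (1 : ℤ⟦X⟧) = 1 := by simp
    simp only [hρ, cf, map_sub, h1, hA0, coeff_mul_zero, h4]
    simp [Nat.choose]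
  have hρu := clu _ 1 ρ (by norm_num) hρc
  have hρv := CL_val hρc (by rw [hρ0]; exact dvd_zero _)
  -- the polynomial part
  set c2 : ℤ := ((M.choose 2 : ℕ) : ℤ) with hc2
  set c3 : ℤ := ((M.choose 3 : ℕ) : ℤ) with hc3
  set Λ : ℤ := 9 * (m : ℤ) ^ 2 * (m + 1) * 3 ^ r with hΛ
  set k : ℕ → ℤ := fun j => if j = 0 then 6 * (M : ℤ) + Λ else
    if j = 1 then 18 * (M : ℤ) + 3 * Λ + 180 * c2 + 324 * c3 else
    if j = 2 then 648 * c2 + 6156 * c3 else if j = 3 then 486 * c2 + 23328 * c3 else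
    if j = 4 then 30618 * c3 else if j = 5 then 13122 * c3 else 0 with hk
  have main : (fun t => 2 * cf (U 3 1 (A * P1 3 ^ M)) t) = fun t => ρ (3 * t + 1) + bin6 k t := by
    funext t
    have h1 : cf (U 3 1 (A * P1 3 ^ M)) t = coeff (3 * t + 1) (A - 1) +
        coeff (3 * t + 1) (P1 3 ^ M - 1) + coeff (3 * t + 1) ((A - 1) * (P1 3 ^ M - 1)) := by
      rw [cf_U, ← map_add, ← map_add]
      have : A - 1 + (P1 3 ^ M - 1) + (A - 1) * (P1 3 ^ M - 1) = A * P1 3 ^ M - 1 := by ring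
      rw [this]
      simp only [cf, map_sub]
      simp [coeff_one]
    rw [h1]
    simp only [hρ, bin6, hk, cf]
    rw [c32, c33]
    simp only [Nat.choose_one_right, Nat.choose_zero_right]
    push_cast
    norm_num
    ring
  have hmu : ∀ j, 2 * mu j (cf (U 3 1 (A * P1 3 ^ M))) = mu j (fun t => ρ (3 * t + 1)) +
      (if j ≤ 5 then k j else 0) := by
    intro j
    rw [← mu_smul, main, mu_add, mu_bin6]
  -- the numbers
  set T : ℤ := 3 ^ (2 * w + r) with hT
  set u : ℤ := (μ : ℤ) with hu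
  have hT1 : (3 : ℤ) ^ (2 * w + 1 + r) = 3 * T := by rw [hT]; ring
  have hT3 : (3 : ℤ) ^ (2 * w + 3 + r) = 27 * T := by rw [hT]; ring
  have hT4 : (3 : ℤ) ^ (2 * w + 3 + r + 1) = 81 * T := by rw [hT]; ring
  have hT5 : (3 : ℤ) ^ (2 * w + 3 + r + 2) = 243 * T := by rw [hT]; ring
  have hT0 : T ≠ 0 := by rw [hT]; positivity
  have hqz : u * ((m : ℤ) + 1) = 3 * q + 1 := by rw [hu]; exact_mod_cast hq
  have hΛe : Λ = 9 * T * (u * (3 * q + 1)) := by
    rw [← hqz, hΛ, hT, hu]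
    have : (m : ℤ) ^ 2 = (3 ^ w * μ) ^ 2 := by rw [hmμ]; push_cast; ring
    rw [this]
    ring
  have hMM : (M : ℤ) = 3 * T * u := by
    rw [hMe, hT, hu]; push_cast; ring
  obtain ⟨c2', hc2'⟩ : 3 * T ∣ c2 := by
    rw [← hT1]
    apply dvd2
    rw [hT1, hc2, ch2, hMM]
    exact ⟨u * (3 * T * u - 1), by ring⟩
  obtain ⟨c3', hc3'⟩ : T ∣ c3 := by
    rw [hT]
    apply dvd2
    have := ch3 M
    rw [← hc3, hMM] at this
    rw [← hT]
    exact ⟨u * (3 * T * u - 1) * (3 * T * u - 2), by linarith⟩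
  have h2c : 2 * c2' = u * (3 * T * u - 1) := by
    have h := ch2 M
    rw [← hc2, hc2', hMM] at h
    have h3 : (3 * T) * (2 * c2') = (3 * T) * (u * (3 * T * u - 1)) := by linarith
    exact mul_left_cancel₀ (by positivity) h3
  have hun3 : ¬ (3 : ℤ) ∣ u := by
    intro h
    have : (3 : ℤ) ∣ 3 * q + 1 := by
      rw [← hqz]
      exact Dvd.dvd.mul_right h _
    omega
  have hk1 : k 1 = 27 * T * (3 * (u * (q + 1)) + 10 * (u * (3 * T * u - 1)) + 12 * c3') := by
    have : k 1 = 18 * (M : ℤ) + 3 * Λ + 180 * c2 + 324 * c3 := by simp [hk]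
    rw [this, hΛe, hMM, hc2', hc3', ← h2c]
    ring
  have hn3 : ¬ (3 : ℤ) ∣ (3 * (u * (q + 1)) + 10 * (u * (3 * T * u - 1)) + 12 * c3') := by
    intro h
    apply hun3
    have h5 : (3 : ℤ) ∣ 3 * (u * (q + 1)) + 10 * (u * (3 * T * u)) + 12 * c3' - 9 * u := by
      refine ⟨u * (q + 1) + 10 * (u * (T * u)) + 4 * c3' - 3 * u, by ring⟩
    have h6 := dvd_sub h5 h
    have e9 : 3 * (u * (q + 1)) + 10 * (u * (3 * T * u)) + 12 * c3' - 9 * u -
        (3 * (u * (q + 1)) + 10 * (u * (3 * T * u - 1)) + 12 * c3') = u := by ring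
    rwa [e9] at h6
  have hρ1 := hρu 1 le_rfl
  simp only [Nat.log_one_right, add_zero] at hρ1
  have hm1' := hmu 1
  rw [if_pos (by norm_num), hk1] at hm1'
  refine ⟨?_, ?_, ?_, ?_⟩
  · apply dvd2
    have h0 := hmu 0
    rw [mu_zero, mu_zero, if_pos (by norm_num)] at h0
    have : k 0 = 6 * (M : ℤ) + Λ := by simp [hk]
    rw [this, hΛe, hMM] at h0
    change (3 : ℤ) ^ (2 * w + 3 + r) ∣ 2 * cf (U 3 1 (A * P1 3 ^ M)) 0
    rw [h0]
    apply dvd_add (hρv _)
    rw [hT3]
    exact ⟨u * (q + 1), by ring⟩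
  · apply dvd2
    rw [hm1']
    apply dvd_add
    · exact (pow_dvd_pow 3 (by omega)).trans hρ1
    · rw [hT3]; exact dvd_mul_right _ _
  · intro hc
    have h1 : (3 : ℤ) ^ (2 * w + 3 + r + 1) ∣ 2 * mu 1 (cf (U 3 1 (A * P1 3 ^ M))) :=
      Dvd.dvd.mul_left hc 2
    rw [hm1'] at h1
    have h2 := (Int.dvd_add_right hρ1).mp h1
    rw [hT4] at h2
    apply hn3
    obtain ⟨x, hx⟩ := h2
    refine ⟨x, ?_⟩
    have h3 : (27 * T) * (3 * (u * (q + 1)) + 10 * (u * (3 * T * u - 1)) + 12 * c3') =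
        (27 * T) * (3 * x) := by linarith
    exact mul_left_cancel₀ (by positivity) h3
  · intro j hj
    apply dvd2
    rw [hmu j]
    apply dvd_add
    · exact hρu j (by omega)
    · by_cases h5 : j ≤ 5
      · rw [if_pos h5]
        interval_cases j
        · have hl : Nat.log 3 2 = 0 := by norm_num
          have : k 2 = 648 * c2 + 6156 * c3 := by simp [hk]
          rw [hl, this, hc2', hc3', add_zero, hT4]
          exact ⟨24 * c2' + 76 * c3', by ring⟩
        · have hl : Nat.log 3 3 = 1 := by norm_num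
          have : k 3 = 486 * c2 + 23328 * c3 := by simp [hk]
          rw [hl, this, hc2', hc3', add_assoc, hT5]
          exact ⟨6 * c2' + 96 * c3', by ring⟩
        · have hl : Nat.log 3 4 = 1 := by norm_num
          have : k 4 = 30618 * c3 := by simp [hk]
          rw [hl, this, hc3', add_assoc, hT5]
          exact ⟨126 * c3', by ring⟩
        · have hl : Nat.log 3 5 = 1 := by norm_num
          have : k 5 = 13122 * c3 := by simp [hk]
          rw [hl, this, hc3', add_assoc, hT5]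
          exact ⟨54 * c3', by ring⟩
      · rw [if_neg h5]
        exact dvd_zero _

theorem unb3 (dig : S_DIG) (engh : S_ENG) (clu : S_CLU) (clg : S_CLG) (ini1 : S_INI1)
    (blk : S_BLK) (g3 : S_G3) : S_UNB3 := by
  intro a m ha hm h3m ⟨w, hwa, hpar, hw⟩ d
  obtain ⟨q, hq⟩ : ∃ q, m * (m + 1) = 3 ^ w * (3 * q + 1) := by
    refine ⟨m * (m + 1) / 3 ^ (w + 1), ?_⟩
    have := Nat.div_add_mod (m * (m + 1)) (3 ^ (w + 1))
    rw [hw] at this
    calc m * (m + 1) = 3 ^ (w + 1) * (m * (m + 1) / 3 ^ (w + 1)) + 3 ^ w := this.symm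
      _ = _ := by ring
  have hw1 : 1 ≤ w := by
    by_contra h0
    have : w = 0 := by omega
    subst this
    obtain ⟨c, rfl⟩ := h3m
    rw [pow_zero, one_mul, mul_assoc] at hq
    omega
  have hcop : Nat.Coprime (3 ^ w) (m + 1) := by
    apply Nat.Coprime.pow_left
    rw [Nat.Prime.coprime_iff_not_dvd Nat.prime_three]
    omega
  obtain ⟨μ, hμ⟩ : 3 ^ w ∣ m := hcop.dvd_of_dvd_mul_right ⟨_, hq⟩
  have hq2 : μ * (m + 1) = 3 * q + 1 := by
    have : 3 ^ w * (μ * (m + 1)) = 3 ^ w * (3 * q + 1) := by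
      rw [← hq]
      calc 3 ^ w * (μ * (m + 1)) = (3 ^ w * μ) * (m + 1) := by ring
        _ = m * (m + 1) := by rw [← hμ]
    exact Nat.eq_of_mul_eq_mul_left (by positivity) this
  obtain ⟨r, hr⟩ : ∃ r, a = w + 2 + 2 * r := ⟨(a - 2 - w) / 2, by omega⟩
  have key : ∀ N, ∃ b : ℕ → ℕ, (∀ i, b i < 3) ∧
      St (2 * w + 3 + r + N) (run 3 a m b (a + r + 1 + N)) := by
    intro N
    induction N with
    | zero =>
      refine ⟨fun i => if i = a + r then 1 else 0, ?_,
        ini3 clu clg ini1 blk g3 a m w r μ q hw1 hr hμ hm hq2⟩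
      intro i
      simp only
      split_ifs <;> norm_num
    | succ N ih =>
      obtain ⟨b, hb, hst⟩ := ih
      obtain ⟨c, hc, hst'⟩ := engh _ (m * 3 ^ (a - 1 - (a + r + 1 + N) % a)) _
        (h3m.trans (dvd_mul_right _ _)) hst
      refine ⟨Function.update b (a + r + 1 + N) c, ?_, ?_⟩
      · intro i
        by_cases h : i = a + r + 1 + N
        · subst h; simpa using hc
        · rw [Function.update_of_ne h]; exact hb i
      · have e : a + r + 1 + (N + 1) = (a + r + 1 + N) + 1 := by omega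
        rw [e]
        simp only [run, Function.update_self]
        have e2 : run 3 a m (Function.update b (a + r + 1 + N) c) (a + r + 1 + N) =
            run 3 a m b (a + r + 1 + N) := by
          apply run_congr
          intro l hl
          rw [Function.update_of_ne (by omega)]
        rw [e2]
        have e3 : 2 * w + 3 + r + (N + 1) = 2 * w + 3 + r + N + 1 := by omega
        rw [e3]
        exact hst'
  obtain ⟨b, hb, hst⟩ := key d
  refine ⟨∑ l ∈ range (a + r + 1 + d), b l * 3 ^ l, ?_⟩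
  rw [(dig 3 a m Nat.prime_three (by omega)).1 b hb]
  exact (pow_dvd_pow 3 (by omega)).trans hst.1

end Pool.Agent.K9h30.CP
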