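import Pool.Agent.K9h30.CP.Stm3
import Pool.Agent.K9h30.CP.Ini1
import Pool.Agent.K9h30.CP.Dig

/-!
# MP_9acee6_nt, leaf W: closed form of `U_0 (G ^ M)` (helper62)
-/

set_option autoImplicit false

open PowerSeries Finset

namespace Pool.Agent.K9h30.CP

namespace W_

lemma Zs_eq : Zs = Ini1_.Z := rfl

lemma U_add (f g : ℤ⟦X⟧) : U 3 0 (f + g) = U 3 0 f + U 3 0 g := by
  ext n; simp [U]

lemma U_sub (f g : ℤ⟦X⟧) : U 3 0 (f - g) = U 3 0 f - U 3 0 g := by
  ext n; simp [U]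

lemma U_C (a : ℤ) (f : ℤ⟦X⟧) : U 3 0 (C a * f) = C a * U 3 0 f := by
  ext n
  rw [coeff_C_mul, U, coeff_mk, coeff_C_mul, U, coeff_mk]

lemma G_eq : P1 3 = 1 + C 3 * Zs := by
  have := Ini1_.P1_eq
  rw [sub_eq_iff_eq_add] at this
  rw [this, Zs_eq, show (C (3 : ℤ) : ℤ⟦X⟧) = 3 by simp]
  ring

lemma ex_y : (1 - X ^ 3) * expand 3 three_ne_zero y = (1 : ℤ⟦X⟧) := by
  have h := congrArg (expand 3 three_ne_zero) DigLeaf.one_sub_mul_y
  rw [map_mul, map_sub, map_one, expand_X] at h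
  exact h

lemma cube : (Zs : ℤ⟦X⟧) ^ 3 = expand 3 three_ne_zero Zs * P1 3 ^ 2 := by
  unfold Zs P1
  rw [map_mul, map_pow, expand_X]
  calc (X * y ^ 2 : ℤ⟦X⟧) ^ 3 = ((1 - X ^ 3) * expand 3 three_ne_zero y) ^ 2 * (X ^ 3 * y ^ 6) := by
        rw [ex_y]; ring
    _ = _ := by ring

lemma G_cube : P1 3 ^ 3 = C 3 * P1 3 ^ 2 + C 27 * (P1 3 ^ 2 * expand 3 three_ne_zero Zs) -
    C 3 * P1 3 + 1 := by
  have h : (P1 3 - 1) ^ 3 = 27 * (expand 3 three_ne_zero Zs * P1 3 ^ 2) := by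
    rw [← cube, show P1 3 - 1 = 3 * Zs from Ini1_.P1_eq]; ring
  have h3 : (C (3 : ℤ) : ℤ⟦X⟧) = 3 := by simp
  have h27 : (C (27 : ℤ) : ℤ⟦X⟧) = 27 := by simp
  rw [h3, h27]
  linear_combination h

lemma rec (M : ℕ) : U 3 0 (P1 3 ^ (M + 3)) =
    (C 3 + C 27 * Zs) * U 3 0 (P1 3 ^ (M + 2)) - C 3 * U 3 0 (P1 3 ^ (M + 1)) +
      U 3 0 (P1 3 ^ M) := by
  have h : P1 3 ^ (M + 3) = C 3 * P1 3 ^ (M + 2) +
      C 27 * (P1 3 ^ (M + 2) * expand 3 three_ne_zero Zs) - C 3 * P1 3 ^ (M + 1) + P1 3 ^ M := by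
    rw [pow_add (P1 3) M 3, G_cube]; ring
  rw [h, U_add, U_sub, U_add, U_C, U_C, U_C, DigLeaf.U_mul_ex 3 0 three_ne_zero (by norm_num)]
  ring

lemma U_one : U 3 0 (1 : ℤ⟦X⟧) = 1 := by
  ext n
  simp only [U, coeff_mk, coeff_one, add_zero]
  by_cases h : n = 0
  · simp [h]
  · rw [if_neg h, if_neg (by omega)]

lemma U_Z : U 3 0 Zs = C 3 * Zs := by
  ext n
  have h1 := Ini1_.coeff_Z 1 (3 * n) le_rfl
  have h2 := Ini1_.coeff_Z 1 n le_rfl
  rw [pow_one, ← Zs_eq] at h1 h2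
  rw [U, coeff_mk, add_zero, coeff_C_mul, h1, h2]
  simp [Ini1_.c]

lemma choose3 (n : ℕ) : (6 : ℤ) * ((n + 1).choose 3 : ℕ) = (n + 1) * n * (n - 1) := by
  induction n with
  | zero => simp
  | succ n ih =>
    have h2 : (2 : ℤ) * ((n + 1).choose 2 : ℕ) = (n + 1) * n := by
      clear ih
      induction n with
      | zero => simp
      | succ n ih =>
        rw [Nat.choose_succ_succ' (n + 1) 1, Nat.choose_one_right]
        push_cast
        linarith
    rw [Nat.choose_succ_succ' (n + 1) 2]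
    push_cast at ih h2 ⊢
    linear_combination ih + 3 * h2

lemma U_Z2 : U 3 0 (Zs ^ 2) = C 4 * Zs + C 27 * Zs ^ 2 := by
  ext n
  have h1 := Ini1_.coeff_Z 2 (3 * n) (by norm_num)
  have h2 := Ini1_.coeff_Z 2 n (by norm_num)
  have h3 := Ini1_.coeff_Z 1 n le_rfl
  rw [← Zs_eq] at h1 h2 h3
  rw [pow_one] at h3
  rw [U, coeff_mk, add_zero, map_add, coeff_C_mul, coeff_C_mul, h1, h2, h3]
  have h4 := choose3 n
  have h5 := choose3 (3 * n)
  simp only [Ini1_.c, Nat.add_one_sub_one, Nat.reduceMul, Nat.choose_one_right,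
    mul_one] at *
  push_cast at *
  have h6 : (6 : ℤ) * ((3 * n + 1).choose 3 : ℕ) = 6 * (4 * (n + 0) + 27 * ((n + 1).choose 3 : ℕ)) := by
    linear_combination h5 - 27 * h4
  simpa using mul_left_cancel₀ (by norm_num : (6 : ℤ) ≠ 0) h6

/-- the polynomials -/
noncomputable def Pd : ℕ → Polynomial ℤ
  | 0 => 1
  | 1 => 1 + 9 * Polynomial.X
  | 2 => 1 + 54 * Polynomial.X + 243 * Polynomial.X ^ 2
  | (M + 3) => (3 + 27 * Polynomial.X) * Pd (M + 2) - 3 * Pd (M + 1) + Pd M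

lemma U_pow : ∀ M : ℕ, U 3 0 (P1 3 ^ M) = Polynomial.aeval Zs (Pd M)
  | 0 => by simp [Pd, U_one]
  | 1 => by
    rw [pow_one, G_eq, U_add, U_one, U_C, U_Z]
    simp [Pd, map_ofNat]
    ring
  | 2 => by
    have h : P1 3 ^ 2 = 1 + C 6 * Zs + C 9 * Zs ^ 2 := by
      rw [G_eq]
      simp
      ring
    rw [h, U_add, U_add, U_one, U_C, U_C, U_Z, U_Z2]
    simp [Pd, map_ofNat]
    ring
  | (M + 3) => by
    rw [rec, U_pow (M + 2), U_pow (M + 1), U_pow M, Pd]
    simp [map_ofNat]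

lemma deg : ∀ M : ℕ, (Pd M).natDegree ≤ M
  | 0 => by simp [Pd]
  | 1 => by
    rw [Pd]
    compute_degree
  | 2 => by
    rw [Pd]
    compute_degree
  | (M + 3) => by
    have h1 := deg M
    have h2 := deg (M + 1)
    have h3 := deg (M + 2)
    rw [Pd]
    have e1 : ((3 + 27 * Polynomial.X : Polynomial ℤ)).natDegree ≤ 1 := by compute_degree
    have e2 : ((3 + 27 * Polynomial.X) * Pd (M + 2)).natDegree ≤ M + 3 :=
      Polynomial.natDegree_mul_le.trans (by omega)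
    have e3 : (3 * Pd (M + 1)).natDegree ≤ M + 3 := by
      refine Polynomial.natDegree_mul_le.trans ?_
      have : (3 : Polynomial ℤ).natDegree = 0 := Polynomial.natDegree_ofNat 3
      omega
    exact Polynomial.natDegree_add_le_of_degree_le
      (Polynomial.natDegree_sub_le_of_le e2 e3 |>.trans (by simp)) (by omega)

lemma coeff_three (P Q R : Polynomial ℤ) (i : ℕ) :
    ((3 + 27 * Polynomial.X) * P - 3 * Q + R).coeff (i + 1) =
      3 * P.coeff (i + 1) + 27 * P.coeff i - 3 * Q.coeff (i + 1) + R.coeff (i + 1) := by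
  have h1 : (3 + 27 * Polynomial.X : Polynomial ℤ) * P = 3 * P + 27 * (Polynomial.X * P) := by ring
  rw [h1]
  simp [Polynomial.coeff_ofNat_mul]

lemma coeff_zero' : ∀ M : ℕ, (Pd M).coeff 0 = 1
  | 0 => by simp [Pd]
  | 1 => by simp [Pd]
  | 2 => by simp [Pd]
  | (M + 3) => by
    have h1 := coeff_zero' M
    have h2 := coeff_zero' (M + 1)
    have h3 := coeff_zero' (M + 2)
    rw [Pd]
    simp [Polynomial.mul_coeff_zero, h1, h2, h3]

/-- the formula for the coefficients -/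
lemma formula : ∀ (M i : ℕ), ((i + 1 : ℕ) : ℤ) * (Pd M).coeff (i + 1) =
    3 ^ (3 * i + 2) * ((M : ℤ) * (((M + 2 * i + 1).choose (3 * i + 2) : ℕ) : ℤ))
  | 0, i => by simp [Pd, Polynomial.coeff_one]
  | 1, i => by
    rw [Pd]
    rcases i with _ | i
    · simp [Polynomial.coeff_one, Polynomial.coeff_ofNat_mul]
    · have h : (1 + 2 * (i + 1) + 1).choose (3 * (i + 1) + 2) = 0 :=
        Nat.choose_eq_zero_of_lt (by omega)
      rw [h]
      simp [Polynomial.coeff_one, Polynomial.coeff_ofNat_mul, Polynomial.coeff_X]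
  | 2, i => by
    rw [Pd]
    rcases i with _ | _ | i
    · simp [Polynomial.coeff_one, Polynomial.coeff_ofNat_mul, Polynomial.coeff_X_pow]
    · simp [Polynomial.coeff_one, Polynomial.coeff_ofNat_mul, Polynomial.coeff_X_pow,
        Polynomial.coeff_X]
    · have h : (2 + 2 * (i + 1 + 1) + 1).choose (3 * (i + 1 + 1) + 2) = 0 :=
        Nat.choose_eq_zero_of_lt (by omega)
      rw [h]
      simp [Polynomial.coeff_one, Polynomial.coeff_ofNat_mul, Polynomial.coeff_X_pow,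
        Polynomial.coeff_X]
  | (M + 3), 0 => by
    have h1 := formula M 0
    have h2 := formula (M + 1) 0
    have h3 := formula (M + 2) 0
    have h4 := coeff_zero' (M + 2)
    have hc : ∀ n : ℕ, (2 : ℤ) * ((n + 1).choose 2 : ℕ) = (n + 1) * n := fun n => by
      induction n with
      | zero => simp
      | succ n ih =>
        rw [Nat.choose_succ_succ' (n + 1) 1, Nat.choose_one_right]
        push_cast
        linarith
    have k1 := hc M
    have k2 := hc (M + 1)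
    have k3 := hc (M + 2)
    have k4 := hc (M + 3)
    rw [Pd, coeff_three, h4]
    simp only [mul_zero, zero_add, add_zero, Nat.cast_one, one_mul] at *
    push_cast at *
    refine mul_left_cancel₀ (two_ne_zero : (2 : ℤ) ≠ 0) ?_
    linear_combination 6 * h3 - 6 * h2 + 2 * h1 + 27 * (M + 2) * k3 - 27 * (M + 1) * k2 +
      9 * M * k1 - 9 * (M + 3) * k4
  | (M + 3), (i + 1) => by
    have h1 := formula M (i + 1)
    have h2 := formula (M + 1) (i + 1)
    have h3 := formula (M + 2) (i + 1)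
    have h4 := formula (M + 2) i
    rw [Pd, coeff_three]
    have a1 : M + 2 * (i + 1) + 1 = M + 2 * i + 3 := by ring
    have a2 : M + 1 + 2 * (i + 1) + 1 = M + 2 * i + 3 + 1 := by ring
    have a3 : M + 2 + 2 * (i + 1) + 1 = M + 2 * i + 3 + 1 + 1 := by ring
    have a4 : M + 3 + 2 * (i + 1) + 1 = M + 2 * i + 3 + 1 + 1 + 1 := by ring
    have a5 : M + 2 + 2 * i + 1 = M + 2 * i + 3 := by ring
    have a6 : 3 * (i + 1) + 2 = 3 * i + 2 + 1 + 1 + 1 := by ring
    rw [a1, a6] at h1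
    rw [a2, a6] at h2
    rw [a3, a6] at h3
    rw [a5] at h4
    rw [a4, a6]
    have e : (3 * (i + 1) : ℤ) * ((M + 2 * i + 3).choose (3 * i + 2 + 1) : ℕ) =
        ((M + 2 * i + 3).choose (3 * i + 2) : ℕ) * ((M : ℤ) - i + 1) := by
      have e0 := Nat.choose_succ_right_eq (M + 2 * i + 3) (3 * i + 2)
      rcases le_or_gt (3 * i + 2) (M + 2 * i + 3) with h | h
      · have e1 : (((M + 2 * i + 3).choose (3 * i + 2 + 1) : ℕ) : ℤ) * ((3 * i + 2 + 1 : ℕ) : ℤ) =
            (((M + 2 * i + 3).choose (3 * i + 2) : ℕ) : ℤ) * ((M + 2 * i + 3 - (3 * i + 2) : ℕ) : ℤ) := by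
          exact_mod_cast e0
        rw [Nat.cast_sub h] at e1
        push_cast at e1
        linear_combination e1
      · rw [Nat.choose_eq_zero_of_lt h, Nat.choose_eq_zero_of_lt (h.trans (Nat.lt_succ_self _))]
        simp
    simp only [Nat.choose_succ_succ'] at *
    push_cast at *
    refine mul_left_cancel₀ (show (i + 1 : ℤ) ≠ 0 by positivity) ?_
    linear_combination (i + 1) * 3 * h3 - 3 * (i + 1) * h2 + (i + 1) * h1 +
      27 * (i + 2) * h4 - 27 * 3 ^ (3 * i + 2) * e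

end W_

open W_ in
theorem w : S_W := by
  intro M
  refine ⟨fun i => (Pd M).coeff i, fun i hi => ?_, ?_⟩
  · obtain ⟨k, rfl⟩ := Nat.exists_eq_add_of_le' hi
    have h := formula M k
    rw [show 3 * (k + 1) - 1 = 3 * k + 2 by omega, show M + 2 * (k + 1) - 1 = M + 2 * k + 1 by omega]
    exact h
  · rw [U_pow, Polynomial.aeval_eq_sum_range' (Nat.lt_succ_of_le (deg M)), Nat.succ_eq_add_one,
      Finset.sum_range_succ', coeff_zero', pow_zero, add_comm]
    refine congrArg₂ (· + ·) (by rw [Algebra.smul_def, map_one, one_mul]) ?_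
    have hs : ∀ (a : ℕ → ℤ⟦X⟧) (n : ℕ), ∑ k ∈ Icc 1 n, a k = ∑ i ∈ range n, a (i + 1) := by
      intro a n
      induction n with
      | zero => simp
      | succ n ih => rw [Finset.sum_Icc_succ_top (by omega), ih, Finset.sum_range_succ]
    rw [hs]
    refine Finset.sum_congr rfl fun k _ => ?_
    have e : (C ((Pd M).coeff (k + 1)) : ℤ⟦X⟧) = (((Pd M).coeff (k + 1) : ℤ) : ℤ⟦X⟧) := by simp
    rw [Algebra.smul_def, eq_intCast, e]

end Pool.Agent.K9h30.CP
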